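import Pool.Agent.W_MP_17e8f0_pr.Walk

namespace Pool.Agent.W_MP_17e8f0_pr

open Finset

variable {H V : Type*} [Fintype H] [DecidableEq H] [DecidableEq V] {K : ℕ}
variable (vt : H → V) (c : H → Fin K) (B : Fin K → Fin K → ℕ) (M : ℕ) (α : ℝ)

/-- log of the degree -/
noncomputable def X (z : H) : ℝ := Real.log (ch vt z).card

/-- class means -/
noncomputable def muk (k : Fin K) : ℝ := (∑ z ∈ univ.filter (fun z => c z = k), X vt z) / M

/-- global mean -/
noncomputable def mu : ℝ := (∑ k, muk vt c M k) / K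

/-- solution of the Poisson equation -/
noncomputable def gk (k : Fin K) : ℝ := (muk vt c M k - mu vt c M) / α

/-- martingale differences -/
noncomputable def zet (k : Fin K) (z : H) : ℝ :=
  X vt z - mu vt c M + (1 - α) * (gk vt c M α (c z) - gk vt c M α k)

/-- conditional variances -/
noncomputable def Vk (k : Fin K) : ℝ := ∑ z, q B M k (c z) * zet vt c M α k z ^ 2

/-- asymptotic variance -/
noncomputable def nu2 : ℝ := (∑ k, Vk vt c B M α k) / K

/-- structural assumptions of the annealed chain -/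
structure Ann : Prop where
  hK : 0 < K
  hM0 : 0 < M
  hα0 : 0 < α
  hα1 : α ≤ 1
  hM : ∀ k, (univ.filter (fun x => c x = k)).card = M
  hq : ∀ k l, q B M k l = ((1 - α) * (if k = l then 1 else 0) + α / K) / M

variable {vt c B M α}

lemma Ann.sum_q (hA : Ann c B M α) (k : Fin K) (F : H → ℝ) :
    ∑ z, q B M k (c z) * F z
      = (1 - α) * ((∑ z ∈ univ.filter (fun z => c z = k), F z) / M) + α / K * ((∑ z, F z) / M) := by
  have h1 : ∀ z, q B M k (c z) * F z
      = (1 - α) / M * (if c z = k then F z else 0) + α / K / M * F z := by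
    intro z
    rw [hA.hq]
    by_cases h : k = c z
    · rw [if_pos h, if_pos h.symm]; ring
    · rw [if_neg h, if_neg (Ne.symm h)]; ring
  simp only [h1]
  rw [sum_add_distrib, ← mul_sum, ← mul_sum, ← sum_filter]
  ring

lemma Ann.sum_class (hA : Ann c B M α) (f : Fin K → ℝ) :
    (∑ z, f (c z)) / M = ∑ l, f l := by
  have h1 : ∑ z, f (c z) = ∑ l, ∑ z ∈ univ.filter (fun z => c z = l), f (c z) := by
    rw [sum_fiberwise]
  have h2 : ∀ l, ∑ z ∈ univ.filter (fun z => c z = l), f (c z) = M * f l := by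
    intro l
    rw [sum_congr rfl (g := fun _ => f l), sum_const, nsmul_eq_mul, hA.hM]
    intro z hz
    rw [(mem_filter.1 hz).2]
  rw [h1, sum_congr rfl fun l _ => h2 l, ← mul_sum]
  have : (M : ℝ) ≠ 0 := by exact_mod_cast hA.hM0.ne'
  field_simp

lemma Ann.sum_class' (hA : Ann c B M α) (F : H → ℝ) :
    (∑ z, F z) / M = ∑ l, (∑ z ∈ univ.filter (fun z => c z = l), F z) / M := by
  rw [← sum_div, sum_fiberwise]

lemma Ann.sum_q_class (hA : Ann c B M α) (k : Fin K) (f : Fin K → ℝ) :
    ∑ z, q B M k (c z) * f (c z) = (1 - α) * f k + α * ((∑ l, f l) / K) := by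
  rw [hA.sum_q, hA.sum_class]
  have h1 : (∑ z ∈ univ.filter (fun z => c z = k), f (c z)) / M = f k := by
    rw [sum_congr rfl (g := fun _ => f k), sum_const, nsmul_eq_mul, hA.hM]
    · have : (M : ℝ) ≠ 0 := by exact_mod_cast hA.hM0.ne'
      field_simp
    · intro z hz
      rw [(mem_filter.1 hz).2]
  rw [h1]; ring

lemma Ann.hsq (hA : Ann c B M α) (k : Fin K) : ∑ z, q B M k (c z) = 1 := by
  have := hA.sum_q_class k (fun _ => 1)
  simp only [mul_one] at this
  rw [this]
  simp only [sum_const, card_univ, Fintype.card_fin, nsmul_eq_mul, mul_one]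
  have : (K : ℝ) ≠ 0 := by exact_mod_cast hA.hK.ne'
  field_simp
  ring

lemma Ann.sum_gk (hA : Ann c B M α) : ∑ l, gk vt c M α l = 0 := by
  unfold gk
  rw [← sum_div, sum_sub_distrib]
  have : (K : ℝ) ≠ 0 := by exact_mod_cast hA.hK.ne'
  have h1 : ∑ _l : Fin K, mu vt c M = ∑ l, muk vt c M l := by
    simp only [sum_const, card_univ, Fintype.card_fin, nsmul_eq_mul]
    unfold mu
    field_simp
  rw [h1]; simp

lemma Ann.muk_eq (hA : Ann c B M α) (k : Fin K) :
    muk vt c M k = mu vt c M + α * gk vt c M α k := by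
  unfold gk
  have := hA.hα0.ne'
  field_simp
  ring

lemma Ann.sum_q_X (hA : Ann c B M α) (k : Fin K) :
    ∑ z, q B M k (c z) * X vt z = (1 - α) * muk vt c M k + α * mu vt c M := by
  rw [hA.sum_q, hA.sum_class']
  have : ∑ l, (∑ z ∈ univ.filter (fun z => c z = l), X vt z) / M = ∑ l, muk vt c M l := rfl
  rw [this]
  unfold mu
  unfold muk
  ring

lemma Ann.sum_zet (hA : Ann c B M α) (k : Fin K) :
    ∑ z, q B M k (c z) * zet vt c M α k z = 0 := by
  have h1 : ∀ z, q B M k (c z) * zet vt c M α k z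
      = q B M k (c z) * X vt z + q B M k (c z) * (-mu vt c M
        + (1 - α) * (gk vt c M α (c z) - gk vt c M α k)) := by
    intro z; unfold zet; ring
  simp only [h1]
  rw [sum_add_distrib, hA.sum_q_X]
  have h2 := hA.sum_q_class k (fun l => -mu vt c M
        + (1 - α) * (gk vt c M α l - gk vt c M α k))
  rw [h2, hA.muk_eq (vt := vt)]
  have h3 : (∑ l, (-mu vt c M + (1 - α) * (gk vt c M α l - gk vt c M α k))) / K
      = -mu vt c M - (1 - α) * gk vt c M α k := by
    rw [sum_add_distrib, ← mul_sum, sum_sub_distrib, hA.sum_gk]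
    simp only [sum_const, card_univ, Fintype.card_fin, nsmul_eq_mul]
    have : (K : ℝ) ≠ 0 := by exact_mod_cast hA.hK.ne'
    field_simp
    ring
  rw [h3]
  ring

variable (vt c B M α)

/-- accumulated variance -/
noncomputable def Rk : ℕ → Fin K → ℝ
  | 0, _ => 0
  | n + 1, k => Vk vt c B M α k + ((1 - α) * Rk n k + α * ((∑ l, Rk n l) / K))

variable {vt c B M α}

lemma Ann.Vk_nonneg (k : Fin K) : 0 ≤ Vk vt c B M α k :=
  sum_nonneg fun z _ => mul_nonneg (q_nonneg _ _ _) (sq_nonneg _)

lemma Ann.nu2_nonneg : 0 ≤ nu2 vt c B M α :=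
  div_nonneg (sum_nonneg fun k _ => Ann.Vk_nonneg k) (by positivity)

lemma Ann.Vk_le (hA : Ann c B M α) (k : Fin K) : Vk vt c B M α k ≤ K * nu2 vt c B M α := by
  unfold nu2
  have : (K : ℝ) ≠ 0 := by exact_mod_cast hA.hK.ne'
  rw [mul_div_cancel₀ _ this]
  exact single_le_sum (f := fun k => Vk vt c B M α k) (fun k _ => Ann.Vk_nonneg k) (mem_univ k)

lemma Ann.Rk_avg (hA : Ann c B M α) (n : ℕ) :
    (∑ l, Rk vt c B M α n l) / K = n * nu2 vt c B M α := by
  induction n with
  | zero => simp [Rk]
  | succ n ih =>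
    have hK : (K : ℝ) ≠ 0 := by exact_mod_cast hA.hK.ne'
    have h1 : ∑ l, Rk vt c B M α (n + 1) l = ∑ l, Vk vt c B M α l
        + ((1 - α) * ∑ l, Rk vt c B M α n l + K * (α * (n * nu2 vt c B M α))) := by
      simp only [Rk]
      rw [ih, sum_add_distrib, sum_add_distrib, ← mul_sum]
      simp only [sum_const, card_univ, Fintype.card_fin, nsmul_eq_mul]
    rw [h1, add_div, add_div, mul_div_assoc, ih]
    unfold nu2
    push_cast
    field_simp
    ring

lemma Ann.Rk_succ (hA : Ann c B M α) (n : ℕ) (k : Fin K) :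
    Rk vt c B M α (n + 1) k = Vk vt c B M α k
      + ((1 - α) * Rk vt c B M α n k + α * (n * nu2 vt c B M α)) := by
  rw [← hA.Rk_avg]; rfl

lemma Ann.Rk_le (hA : Ann c B M α) (n : ℕ) (k : Fin K) :
    Rk vt c B M α n k ≤ n * (K * nu2 vt c B M α) := by
  induction n generalizing k with
  | zero => simp [Rk]
  | succ n ih =>
    rw [hA.Rk_succ]
    have h1 := hA.Vk_le (vt := vt) k
    have h2 := ih k
    have h3 : 0 ≤ 1 - α := by linarith [hA.hα1]
    have h4 := mul_le_mul_of_nonneg_left h2 h3
    have hK1 : (1:ℝ) ≤ K := by exact_mod_cast hA.hK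
    have h5 : α * (n * nu2 vt c B M α) ≤ α * (n * (K * nu2 vt c B M α)) := by
      apply mul_le_mul_of_nonneg_left _ hA.hα0.le
      apply mul_le_mul_of_nonneg_left _ (by positivity)
      have := Ann.nu2_nonneg (vt := vt) (c := c) (B := B) (M := M) (α := α)
      nlinarith
    push_cast
    linarith

lemma Ann.Rk_ge (hA : Ann c B M α) (n : ℕ) (k : Fin K) :
    (n - 1 / α) * nu2 vt c B M α ≤ Rk vt c B M α n k := by
  induction n generalizing k with
  | zero =>
    simp only [Rk, Nat.cast_zero, zero_sub]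
    have := Ann.nu2_nonneg (vt := vt) (c := c) (B := B) (M := M) (α := α)
    have h1 : 0 < 1 / α := by have := hA.hα0; positivity
    nlinarith
  | succ n ih =>
    rw [hA.Rk_succ]
    have h1 := Ann.Vk_nonneg (vt := vt) (c := c) (B := B) (M := M) (α := α) k
    have h3 : 0 ≤ 1 - α := by linarith [hA.hα1]
    have h4 := mul_le_mul_of_nonneg_left (ih k) h3
    have h5 : (1 - α) * ((n - 1 / α) * nu2 vt c B M α) + α * (n * nu2 vt c B M α)
        = ((n + 1 : ℕ) - 1 / α) * nu2 vt c B M α := by
      have := hA.hα0.ne'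
      push_cast
      field_simp
      ring
    linarith

/-- exact second moment -/
lemma Ann.second (hA : Ann c B M α) (n : ℕ) (a : ℝ) (k : Fin K) (s : ℝ) :
    An vt c B M n (fun k' s' => (s' + (1 - α) * gk vt c M α k' - a) ^ 2) k s
      = (s + n * mu vt c M + (1 - α) * gk vt c M α k - a) ^ 2 + Rk vt c B M α n k := by
  induction n generalizing k s with
  | zero => simp [An, Rk]
  | succ n ih =>
    show ∑ z : H, q B M k (c z) * An vt c B M n _ (c z) (s + Real.log (ch vt z).card) = _
    simp only [ih]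
    set m := s + (n + 1 : ℕ) * mu vt c M + (1 - α) * gk vt c M α k - a with hm
    have h1 : ∀ z, q B M k (c z) * ((s + Real.log (ch vt z).card + n * mu vt c M
        + (1 - α) * gk vt c M α (c z) - a) ^ 2 + Rk vt c B M α n (c z))
        = m ^ 2 * q B M k (c z) + 2 * m * (q B M k (c z) * zet vt c M α k z)
          + q B M k (c z) * zet vt c M α k z ^ 2 + q B M k (c z) * Rk vt c B M α n (c z) := by
      intro z
      have h2 : s + Real.log (ch vt z).card + n * mu vt c M
        + (1 - α) * gk vt c M α (c z) - a = m + zet vt c M α k z := by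
        rw [hm]; unfold zet X; push_cast; ring
      rw [h2]; ring
    simp only [h1]
    rw [sum_add_distrib, sum_add_distrib, sum_add_distrib, ← mul_sum, ← mul_sum, hA.hsq,
      hA.sum_zet, hA.sum_q_class k (fun l => Rk vt c B M α n l)]
    show _ = m ^ 2 + (Vk vt c B M α k + _)
    unfold Vk
    ring

lemma Ann.first (hA : Ann c B M α) (n : ℕ) (a : ℝ) (k : Fin K) (s : ℝ) :
    An vt c B M n (fun k' s' => s' + (1 - α) * gk vt c M α k' - a) k s
      = s + n * mu vt c M + (1 - α) * gk vt c M α k - a := by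
  induction n generalizing k s with
  | zero => simp [An]
  | succ n ih =>
    show ∑ z : H, q B M k (c z) * An vt c B M n _ (c z) (s + Real.log (ch vt z).card) = _
    simp only [ih]
    set m := s + (n + 1 : ℕ) * mu vt c M + (1 - α) * gk vt c M α k - a with hm
    have h1 : ∀ z, q B M k (c z) * (s + Real.log (ch vt z).card + n * mu vt c M
        + (1 - α) * gk vt c M α (c z) - a)
        = m * q B M k (c z) + (q B M k (c z) * zet vt c M α k z) := by
      intro z
      have h2 : s + Real.log (ch vt z).card + n * mu vt c M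
        + (1 - α) * gk vt c M α (c z) - a = m + zet vt c M α k z := by
        rw [hm]; unfold zet X; push_cast; ring
      rw [h2]; ring
    simp only [h1]
    rw [sum_add_distrib, ← mul_sum, hA.hsq, hA.sum_zet]
    ring

/-- fourth moment bound -/
lemma Ann.fourth (hA : Ann c B M α) {W : ℝ}
    (hW : ∀ k, ∑ z, q B M k (c z) * zet vt c M α k z ^ 4 ≤ W) (n : ℕ) (a : ℝ) (k : Fin K) (s : ℝ) :
    An vt c B M n (fun k' s' => (s' + (1 - α) * gk vt c M α k' - a) ^ 4) k s
      ≤ (s + n * mu vt c M + (1 - α) * gk vt c M α k - a) ^ 4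
        + 8 * (K * nu2 vt c B M α) * n * (s + n * mu vt c M + (1 - α) * gk vt c M α k - a) ^ 2
        + 4 * (K * nu2 vt c B M α) ^ 2 * n ^ 2 + 3 * n * W := by
  induction n generalizing k s with
  | zero => simp [An]
  | succ n ih =>
    set v := K * nu2 vt c B M α with hv
    have hv0 : 0 ≤ v := mul_nonneg (by positivity) Ann.nu2_nonneg
    set m := s + (n + 1 : ℕ) * mu vt c M + (1 - α) * gk vt c M α k - a with hm
    have h2 : ∀ z, s + Real.log (ch vt z).card + n * mu vt c M
        + (1 - α) * gk vt c M α (c z) - a = m + zet vt c M α k z := by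
      intro z
      rw [hm]; unfold zet X; push_cast; ring
    calc An vt c B M (n + 1) (fun k' s' => (s' + (1 - α) * gk vt c M α k' - a) ^ 4) k s
        = ∑ z : H, q B M k (c z) * An vt c B M n
            (fun k' s' => (s' + (1 - α) * gk vt c M α k' - a) ^ 4) (c z)
            (s + Real.log (ch vt z).card) := rfl
      _ ≤ ∑ z : H, q B M k (c z) * ((m + zet vt c M α k z) ^ 4
            + 8 * v * n * (m + zet vt c M α k z) ^ 2 + 4 * v ^ 2 * n ^ 2 + 3 * n * W) := by
          refine sum_le_sum fun z _ => mul_le_mul_of_nonneg_left ?_ (q_nonneg _ _ _)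
          have := ih (c z) (s + Real.log (ch vt z).card)
          rw [h2 z] at this
          exact this
      _ ≤ ∑ z : H, ((m ^ 4 + 8 * v * n * m ^ 2 + 4 * v ^ 2 * n ^ 2 + 3 * n * W) * q B M k (c z)
            + (4 * m ^ 3 + 16 * v * n * m) * (q B M k (c z) * zet vt c M α k z)
            + (8 * m ^ 2 + 8 * v * n) * (q B M k (c z) * zet vt c M α k z ^ 2)
            + 3 * (q B M k (c z) * zet vt c M α k z ^ 4)) := by
          refine sum_le_sum fun z _ => ?_
          have hq := q_nonneg (B := B) M k (c z)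
          have h3 : (m + zet vt c M α k z) ^ 4 ≤ m ^ 4 + 4 * m ^ 3 * zet vt c M α k z
              + 8 * m ^ 2 * zet vt c M α k z ^ 2 + 3 * zet vt c M α k z ^ 4 := by
            nlinarith [sq_nonneg (m * zet vt c M α k z - zet vt c M α k z ^ 2)]
          have h4 := mul_le_mul_of_nonneg_left h3 hq
          nlinarith
      _ = (m ^ 4 + 8 * v * n * m ^ 2 + 4 * v ^ 2 * n ^ 2 + 3 * n * W)
            + (8 * m ^ 2 + 8 * v * n) * Vk vt c B M α k
            + 3 * ∑ z, q B M k (c z) * zet vt c M α k z ^ 4 := by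
          rw [sum_add_distrib, sum_add_distrib, sum_add_distrib, ← mul_sum, ← mul_sum, ← mul_sum,
            ← mul_sum, hA.hsq, hA.sum_zet]
          unfold Vk
          ring
      _ ≤ _ := by
          have h5 := hW k
          have h6 : (8 * m ^ 2 + 8 * v * n) * Vk vt c B M α k ≤ (8 * m ^ 2 + 8 * v * n) * v :=
            mul_le_mul_of_nonneg_left (hA.Vk_le k) (by positivity)
          push_cast
          nlinarith [mul_nonneg hv0 hv0]

end Pool.Agent.W_MP_17e8f0_pr
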