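import Pool.Agent.W_MP_17e8f0_pr.MatchPhase

namespace Pool.Agent.W_MP_17e8f0_pr

open Finset

variable {H V : Type*} [Fintype H] [DecidableEq H] [DecidableEq V] {K : ℕ}
variable {vt : H → V} {c : H → Fin K} {B : Fin K → Fin K → ℕ} {M : ℕ} {Kc : ℝ}

/-- terminal reward -/
noncomputable def Frew (B : Fin K → Fin K → ℕ) (M : ℕ) (Nn smax lth : ℝ) :
    Fin K → ℝ → Fin K → ℝ → ℝ :=
  fun k s k' s' => if s ≤ smax ∧ s' ≤ smax ∧ lth ≤ s + s' then Nn * q B M k k' else 0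

lemma Frew_nonneg {Nn smax lth : ℝ} (hNn : 0 ≤ Nn) (a : Fin K) (b : ℝ) (x : Fin K) (y : ℝ) :
    0 ≤ Frew B M Nn smax lth a b x y := by
  unfold Frew; split_ifs
  · exact mul_nonneg hNn (q_nonneg _ _ _)
  · exact le_rfl

lemma Frew_le {Nn smax lth Q : ℝ} (hNn : 0 ≤ Nn) (hQ : ∀ k l, q B M k l ≤ Q)
    (hNq : Nn * Q ≤ Kc) (hKc : 0 ≤ Kc) (a : Fin K) (b : ℝ) (x : Fin K) (y : ℝ) :
    Frew B M Nn smax lth a b x y ≤ Kc := by
  unfold Frew; split_ifs
  · exact (mul_le_mul_of_nonneg_left (hQ _ _) hNn).trans hNq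
  · exact hKc

lemma An_support {f : Fin K → ℝ → ℝ} {smax : ℝ} (h : ∀ k s, smax < s → f k s = 0) (n : ℕ)
    (k : Fin K) (s : ℝ) (hs : smax < s) : An vt c B M n f k s = 0 := by
  induction n generalizing k s with
  | zero => exact h k s hs
  | succ n ih =>
    show ∑ z : H, q B M k (c z) * An vt c B M n f (c z) (s + Real.log (ch vt z).card) = 0
    refine sum_eq_zero fun z _ => ?_
    rw [ih _ _ (by have := Real.log_natCast_nonneg (ch vt z).card; linarith), mul_zero]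

lemma v2_support_left {Nn smax lth : ℝ} (k : Fin K) (s : ℝ) (n : ℕ) (k' : Fin K)
    (s' : ℝ) (n' : ℕ) (hs : smax < s) :
    v2 vt c B M (Frew B M Nn smax lth) k s n k' s' n' = 0 := by
  unfold v2
  refine An_support ?_ n k s hs
  intro k₁ s₁ h₁
  have : (fun k₂ s₂ => Frew B M Nn smax lth k₁ s₁ k₂ s₂) = fun _ _ => 0 := by
    ext k₂ s₂; unfold Frew; rw [if_neg]; rintro ⟨h, _⟩; linarith
  rw [this]
  have := An_smul (vt := vt) (c := c) (B := B) (M := M) 0 (fun _ _ => (0:ℝ)) n' k' s'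
  simpa using this

lemma v2_support_right {Nn smax lth : ℝ} (k : Fin K) (s : ℝ) (n : ℕ) (k' : Fin K)
    (s' : ℝ) (n' : ℕ) (hs : smax < s') :
    v2 vt c B M (Frew B M Nn smax lth) k s n k' s' n' = 0 := by
  rw [v2_symm]
  unfold v2
  refine An_support ?_ n' k' s' hs
  intro k₁ s₁ h₁
  have : (fun k₂ s₂ => Frew B M Nn smax lth k₂ s₂ k₁ s₁) = fun _ _ => 0 := by
    ext k₂ s₂; unfold Frew; rw [if_neg]; rintro ⟨_, h, _⟩; linarith
  rw [this]
  have := An_smul (vt := vt) (c := c) (B := B) (M := M) 0 (fun _ _ => (0:ℝ)) n k s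
  simpa using this

/-- all numerical parameters and their relations -/
structure Par (vt : H → V) (c : H → Fin K) (B : Fin K → Fin K → ℕ) (M : ℕ) where
  Kc : ℝ
  lam : ℝ
  ε : ℝ
  wm : ℝ
  Q : ℝ
  smax : ℝ
  lth : ℝ
  Nn : ℝ
  c3 : ℝ
  c4 : ℝ
  nT : ℕ
  rT : ℕ
  n : ℕ
  dm : ℕ
  Δ : ℕ
  hM : ∀ k, (univ.filter (fun x => c x = k)).card = M
  hcv : ∀ x y, vt x = vt y → c x = c y
  hsq : ∀ k, ∑ z, q B M k (c z) = 1
  h2 : ∀ z : H, 2 ≤ (ch vt z).card
  hΔ : ∀ z : H, (ch vt z).card + 1 ≤ Δ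
  hKc : 0 ≤ Kc
  hlam : 0 ≤ lam
  hSmall : ∀ S : Finset H, S.card ≤ nT → Small B S ε
  hQ : ∀ k l, q B M k l ≤ Q
  hQ0 : 0 ≤ Q
  hlw : 2 * lam * Kc * wm ≤ 1
  hwm : 0 ≤ wm
  hNn : 0 ≤ Nn
  hlθ : lam * Nn * Real.exp (-lth) ≤ 1
  hNq : Nn * Q ≤ Kc
  hc3 : lam * ε * Kc + 5 * lam * Kc * Q * rT + lam ^ 2 * wm * Kc ^ 2
    + 8 * lam * Kc * Q / Real.exp (-smax) ≤ c3
  hc4 : lam * ε * Kc + 2 * lam ^ 2 * Kc ^ 2 * wm + 2 * lam ^ 2 * Nn * Real.exp (-lth) * Kc
      + 8 * lam * Kc * Q / Real.exp (-smax) ≤ c4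
  hn1 : 1 ≤ n * Real.exp (-smax)
  hdm : dm ≤ n * Real.exp (-smax)

variable (P : Par vt c B M)

lemma Par.hc30 : 0 ≤ P.c3 := by
  refine le_trans ?_ P.hc3
  have := (P.hSmall ∅ (by simp)).1
  have := P.hlam
  have := P.hKc
  have := P.hQ0
  have := P.hwm
  positivity

lemma Par.hc40 : 0 ≤ P.c4 := by
  refine le_trans ?_ P.hc4
  have := (P.hSmall ∅ (by simp)).1
  have := P.hlam
  have := P.hKc
  have := P.hQ0
  have := P.hwm
  have := P.hNn
  positivity

/-- both sides inactive -/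
lemma terminal2 {S R A Bf : Finset H} {s : H → ℝ} {d : H → ℕ} {C : Finset (Equiv.Perm H)}
    (hC : IsCyl c B S C) (hV : Val vt S R A Bf) (hmA : mass A s ≤ 1) (hmB : mass Bf s ≤ 1)
    (hA : ∀ u ∈ A, Real.exp (-s u) ≤ P.wm) (hB : ∀ u ∈ Bf, Real.exp (-s u) ≤ P.wm)
    (hiA : ∀ u ∈ A, d u = 0 ∨ P.smax < s u) (hiB : ∀ u ∈ Bf, d u = 0 ∨ P.smax < s u)
    (hS : S.card + 2 * P.n ≤ P.nT) (r : ℝ) :
    ((C.filter (fun η => P.Nn * J2 vt A Bf s d η ≤ r)).card : ℝ)
      ≤ C.card * Real.exp (P.lam * (r - Φ2 vt c B M (Frew B M P.Nn P.smax P.lth) A Bf s d)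
        + P.c4) := by
  set A₀ := A.filter (fun u => s u ≤ P.smax) with hA₀
  set B₀ := Bf.filter (fun u => s u ≤ P.smax) with hB₀
  set f : H → H → ℝ := fun u z =>
    if P.lth ≤ s u + s z then Real.exp (-s u) * Real.exp (-s z) else 0 with hf
  have hA₀A : A₀ ⊆ A := filter_subset _ _
  have hB₀B : B₀ ⊆ Bf := filter_subset _ _
  have hd0A : ∀ u ∈ A₀, d u = 0 := by
    intro u hu
    rw [hA₀, mem_filter] at hu
    rcases hiA u hu.1 with h | h
    · exact h
    · exact absurd hu.2 (not_le.2 h)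
  have hd0B : ∀ u ∈ B₀, d u = 0 := by
    intro u hu
    rw [hB₀, mem_filter] at hu
    rcases hiB u hu.1 with h | h
    · exact h
    · exact absurd hu.2 (not_le.2 h)
  have hf0 : ∀ u z, 0 ≤ f u z := fun u z => by simp only [hf]; split_ifs <;> positivity
  have hΦ : Φ2 vt c B M (Frew B M P.Nn P.smax P.lth) A Bf s d = P0 c B M P.Nn f A₀ B₀ := by
    unfold Φ2 P0
    rw [hA₀, sum_filter]
    refine sum_congr rfl fun u hu => ?_
    split_ifs with hsu
    · rw [hB₀, sum_filter]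
      refine sum_congr rfl fun z hz => ?_
      split_ifs with hsz
      · have h1 : d u = 0 := hd0A u (by rw [hA₀, mem_filter]; exact ⟨hu, hsu⟩)
        have h2 : d z = 0 := hd0B z (by rw [hB₀, mem_filter]; exact ⟨hz, hsz⟩)
        rw [h1, h2]
        show _ * Frew B M P.Nn P.smax P.lth (c u) (s u) (c z) (s z) = _
        simp only [Frew, hf, hsu, hsz, true_and]
        split_ifs <;> ring
      · rw [v2_support_right _ _ _ _ _ _ (not_le.1 hsz), mul_zero]
    · refine sum_eq_zero fun z _ => ?_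
      rw [v2_support_left _ _ _ _ _ _ (not_le.1 hsu), mul_zero]
  have hsub : C.filter (fun η => P.Nn * J2 vt A Bf s d η ≤ r)
      ⊆ C.filter (fun η => P.Nn * J0 f A₀ B₀ η ≤ r) := by
    intro η hη
    rw [mem_filter] at hη ⊢
    refine ⟨hη.1, le_trans ?_ hη.2⟩
    apply mul_le_mul_of_nonneg_left _ P.hNn
    refine le_trans ?_ (J2_mono hA₀A hB₀B s d η)
    unfold J0 J2
    refine sum_le_sum fun u hu => sum_le_sum fun z hz => ?_
    rw [hd0A u hu, hd0B z hz, add_zero, pow_zero, Matrix.one_apply]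
    by_cases h : η u = z
    · have h' : u = η z := by rw [← h]; exact (Om.invol (hC.subset hη.1) u).symm
      rw [if_pos h, if_pos h', mul_one]
      simp only [hf]; split_ifs
      · exact le_rfl
      · positivity
    · rw [if_neg h]
      split_ifs
      · positivity
      · simp
  have hmA0 : mass A₀ s ≤ 1 := (mass_mono hA₀A s).trans hmA
  have hmin : ∀ u ∈ A₀, Real.exp (-P.smax) ≤ Real.exp (-s u) := by
    intro u hu
    rw [hA₀, mem_filter] at hu
    exact Real.exp_le_exp.2 (by linarith [hu.2])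
  have hcard : A₀.card ≤ P.n := by
    have h1 : A₀.card * Real.exp (-P.smax) ≤ mass A₀ s := by
      unfold mass
      rw [← nsmul_eq_mul, ← sum_const]
      exact sum_le_sum hmin
    have h3 : (A₀.card : ℝ) * Real.exp (-P.smax) ≤ P.n * Real.exp (-P.smax) :=
      h1.trans (hmA0.trans P.hn1)
    exact_mod_cast le_of_mul_le_mul_right h3 (Real.exp_pos _)
  have hmb := match_bound P.hM (θ := Real.exp (-P.lth)) (wmin := Real.exp (-P.smax)) P.hKc P.hlam
    (Real.exp_pos _) P.hSmall P.hQ P.hlw P.hQ0 P.hNn (Real.exp_pos _).le P.hlθ P.hNq P.hwm P.hc4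
    s f hf0
    (fun u z => by
      simp only [hf]; split_ifs with h
      · rw [← Real.exp_add]; exact Real.exp_le_exp.2 (by linarith)
      · positivity)
    (fun u z => by
      simp only [hf]; split_ifs with h
      · exact le_rfl
      · positivity)
    P.n S A₀ B₀ C hC (disjoint_of_subset_left hA₀A hV.AS) (disjoint_of_subset_left hB₀B hV.BS)
    (disjoint_of_subset_left hA₀A (disjoint_of_subset_right hB₀B hV.AB)) hmA0
    ((mass_mono hB₀B s).trans hmB) (fun u hu => hA u (hA₀A hu)) (fun u hu => hB u (hB₀B hu))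
    hmin hcard hS r
  calc _ ≤ ((C.filter (fun η => P.Nn * J0 f A₀ B₀ η ≤ r)).card : ℝ) := by
        exact_mod_cast card_le_card hsub
    _ ≤ _ := hmb
    _ ≤ _ := by
      rw [hΦ]
      apply mul_le_mul_of_nonneg_left _ (by positivity)
      apply Real.exp_le_exp.2
      have : P.c4 * mass A₀ s ≤ P.c4 * 1 := mul_le_mul_of_nonneg_left hmA0 P.hc40
      linarith

/-- the instance of the two-sided functional -/
noncomputable def Par.F : Func vt c B M P.Kc :=
  Func2 P.hcv P.hsq P.h2 P.hKc (Frew B M P.Nn P.smax P.lth) (Frew_nonneg P.hNn)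
    (Frew_le P.hNn P.hQ P.hNq P.hKc) P.Nn P.hNn

/-- the instance of the two-sided functional with swapped roles -/
noncomputable def Par.G : Func vt c B M P.Kc :=
  Func2 P.hcv P.hsq P.h2 P.hKc (fun a b x y => Frew B M P.Nn P.smax P.lth x y a b)
    (fun _ _ _ _ => Frew_nonneg P.hNn _ _ _ _)
    (fun _ _ _ _ => Frew_le P.hNn P.hQ P.hNq P.hKc _ _ _ _) P.Nn P.hNn

lemma bud_le {A : Finset H} {s : H → ℝ} {d : H → ℕ} {dm : ℕ} (hm : mass A s ≤ 1)
    (hd : ∀ u ∈ A, d u ≤ dm) : bud A s d ≤ dm := by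
  calc bud A s d ≤ ∑ u ∈ A, Real.exp (-s u) * dm := by
        refine sum_le_sum fun u hu => mul_le_mul_of_nonneg_left ?_ (Real.exp_pos _).le
        exact_mod_cast hd u hu
    _ = mass A s * dm := by rw [mass, sum_mul]
    _ ≤ 1 * dm := mul_le_mul_of_nonneg_right hm (by positivity)
    _ = dm := one_mul _

/-- first side inactive, explore the second side -/
lemma stage2 {S R A Bf : Finset H} {s : H → ℝ} {d : H → ℕ} {C : Finset (Equiv.Perm H)}
    (hC : IsCyl c B S C) (hV : Val vt S R A Bf) (hmA : mass A s ≤ 1) (hmB : mass Bf s ≤ 1)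
    (hA : ∀ u ∈ A, Real.exp (-s u) ≤ P.wm) (hB : ∀ u ∈ Bf, Real.exp (-s u) ≤ P.wm)
    (hiA : ∀ u ∈ A, d u = 0 ∨ P.smax < s u) (hdB : ∀ u ∈ Bf, d u ≤ P.dm)
    (hS : S.card + 4 * P.n ≤ P.nT) (hR : R.card + P.Δ * P.n ≤ P.rT) (r : ℝ) :
    ((C.filter (fun η => P.Nn * J2 vt A Bf s d η ≤ r)).card : ℝ)
      ≤ C.card * Real.exp (P.lam * (r - Φ2 vt c B M (Frew B M P.Nn P.smax P.lth) A Bf s d)
        + P.c4 + P.c3 * P.dm) := by
  have hbud : bud Bf s d ≤ P.n * Real.exp (-P.smax) :=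
    (bud_le hmB hdB).trans P.hdm
  have key := explore_bound P.G P.hM P.hsq P.h2 P.hΔ (lam := P.lam) (ε := P.ε) (wm := P.wm)
    (Q := P.Q) (wmin := Real.exp (-P.smax)) (smax := P.smax) (cT := P.c4) (c3 := P.c3)
    (nE := P.nT - 2 * P.n) (rE := P.rT) P.hKc P.hlam (Real.exp_pos _) rfl
    (fun S hS => P.hSmall S (by omega)) P.hQ P.hlw P.hwm P.hc3 P.hQ0
    (fun s _ => Real.exp (-s) ≤ P.wm)
    (fun s d => Real.exp (-s) ≤ P.wm ∧ (d = 0 ∨ P.smax < s))
    (fun s d D hD h => by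
      refine le_trans (Real.exp_le_exp.2 ?_) h
      have := Real.log_natCast_nonneg D
      linarith)
    (fun s d h => h) (fun s d h => h.1)
    (by
      intro S' R' A' B' s' d' C' hC' hV' hmA' hmB' hA' hB' hS' hR' hi' r'
      have := terminal2 P hC' hV'.symm hmB' hmA' (fun u hu => (hB' u hu).1) hA'
        (fun u hu => (hB' u hu).2) hi' (by omega) r'
      have e1 : C'.filter (fun η => P.G.J A' B' s' d' η ≤ r')
          = C'.filter (fun η => P.Nn * J2 vt B' A' s' d' η ≤ r') := by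
        apply filter_congr
        intro η hη
        rw [← J2_symm (Om.invol (hC'.subset hη))]
        rfl
      rw [e1]
      refine this.trans (le_of_eq ?_)
      rw [Φ2_symm]
      rfl)
    P.n S R Bf A s d C hC hV.symm hmB hmA hB (fun u hu => ⟨hA u hu, hiA u hu⟩) hbud
    (by omega) hR r
  have e1 : C.filter (fun η => P.Nn * J2 vt A Bf s d η ≤ r)
      = C.filter (fun η => P.G.J Bf A s d η ≤ r) := by
    apply filter_congr
    intro η hη
    rw [J2_symm (Om.invol (hC.subset hη))]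
    rfl
  rw [e1]
  refine key.trans ?_
  apply mul_le_mul_of_nonneg_left _ (by positivity)
  apply Real.exp_le_exp.2
  have e2 : P.G.Φ Bf A s d = Φ2 vt c B M (Frew B M P.Nn P.smax P.lth) A Bf s d := by
    rw [Φ2_symm]; rfl
  rw [e2]
  have := mul_le_mul_of_nonneg_left (bud_le hmB hdB) P.hc30
  linarith

/-- explore both sides -/
lemma stage1 {S R A Bf : Finset H} {s : H → ℝ} {d : H → ℕ} {C : Finset (Equiv.Perm H)}
    (hC : IsCyl c B S C) (hV : Val vt S R A Bf) (hmA : mass A s ≤ 1) (hmB : mass Bf s ≤ 1)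
    (hA : ∀ u ∈ A, Real.exp (-s u) ≤ P.wm) (hB : ∀ u ∈ Bf, Real.exp (-s u) ≤ P.wm)
    (hdA : ∀ u ∈ A, d u ≤ P.dm) (hdB : ∀ u ∈ Bf, d u ≤ P.dm)
    (hS : S.card + 6 * P.n ≤ P.nT) (hR : R.card + 2 * (P.Δ * P.n) ≤ P.rT) (r : ℝ) :
    ((C.filter (fun η => P.Nn * J2 vt A Bf s d η ≤ r)).card : ℝ)
      ≤ C.card * Real.exp (P.lam * (r - Φ2 vt c B M (Frew B M P.Nn P.smax P.lth) A Bf s d)
        + P.c4 + 2 * (P.c3 * P.dm)) := by
  have hbud : bud A s d ≤ P.n * Real.exp (-P.smax) :=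
    (bud_le hmA hdA).trans P.hdm
  have key := explore_bound P.F P.hM P.hsq P.h2 P.hΔ (lam := P.lam) (ε := P.ε) (wm := P.wm)
    (Q := P.Q) (wmin := Real.exp (-P.smax)) (smax := P.smax) (cT := P.c4 + P.c3 * P.dm)
    (c3 := P.c3)
    (nE := P.nT - 4 * P.n) (rE := P.rT - P.Δ * P.n) P.hKc P.hlam (Real.exp_pos _) rfl
    (fun S hS => P.hSmall S (by omega)) P.hQ P.hlw P.hwm
    (by
      refine le_trans ?_ P.hc3
      have h1 : ((P.rT - P.Δ * P.n : ℕ) : ℝ) ≤ P.rT := by exact_mod_cast Nat.sub_le _ _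
      have h2 : 0 ≤ 5 * P.lam * P.Kc * P.Q := by
        have := P.hlam; have := P.hKc; have := P.hQ0; positivity
      have := mul_le_mul_of_nonneg_left h1 h2
      linarith) P.hQ0
    (fun s _ => Real.exp (-s) ≤ P.wm)
    (fun s d => Real.exp (-s) ≤ P.wm ∧ d ≤ P.dm)
    (fun s d D hD h => by
      refine le_trans (Real.exp_le_exp.2 ?_) h
      have := Real.log_natCast_nonneg D
      linarith)
    (fun s d h => h) (fun s d h => h.1)
    (by
      intro S' R' A' B' s' d' C' hC' hV' hmA' hmB' hA' hB' hS' hR' hi' r'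
      have := stage2 P hC' hV' hmA' hmB' hA' (fun u hu => (hB' u hu).1) hi'
        (fun u hu => (hB' u hu).2) (by omega) (by omega) r'
      refine this.trans (le_of_eq ?_)
      rw [add_assoc]
      rfl)
    P.n S R A Bf s d C hC hV hmA hmB hA (fun u hu => ⟨hB u hu, hdB u hu⟩) hbud
    (by omega) (by omega) r
  refine key.trans ?_
  apply mul_le_mul_of_nonneg_left _ (by positivity)
  apply Real.exp_le_exp.2
  have e2 : P.F.Φ A Bf s d = Φ2 vt c B M (Frew B M P.Nn P.smax P.lth) A Bf s d := rfl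
  rw [e2]
  have := mul_le_mul_of_nonneg_left (bud_le hmA hdA) P.hc30
  linarith

end Pool.Agent.W_MP_17e8f0_pr
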