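import Pool.Agent.W_MP_17e8f0_pr.Annealed
import Pool.Agent.W_MP_17e8f0_pr.Pair

namespace Pool.Agent.W_MP_17e8f0_pr

open Finset

variable {H V : Type*} [Fintype H] [DecidableEq H] [DecidableEq V] {K : ℕ}
variable {vt : H → V} {c : H → Fin K} {B : Fin K → Fin K → ℕ} {M : ℕ} {α : ℝ}

/-- within class variance -/
noncomputable def sl (vt : H → V) (c : H → Fin K) (M : ℕ) (l : Fin K) : ℝ :=
  (∑ z ∈ univ.filter (fun z => c z = l), (X vt z - muk vt c M (c z)) ^ 2) / M

/-- global variance -/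
noncomputable def sig2 (vt : H → V) (c : H → Fin K) (M : ℕ) : ℝ :=
  (∑ z, (X vt z - mu vt c M) ^ 2) / (K * M)

lemma Ann.avg_shift (hA : Ann c B M α) (l : Fin K) (b : ℝ) :
    (∑ z ∈ univ.filter (fun z => c z = l), (X vt z - muk vt c M (c z) + b) ^ 2) / M
      = sl vt c M l + b ^ 2 := by
  have hM : (M : ℝ) ≠ 0 := by exact_mod_cast hA.hM0.ne'
  have h1 : ∑ z ∈ univ.filter (fun z => c z = l), (X vt z - muk vt c M (c z) + b) ^ 2
      = ∑ z ∈ univ.filter (fun z => c z = l), (X vt z - muk vt c M (c z)) ^ 2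
        + 2 * b * (∑ z ∈ univ.filter (fun z => c z = l), X vt z - M * muk vt c M l) + M * b ^ 2 := by
    have h2 : ∀ z ∈ univ.filter (fun z => c z = l), (X vt z - muk vt c M (c z) + b) ^ 2
        = (X vt z - muk vt c M (c z)) ^ 2 + 2 * b * X vt z - 2 * b * muk vt c M l + b ^ 2 := by
      intro z hz
      rw [(mem_filter.1 hz).2]; ring
    rw [sum_congr rfl h2, sum_add_distrib, sum_sub_distrib, sum_add_distrib, ← mul_sum,
      sum_const, sum_const, nsmul_eq_mul, nsmul_eq_mul, hA.hM]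
    ring
  have h3 : M * muk vt c M l = ∑ z ∈ univ.filter (fun z => c z = l), X vt z := by
    unfold muk; field_simp
  rw [h1, h3]
  unfold sl
  field_simp
  ring

lemma Ann.zet_eq (hA : Ann c B M α) (k : Fin K) (z : H) :
    zet vt c M α k z = X vt z - muk vt c M (c z)
      + (gk vt c M α (c z) - (1 - α) * gk vt c M α k) := by
  rw [hA.muk_eq]; unfold zet; ring

lemma Ann.K_nu2 (hA : Ann c B M α) :
    K * nu2 vt c B M α = ∑ l, sl vt c M l + α * (2 - α) * ∑ l, gk vt c M α l ^ 2 := by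
  have hK : (K : ℝ) ≠ 0 := by exact_mod_cast hA.hK.ne'
  have hV : ∀ k, Vk vt c B M α k = (1 - α) * (sl vt c M k + (α * gk vt c M α k) ^ 2)
      + α / K * ∑ l, (sl vt c M l + (gk vt c M α l - (1 - α) * gk vt c M α k) ^ 2) := by
    intro k
    unfold Vk
    rw [hA.sum_q, hA.sum_class']
    have e1 : ∀ l, (∑ z ∈ univ.filter (fun z => c z = l), zet vt c M α k z ^ 2) / M
        = sl vt c M l + (gk vt c M α l - (1 - α) * gk vt c M α k) ^ 2 := by
      intro l
      rw [← hA.avg_shift]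
      congr 1
      refine sum_congr rfl fun z hz => ?_
      rw [hA.zet_eq, (mem_filter.1 hz).2]
    rw [e1]
    simp only [e1]
    congr 2
    ring
  have h1 : K * nu2 vt c B M α = ∑ k, Vk vt c B M α k := by
    unfold nu2; field_simp
  rw [h1, sum_congr rfl fun k _ => hV k, sum_add_distrib, ← mul_sum, ← mul_sum]
  have h2 : ∑ k, (sl vt c M k + (α * gk vt c M α k) ^ 2)
      = ∑ l, sl vt c M l + α ^ 2 * ∑ l, gk vt c M α l ^ 2 := by
    rw [sum_add_distrib, mul_sum]
    congr 1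
    exact sum_congr rfl fun k _ => by ring
  have h3 : ∑ k, ∑ l, (sl vt c M l + (gk vt c M α l - (1 - α) * gk vt c M α k) ^ 2)
      = K * ∑ l, sl vt c M l + K * (1 + (1 - α) ^ 2) * ∑ l, gk vt c M α l ^ 2 := by
    have e1 : ∀ k, ∑ l, (sl vt c M l + (gk vt c M α l - (1 - α) * gk vt c M α k) ^ 2)
        = ∑ l, sl vt c M l + ∑ l, gk vt c M α l ^ 2
          - 2 * (1 - α) * gk vt c M α k * ∑ l, gk vt c M α l
          + K * (1 - α) ^ 2 * gk vt c M α k ^ 2 := by
      intro k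
      have e2 : ∀ l, (sl vt c M l + (gk vt c M α l - (1 - α) * gk vt c M α k) ^ 2)
          = sl vt c M l + gk vt c M α l ^ 2 - 2 * (1 - α) * gk vt c M α k * gk vt c M α l
            + (1 - α) ^ 2 * gk vt c M α k ^ 2 := by intro l; ring
      rw [sum_congr rfl fun l _ => e2 l, sum_add_distrib, sum_sub_distrib, sum_add_distrib,
        ← mul_sum, sum_const, card_univ, Fintype.card_fin, nsmul_eq_mul]
      ring
    simp only [e1, hA.sum_gk, mul_zero, sub_zero]
    rw [sum_add_distrib, sum_const, card_univ, Fintype.card_fin, nsmul_eq_mul, ← mul_sum]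
    ring
  rw [h2, h3]
  field_simp
  ring

lemma Ann.K_sig2 (hA : Ann c B M α) :
    K * sig2 vt c M = ∑ l, sl vt c M l + α ^ 2 * ∑ l, gk vt c M α l ^ 2 := by
  have hK : (K : ℝ) ≠ 0 := by exact_mod_cast hA.hK.ne'
  have h1 : K * sig2 vt c M = (∑ z, (X vt z - mu vt c M) ^ 2) / M := by
    unfold sig2; field_simp
  rw [h1, hA.sum_class']
  have e1 : ∀ l, (∑ z ∈ univ.filter (fun z => c z = l), (X vt z - mu vt c M) ^ 2) / M
      = sl vt c M l + (α * gk vt c M α l) ^ 2 := by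
    intro l
    rw [← hA.avg_shift]
    congr 1
    refine sum_congr rfl fun z hz => ?_
    rw [hA.muk_eq, (mem_filter.1 hz).2]; ring
  simp only [e1]
  rw [sum_add_distrib, mul_sum]
  congr 1
  exact sum_congr rfl fun k _ => by ring

lemma Ann.sl_nonneg (l : Fin K) : 0 ≤ sl vt c M l := by
  unfold sl; exact div_nonneg (sum_nonneg fun _ _ => sq_nonneg _) (by positivity)

lemma Ann.sig2_le (hA : Ann c B M α) : sig2 vt c M ≤ nu2 vt c B M α := by
  have h1 := hA.K_nu2 (vt := vt)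
  have h2 := hA.K_sig2 (vt := vt)
  have hK : (0:ℝ) < K := by exact_mod_cast hA.hK
  have h3 : 0 ≤ ∑ l, gk vt c M α l ^ 2 := sum_nonneg fun _ _ => sq_nonneg _
  have h4 : α ^ 2 * ∑ l, gk vt c M α l ^ 2 ≤ α * (2 - α) * ∑ l, gk vt c M α l ^ 2 := by
    apply mul_le_mul_of_nonneg_right _ h3
    nlinarith [hA.hα0, hA.hα1]
  have h5 : K * sig2 vt c M ≤ K * nu2 vt c B M α := by linarith
  exact le_of_mul_le_mul_left h5 hK

lemma Ann.gk_sq (hA : Ann c B M α) (k : Fin K) :
    gk vt c M α k ^ 2 ≤ K * nu2 vt c B M α / α := by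
  rw [le_div_iff₀ hA.hα0, hA.K_nu2]
  have h1 : gk vt c M α k ^ 2 ≤ ∑ l, gk vt c M α l ^ 2 :=
    single_le_sum (f := fun l => gk vt c M α l ^ 2) (fun _ _ => sq_nonneg _) (mem_univ k)
  have h2 : 0 ≤ ∑ l, sl vt c M l := sum_nonneg fun l _ => Ann.sl_nonneg l
  have h3 : 0 ≤ ∑ l, gk vt c M α l ^ 2 := sum_nonneg fun _ _ => sq_nonneg _
  have h4 := mul_le_mul_of_nonneg_right h1 hA.hα0.le
  have h5 : (∑ l, gk vt c M α l ^ 2) * α ≤ α * (2 - α) * ∑ l, gk vt c M α l ^ 2 := by
    have : α ≤ α * (2 - α) := by nlinarith [hA.hα0, hA.hα1]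
    nlinarith
  linarith

lemma Ann.fourth_zet (hA : Ann c B M α) {Bx : ℝ} (hX0 : ∀ z, 0 ≤ X vt z) (hX1 : ∀ z, X vt z ≤ Bx)
    (k : Fin K) :
    ∑ z, q B M k (c z) * zet vt c M α k z ^ 4
      ≤ 8 * Bx ^ 4 + 136 * ((K * nu2 vt c B M α) ^ 2 / α) := by
  set G2 := K * nu2 vt c B M α / α with hG2
  have hα0 := hA.hα0
  have hα1 := hA.hα1
  have hK : (K : ℝ) ≠ 0 := by exact_mod_cast hA.hK.ne'
  have hMpos : (0:ℝ) < M := by exact_mod_cast hA.hM0
  have hG20 : 0 ≤ G2 := div_nonneg (mul_nonneg (by positivity) Ann.nu2_nonneg) hα0.le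
  have hmuk0 : ∀ l, 0 ≤ muk vt c M l := fun l =>
    div_nonneg (sum_nonneg fun z _ => hX0 z) hMpos.le
  have hmuk1 : ∀ l, muk vt c M l ≤ Bx := fun l => by
    unfold muk
    rw [div_le_iff₀ hMpos]
    calc _ ≤ ∑ _z ∈ univ.filter (fun z => c z = l), Bx := sum_le_sum fun z _ => hX1 z
      _ = Bx * M := by rw [sum_const, nsmul_eq_mul, hA.hM, mul_comm]
  have hY : ∀ z, (X vt z - muk vt c M (c z)) ^ 4 ≤ Bx ^ 4 := by
    intro z
    have h1 : |X vt z - muk vt c M (c z)| ≤ Bx := by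
      rw [abs_le]; constructor <;> linarith [hX0 z, hX1 z, hmuk0 (c z), hmuk1 (c z)]
    calc (X vt z - muk vt c M (c z)) ^ 4 = |X vt z - muk vt c M (c z)| ^ 4 := by
          rw [pow_abs, abs_of_nonneg (by positivity)]
      _ ≤ Bx ^ 4 := pow_le_pow_left₀ (abs_nonneg _) h1 4
  have hpt : ∀ z, q B M k (c z) * zet vt c M α k z ^ 4 ≤ 8 * Bx ^ 4 * q B M k (c z)
      + 8 * (q B M k (c z) * (gk vt c M α (c z) - (1 - α) * gk vt c M α k) ^ 4) := by
    intro z
    have hq := q_nonneg (B := B) M k (c z)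
    rw [hA.zet_eq]
    set a := X vt z - muk vt c M (c z) with ha
    set b := gk vt c M α (c z) - (1 - α) * gk vt c M α k with hb
    have h1 : (a + b) ^ 4 ≤ 8 * a ^ 4 + 8 * b ^ 4 := by
      nlinarith only [sq_nonneg (a ^ 2 - b ^ 2), sq_nonneg (a - b), sq_nonneg (a + b),
        sq_nonneg ((a - b) * (a + b)), sq_nonneg ((a - b) ^ 2)]
    have h2 := mul_le_mul_of_nonneg_left (h1.trans (add_le_add_left
      (mul_le_mul_of_nonneg_left (hY z) (by norm_num)) _)) hq
    calc _ ≤ _ := h2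
      _ = _ := by ring
  calc _ ≤ ∑ z, (8 * Bx ^ 4 * q B M k (c z)
      + 8 * (q B M k (c z) * (gk vt c M α (c z) - (1 - α) * gk vt c M α k) ^ 4)) :=
        sum_le_sum fun z _ => hpt z
    _ = 8 * Bx ^ 4 + 8 * ((1 - α) * (gk vt c M α k - (1 - α) * gk vt c M α k) ^ 4
          + α * ((∑ l, (gk vt c M α l - (1 - α) * gk vt c M α k) ^ 4) / K)) := by
        rw [sum_add_distrib, ← mul_sum, ← mul_sum, hA.hsq,
          hA.sum_q_class k (fun l => (gk vt c M α l - (1 - α) * gk vt c M α k) ^ 4)]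
        ring
    _ ≤ 8 * Bx ^ 4 + 8 * (17 * α * G2 ^ 2) := by
        have hk2 : gk vt c M α k ^ 2 ≤ G2 := hA.gk_sq k
        have hk4 : gk vt c M α k ^ 4 ≤ G2 ^ 2 := by
          have : gk vt c M α k ^ 4 = (gk vt c M α k ^ 2) ^ 2 := by ring
          rw [this]; exact pow_le_pow_left₀ (sq_nonneg _) hk2 2
        have h1 : (gk vt c M α k - (1 - α) * gk vt c M α k) ^ 4 ≤ α * G2 ^ 2 := by
          have e1 : (gk vt c M α k - (1 - α) * gk vt c M α k) ^ 4 = α ^ 4 * gk vt c M α k ^ 4 := by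
            ring
          rw [e1]
          have h4 : α ^ 4 ≤ α := by
            calc α ^ 4 ≤ α ^ 1 := pow_le_pow_of_le_one hα0.le hα1 (by norm_num)
              _ = α := pow_one _
          exact mul_le_mul h4 hk4 (by positivity) hα0.le
        have h2 : ∀ l, (gk vt c M α l - (1 - α) * gk vt c M α k) ^ 4 ≤ 16 * G2 ^ 2 := by
          intro l
          have hl2 : gk vt c M α l ^ 2 ≤ G2 := hA.gk_sq l
          have e1 : (gk vt c M α l - (1 - α) * gk vt c M α k) ^ 2 ≤ 4 * G2 := by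
            have e3 : ((1 - α) * gk vt c M α k) ^ 2 ≤ gk vt c M α k ^ 2 := by
              rw [mul_pow]
              have : (1 - α) ^ 2 ≤ 1 := by nlinarith
              nlinarith [sq_nonneg (gk vt c M α k)]
            nlinarith [sq_nonneg (gk vt c M α l + (1 - α) * gk vt c M α k)]
          have e2 : (gk vt c M α l - (1 - α) * gk vt c M α k) ^ 4
              = ((gk vt c M α l - (1 - α) * gk vt c M α k) ^ 2) ^ 2 := by ring
          rw [e2]
          calc _ ≤ (4 * G2) ^ 2 := pow_le_pow_left₀ (sq_nonneg _) e1 2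
            _ = _ := by ring
        have h3 : (∑ l, (gk vt c M α l - (1 - α) * gk vt c M α k) ^ 4) / K ≤ 16 * G2 ^ 2 := by
          rw [div_le_iff₀ (by exact_mod_cast hA.hK)]
          calc _ ≤ ∑ _l : Fin K, 16 * G2 ^ 2 := sum_le_sum fun l _ => h2 l
            _ = _ := by rw [sum_const, card_univ, Fintype.card_fin, nsmul_eq_mul, mul_comm]
        have h5 : (1 - α) * (gk vt c M α k - (1 - α) * gk vt c M α k) ^ 4 ≤ 1 * (α * G2 ^ 2) :=
          mul_le_mul (by linarith) h1 (by positivity) (by norm_num)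
        have h6 := mul_le_mul_of_nonneg_left h3 hα0.le
        linarith
    _ = _ := by
        rw [hG2]
        have := hα0.ne'
        field_simp
        ring

/-- law of the class -/
lemma Ann.class_law (hA : Ann c B M α) (n : ℕ) (f : Fin K → ℝ) (k : Fin K) (s : ℝ) :
    An vt c B M n (fun k' _ => f k') k s
      = (1 - α) ^ n * f k + (1 - (1 - α) ^ n) * ((∑ l, f l) / K) := by
  induction n generalizing k s with
  | zero => simp [An]
  | succ n ih =>
    show ∑ z : H, q B M k (c z) * An vt c B M n _ (c z) (s + Real.log (ch vt z).card) = _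
    simp only [ih]
    have h1 := hA.sum_q_class k
      (fun l => (1 - α) ^ n * f l + (1 - (1 - α) ^ n) * ((∑ l, f l) / K))
    rw [h1]
    have hK : (K : ℝ) ≠ 0 := by exact_mod_cast hA.hK.ne'
    have h2 : (∑ l, ((1 - α) ^ n * f l + (1 - (1 - α) ^ n) * ((∑ l, f l) / K))) / K
        = (∑ l, f l) / K := by
      rw [sum_add_distrib, ← mul_sum, sum_const, card_univ, Fintype.card_fin, nsmul_eq_mul]
      field_simp
      ring
    rw [h2]
    ring

lemma An_comp (m n : ℕ) (f : Fin K → ℝ → ℝ) (k : Fin K) (s : ℝ) :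
    An vt c B M (m + n) f k s = An vt c B M m (An vt c B M n f) k s := by
  induction m generalizing k s with
  | zero => rw [Nat.zero_add]; rfl
  | succ m ih =>
    rw [Nat.add_right_comm]
    show ∑ z : H, q B M k (c z) * An vt c B M (m + n) f (c z) (s + Real.log (ch vt z).card)
      = ∑ z : H, q B M k (c z) * An vt c B M m (An vt c B M n f) (c z)
        (s + Real.log (ch vt z).card)
    simp only [ih]

/-- variance bound -/
noncomputable def VV (vt : H → V) (c : H → Fin K) (B : Fin K → Fin K → ℕ) (M : ℕ) (α : ℝ)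
    (n : ℕ) : ℝ :=
  2 * (n * (K * nu2 vt c B M α)) + 8 * (K * nu2 vt c B M α / α)

lemma Ann.dev_sq (hA : Ann c B M α) (n : ℕ) (k : Fin K) (s : ℝ) :
    An vt c B M n (fun _ s' => (s' - s - n * mu vt c M) ^ 2) k s ≤ VV vt c B M α n := by
  set a := s + n * mu vt c M + (1 - α) * gk vt c M α k with ha
  have hpt : ∀ (k' : Fin K) (s' : ℝ), (s' - s - n * mu vt c M) ^ 2
      ≤ 2 * (s' + (1 - α) * gk vt c M α k' - a) ^ 2 + 8 * (K * nu2 vt c B M α / α) := by
    intro k' s'
    have h1 := hA.gk_sq (vt := vt) k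
    have h2 := hA.gk_sq (vt := vt) k'
    have h3 : ((1 - α) * (gk vt c M α k - gk vt c M α k')) ^ 2
        ≤ 4 * (K * nu2 vt c B M α / α) := by
      have e1 : (gk vt c M α k - gk vt c M α k') ^ 2 ≤ 4 * (K * nu2 vt c B M α / α) := by
        nlinarith only [h1, h2, sq_nonneg (gk vt c M α k + gk vt c M α k')]
      rw [mul_pow]
      have e2 : (1 - α) ^ 2 ≤ 1 := by nlinarith only [hA, hA.hα0, hA.hα1]
      nlinarith only [e1, e2, sq_nonneg (gk vt c M α k - gk vt c M α k')]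
    have h4 : s' - s - n * mu vt c M = (s' + (1 - α) * gk vt c M α k' - a)
        + (1 - α) * (gk vt c M α k - gk vt c M α k') := by rw [ha]; ring
    rw [h4]
    nlinarith only [h3, sq_nonneg ((s' + (1 - α) * gk vt c M α k' - a)
        - (1 - α) * (gk vt c M α k - gk vt c M α k'))]
  refine (An_mono hpt n k s).trans ?_
  rw [An_add (vt := vt) (c := c) (B := B) (M := M)
    (fun k' s' => 2 * (s' + (1 - α) * gk vt c M α k' - a) ^ 2)
    (fun _ _ => 8 * (K * nu2 vt c B M α / α)), An_const hA.hsq,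
    An_smul (vt := vt) (c := c) (B := B) (M := M) 2
      (fun k' s' => (s' + (1 - α) * gk vt c M α k' - a) ^ 2), hA.second]
  have h1 := hA.Rk_le (vt := vt) n k
  have h2 : s + n * mu vt c M + (1 - α) * gk vt c M α k - a = 0 := by rw [ha]; ring
  rw [h2]
  unfold VV
  nlinarith

lemma Ann.cheb_low (hA : Ann c B M α) (n : ℕ) (k : Fin K) (s : ℝ) {b m : ℝ} (hb : 0 < b)
    (hm : m ≤ s + n * mu vt c M - b) :
    An vt c B M n (fun _ s' => if s' < m then 1 else 0) k s ≤ VV vt c B M α n / b ^ 2 := by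
  have hpt : ∀ (k' : Fin K) (s' : ℝ), (if s' < m then (1:ℝ) else 0)
      ≤ (b ^ 2)⁻¹ * (s' - s - n * mu vt c M) ^ 2 := by
    intro k' s'
    split_ifs with h
    · rw [inv_mul_eq_div, one_le_div (by positivity)]
      nlinarith
    · positivity
  refine (An_mono hpt n k s).trans ?_
  rw [An_smul, inv_mul_eq_div]
  exact div_le_div_of_nonneg_right (hA.dev_sq n k s) (by positivity)

lemma Ann.cheb_up (hA : Ann c B M α) (n : ℕ) (k : Fin K) (s : ℝ) {b m : ℝ} (hb : 0 < b)
    (hm : s + n * mu vt c M + b ≤ m) :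
    An vt c B M n (fun _ s' => if m < s' then 1 else 0) k s ≤ VV vt c B M α n / b ^ 2 := by
  have hpt : ∀ (k' : Fin K) (s' : ℝ), (if m < s' then (1:ℝ) else 0)
      ≤ (b ^ 2)⁻¹ * (s' - s - n * mu vt c M) ^ 2 := by
    intro k' s'
    split_ifs with h
    · rw [inv_mul_eq_div, one_le_div (by positivity)]
      nlinarith
    · positivity
  refine (An_mono hpt n k s).trans ?_
  rw [An_smul, inv_mul_eq_div]
  exact div_le_div_of_nonneg_right (hA.dev_sq n k s) (by positivity)

end Pool.Agent.W_MP_17e8f0_pr
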