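import Pool.Agent.W_MP_17e8f0_pr.PairBound

namespace Pool.Agent.W_MP_17e8f0_pr

open Finset

variable {H V : Type*} [Fintype H] [DecidableEq H] [DecidableEq V] {K : ℕ}

/-- quenched probability that a path from `u` of length `n`, with initial log-weight `s`,
ends with log-weight at most `smax` -/
noncomputable def Gq (vt : H → V) (smax : ℝ) (η : Equiv.Perm H) : ℕ → ℝ → H → ℝ
  | 0, s, _ => if s ≤ smax then 1 else 0
  | n + 1, s, u => ∑ v ∈ ch vt (η u),
      ((ch vt (η u)).card : ℝ)⁻¹ * Gq vt smax η n (s + Real.log (ch vt (η u)).card) v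

variable {vt : H → V} {c : H → Fin K} {B : Fin K → Fin K → ℕ} {M : ℕ} {Kc : ℝ}

lemma Gq_nonneg {smax : ℝ} {η : Equiv.Perm H} (n : ℕ) (s : ℝ) (u : H) :
    0 ≤ Gq vt smax η n s u := by
  induction n generalizing s u with
  | zero => unfold Gq; split_ifs <;> norm_num
  | succ n ih => exact sum_nonneg fun v _ => mul_nonneg (by positivity) (ih _ _)

lemma Gq_support {smax : ℝ} {η : Equiv.Perm H} (n : ℕ) (s : ℝ) (u : H) (hs : smax < s) :
    Gq vt smax η n s u = 0 := by
  induction n generalizing s u with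
  | zero => unfold Gq; rw [if_neg (not_le.2 hs)]
  | succ n ih =>
    refine sum_eq_zero fun v _ => ?_
    rw [ih _ _ (by have := Real.log_natCast_nonneg (ch vt (η u)).card; linarith), mul_zero]

/-- indicator reward -/
noncomputable def ind (K : ℕ) (smax : ℝ) : Fin K → ℝ → ℝ := fun _ s => if s ≤ smax then 1 else 0

lemma ind_nonneg {smax : ℝ} (k : Fin K) (s : ℝ) : 0 ≤ ind K smax k s := by
  unfold ind; split_ifs <;> norm_num

lemma ind_le {smax : ℝ} (k : Fin K) (s : ℝ) : ind K smax k s ≤ 1 := by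
  unfold ind; split_ifs <;> norm_num

/-- one-sided functional -/
noncomputable def Func1 (hcv : ∀ x y, vt x = vt y → c x = c y)
    (hsq : ∀ k, ∑ z, q B M k (c z) = 1)
    (h2 : ∀ z : H, 2 ≤ (ch vt z).card) (hKc : 1 ≤ Kc) (smax : ℝ) : Func vt c B M Kc where
  J := fun A _ s d η => ∑ u ∈ A, Real.exp (-s u) * Gq vt smax η (d u) (s u) u
  Φ := fun A _ s d => ∑ u ∈ A, Real.exp (-s u) * An vt c B M (d u) (ind K smax) (c u) (s u)
  J_fresh := fun S R A Bf s d hV η _ u hu hd hz => by
    have hch : (ch vt (η u)).Nonempty := card_pos.1 (by have := h2 (η u); omega)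
    have e2 := sum_fresh hV hu hz s d (s u + Real.log (ch vt (η u)).card) (d u - 1)
      (fun y a b => Real.exp (-a) * Gq vt smax η b a y)
    unfold ns nd
    rw [e2]
    have e3 : Real.exp (-s u) * Gq vt smax η (d u) (s u) u
        = ∑ y ∈ ch vt (η u), Real.exp (-(s u + Real.log (ch vt (η u)).card)) *
          Gq vt smax η (d u - 1) (s u + Real.log (ch vt (η u)).card) y := by
      obtain ⟨n, hn⟩ : ∃ n, d u = n + 1 := ⟨d u - 1, by omega⟩
      rw [hn, Nat.add_sub_cancel]
      show _ * (∑ v ∈ ch vt (η u), _) = _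
      rw [mul_sum]
      refine sum_congr rfl fun y _ => ?_
      rw [neg_add, Real.exp_add, Real.exp_neg (Real.log _),
        Real.exp_log (by exact_mod_cast hch.card_pos)]
      ring
    linarith
  J_coll := fun _ _ _ _ s d _ η _ u _ z =>
    sum_le_sum_of_subset_of_nonneg ((erase_subset _ _).trans (erase_subset _ _))
      fun _ _ _ => mul_nonneg (Real.exp_pos _).le (Gq_nonneg _ _ _)
  Φ_fresh := fun S R A Bf s d hV _ _ u hu hd => by
    refine ⟨fun z => An vt c B M (d u - 1) (ind K smax) (c z) (s u + Real.log (ch vt z).card),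
      fun z => An_nonneg ind_nonneg _ _ _,
      fun z => (An_le hsq ind_le _ _ _).trans hKc, ?_⟩
    intro z hz
    have hch : (ch vt z).Nonempty := card_pos.1 (by have := h2 z; omega)
    have e2 := sum_fresh hV hu hz s d (s u + Real.log (ch vt z).card) (d u - 1)
      (fun y a b => Real.exp (-a) * An vt c B M b (ind K smax) (c y) a)
    unfold ns nd
    rw [e2]
    have e3 : ∑ y ∈ ch vt z, Real.exp (-(s u + Real.log (ch vt z).card)) *
          An vt c B M (d u - 1) (ind K smax) (c y) (s u + Real.log (ch vt z).card)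
        = Real.exp (-s u) *
          An vt c B M (d u - 1) (ind K smax) (c z) (s u + Real.log (ch vt z).card) := by
      have hc0 : ((ch vt z).card : ℝ) ≠ 0 := by exact_mod_cast hch.card_pos.ne'
      rw [sum_congr rfl (g := fun _ => Real.exp (-(s u + Real.log (ch vt z).card)) *
          An vt c B M (d u - 1) (ind K smax) (c z) (s u + Real.log (ch vt z).card)),
          sum_const, nsmul_eq_mul]
      · rw [neg_add, Real.exp_add, Real.exp_neg (Real.log _),
          Real.exp_log (by exact_mod_cast hch.card_pos)]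
        field_simp
      · intro y hy
        rw [hcv y z (mem_ch.1 hy).2]
    have e4 : An vt c B M (d u) (ind K smax) (c u) (s u)
        = ∑ z', q B M (c u) (c z') *
          An vt c B M (d u - 1) (ind K smax) (c z') (s u + Real.log (ch vt z').card) := by
      obtain ⟨n, hn⟩ : ∃ n, d u = n + 1 := ⟨d u - 1, by omega⟩
      rw [hn, Nat.add_sub_cancel]
      rfl
    rw [e3, e4]; ring
  Φ_coll := fun S R A Bf s d hV hmA hmB u hu z => by
    have hKc0 : 0 ≤ Kc := by linarith
    set t : H → ℝ := fun u => Real.exp (-s u) * An vt c B M (d u) (ind K smax) (c u) (s u) with ht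
    have ht1 : ∀ a, t a ≤ Kc * Real.exp (-s a) := fun a => by
      rw [mul_comm Kc]
      exact mul_le_mul_of_nonneg_left ((An_le hsq ind_le _ _ _).trans hKc) (Real.exp_pos _).le
    have hu' : ∑ a ∈ A, t a = ∑ a ∈ A.erase u, t a + t u := (sum_erase_add A _ hu).symm
    show ∑ a ∈ A, t a - Kc * (Real.exp (-s u) + if z ∈ A ∪ Bf then Real.exp (-s z) else 0)
      ≤ ∑ a ∈ (A.erase u).erase z, t a
    have h1 := ht1 u
    by_cases hz : z ∈ A.erase u
    · have h3 : ∑ a ∈ A.erase u, t a = ∑ a ∈ (A.erase u).erase z, t a + t z :=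
        (sum_erase_add _ _ hz).symm
      rw [if_pos (mem_union_left _ (mem_of_mem_erase hz))]
      have := ht1 z
      linarith
    · rw [erase_eq_of_notMem hz]
      have : (0:ℝ) ≤ Kc * (if z ∈ A ∪ Bf then Real.exp (-s z) else 0) := by
        split_ifs <;> positivity
      linarith

theorem one_sided
    (hM : ∀ k, (univ.filter (fun x => c x = k)).card = M)
    (hcv : ∀ x y, vt x = vt y → c x = c y)
    (hsq : ∀ k, ∑ z, q B M k (c z) = 1)
    (h2 : ∀ z : H, 2 ≤ (ch vt z).card) {Δ : ℕ} (hΔ : ∀ z : H, (ch vt z).card + 1 ≤ Δ)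
    {lam ε wm Q smax c3 : ℝ} {nT rT n : ℕ} (hKc : 1 ≤ Kc)
    (hlam : 0 ≤ lam)
    (hSmall : ∀ S : Finset H, S.card ≤ nT → Small B S ε)
    (hQ : ∀ k l, q B M k l ≤ Q) (hQ0 : 0 ≤ Q) (hlw : 2 * lam * Kc * wm ≤ 1) (hwm : 0 ≤ wm)
    (hc3 : lam * ε * Kc + 5 * lam * Kc * Q * rT + lam ^ 2 * wm * Kc ^ 2
      + 8 * lam * Kc * Q / Real.exp (-smax) ≤ c3)
    {h t : ℕ} (ht : t ≤ n * Real.exp (-smax)) (hht : h ≤ t)
    {Vm δ : ℝ}
    (hVm : ∀ k s, h * Real.log 2 ≤ s → s ≤ h * Real.log Δ →
      Vm ≤ An vt c B M (t - h) (ind K smax) k s)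
    (hwmh : Real.exp (-(h * Real.log 2)) ≤ wm) (hOm : (Om c B).Nonempty)
    (hS : 2 * tau Δ h + 2 * n ≤ nT) {r₁ : ℕ} (hr₁ : r₁ + Δ * n ≤ rT)
    (hR : Δ + Δ * tau Δ h ≤ r₁) (x : H) :
    (((Om c B).filter (fun η => Gq vt smax η t 0 x ≤ Vm - δ)).card : ℝ)
      ≤ (Om c B).card * (Real.exp (-(lam * δ) + c3 * t) + tau Δ h * (2 * Q * r₁)) := by
  set F : Func vt c B M Kc := Func1 hcv hsq h2 hKc smax with hF
  have hKc0 : 0 ≤ Kc := by linarith
  have hc30 : 0 ≤ c3 := by
    refine le_trans ?_ hc3
    have := (hSmall ∅ (by simp)).1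
    positivity
  have hexp : h * Real.log 2 = h * Real.log 2 := rfl
  -- main exploration
  have expl : ∀ (S R A Bf : Finset H) (s : H → ℝ) (d : H → ℕ) (C : Finset (Equiv.Perm H)),
      IsCyl c B S C → Val vt S R A Bf → mass A s = 1 → mass Bf s = 0 →
      (∀ u ∈ A, d u = t - h ∧ h * Real.log 2 ≤ s u ∧ s u ≤ h * Real.log Δ) →
      S.card + 2 * n ≤ nT → R.card + Δ * n ≤ rT →
      ((C.filter (fun η => F.J A Bf s d η ≤ Vm - δ)).card : ℝ)
        ≤ C.card * Real.exp (-(lam * δ) + c3 * t) := by
    intro S R A Bf s d C hC hV hmA hmB hA hS' hR'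
    have hBf : Bf = ∅ := by
      by_contra hne
      obtain ⟨z, hz⟩ := nonempty_iff_ne_empty.2 hne
      have : 0 < mass Bf s := sum_pos (fun _ _ => Real.exp_pos _) ⟨z, hz⟩
      linarith
    subst hBf
    have hbudt : bud A s d ≤ t :=
      bud_le hmA.le (fun u hu => by have := (hA u hu).1; omega)
    have key := explore_bound F hM hsq h2 hΔ (lam := lam) (ε := ε) (wm := wm)
      (Q := Q) (wmin := Real.exp (-smax)) (smax := smax) (cT := 0) (c3 := c3)
      (nE := nT) (rE := rT) hKc0 hlam (Real.exp_pos _) rfl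
      hSmall hQ hlw hwm hc3 hQ0
      (fun s _ => Real.exp (-s) ≤ wm)
      (fun s _ => Real.exp (-s) ≤ wm)
      (fun s d D hD h => by
        refine le_trans (Real.exp_le_exp.2 ?_) h
        have := Real.log_natCast_nonneg D
        linarith)
      (fun s d h => h) (fun s d h => h)
      (by
        intro S' R' A' B' s' d' C' hC' hV' hmA' hmB' hA' hB' hS' hR' hi' r'
        have hJΦ : ∀ η, F.J A' B' s' d' η = F.Φ A' B' s' d' := by
          intro η
          show ∑ u ∈ A', Real.exp (-s' u) * Gq vt smax η (d' u) (s' u) u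
            = ∑ u ∈ A', Real.exp (-s' u) * An vt c B M (d' u) (ind K smax) (c u) (s' u)
          refine sum_congr rfl fun u hu => ?_
          congr 1
          rcases hi' u hu with h0 | h0
          · rw [h0]; rfl
          · rw [Gq_support _ _ _ h0, An_support (fun k s hs => by
              unfold ind; rw [if_neg (not_le.2 hs)]) _ _ _ h0]
        by_cases hr : F.Φ A' B' s' d' ≤ r'
        · have h1 : 1 ≤ Real.exp (lam * (r' - F.Φ A' B' s' d') + 0) :=
            Real.one_le_exp (by
              rw [add_zero]; exact mul_nonneg hlam (by linarith))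
          have h4 : ((C'.filter (fun η => F.J A' B' s' d' η ≤ r')).card : ℝ) ≤ C'.card := by
            exact_mod_cast card_le_card (filter_subset _ _)
          have h3 : (0 : ℝ) ≤ C'.card := by positivity
          nlinarith
        · rw [filter_false_of_mem (fun η _ => by rw [hJΦ]; exact hr)]
          simp only [card_empty, Nat.cast_zero]
          positivity)
      n S R A ∅ s d C hC hV hmA.le (by simp [mass])
      (fun u hu => le_trans (Real.exp_le_exp.2 (by linarith [(hA u hu).2.1])) hwmh)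
      (by simp) (hbudt.trans ht) hS' hR' (Vm - δ)
    refine key.trans ?_
    apply mul_le_mul_of_nonneg_left _ (by positivity)
    apply Real.exp_le_exp.2
    have hΦ : Vm ≤ F.Φ A ∅ s d := by
      show Vm ≤ ∑ u ∈ A, Real.exp (-s u) * An vt c B M (d u) (ind K smax) (c u) (s u)
      have h1 : Vm = ∑ u ∈ A, Real.exp (-s u) * Vm := by
        rw [← sum_mul]; unfold mass at hmA; rw [hmA, one_mul]
      rw [h1]
      refine sum_le_sum fun u hu => mul_le_mul_of_nonneg_left ?_ (Real.exp_pos _).le
      rw [(hA u hu).1]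
      exact hVm _ _ (hA u hu).2.1 (hA u hu).2.2
    have e1 := mul_le_mul_of_nonneg_left hΦ hlam
    have e2 := mul_le_mul_of_nonneg_left hbudt hc30
    linarith
  have hV : Val vt ∅ (vs vt x) {x} ∅ := by
    refine ⟨by simp, ?_, by simp, by simp, by simp, by simp, ?_⟩
    · intro z hz
      rw [mem_singleton] at hz
      rw [mem_vs, hz]
    · intro z hz w hw
      rw [mem_vs] at hz ⊢
      exact hw.trans hz
  have key := phase1 F hM h2 hΔ (ε := ε) (Q := Q)
    (β := Real.exp (-(lam * δ) + c3 * t)) (r := Vm - δ) (mB := 0)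
    (nE := nT - 2 * n) (rE := r₁) (e := t - h)
    (fun S hS => hSmall S (by omega)) hQ hQ0 (Real.exp_pos _).le
    (fun s d => t - h ≤ d ∧ d ≤ t ∧ ((t - d : ℕ) : ℝ) * Real.log 2 ≤ s ∧
      s ≤ ((t - d : ℕ) : ℝ) * Real.log Δ)
    (fun s d => True)
    (by
      rintro s d D he hD2 hDΔ ⟨g1, g2, g3, g4⟩
      have e1 : t - d = (t - (d + 1)) + 1 := by omega
      have l1 : Real.log 2 ≤ Real.log D := Real.log_le_log (by norm_num) (by exact_mod_cast hD2)
      have l2 : Real.log D ≤ Real.log Δ :=
        Real.log_le_log (by have : 0 < D := by omega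
                            exact_mod_cast this) (by exact_mod_cast hDΔ)
      refine ⟨he, by omega, ?_, ?_⟩
      · rw [e1]; push_cast; linarith
      · rw [e1]; push_cast; linarith)
    (by
      intro S' R' A' B' s' d' C' hC' hV' hmA' hmB' hA' hB' hS' hR' hi'
      refine expl S' R' A' B' s' d' C' hC' hV' hmA' hmB' ?_ (by omega) (by omega)
      intro u hu
      obtain ⟨g1, g2, g3, g4⟩ := hA' u hu
      have g5 := hi' u hu
      have g6 : d' u = t - h := by omega
      have g7 : t - d' u = h := by omega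
      rw [g7] at g3 g4
      exact ⟨g6, g3, g4⟩)
    (tau Δ h) ∅ (vs vt x) {x} ∅ (fun _ => 0) (fun _ => t) (Om c B) (isCyl_empty hOm) hV
    (by simp [mass]) (by simp [mass])
    (by intro u _; simp)
    (by simp)
    (by
      rw [sum_singleton]
      have : t - (t - h) = h := by omega
      rw [this])
    (by simp only [card_empty]; omega)
    (by
      have h3 := card_vs_le hΔ x
      omega)
  have e2 : (Om c B).filter (fun η => Gq vt smax η t 0 x ≤ Vm - δ)
      = (Om c B).filter (fun η => F.J {x} ∅ (fun _ => 0) (fun _ => t) η ≤ Vm - δ) := by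
    apply filter_congr
    intro η hη
    have : F.J {x} ∅ (fun _ => 0) (fun _ => t) η = Gq vt smax η t 0 x := by
      show ∑ u ∈ {x}, Real.exp (-(0:ℝ)) * Gq vt smax η t 0 u = _
      rw [sum_singleton]; simp
    rw [this]
  rw [e2]
  exact key

/-! ### the deterministic lower bound for the distance -/

/-- end points reachable with log-weight at most `smax` -/
noncomputable def Yq (vt : H → V) (smax : ℝ) (η : Equiv.Perm H) : ℕ → ℝ → H → Finset H
  | 0, s, u => if s ≤ smax then {u} else ∅
  | n + 1, s, u => (ch vt (η u)).biUnion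
      (fun v => Yq vt smax η n (s + Real.log (ch vt (η u)).card) v)

lemma Yq_card (h2 : ∀ z : H, 2 ≤ (ch vt z).card) {smax : ℝ} {η : Equiv.Perm H} (n : ℕ) (s : ℝ)
    (u : H) : ((Yq vt smax η n s u).card : ℝ) ≤ Real.exp (smax - s) := by
  induction n generalizing s u with
  | zero =>
    unfold Yq; split_ifs with h
    · simp only [card_singleton, Nat.cast_one]
      exact Real.one_le_exp (by linarith)
    · simp; positivity
  | succ n ih =>
    have hc : (0:ℝ) < (ch vt (η u)).card := by
      have := h2 (η u); have h0 : 0 < (ch vt (η u)).card := by omega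
      exact_mod_cast h0
    calc ((Yq vt smax η (n + 1) s u).card : ℝ)
        ≤ ∑ v ∈ ch vt (η u), ((Yq vt smax η n (s + Real.log (ch vt (η u)).card) v).card : ℝ) := by
          exact_mod_cast card_biUnion_le
      _ ≤ ∑ _v ∈ ch vt (η u), Real.exp (smax - (s + Real.log (ch vt (η u)).card)) :=
          sum_le_sum fun v _ => ih _ _
      _ = Real.exp (smax - s) := by
          rw [sum_const, nsmul_eq_mul]
          have : smax - (s + Real.log (ch vt (η u)).card)
            = (smax - s) + -Real.log (ch vt (η u)).card := by ring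
          rw [this, Real.exp_add, Real.exp_neg, Real.exp_log hc]
          field_simp

lemma Gq_le {smax : ℝ} {η : Equiv.Perm H} (n : ℕ) (s : ℝ) (u : H) :
    Gq vt smax η n s u ≤ ∑ y ∈ Yq vt smax η n s u, (PM vt η ^ n) u y := by
  induction n generalizing s u with
  | zero =>
    unfold Gq Yq; split_ifs with h
    · simp
    · simp
  | succ n ih =>
    show ∑ v ∈ ch vt (η u), _ * Gq vt smax η n _ v ≤ _
    simp only [PM_pow_succ]
    rw [sum_comm]
    refine sum_le_sum fun v hv => ?_
    rw [← mul_sum]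
    apply mul_le_mul_of_nonneg_left _ (by positivity)
    refine (ih _ _).trans ?_
    refine sum_le_sum_of_subset_of_nonneg ?_ fun y _ _ => PM_pow_nonneg _ _ _ _
    exact subset_biUnion_of_mem (fun v => Yq vt smax η n (s + Real.log (ch vt (η u)).card) v) hv

lemma PM_row (h2 : ∀ z : H, 2 ≤ (ch vt z).card) (η : Equiv.Perm H) (n : ℕ) (x : H) :
    ∑ y, (PM vt η ^ n) x y = 1 := by
  induction n generalizing x with
  | zero => simp [Matrix.one_apply]
  | succ n ih =>
    simp only [PM_pow_succ]
    rw [sum_comm]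
    simp only [← mul_sum, ih, mul_one]
    rw [sum_const, nsmul_eq_mul]
    have : ((ch vt (η x)).card : ℝ) ≠ 0 := by
      have := h2 (η x); have h0 : (ch vt (η x)).card ≠ 0 := by omega
      exact_mod_cast h0
    field_simp

/-- distance to uniform from `x` -/
noncomputable def Dx (vt : H → V) (η : Equiv.Perm H) (t : ℕ) (x : H) : ℝ :=
  ∑ y, max (1 / (Fintype.card H : ℝ) - (PM vt η ^ t) x y) 0

lemma Dx_lower (h2 : ∀ z : H, 2 ≤ (ch vt z).card) {smax : ℝ} {η : Equiv.Perm H} (t : ℕ) (x : H) :
    Gq vt smax η t 0 x - Real.exp smax / Fintype.card H ≤ Dx vt η t x := by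
  have hN : (0:ℝ) < Fintype.card H := by
    have : 0 < Fintype.card H := Fintype.card_pos_iff.2 ⟨x⟩
    exact_mod_cast this
  set Y := Yq vt smax η t 0 x with hY
  have h1 : ((Y.card : ℕ) : ℝ) ≤ Real.exp smax := by
    have := Yq_card h2 (smax := smax) (η := η) t 0 x
    rwa [sub_zero] at this
  have h3 := Gq_le (vt := vt) (smax := smax) (η := η) t 0 x
  have h4 := PM_row h2 η t x
  have h5 : ∑ y ∈ Y, (PM vt η ^ t) x y + ∑ y ∈ univ \ Y, (PM vt η ^ t) x y = 1 := by
    rw [← h4, add_comm]; exact sum_sdiff (subset_univ Y)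
  have h6 : ∑ y ∈ univ \ Y, (1 / (Fintype.card H : ℝ) - (PM vt η ^ t) x y) ≤ Dx vt η t x := by
    unfold Dx
    calc _ ≤ ∑ y ∈ univ \ Y, max (1 / (Fintype.card H : ℝ) - (PM vt η ^ t) x y) 0 :=
          sum_le_sum fun y _ => le_max_left _ _
      _ ≤ _ := sum_le_sum_of_subset_of_nonneg (subset_univ _) fun y _ _ => le_max_right _ _
  rw [sum_sub_distrib, sum_const, nsmul_eq_mul] at h6
  have h7 : ((univ \ Y).card : ℝ) = Fintype.card H - Y.card := by
    rw [card_sdiff_of_subset (subset_univ _), card_univ, Nat.cast_sub (card_le_univ Y)]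
  rw [h7] at h6
  have h8 : ((Fintype.card H : ℝ) - Y.card) * (1 / Fintype.card H)
      = 1 - Y.card / Fintype.card H := by field_simp
  rw [h8] at h6
  have h9 : ((Y.card : ℕ) : ℝ) / Fintype.card H ≤ Real.exp smax / Fintype.card H :=
    div_le_div_of_nonneg_right h1 hN.le
  linarith

end Pool.Agent.W_MP_17e8f0_pr
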