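import Pool.Agent.W_MP_17e8f0_pr.Annealed2
import Pool.Agent.W_MP_17e8f0_pr.OneSided

namespace Pool.Agent.W_MP_17e8f0_pr

open Finset

variable {H V : Type*} [Fintype H] [DecidableEq H] [DecidableEq V] {K : ℕ}
variable {vt : H → V} {c : H → Fin K} {B : Fin K → Fin K → ℕ} {M : ℕ} {α : ℝ}

lemma abs_ge_poly {t θ : ℝ} (hθ : 0 < θ) :
    3 / 2 * θ * t ^ 2 - 1 / 2 * θ ^ 3 * t ^ 4 ≤ |t| := by
  set u := |t| with hu
  have hu0 : 0 ≤ u := abs_nonneg t
  have h2 : t ^ 2 = u ^ 2 := (sq_abs t).symm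
  have h4 : t ^ 4 = u ^ 4 := by
    have : t ^ 4 = (t ^ 2) ^ 2 := by ring
    rw [this, h2]; ring
  rw [h2, h4]
  have key : 0 ≤ (θ * u) * (θ * u - 1) ^ 2 * (θ * u + 2) := by positivity
  have e1 : θ * (u - (3 / 2 * θ * u ^ 2 - 1 / 2 * θ ^ 3 * u ^ 4))
      = 1 / 2 * ((θ * u) * (θ * u - 1) ^ 2 * (θ * u + 2)) := by ring
  have e2 : 0 ≤ θ * (u - (3 / 2 * θ * u ^ 2 - 1 / 2 * θ ^ 3 * u ^ 4)) := by rw [e1]; linarith only [key]
  have := nonneg_of_mul_nonneg_right e2 hθ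
  linarith only [this]

lemma pz_point {t θ lam : ℝ} (hθ : 0 < θ) (hlam : 0 < lam) :
    lam * t + lam * (3 / 2 * θ * t ^ 2 - 1 / 2 * θ ^ 3 * t ^ 4) - lam * θ / 8 - lam ^ 2 * t ^ 2
      ≤ if θ / 16 ≤ t then 1 else 0 := by
  have h1 := mul_le_mul_of_nonneg_left (abs_ge_poly (t := t) hθ) hlam.le
  split_ifs with h
  · have ht : 0 ≤ t := le_trans (by positivity) h
    rw [abs_of_nonneg ht] at h1
    nlinarith only [h1, hlam, hθ, sq_nonneg (lam * t - 1), mul_pos hlam hθ]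
  · push Not at h
    rcases le_total 0 t with ht | ht
    · rw [abs_of_nonneg ht] at h1
      nlinarith only [h1, hlam, h, mul_pos hlam hθ, sq_nonneg (lam * t)]
    · rw [abs_of_nonpos ht] at h1
      nlinarith only [h1, hlam, hθ, mul_pos hlam hθ, sq_nonneg (lam * t)]

/-- Constant for the fourth moment -/
noncomputable def C4 (K : ℕ) (Bx σ : ℝ) : ℝ :=
  4 * (K : ℝ) ^ 2 + 3 * (8 * (Bx ^ 4 / σ ^ 4) + 136 * (K : ℝ) ^ 2)

/-- the Paley-Zygmund parameter -/
noncomputable def th (K : ℕ) (Bx σ : ℝ) : ℝ := 1 / Real.sqrt (2 * C4 K Bx σ)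

lemma C4_pos (K : ℕ) (hK : 0 < K) (Bx σ : ℝ) : 0 < C4 K Bx σ := by
  unfold C4
  have h1 : (0:ℝ) < K := by exact_mod_cast hK
  have h2 : 0 ≤ Bx ^ 4 / σ ^ 4 := by positivity
  positivity

lemma th_pos (K : ℕ) (hK : 0 < K) (Bx σ : ℝ) : 0 < th K Bx σ := by
  unfold th
  have := C4_pos K hK Bx σ
  positivity

lemma th_sq (K : ℕ) (hK : 0 < K) (Bx σ : ℝ) : th K Bx σ ^ 2 * C4 K Bx σ = 1 / 2 := by
  unfold th
  have := C4_pos K hK Bx σ
  rw [div_pow, Real.sq_sqrt (by positivity)]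
  field_simp

set_option maxHeartbeats 4000000 in
/-- general Paley-Zygmund bound for the martingale, with a sign -/
lemma Ann.pz (hA : Ann c B M α) {Bx σ : ℝ} (hσ : 0 < σ) (hσ2 : σ ^ 2 ≤ sig2 vt c M)
    (hX0 : ∀ z, 0 ≤ X vt z) (hX1 : ∀ z, X vt z ≤ Bx) {n : ℕ} (hn : 2 ≤ α * n)
    (e : ℝ) (he : e ^ 2 = 1) (k : Fin K) (s : ℝ) :
    th K Bx σ ^ 2 / (32 * K) ≤ An vt c B M n (fun k' s' =>
      if th K Bx σ / 16 ≤ e * (s' + (1 - α) * gk vt c M α k'
        - (s + n * mu vt c M + (1 - α) * gk vt c M α k)) / Real.sqrt (n * nu2 vt c B M α)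
      then 1 else 0) k s := by
  have hK0 : (0:ℝ) < K := by exact_mod_cast hA.hK
  have hK1 : (1:ℝ) ≤ K := by exact_mod_cast hA.hK
  set θ := th K Bx σ with hθd
  have hθ : 0 < θ := th_pos K hA.hK Bx σ
  have hθC := th_sq K hA.hK Bx σ
  rw [← hθd] at hθC
  set ν := nu2 vt c B M α with hν
  have hνσ : σ ^ 2 ≤ ν := hσ2.trans hA.sig2_le
  have hν0 : 0 < ν := lt_of_lt_of_le (by positivity) hνσ
  have hα0 := hA.hα0
  have hα1 := hA.hα1
  have hn0 : (0:ℝ) < n := by
    by_contra h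
    have : (n:ℝ) = 0 := le_antisymm (not_lt.1 h) (by positivity)
    rw [this] at hn; linarith
  have hn1 : (1:ℝ) ≤ n := by
    have : 0 < n := by exact_mod_cast hn0
    exact_mod_cast this
  have hαn : 1 / α ≤ n / 2 := by
    rw [div_le_iff₀ hα0]; linarith
  set w2 := n * ν with hw2
  have hw20 : 0 < w2 := by positivity
  set w := Real.sqrt w2 with hw
  have hw0 : 0 < w := Real.sqrt_pos.2 hw20
  have hww : w ^ 2 = w2 := Real.sq_sqrt hw20.le
  set a := s + n * mu vt c M + (1 - α) * gk vt c M α k with ha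
  set lam := θ / (8 * K) with hlam
  have hlam0 : 0 < lam := by positivity
  -- moments
  have m1 : An vt c B M n (fun k' s' => s' + (1 - α) * gk vt c M α k' - a) k s = 0 := by
    rw [hA.first]; rw [ha]; ring
  have m2 : An vt c B M n (fun k' s' => (s' + (1 - α) * gk vt c M α k' - a) ^ 2) k s
      = Rk vt c B M α n k := by
    rw [hA.second]
    have : s + n * mu vt c M + (1 - α) * gk vt c M α k - a = 0 := by rw [ha]; ring
    rw [this]; ring
  have m2l : w2 / 2 ≤ Rk vt c B M α n k := by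
    refine le_trans ?_ (hA.Rk_ge n k)
    rw [hw2, ← hν]
    nlinarith only [hαn, hνσ]
  have m2u : Rk vt c B M α n k ≤ K * w2 := by
    refine (hA.Rk_le n k).trans (le_of_eq ?_)
    rw [hw2]; ring
  have m4 : An vt c B M n (fun k' s' => (s' + (1 - α) * gk vt c M α k' - a) ^ 4) k s
      ≤ C4 K Bx σ * w2 ^ 2 := by
    refine (hA.fourth (hA.fourth_zet hX0 hX1) n a k s).trans ?_
    have : s + n * mu vt c M + (1 - α) * gk vt c M α k - a = 0 := by rw [ha]; ring
    rw [this, ← hν]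
    have e1 : Bx ^ 4 ≤ Bx ^ 4 / σ ^ 4 * ν ^ 2 := by
      rw [div_mul_eq_mul_div, le_div_iff₀ (by positivity)]
      apply mul_le_mul_of_nonneg_left _ (by positivity)
      calc σ ^ 4 = (σ ^ 2) ^ 2 := by ring
        _ ≤ ν ^ 2 := pow_le_pow_left₀ (by positivity) hνσ 2
    have e2 : (K * ν) ^ 2 / α ≤ (K * ν) ^ 2 * n := by
      rw [div_eq_mul_one_div]
      apply mul_le_mul_of_nonneg_left _ (by positivity)
      linarith only [hn0, hαn]
    have e3 : 3 * (n:ℝ) * (8 * Bx ^ 4 + 136 * ((K * ν) ^ 2 / α))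
        ≤ 3 * n * (8 * (Bx ^ 4 / σ ^ 4 * ν ^ 2) + 136 * ((K * ν) ^ 2 * n)) := by
      apply mul_le_mul_of_nonneg_left _ (by positivity)
      linarith only [e1, e2]
    have e4 : 3 * (n:ℝ) * (8 * (Bx ^ 4 / σ ^ 4 * ν ^ 2))
        ≤ 3 * n * (8 * (Bx ^ 4 / σ ^ 4 * ν ^ 2)) * n := by
      have : 0 ≤ 3 * (n:ℝ) * (8 * (Bx ^ 4 / σ ^ 4 * ν ^ 2)) := by positivity
      nlinarith only [this, hn, hα0, hα1]
    unfold C4
    rw [hw2]
    nlinarith only [e3, e4]
  -- pointwise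
  have hpt : ∀ (k' : Fin K) (s' : ℝ),
      (lam * e / w) * (s' + (1 - α) * gk vt c M α k' - a)
      + (((lam * (3 / 2 * θ) - lam ^ 2) / w2) * (s' + (1 - α) * gk vt c M α k' - a) ^ 2
      + ((-(lam * (1 / 2 * θ ^ 3)) / w2 ^ 2) * (s' + (1 - α) * gk vt c M α k' - a) ^ 4
      + -(lam * θ / 8)))
      ≤ if θ / 16 ≤ e * (s' + (1 - α) * gk vt c M α k' - a) / w then 1 else 0 := by
    intro k' s'
    have h := pz_point (t := e * (s' + (1 - α) * gk vt c M α k' - a) / w) hθ hlam0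
    refine le_trans (le_of_eq ?_) h
    have he4 : e ^ 4 = 1 := by
      have : e ^ 4 = (e ^ 2) ^ 2 := by ring
      rw [this, he]; norm_num
    have p2 : (e * (s' + (1 - α) * gk vt c M α k' - a) / w) ^ 2
        = (s' + (1 - α) * gk vt c M α k' - a) ^ 2 / w2 := by
      rw [div_pow, mul_pow, he, hww, one_mul]
    have p4 : (e * (s' + (1 - α) * gk vt c M α k' - a) / w) ^ 4
        = (s' + (1 - α) * gk vt c M α k' - a) ^ 4 / w2 ^ 2 := by
      have : w ^ 4 = w2 ^ 2 := by rw [← hww]; ring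
      rw [div_pow, mul_pow, he4, this, one_mul]
    rw [p2, p4]
    ring
  refine le_trans ?_ (An_mono hpt n k s)
  rw [An_add (vt := vt) (c := c) (B := B) (M := M)
      (fun k' s' => (lam * e / w) * (s' + (1 - α) * gk vt c M α k' - a)),
    An_add (vt := vt) (c := c) (B := B) (M := M)
      (fun k' s' => ((lam * (3 / 2 * θ) - lam ^ 2) / w2)
        * (s' + (1 - α) * gk vt c M α k' - a) ^ 2),
    An_add (vt := vt) (c := c) (B := B) (M := M)
      (fun k' s' => (-(lam * (1 / 2 * θ ^ 3)) / w2 ^ 2)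
        * (s' + (1 - α) * gk vt c M α k' - a) ^ 4) (fun _ _ => -(lam * θ / 8)),
    An_const hA.hsq,
    An_smul (vt := vt) (c := c) (B := B) (M := M) (lam * e / w),
    An_smul (vt := vt) (c := c) (B := B) (M := M) ((lam * (3 / 2 * θ) - lam ^ 2) / w2)
      (fun k' s' => (s' + (1 - α) * gk vt c M α k' - a) ^ 2),
    An_smul (vt := vt) (c := c) (B := B) (M := M) (-(lam * (1 / 2 * θ ^ 3)) / w2 ^ 2)
      (fun k' s' => (s' + (1 - α) * gk vt c M α k' - a) ^ 4), m1, m2]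
  have q1 : lam * (3 / 2 * θ) * (1 / 2) - lam ^ 2 * K
      ≤ (lam * (3 / 2 * θ) - lam ^ 2) / w2 * Rk vt c B M α n k := by
    have e1 : (lam * (3 / 2 * θ) - lam ^ 2) / w2 * Rk vt c B M α n k
        = lam * (3 / 2 * θ) * (Rk vt c B M α n k / w2) - lam ^ 2 * (Rk vt c B M α n k / w2) := by
      ring
    rw [e1]
    have e2 : 1 / 2 ≤ Rk vt c B M α n k / w2 := by
      rw [le_div_iff₀ hw20]; linarith
    have e3 : Rk vt c B M α n k / w2 ≤ K := by
      rw [div_le_iff₀ hw20]; exact m2u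
    have e4 := mul_le_mul_of_nonneg_left e2 (show 0 ≤ lam * (3 / 2 * θ) by positivity)
    have e5 := mul_le_mul_of_nonneg_left e3 (show 0 ≤ lam ^ 2 by positivity)
    linarith only [e4, e5]
  have q2 : -(lam * (1 / 2 * θ ^ 3)) * C4 K Bx σ ≤ -(lam * (1 / 2 * θ ^ 3)) / w2 ^ 2 *
      An vt c B M n (fun k' s' => (s' + (1 - α) * gk vt c M α k' - a) ^ 4) k s := by
    have e1 : An vt c B M n (fun k' s' => (s' + (1 - α) * gk vt c M α k' - a) ^ 4) k s / w2 ^ 2
        ≤ C4 K Bx σ := by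
      rw [div_le_iff₀ (by positivity)]; exact m4
    have e2 := mul_le_mul_of_nonneg_left e1 (show 0 ≤ lam * (1 / 2 * θ ^ 3) by positivity)
    have e3 : -(lam * (1 / 2 * θ ^ 3)) / w2 ^ 2 *
      An vt c B M n (fun k' s' => (s' + (1 - α) * gk vt c M α k' - a) ^ 4) k s
      = -(lam * (1 / 2 * θ ^ 3) * (An vt c B M n (fun k' s' =>
        (s' + (1 - α) * gk vt c M α k' - a) ^ 4) k s / w2 ^ 2)) := by ring
    rw [e3]; linarith only [e2]
  have q3 : -(lam * (1 / 2 * θ ^ 3)) * C4 K Bx σ = -(lam * θ / 4) := by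
    have : -(lam * (1 / 2 * θ ^ 3)) * C4 K Bx σ = -(lam * (1 / 2) * θ) * (θ ^ 2 * C4 K Bx σ) := by
      ring
    rw [this, hθC]; ring
  have q4 : lam ^ 2 * K = lam * θ / 8 := by
    rw [hlam]; field_simp
  have q5 : θ ^ 2 / (32 * K) = lam * θ / 4 := by
    rw [hlam]; field_simp; norm_num
  rw [q5]
  rw [q3] at q2
  rw [q4] at q1
  nlinarith only [q1, q2]

/-- upper tail has positive probability -/
lemma Ann.pz_up (hA : Ann c B M α) {Bx σ : ℝ} (hσ : 0 < σ) (hσ2 : σ ^ 2 ≤ sig2 vt c M)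
    (hX0 : ∀ z, 0 ≤ X vt z) (hX1 : ∀ z, X vt z ≤ Bx) {n : ℕ} (hn : 2 ≤ α * n)
    (hn2 : 4096 * K / th K Bx σ ^ 2 ≤ α * n) {m : ℝ} (k : Fin K) (s : ℝ)
    (hm : m ≤ s + n * mu vt c M + th K Bx σ / 32 * Real.sqrt (n * nu2 vt c B M α)) :
    th K Bx σ ^ 2 / (32 * K) ≤ An vt c B M n (fun _ s' => if m ≤ s' then 1 else 0) k s := by
  have hK0 : (0:ℝ) < K := by exact_mod_cast hA.hK
  have hθ : 0 < th K Bx σ := th_pos K hA.hK Bx σ
  have hν0 : 0 < nu2 vt c B M α := lt_of_lt_of_le (by positivity) (hσ2.trans hA.sig2_le)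
  have hα0 := hA.hα0
  have hn0 : (0:ℝ) < n := by
    by_contra h
    have : (n:ℝ) = 0 := le_antisymm (not_lt.1 h) (by positivity)
    rw [this] at hn; linarith
  set w := Real.sqrt (n * nu2 vt c B M α) with hw
  have hw0 : 0 < w := Real.sqrt_pos.2 (by positivity)
  have hww : w ^ 2 = n * nu2 vt c B M α := Real.sq_sqrt (by positivity)
  refine (hA.pz hσ hσ2 hX0 hX1 hn 1 (by norm_num) k s).trans (An_mono ?_ n k s)
  intro k' s'
  have hle : (if m ≤ s' then (1:ℝ) else 0) = if m ≤ s' then (1:ℝ) else 0 := rfl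
  split_ifs with h1 h2 h2
  · exact le_rfl
  · exfalso
    apply h2
    rw [one_mul, div_le_div_iff₀ (by norm_num) hw0] at h1
    -- correction terms
    have g1 : |(1 - α) * (gk vt c M α k' - gk vt c M α k)| ≤ th K Bx σ / 32 * w := by
      apply abs_le_of_sq_le_sq _ (by positivity)
      have e1 := hA.gk_sq (vt := vt) k
      have e2 := hA.gk_sq (vt := vt) k'
      have e3 : ((1 - α) * (gk vt c M α k' - gk vt c M α k)) ^ 2
          ≤ 4 * (K * nu2 vt c B M α / α) := by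
        have e4 : (gk vt c M α k' - gk vt c M α k) ^ 2 ≤ 4 * (K * nu2 vt c B M α / α) := by
          nlinarith only [e1, e2, sq_nonneg (gk vt c M α k + gk vt c M α k')]
        rw [mul_pow]
        have e5 : (1 - α) ^ 2 ≤ 1 := by nlinarith only [hn, hA, hA.hα0, hA.hα1]
        nlinarith only [e4, e5, sq_nonneg (gk vt c M α k' - gk vt c M α k)]
      refine e3.trans ?_
      rw [mul_pow, hww]
      rw [div_le_iff₀ (by positivity)] at hn2
      have e6 : 4 * (K * nu2 vt c B M α / α) = 4096 * K * nu2 vt c B M α / (1024 * α) := by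
        field_simp; norm_num
      rw [e6, div_le_iff₀ (by positivity)]
      have := mul_le_mul_of_nonneg_right hn2 hν0.le
      calc 4096 * K * nu2 vt c B M α ≤ α * n * th K Bx σ ^ 2 * nu2 vt c B M α := this
        _ = _ := by ring
    have g2 := (abs_le.1 g1).2
    nlinarith only [hm, h1, h2, g2]
  · norm_num
  · exact le_rfl

/-- lower tail has positive probability -/
lemma Ann.pz_low (hA : Ann c B M α) {Bx σ : ℝ} (hσ : 0 < σ) (hσ2 : σ ^ 2 ≤ sig2 vt c M)
    (hX0 : ∀ z, 0 ≤ X vt z) (hX1 : ∀ z, X vt z ≤ Bx) {n : ℕ} (hn : 2 ≤ α * n)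
    (hn2 : 4096 * K / th K Bx σ ^ 2 ≤ α * n) {m : ℝ} (k : Fin K) (s : ℝ)
    (hm : s + n * mu vt c M - th K Bx σ / 32 * Real.sqrt (n * nu2 vt c B M α) ≤ m) :
    th K Bx σ ^ 2 / (32 * K) ≤ An vt c B M n (ind K m) k s := by
  have hK0 : (0:ℝ) < K := by exact_mod_cast hA.hK
  have hθ : 0 < th K Bx σ := th_pos K hA.hK Bx σ
  have hν0 : 0 < nu2 vt c B M α := lt_of_lt_of_le (by positivity) (hσ2.trans hA.sig2_le)
  have hα0 := hA.hα0
  have hn0 : (0:ℝ) < n := by
    by_contra h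
    have : (n:ℝ) = 0 := le_antisymm (not_lt.1 h) (by positivity)
    rw [this] at hn; linarith
  set w := Real.sqrt (n * nu2 vt c B M α) with hw
  have hw0 : 0 < w := Real.sqrt_pos.2 (by positivity)
  have hww : w ^ 2 = n * nu2 vt c B M α := Real.sq_sqrt (by positivity)
  refine (hA.pz hσ hσ2 hX0 hX1 hn (-1) (by norm_num) k s).trans (An_mono ?_ n k s)
  intro k' s'
  unfold ind
  split_ifs with h1 h2 h2
  · exact le_rfl
  · exfalso
    apply h2
    rw [div_le_div_iff₀ (by norm_num) hw0] at h1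
    have g1 : |(1 - α) * (gk vt c M α k' - gk vt c M α k)| ≤ th K Bx σ / 32 * w := by
      apply abs_le_of_sq_le_sq _ (by positivity)
      have e1 := hA.gk_sq (vt := vt) k
      have e2 := hA.gk_sq (vt := vt) k'
      have e3 : ((1 - α) * (gk vt c M α k' - gk vt c M α k)) ^ 2
          ≤ 4 * (K * nu2 vt c B M α / α) := by
        have e4 : (gk vt c M α k' - gk vt c M α k) ^ 2 ≤ 4 * (K * nu2 vt c B M α / α) := by
          nlinarith only [e1, e2, sq_nonneg (gk vt c M α k + gk vt c M α k')]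
        rw [mul_pow]
        have e5 : (1 - α) ^ 2 ≤ 1 := by nlinarith only [hn, hA, hA.hα0, hA.hα1]
        nlinarith only [e4, e5, sq_nonneg (gk vt c M α k' - gk vt c M α k)]
      refine e3.trans ?_
      rw [mul_pow, hww]
      rw [div_le_iff₀ (by positivity)] at hn2
      have e6 : 4 * (K * nu2 vt c B M α / α) = 4096 * K * nu2 vt c B M α / (1024 * α) := by
        field_simp; norm_num
      rw [e6, div_le_iff₀ (by positivity)]
      have := mul_le_mul_of_nonneg_right hn2 hν0.le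
      calc 4096 * K * nu2 vt c B M α ≤ α * n * th K Bx σ ^ 2 * nu2 vt c B M α := this
        _ = _ := by ring
    have g2 := (abs_le.1 g1).1
    nlinarith only [hm, h1, h2, g2]
  · norm_num
  · exact le_rfl

/-- a joint event with a prescribed final class -/
lemma Ann.joint (hA : Ann c B M α) {p0 : ℝ} {n₀ L : ℕ} {m b : ℝ} (hb : 0 < b) (k l : Fin K) (s : ℝ)
    (h0 : p0 ≤ An vt c B M n₀ (fun _ s' => if m - L * mu vt c M + b ≤ s' then 1 else 0) k s)
    (hpc : 0 ≤ (1 - (1 - α) ^ L) / K - VV vt c B M α L / b ^ 2) :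
    p0 * ((1 - (1 - α) ^ L) / K - VV vt c B M α L / b ^ 2)
      ≤ An vt c B M (n₀ + L) (fun k' s' => if k' = l ∧ m ≤ s' then 1 else 0) k s := by
  have hK : (K : ℝ) ≠ 0 := by exact_mod_cast hA.hK.ne'
  rw [An_comp]
  have hpt : ∀ (k' : Fin K) (s' : ℝ), ((1 - (1 - α) ^ L) / K - VV vt c B M α L / b ^ 2) *
      (if m - L * mu vt c M + b ≤ s' then 1 else 0)
      ≤ An vt c B M L (fun k' s' => if k' = l ∧ m ≤ s' then 1 else 0) k' s' := by
    intro k' s'
    split_ifs with h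
    · rw [mul_one]
      have h1 : ∀ (k₁ : Fin K) (s₁ : ℝ), (if k₁ = l then (1:ℝ) else 0)
          + (-1) * (if s₁ < m then 1 else 0) ≤ if k₁ = l ∧ m ≤ s₁ then 1 else 0 := by
        intro k₁ s₁
        by_cases a1 : k₁ = l <;> by_cases a2 : m ≤ s₁
        · simp [a1, a2, not_lt.2 a2]
        · simp [a1, a2, not_le.1 a2]
        · simp [a1, not_lt.2 a2]
        · simp [a1, not_le.1 a2]
      refine le_trans ?_ (An_mono h1 L k' s')
      rw [An_add (vt := vt) (c := c) (B := B) (M := M) (fun k₁ _ => if k₁ = l then (1:ℝ) else 0),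
        An_smul (vt := vt) (c := c) (B := B) (M := M) (-1) (fun _ s₁ => if s₁ < m then 1 else 0),
        hA.class_law L (fun k₁ => if k₁ = l then (1:ℝ) else 0)]
      have h2 := hA.cheb_low L k' s' hb (m := m) (by linarith)
      have h3 : ∑ k₁ : Fin K, (if k₁ = l then (1:ℝ) else 0) = 1 := by simp
      rw [h3]
      have h4 : 0 ≤ (1 - α) ^ L * (if k' = l then (1:ℝ) else 0) := by
        have : 0 ≤ 1 - α := by linarith [hA.hα1]
        split_ifs <;> positivity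
      have h5 : (1 - (1 - α) ^ L) * (1 / (K:ℝ)) = (1 - (1 - α) ^ L) / K := by ring
      rw [h5]
      linarith only [h2, h4]
    · rw [mul_zero]
      exact An_nonneg (fun _ _ => by split_ifs <;> norm_num) _ _ _
  refine le_trans ?_ (An_mono hpt n₀ k s)
  rw [An_smul]
  rw [mul_comm]
  exact mul_le_mul_of_nonneg_left h0 hpc

/-- first lower bound for the two-sided value -/
lemma Ann.v2_lower1 (hA : Ann c B M α) {Nn smax lth Kc : ℝ} (hNn : Nn = K * M) (hKc : (K:ℝ) ≤ Kc)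
    {n n' : ℕ} {k k' : Fin K} {s s' : ℝ} {m₁ m₂ : ℝ} (hm : lth ≤ m₁ + m₂) {e₁ e₂ f₁ f₂ : ℝ}
    (h1 : An vt c B M n (fun _ s' => if smax < s' then 1 else 0) k s ≤ e₁)
    (h2 : An vt c B M n' (fun _ s' => if smax < s' then 1 else 0) k' s' ≤ e₂)
    (h3 : An vt c B M n (fun _ s' => if s' < m₁ then 1 else 0) k s ≤ f₁)
    (h4 : An vt c B M n' (fun _ s' => if s' < m₂ then 1 else 0) k' s' ≤ f₂) :
    1 - (1 - α) ^ n' - Kc * (e₁ + e₂ + f₁ + f₂)
      ≤ v2 vt c B M (Frew B M Nn smax lth) k s n k' s' n' := by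
  have hK0 : (0:ℝ) < K := by exact_mod_cast hA.hK
  have hM0 : (0:ℝ) < M := by exact_mod_cast hA.hM0
  have hKc0 : 0 ≤ Kc := hK0.le.trans hKc
  have hκ : ∀ a b, Nn * q B M a b = K * (1 - α) * (if a = b then 1 else 0) + α := by
    intro a b
    rw [hNn, hA.hq]; field_simp
  have hκ1 : ∀ a b, Nn * q B M a b ≤ Kc := by
    intro a b
    rw [hκ]
    refine le_trans ?_ hKc
    have hα0 := hA.hα0
    have hα1 := hA.hα1
    have hK1 : (1:ℝ) ≤ K := by exact_mod_cast hA.hK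
    split_ifs
    · nlinarith only [hα0, hK1]
    · nlinarith only [hα1, hK1]
  have hκ0 : ∀ a b, 0 ≤ Nn * q B M a b := fun a b =>
    mul_nonneg (by rw [hNn]; positivity) (q_nonneg _ _ _)
  have hpt : ∀ (k₁ : Fin K) (s₁ : ℝ) (k₂ : Fin K) (s₂ : ℝ),
      (Nn * q B M k₁ k₂ + (-Kc) * ((if smax < s₁ then 1 else 0) + (if s₁ < m₁ then 1 else 0)))
        + ((-Kc) * (if smax < s₂ then 1 else 0) + (-Kc) * (if s₂ < m₂ then 1 else 0))
      ≤ Frew B M Nn smax lth k₁ s₁ k₂ s₂ := by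
    intro k₁ s₁ k₂ s₂
    have g1 := hκ1 k₁ k₂
    have g0 := hκ0 k₁ k₂
    have i1 : (0:ℝ) ≤ if smax < s₁ then 1 else 0 := by split_ifs <;> norm_num
    have i2 : (0:ℝ) ≤ if smax < s₂ then 1 else 0 := by split_ifs <;> norm_num
    have i3 : (0:ℝ) ≤ if s₁ < m₁ then 1 else 0 := by split_ifs <;> norm_num
    have i4 : (0:ℝ) ≤ if s₂ < m₂ then 1 else 0 := by split_ifs <;> norm_num
    have j1 := mul_nonneg hKc0 i1
    have j2 := mul_nonneg hKc0 i2
    have j3 := mul_nonneg hKc0 i3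
    have j4 := mul_nonneg hKc0 i4
    by_cases a0 : s₁ ≤ smax ∧ s₂ ≤ smax ∧ lth ≤ s₁ + s₂
    · have e : Frew B M Nn smax lth k₁ s₁ k₂ s₂ = Nn * q B M k₁ k₂ := by
        unfold Frew; rw [if_pos a0]
      rw [e]; linarith
    · have e : Frew B M Nn smax lth k₁ s₁ k₂ s₂ = 0 := by
        unfold Frew; rw [if_neg a0]
      rw [e]
      have hsum : (1:ℝ) ≤ (if smax < s₁ then 1 else 0) + (if s₁ < m₁ then 1 else 0)
          + (if smax < s₂ then 1 else 0) + (if s₂ < m₂ then 1 else 0) := by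
        by_cases b1 : smax < s₁
        · rw [if_pos b1]; linarith
        · by_cases b2 : smax < s₂
          · rw [if_pos b2]; linarith
          · by_cases b3 : s₁ < m₁
            · rw [if_pos b3]; linarith
            · by_cases b4 : s₂ < m₂
              · rw [if_pos b4]; linarith
              · exfalso
                push Not at b1 b2 b3 b4
                exact a0 ⟨b1, b2, by linarith⟩
      have := mul_le_mul_of_nonneg_left hsum hKc0
      linarith
  unfold v2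
  have hinner : ∀ (k₁ : Fin K) (s₁ : ℝ),
      (1 - (1 - α) ^ n' - Kc * (e₂ + f₂)) + ((-Kc) * (if smax < s₁ then 1 else 0)
        + (-Kc) * (if s₁ < m₁ then 1 else 0))
      ≤ An vt c B M n' (fun k₂ s₂ => Frew B M Nn smax lth k₁ s₁ k₂ s₂) k' s' := by
    intro k₁ s₁
    refine le_trans ?_ (An_mono (hpt k₁ s₁) n' k' s')
    rw [An_add (vt := vt) (c := c) (B := B) (M := M)
      (fun k₂ _ => Nn * q B M k₁ k₂ + (-Kc) * ((if smax < s₁ then 1 else 0)
        + (if s₁ < m₁ then 1 else 0)))]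
    rw [An_add (vt := vt) (c := c) (B := B) (M := M)
      (fun _ s₂ => (-Kc) * (if smax < s₂ then 1 else 0))]
    rw [An_smul (vt := vt) (c := c) (B := B) (M := M) (-Kc)
      (fun _ s₂ => if smax < s₂ then 1 else 0)]
    rw [An_smul (vt := vt) (c := c) (B := B) (M := M) (-Kc)
      (fun _ s₂ => if s₂ < m₂ then 1 else 0)]
    rw [hA.class_law n' (fun k₂ => Nn * q B M k₁ k₂ + (-Kc) * ((if smax < s₁ then 1 else 0)
        + (if s₁ < m₁ then 1 else 0)))]
    have hsum : (∑ l, (Nn * q B M k₁ l + (-Kc) * ((if smax < s₁ then 1 else 0)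
        + (if s₁ < m₁ then 1 else 0)))) / K
        = 1 + (-Kc) * ((if smax < s₁ then 1 else 0) + (if s₁ < m₁ then 1 else 0)) := by
      rw [sum_add_distrib]
      simp only [hκ, sum_const, card_univ, Fintype.card_fin, nsmul_eq_mul]
      rw [sum_add_distrib, ← mul_sum]
      simp only [sum_ite_eq, mem_univ, if_true, sum_const, card_univ, Fintype.card_fin,
        nsmul_eq_mul]
      field_simp
      ring
    rw [hsum]
    have hρ0 : 0 ≤ (1 - α) ^ n' := pow_nonneg (by linarith [hA.hα1]) _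
    have e1 := mul_nonneg hρ0 (hκ0 k₁ k')
    have e2 := mul_le_mul_of_nonneg_left h2 hKc0
    have e3 := mul_le_mul_of_nonneg_left h4 hKc0
    nlinarith only [e1, e2, e3]
  refine le_trans ?_ (An_mono hinner n k s)
  rw [An_add (vt := vt) (c := c) (B := B) (M := M) (fun _ _ => 1 - (1 - α) ^ n' - Kc * (e₂ + f₂)),
    An_add (vt := vt) (c := c) (B := B) (M := M)
      (fun _ s₂ => (-Kc) * (if smax < s₂ then 1 else 0)),
    An_smul (vt := vt) (c := c) (B := B) (M := M) (-Kc)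
      (fun _ s₂ => if smax < s₂ then 1 else 0),
    An_smul (vt := vt) (c := c) (B := B) (M := M) (-Kc)
      (fun _ s₂ => if s₂ < m₁ then 1 else 0), An_const hA.hsq]
  have e2 := mul_le_mul_of_nonneg_left h1 hKc0
  have e3 := mul_le_mul_of_nonneg_left h3 hKc0
  linarith

/-- second lower bound for the two-sided value -/
lemma Ann.v2_lower2 (hA : Ann c B M α) {Nn smax lth : ℝ} (hNn : Nn = K * M)
    {n n' : ℕ} {k k' : Fin K} {s s' : ℝ} {m₁ m₂ : ℝ} (hm : lth ≤ m₁ + m₂) {p₁ p₂ : ℝ}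
    (hp2 : 0 ≤ p₂)
    (h1 : ∀ l, p₁ ≤ An vt c B M n (fun k' s' => if k' = l ∧ m₁ ≤ s' ∧ s' ≤ smax then 1 else 0) k s)
    (h2 : ∀ l, p₂ ≤ An vt c B M n' (fun k' s' => if k' = l ∧ m₂ ≤ s' ∧ s' ≤ smax then 1 else 0)
      k' s') (hp1 : 0 ≤ p₁) :
    p₁ * p₂ ≤ v2 vt c B M (Frew B M Nn smax lth) k s n k' s' n' := by
  have hK0 : (0:ℝ) < K := by exact_mod_cast hA.hK
  have hK1 : (1:ℝ) ≤ K := by exact_mod_cast hA.hK
  have hM0 : (0:ℝ) < M := by exact_mod_cast hA.hM0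
  set f : Fin K → Fin K → ℝ → ℝ := fun l k₁ s₁ =>
    if k₁ = l ∧ m₁ ≤ s₁ ∧ s₁ ≤ smax then 1 else 0 with hf
  set g : Fin K → Fin K → ℝ → ℝ := fun l k₂ s₂ =>
    if k₂ = l ∧ m₂ ≤ s₂ ∧ s₂ ≤ smax then 1 else 0 with hg
  have hf0 : ∀ l a b, 0 ≤ f l a b := fun l a b => by simp only [hf]; split_ifs <;> norm_num
  have hpt : ∀ (k₁ : Fin K) (s₁ : ℝ) (k₂ : Fin K) (s₂ : ℝ),
      ∑ l, f l k₁ s₁ * g l k₂ s₂ ≤ Frew B M Nn smax lth k₁ s₁ k₂ s₂ := by
    intro k₁ s₁ k₂ s₂
    have h0 := Frew_nonneg (B := B) (M := M) (smax := smax) (lth := lth)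
      (show 0 ≤ Nn by rw [hNn]; positivity) k₁ s₁ k₂ s₂
    by_cases a1 : m₁ ≤ s₁ ∧ s₁ ≤ smax
    · by_cases a2 : m₂ ≤ s₂ ∧ s₂ ≤ smax
      · by_cases a3 : k₁ = k₂
        · have e1 : ∑ l, f l k₁ s₁ * g l k₂ s₂ = 1 := by
            rw [sum_eq_single k₁]
            · simp [hf, hg, a1, a2, a3]
            · intro l _ hl
              simp [hf, hl.symm]
            · simp
          rw [e1]
          unfold Frew
          rw [if_pos ⟨a1.2, a2.2, by linarith [a1.1, a2.1]⟩, hNn, hA.hq, if_pos a3]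
          have : (K:ℝ) * M * (((1 - α) * 1 + α / K) / M) = K * (1 - α) + α := by field_simp
          rw [this]
          nlinarith only [hK1, hA, hA.hα0, hA.hα1]
        · have e1 : ∑ l, f l k₁ s₁ * g l k₂ s₂ = 0 := by
            refine sum_eq_zero fun l _ => ?_
            by_cases a4 : k₁ = l
            · have : k₂ ≠ l := fun h => a3 (a4.trans h.symm)
              simp [hg, this]
            · simp [hf, a4]
          rw [e1]; exact h0
      · have e1 : ∑ l, f l k₁ s₁ * g l k₂ s₂ = 0 := by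
          refine sum_eq_zero fun l _ => ?_
          have : g l k₂ s₂ = 0 := by simp only [hg]; rw [if_neg]; tauto
          rw [this, mul_zero]
        rw [e1]; exact h0
    · have e1 : ∑ l, f l k₁ s₁ * g l k₂ s₂ = 0 := by
        refine sum_eq_zero fun l _ => ?_
        have : f l k₁ s₁ = 0 := by simp only [hf]; rw [if_neg]; tauto
        rw [this, zero_mul]
      rw [e1]; exact h0
  unfold v2
  have hinner : ∀ (k₁ : Fin K) (s₁ : ℝ), ∑ l, p₂ * f l k₁ s₁
      ≤ An vt c B M n' (fun k₂ s₂ => Frew B M Nn smax lth k₁ s₁ k₂ s₂) k' s' := by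
    intro k₁ s₁
    refine le_trans ?_ (An_mono (hpt k₁ s₁) n' k' s')
    rw [An_sum univ (fun l => f l k₁ s₁) g]
    refine sum_le_sum fun l _ => ?_
    rw [mul_comm]
    exact mul_le_mul_of_nonneg_left (h2 l) (hf0 _ _ _)
  refine le_trans ?_ (An_mono hinner n k s)
  rw [An_sum univ (fun _ => p₂) f]
  calc p₁ * p₂ = p₂ * p₁ := mul_comm _ _
    _ ≤ ∑ _l : Fin K, p₂ * p₁ := by
        rw [sum_const, card_univ, Fintype.card_fin, nsmul_eq_mul]
        nlinarith [mul_nonneg hp2 hp1]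
    _ ≤ _ := sum_le_sum fun l _ => mul_le_mul_of_nonneg_left (h1 l) hp2

end Pool.Agent.W_MP_17e8f0_pr
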