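import Pool.Agent.W_MP_17e8f0_pr.Hall

namespace Pool.Agent.W_MP_17e8f0_pr

open Finset

variable {H V : Type*} [Fintype H] [DecidableEq H] [DecidableEq V] {K : ℕ}
variable {vt : H → V} {c : H → Fin K} {B : Fin K → Fin K → ℕ} {M : ℕ}

theorem pairs_bound (hM : ∀ k, (univ.filter (fun x => c x = k)).card = M)
    {ε Q : ℝ} {nT : ℕ} (hSmall : ∀ S : Finset H, S.card ≤ nT → Small B S ε)
    (hQ : ∀ k l, q B M k l ≤ Q) (hQ0 : 0 ≤ Q) :
    ∀ (k : ℕ) (a b : Fin k → H) (S : Finset H) (C : Finset (Equiv.Perm H)), IsCyl c B S C →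
      (∀ i, a i ∉ S) → (∀ i, b i ∉ S) → Function.Injective a → Function.Injective b →
      (∀ i j, a i ≠ b j) → S.card + 2 * k ≤ nT →
      ((C.filter (fun η => ∀ i, η (a i) = b i)).card : ℝ) ≤ C.card * (2 * Q) ^ k := by
  intro k
  induction k with
  | zero =>
    intro a b S C hC _ _ _ _ _ _
    rw [pow_zero, mul_one]
    exact_mod_cast card_le_card (filter_subset _ _)
  | succ k ih =>
    intro a b S C hC ha hb hai hbi hab hS
    have e1 : C.filter (fun η => ∀ i, η (a i) = b i)
        = (C.filter (fun η => η (a 0) = b 0)).filter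
            (fun η => ∀ i : Fin k, η (a i.succ) = b i.succ) := by
      ext η
      simp only [mem_filter]
      rw [Fin.forall_fin_succ]
      tauto
    rw [e1]
    have hT := T_le hC M hM (hSmall S (by omega)) (ha 0) (b 0)
    by_cases hne : (C.filter (fun η => η (a 0) = b 0)).Nonempty
    · obtain ⟨η₁, hη₁⟩ := hne
      have hC' : IsCyl c B (insert (a 0) (insert (b 0) S)) (C.filter (fun η => η (a 0) = b 0)) := by
        have := hC.extend (mem_filter.1 hη₁).1 (a 0)
        rwa [(mem_filter.1 hη₁).2] at this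
      have := ih (fun i => a i.succ) (fun i => b i.succ) _ _ hC'
        (by
          intro i
          simp only [mem_insert, not_or]
          exact ⟨fun h => (Fin.succ_ne_zero i) (hai h), hab _ _, ha _⟩)
        (by
          intro i
          simp only [mem_insert, not_or]
          exact ⟨(hab _ _).symm, fun h => (Fin.succ_ne_zero i) (hbi h), hb _⟩)
        (fun i j h => Fin.succ_injective _ (hai h))
        (fun i j h => Fin.succ_injective _ (hbi h))
        (fun i j => hab _ _)
        (by have := card_S_step S (a 0) (b 0); omega)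
      calc _ ≤ _ := this
        _ ≤ ((2 * Q) * C.card) * (2 * Q) ^ k := by
            apply mul_le_mul_of_nonneg_right _ (by positivity)
            refine hT.trans ?_
            apply mul_le_mul_of_nonneg_right _ (by positivity)
            have := (hSmall S (by omega)).2.1
            exact mul_le_mul (by linarith) (hQ _ _) (q_nonneg _ _ _) (by norm_num)
        _ = _ := by ring
    · rw [not_nonempty_iff_eq_empty] at hne
      rw [hne]; simp only [filter_empty, card_empty, Nat.cast_zero]
      positivity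

/-- the half-edges at the vertices of `r 0, r 1, ...` -/
def Zr (vt : H → V) {m : ℕ} (r : Fin m → H) : Finset H := univ.biUnion (fun i => vs vt (r i))

lemma Zr_card {Δ : ℕ} (hΔ : ∀ z : H, (ch vt z).card + 1 ≤ Δ) {m : ℕ} (r : Fin m → H) :
    (Zr vt r).card ≤ m * Δ := by
  calc _ ≤ ∑ i : Fin m, (vs vt (r i)).card := card_biUnion_le
    _ ≤ ∑ _i : Fin m, Δ := sum_le_sum fun i _ => card_vs_le hΔ _
    _ = m * Δ := by simp

/-- a failure of `Exc` produces a code -/
lemma exc_code {η : Equiv.Perm H} (hη : ∀ x, η (η x) = x) (hne : ∀ x, η x ≠ x) {L : ℕ}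
    (h : ¬ Exc vt η L) :
    ∃ k, k < L ∧ ∃ r : Fin k → H, ∃ a ∈ Fintype.piFinset (fun _ : Fin (k + 1) => Zr vt r),
      ∃ b ∈ Fintype.piFinset (fun _ : Fin (k + 1) => Zr vt r),
      Function.Injective a ∧ Function.Injective b ∧ (∀ i j, a i ≠ b j) ∧ ∀ i, η (a i) = b i := by
  classical
  unfold Exc at h
  push Not at h
  obtain ⟨E, hcl, hEL, hEv⟩ := h
  -- transversal by an injection into the naturals
  obtain ⟨e⟩ : Nonempty (H ≃ Fin (Fintype.card H)) := ⟨Fintype.equivFin H⟩
  set A := E.filter (fun y => e y < e (η y)) with hA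
  have hAη : E.filter (fun y => ¬ e y < e (η y)) = A.image η := by
    ext y
    simp only [mem_filter, mem_image, hA]
    constructor
    · rintro ⟨h1, h2⟩
      refine ⟨η y, ⟨hcl y h1, ?_⟩, hη y⟩
      rw [hη]
      exact lt_of_le_of_ne (not_lt.1 h2) (fun h => hne y (e.injective h))
    · rintro ⟨w, ⟨h1, h2⟩, rfl⟩
      refine ⟨hcl w h1, ?_⟩
      rw [hη]
      exact not_lt.2 h2.le
  have hEcard : E.card = 2 * A.card := by
    have h1 := card_filter_add_card_filter_not (s := E) (fun y => e y < e (η y))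
    rw [hAη, card_image_of_injective _ η.injective, ← hA] at h1
    omega
  have hApos : 0 < A.card := by omega
  obtain ⟨k, hk⟩ : ∃ k, A.card = k + 1 := ⟨A.card - 1, by omega⟩
  have hvk : (E.image vt).card ≤ k := by omega
  have hEne : E.Nonempty := card_pos.1 (by omega)
  -- enumeration of `A`
  have eA : A ≃ Fin (k + 1) := (A.equivFin).trans (finCongr hk)
  -- representatives of vertices
  have hIne : Nonempty (E.image vt) := by
    obtain ⟨y, hy⟩ := hEne
    exact ⟨⟨vt y, mem_image_of_mem _ hy⟩⟩
  obtain ⟨emb⟩ : Nonempty ((E.image vt) ↪ Fin k) := by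
    apply Function.Embedding.nonempty_of_card_le
    simpa using hvk
  have hrep : ∀ v : E.image vt, ∃ y ∈ E, vt y = v := fun v => by
    obtain ⟨y, hy, hyv⟩ := mem_image.1 v.2
    exact ⟨y, hy, hyv⟩
  choose ρ hρ1 hρ2 using hrep
  set r : Fin k → H := fun i => ρ (Function.invFun emb i) with hr
  have hcover : ∀ y ∈ E, y ∈ Zr vt r := by
    intro y hy
    rw [Zr, mem_biUnion]
    refine ⟨emb ⟨vt y, mem_image_of_mem _ hy⟩, mem_univ _, ?_⟩
    rw [mem_vs, hr]
    simp only
    rw [Function.leftInverse_invFun emb.injective, hρ2]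
  refine ⟨k, by omega, r, fun i => (eA.symm i : H), ?_, fun i => η (eA.symm i : H), ?_, ?_, ?_, ?_,
    fun i => rfl⟩
  · rw [Fintype.mem_piFinset]
    intro i
    exact hcover _ (mem_filter.1 (eA.symm i).2).1
  · rw [Fintype.mem_piFinset]
    intro i
    exact hcover _ (hcl _ (mem_filter.1 (eA.symm i).2).1)
  · intro i j hij
    exact eA.symm.injective (Subtype.ext hij)
  · intro i j hij
    exact eA.symm.injective (Subtype.ext (η.injective hij))
  · intro i j hij
    have h1 := (mem_filter.1 (eA.symm i).2).2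
    have h2 := (mem_filter.1 (eA.symm j).2).2
    simp only at hij
    rw [hij, hη] at h1
    exact absurd h1 (not_lt.2 h2.le)

theorem exc_bound (hM : ∀ k, (univ.filter (fun x => c x = k)).card = M)
    {ε Q : ℝ} {nT : ℕ} (hSmall : ∀ S : Finset H, S.card ≤ nT → Small B S ε)
    (hQ : ∀ k l, q B M k l ≤ Q) (hQ0 : 0 ≤ Q) {Δ : ℕ} (hΔ : ∀ z : H, (ch vt z).card + 1 ≤ Δ)
    (hOm : (Om c B).Nonempty) {L : ℕ} (hL : 2 * L ≤ nT) [DecidablePred (fun η => ¬ Exc vt η L)] :
    (((Om c B).filter (fun η => ¬ Exc vt η L)).card : ℝ) ≤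
      (Om c B).card * ∑ k ∈ range L,
        (Fintype.card H : ℝ) ^ k * ((k * Δ : ℕ) : ℝ) ^ (2 * (k + 1)) * (2 * Q) ^ (k + 1) := by
  classical
  have hsub : (Om c B).filter (fun η => ¬ Exc vt η L) ⊆
      (range L).biUnion (fun k => (univ : Finset (Fin k → H)).biUnion (fun r =>
        (Fintype.piFinset (fun _ : Fin (k + 1) => Zr vt r)).biUnion (fun a =>
          ((Fintype.piFinset (fun _ : Fin (k + 1) => Zr vt r)).filter (fun b =>
            Function.Injective a ∧ Function.Injective b ∧ (∀ i j, a i ≠ b j))).biUnion (fun b =>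
              (Om c B).filter (fun η => ∀ i, η (a i) = b i))))) := by
    intro η hη
    rw [mem_filter] at hη
    obtain ⟨k, hk, r, a, ha, b, hb, h1, h2, h3, h4⟩ :=
      exc_code (Om.invol hη.1) (Om.ne hη.1) hη.2
    simp only [mem_biUnion, mem_range, mem_univ, true_and, mem_filter]
    exact ⟨k, hk, r, a, ha, b, ⟨hb, h1, h2, h3⟩, hη.1, h4⟩
  have hcard : (((Om c B).filter (fun η => ¬ Exc vt η L)).card : ℝ) ≤
      ∑ k ∈ range L, ∑ r : Fin k → H,
        ∑ a ∈ Fintype.piFinset (fun _ : Fin (k + 1) => Zr vt r),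
          ∑ b ∈ (Fintype.piFinset (fun _ : Fin (k + 1) => Zr vt r)).filter (fun b =>
            Function.Injective a ∧ Function.Injective b ∧ (∀ i j, a i ≠ b j)),
              (((Om c B).filter (fun η => ∀ i, η (a i) = b i)).card : ℝ) := by
    have h1 := card_le_card hsub
    refine (Nat.cast_le.2 h1).trans ?_
    have h2 : (((range L).biUnion (fun k => (univ : Finset (Fin k → H)).biUnion (fun r =>
        (Fintype.piFinset (fun _ : Fin (k + 1) => Zr vt r)).biUnion (fun a =>
          ((Fintype.piFinset (fun _ : Fin (k + 1) => Zr vt r)).filter (fun b =>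
            Function.Injective a ∧ Function.Injective b ∧ (∀ i j, a i ≠ b j))).biUnion (fun b =>
              (Om c B).filter (fun η => ∀ i, η (a i) = b i)))))).card : ℕ)
        ≤ ∑ k ∈ range L, ∑ r : Fin k → H,
        ∑ a ∈ Fintype.piFinset (fun _ : Fin (k + 1) => Zr vt r),
          ∑ b ∈ (Fintype.piFinset (fun _ : Fin (k + 1) => Zr vt r)).filter (fun b =>
            Function.Injective a ∧ Function.Injective b ∧ (∀ i j, a i ≠ b j)),
              ((Om c B).filter (fun η => ∀ i, η (a i) = b i)).card := by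
      refine card_biUnion_le.trans (sum_le_sum fun k _ => ?_)
      refine card_biUnion_le.trans (sum_le_sum fun r _ => ?_)
      refine card_biUnion_le.trans (sum_le_sum fun a _ => ?_)
      exact card_biUnion_le
    exact_mod_cast h2
  refine hcard.trans ?_
  rw [mul_sum]
  refine sum_le_sum fun k hk => ?_
  rw [mem_range] at hk
  have hZ : ∀ r : Fin k → H, ((Fintype.piFinset (fun _ : Fin (k + 1) => Zr vt r)).card : ℝ)
      ≤ ((k * Δ : ℕ) : ℝ) ^ (k + 1) := by
    intro r
    rw [Fintype.card_piFinset]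
    simp only [prod_const, card_univ, Fintype.card_fin]
    push_cast
    have h1 : ((Zr vt r).card : ℝ) ≤ k * Δ := by exact_mod_cast Zr_card hΔ r
    exact pow_le_pow_left₀ (by positivity) h1 _
  calc _ ≤ ∑ r : Fin k → H,
        ∑ a ∈ Fintype.piFinset (fun _ : Fin (k + 1) => Zr vt r),
          ∑ b ∈ (Fintype.piFinset (fun _ : Fin (k + 1) => Zr vt r)).filter (fun b =>
            Function.Injective a ∧ Function.Injective b ∧ (∀ i j, a i ≠ b j)),
              (Om c B).card * (2 * Q) ^ (k + 1) := by
        refine sum_le_sum fun r _ => sum_le_sum fun a _ => sum_le_sum fun b hb => ?_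
        rw [mem_filter] at hb
        exact pairs_bound hM hSmall hQ hQ0 (k + 1) a b ∅ (Om c B) (isCyl_empty hOm) (by simp)
          (by simp) hb.2.1 hb.2.2.1 hb.2.2.2 (by simp only [card_empty]; omega)
    _ ≤ ∑ r : Fin k → H, ((k * Δ : ℕ) : ℝ) ^ (k + 1) * (((k * Δ : ℕ) : ℝ) ^ (k + 1) *
          ((Om c B).card * (2 * Q) ^ (k + 1))) := by
        refine sum_le_sum fun r _ => ?_
        have hpos : 0 ≤ ((Om c B).card : ℝ) * (2 * Q) ^ (k + 1) := by positivity
        calc _ ≤ ∑ a ∈ Fintype.piFinset (fun _ : Fin (k + 1) => Zr vt r),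
              ((k * Δ : ℕ) : ℝ) ^ (k + 1) * ((Om c B).card * (2 * Q) ^ (k + 1)) := by
              refine sum_le_sum fun a _ => ?_
              rw [sum_const, nsmul_eq_mul]
              apply mul_le_mul_of_nonneg_right _ hpos
              refine le_trans ?_ (hZ r)
              exact_mod_cast card_le_card (filter_subset _ _)
          _ ≤ _ := by
              rw [sum_const, nsmul_eq_mul]
              exact mul_le_mul_of_nonneg_right (hZ r) (by positivity)
    _ = _ := by
        rw [sum_const, nsmul_eq_mul, card_univ, Fintype.card_fun, Fintype.card_fin]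
        push_cast
        ring

end Pool.Agent.W_MP_17e8f0_pr
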