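import Pool.Agent.W_MP_17e8f0_pr.Expo

namespace Pool.Agent.W_MP_17e8f0_pr

open Finset

variable {H V : Type*} [Fintype H] [DecidableEq H] [DecidableEq V] {K : ℕ}

/-- the other half-edges at the vertex of `z` -/
def ch (vt : H → V) (z : H) : Finset H := (univ.filter (fun y => vt y = vt z)).erase z

lemma mem_ch {vt : H → V} {y z : H} : y ∈ ch vt z ↔ y ≠ z ∧ vt y = vt z := by
  simp [ch]

/-- valid exploration states -/
structure Val (vt : H → V) (S R A Bf : Finset H) : Prop where
  SR : S ⊆ R
  AR : A ⊆ R
  BR : Bf ⊆ R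
  AS : Disjoint A S
  BS : Disjoint Bf S
  AB : Disjoint A Bf
  sat : ∀ x ∈ R, ∀ y, vt y = vt x → y ∈ R

lemma Val.symm {vt : H → V} {S R A Bf : Finset H} (h : Val vt S R A Bf) : Val vt S R Bf A :=
  ⟨h.SR, h.BR, h.AR, h.BS, h.AS, h.AB.symm, h.sat⟩

lemma Val.ch_notMem {vt : H → V} {S R A Bf : Finset H} (h : Val vt S R A Bf) {z y : H}
    (hz : z ∉ R) (hy : y ∈ ch vt z) : y ∉ R := by
  intro hyR
  exact hz (h.sat y hyR z (mem_ch.1 hy).2.symm)

lemma Val.fresh {vt : H → V} {S R A Bf : Finset H} (h : Val vt S R A Bf) {u z : H}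
    (hu : u ∈ A) (hz : z ∉ R) :
    Val vt (insert u (insert z S)) (R ∪ insert z (ch vt z)) (A.erase u ∪ ch vt z) Bf := by
  have huR : u ∈ R := h.AR hu
  have huS : u ∉ S := disjoint_left.1 h.AS hu
  have hzu : z ≠ u := by rintro rfl; exact hz huR
  refine ⟨?_, ?_, ?_, ?_, ?_, ?_, ?_⟩
  · intro x hx
    simp only [mem_insert, mem_union] at hx ⊢
    rcases hx with rfl | rfl | hx
    · left; exact huR
    · right; left; rfl
    · left; exact h.SR hx
  · intro x hx
    simp only [mem_insert, mem_union, mem_erase] at hx ⊢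
    rcases hx with hx | hx
    · left; exact h.AR hx.2
    · right; right; exact hx
  · intro x hx
    simp only [mem_union]
    left; exact h.BR hx
  · rw [disjoint_left]
    intro x hx
    simp only [mem_insert, mem_union, mem_erase] at hx ⊢
    rintro (rfl | rfl | hxS)
    · rcases hx with hx | hx
      · exact hx.1 rfl
      · exact h.ch_notMem hz hx huR
    · rcases hx with hx | hx
      · exact hz (h.AR hx.2)
      · exact (mem_ch.1 hx).1 rfl
    · rcases hx with hx | hx
      · exact disjoint_left.1 h.AS hx.2 hxS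
      · exact h.ch_notMem hz hx (h.SR hxS)
  · rw [disjoint_left]
    intro x hx
    simp only [mem_insert]
    rintro (rfl | rfl | hxS)
    · exact disjoint_left.1 h.AB hu hx
    · exact hz (h.BR hx)
    · exact disjoint_left.1 h.BS hx hxS
  · rw [disjoint_left]
    intro x hx hxB
    simp only [mem_union, mem_erase] at hx
    rcases hx with hx | hx
    · exact disjoint_left.1 h.AB hx.2 hxB
    · exact h.ch_notMem hz hx (h.BR hxB)
  · intro x hx y hy
    simp only [mem_union, mem_insert, mem_ch] at hx ⊢
    rcases hx with hx | hx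
    · left; exact h.sat x hx y hy
    · right
      have hxz : vt x = vt z := by
        rcases hx with rfl | hx
        · rfl
        · exact hx.2
      by_cases hyz : y = z
      · left; exact hyz
      · right; exact ⟨hyz, hy.trans hxz⟩

lemma Val.coll {vt : H → V} {S R A Bf : Finset H} (h : Val vt S R A Bf) {u z : H}
    (hu : u ∈ A) (hz : z ∈ R) :
    Val vt (insert u (insert z S)) R ((A.erase u).erase z) (Bf.erase z) := by
  have huR : u ∈ R := h.AR hu
  refine ⟨?_, ?_, ?_, ?_, ?_, ?_, h.sat⟩
  · intro x hx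
    simp only [mem_insert] at hx
    rcases hx with rfl | rfl | hx
    · exact huR
    · exact hz
    · exact h.SR hx
  · intro x hx
    simp only [mem_erase] at hx
    exact h.AR hx.2.2
  · intro x hx
    exact h.BR (mem_erase.1 hx).2
  · rw [disjoint_left]
    intro x hx
    simp only [mem_erase, mem_insert] at hx ⊢
    rintro (rfl | rfl | hxS)
    · exact hx.2.1 rfl
    · exact hx.1 rfl
    · exact disjoint_left.1 h.AS hx.2.2 hxS
  · rw [disjoint_left]
    intro x hx
    simp only [mem_erase, mem_insert] at hx ⊢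
    rintro (rfl | rfl | hxS)
    · exact disjoint_left.1 h.AB hu hx.2
    · exact hx.1 rfl
    · exact disjoint_left.1 h.BS hx.2 hxS
  · rw [disjoint_left]
    intro x hx hxB
    simp only [mem_erase] at hx hxB
    exact disjoint_left.1 h.AB hx.2.2 hxB.2

/-- mass of a frontier -/
noncomputable def mass (A : Finset H) (s : H → ℝ) : ℝ := ∑ u ∈ A, Real.exp (-s u)

/-- budget of a frontier -/
noncomputable def bud (A : Finset H) (s : H → ℝ) (d : H → ℕ) : ℝ :=
  ∑ u ∈ A, Real.exp (-s u) * d u

/-- updated labels -/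
def upd {α : Type*} (vt : H → V) (z : H) (v : α) (s : H → α) : H → α :=
  fun y => if y ∈ ch vt z then v else s y

lemma sum_fresh {vt : H → V} {S R A Bf : Finset H} (h : Val vt S R A Bf) {u z : H}
    (hu : u ∈ A) (hz : z ∉ R) (s : H → ℝ) (d : H → ℕ) (vs : ℝ) (vd : ℕ)
    (f : H → ℝ → ℕ → ℝ) :
    ∑ y ∈ A.erase u ∪ ch vt z, f y (upd vt z vs s y) (upd vt z vd d y)
      = ∑ y ∈ A, f y (s y) (d y) - f u (s u) (d u) + ∑ y ∈ ch vt z, f y vs vd := by
  have hdis : Disjoint (A.erase u) (ch vt z) := by
    rw [disjoint_left]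
    intro x hx hx2
    exact h.ch_notMem hz hx2 (h.AR (mem_erase.1 hx).2)
  rw [sum_union hdis]
  congr 1
  · rw [← sum_erase_add A _ hu, add_sub_cancel_right]
    refine sum_congr rfl fun y hy => ?_
    have : y ∉ ch vt z := disjoint_left.1 hdis hy
    simp [upd, this]
  · refine sum_congr rfl fun y hy => ?_
    simp [upd, hy]

lemma sum_old {vt : H → V} {S R A Bf : Finset H} (h : Val vt S R A Bf) {z : H}
    (hz : z ∉ R) (s : H → ℝ) (d : H → ℕ) (vs : ℝ) (vd : ℕ)
    (f : H → ℝ → ℕ → ℝ) :
    ∑ y ∈ Bf, f y (upd vt z vs s y) (upd vt z vd d y) = ∑ y ∈ Bf, f y (s y) (d y) := by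
  refine sum_congr rfl fun y hy => ?_
  have : y ∉ ch vt z := fun hy2 => h.ch_notMem hz hy2 (h.BR hy)
  simp [upd, this]

/-- new log-weight -/
noncomputable def ns (vt : H → V) (s : H → ℝ) (u z : H) : H → ℝ :=
  upd vt z (s u + Real.log (ch vt z).card) s

/-- new depth -/
def nd (vt : H → V) (d : H → ℕ) (u z : H) : H → ℕ := upd vt z (d u - 1) d

variable (vt : H → V) (c : H → Fin K) (B : Fin K → Fin K → ℕ) (M : ℕ) (Kc : ℝ)

/-- a functional together with its potential -/
structure Func where
  J : Finset H → Finset H → (H → ℝ) → (H → ℕ) → Equiv.Perm H → ℝ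
  Φ : Finset H → Finset H → (H → ℝ) → (H → ℕ) → ℝ
  J_fresh : ∀ (S R A Bf : Finset H) (s : H → ℝ) (d : H → ℕ), Val vt S R A Bf →
    ∀ η ∈ Om c B, ∀ u ∈ A, 1 ≤ d u → η u ∉ R →
      J (A.erase u ∪ ch vt (η u)) Bf (ns vt s u (η u)) (nd vt d u (η u)) η ≤ J A Bf s d η
  J_coll : ∀ (S R A Bf : Finset H) (s : H → ℝ) (d : H → ℕ), Val vt S R A Bf →
    ∀ η ∈ Om c B, ∀ u ∈ A, ∀ z, J ((A.erase u).erase z) (Bf.erase z) s d η ≤ J A Bf s d η
  Φ_fresh : ∀ (S R A Bf : Finset H) (s : H → ℝ) (d : H → ℕ), Val vt S R A Bf →
    mass A s ≤ 1 → mass Bf s ≤ 1 → ∀ u ∈ A, 1 ≤ d u →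
      ∃ ell : H → ℝ, (∀ z, 0 ≤ ell z) ∧ (∀ z, ell z ≤ Kc) ∧
        ∀ z ∉ R, Φ (A.erase u ∪ ch vt z) Bf (ns vt s u z) (nd vt d u z)
          = Φ A Bf s d + Real.exp (-s u) * (ell z - ∑ z', q B M (c u) (c z') * ell z')
  Φ_coll : ∀ (S R A Bf : Finset H) (s : H → ℝ) (d : H → ℕ), Val vt S R A Bf →
    mass A s ≤ 1 → mass Bf s ≤ 1 → ∀ u ∈ A, ∀ z,
      Φ A Bf s d - Kc * (Real.exp (-s u) + if z ∈ A ∪ Bf then Real.exp (-s z) else 0)
        ≤ Φ ((A.erase u).erase z) (Bf.erase z) s d

variable {vt c B M Kc}

lemma mass_fresh {S R A Bf : Finset H} (h : Val vt S R A Bf) {u z : H}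
    (hu : u ∈ A) (hz : z ∉ R) (s : H → ℝ) (hch : (ch vt z).Nonempty) :
    mass (A.erase u ∪ ch vt z) (ns vt s u z) = mass A s := by
  unfold mass ns
  have := sum_fresh h hu hz s (fun _ => 0) (s u + Real.log (ch vt z).card) 0
    (fun _ a _ => Real.exp (-a))
  rw [this, sum_const, nsmul_eq_mul, neg_add, Real.exp_add, Real.exp_neg (Real.log _),
    Real.exp_log (by exact_mod_cast hch.card_pos)]
  have : ((ch vt z).card : ℝ) ≠ 0 := by exact_mod_cast hch.card_pos.ne'
  field_simp
  ring

lemma bud_fresh {S R A Bf : Finset H} (h : Val vt S R A Bf) {u z : H}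
    (hu : u ∈ A) (hz : z ∉ R) (s : H → ℝ) (d : H → ℕ) (hd : 1 ≤ d u) (hch : (ch vt z).Nonempty) :
    bud (A.erase u ∪ ch vt z) (ns vt s u z) (nd vt d u z) = bud A s d - Real.exp (-s u) := by
  unfold bud ns nd
  have := sum_fresh h hu hz s d (s u + Real.log (ch vt z).card) (d u - 1)
    (fun _ a b => Real.exp (-a) * b)
  rw [this, sum_const, nsmul_eq_mul, neg_add, Real.exp_add, Real.exp_neg (Real.log _),
    Real.exp_log (by exact_mod_cast hch.card_pos), Nat.cast_sub hd]
  have : ((ch vt z).card : ℝ) ≠ 0 := by exact_mod_cast hch.card_pos.ne'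
  field_simp
  push_cast
  ring

lemma mass_mono {A A' : Finset H} (h : A' ⊆ A) (s : H → ℝ) : mass A' s ≤ mass A s :=
  sum_le_sum_of_subset_of_nonneg h fun _ _ _ => (Real.exp_pos _).le

lemma bud_nonneg (A : Finset H) (s : H → ℝ) (d : H → ℕ) : 0 ≤ bud A s d :=
  sum_nonneg fun _ _ => by positivity

lemma bud_coll {A : Finset H} {u : H} (hu : u ∈ A) (z : H) (s : H → ℝ) (d : H → ℕ)
    (hd : 1 ≤ d u) : bud ((A.erase u).erase z) s d ≤ bud A s d - Real.exp (-s u) := by
  have h1 : bud ((A.erase u).erase z) s d ≤ bud (A.erase u) s d :=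
    sum_le_sum_of_subset_of_nonneg (erase_subset _ _) fun _ _ _ => by positivity
  have h2 : bud A s d = bud (A.erase u) s d + Real.exp (-s u) * d u := by
    unfold bud; rw [sum_erase_add _ _ hu]
  have h3 : Real.exp (-s u) * 1 ≤ Real.exp (-s u) * d u :=
    mul_le_mul_of_nonneg_left (by exact_mod_cast hd) (Real.exp_pos _).le
  linarith

lemma ns_of_mem {S R A Bf : Finset H} (h : Val vt S R A Bf) {u z y : H} (hz : z ∉ R)
    (hy : y ∈ R) (s : H → ℝ) (d : H → ℕ) : ns vt s u z y = s y ∧ nd vt d u z y = d y := by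
  have : y ∉ ch vt z := fun hy2 => h.ch_notMem hz hy2 hy
  simp [ns, nd, upd, this]

lemma ns_of_ch {u z y : H} (hy : y ∈ ch vt z) (s : H → ℝ) (d : H → ℕ) :
    ns vt s u z y = s u + Real.log (ch vt z).card ∧ nd vt d u z y = d u - 1 := by
  simp [ns, nd, upd, hy]

lemma card_R_fresh {Δ : ℕ} (hΔ : ∀ z : H, (ch vt z).card + 1 ≤ Δ) (R : Finset H) (z : H) :
    (R ∪ insert z (ch vt z)).card ≤ R.card + Δ := by
  refine (card_union_le _ _).trans ?_
  have := card_insert_le z (ch vt z)
  have := hΔ z
  omega

lemma card_S_step (S : Finset H) (u z : H) : (insert u (insert z S)).card ≤ S.card + 2 := by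
  have h1 := card_insert_le u (insert z S)
  have h2 := card_insert_le z S
  omega

theorem explore_bound (F : Func vt c B M Kc)
    (hM : ∀ k, (univ.filter (fun x => c x = k)).card = M)
    (hsq : ∀ k, ∑ z, q B M k (c z) = 1)
    (h2 : ∀ z : H, 2 ≤ (ch vt z).card) {Δ : ℕ} (hΔ : ∀ z : H, (ch vt z).card + 1 ≤ Δ)
    {lam ε wm Q wmin smax cT c3 : ℝ} {nE rE : ℕ}
    (hKc : 0 ≤ Kc) (hlam : 0 ≤ lam) (hwmin : 0 < wmin) (hsmax : wmin = Real.exp (-smax))
    (hSmall : ∀ S : Finset H, S.card ≤ nE → Small B S ε)
    (hQ : ∀ k l, q B M k l ≤ Q) (hlw : 2 * lam * Kc * wm ≤ 1) (hwm : 0 ≤ wm)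
    (hc3 : lam * ε * Kc + 5 * lam * Kc * Q * rE + lam ^ 2 * wm * Kc ^ 2 + 8 * lam * Kc * Q / wmin
      ≤ c3) (hQ0 : 0 ≤ Q)
    (QA QB : ℝ → ℕ → Prop)
    (hQA : ∀ (s : ℝ) (d D : ℕ), 2 ≤ D → QA s (d + 1) → QA (s + Real.log D) d)
    (hQAw : ∀ s d, QA s d → Real.exp (-s) ≤ wm) (hQBw : ∀ s d, QB s d → Real.exp (-s) ≤ wm)
    (hT : ∀ (S R A Bf : Finset H) (s : H → ℝ) (d : H → ℕ) (C : Finset (Equiv.Perm H)),
      IsCyl c B S C → Val vt S R A Bf → mass A s ≤ 1 → mass Bf s ≤ 1 →
      (∀ u ∈ A, QA (s u) (d u)) → (∀ u ∈ Bf, QB (s u) (d u)) → S.card ≤ nE → R.card ≤ rE →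
      (∀ u ∈ A, d u = 0 ∨ smax < s u) → ∀ r : ℝ,
      ((C.filter (fun η => F.J A Bf s d η ≤ r)).card : ℝ)
        ≤ C.card * Real.exp (lam * (r - F.Φ A Bf s d) + cT)) :
    ∀ (n : ℕ) (S R A Bf : Finset H) (s : H → ℝ) (d : H → ℕ) (C : Finset (Equiv.Perm H)),
      IsCyl c B S C → Val vt S R A Bf → mass A s ≤ 1 → mass Bf s ≤ 1 →
      (∀ u ∈ A, QA (s u) (d u)) → (∀ u ∈ Bf, QB (s u) (d u)) →
      bud A s d ≤ n * wmin → S.card + 2 * n ≤ nE → R.card + Δ * n ≤ rE → ∀ r : ℝ,
      ((C.filter (fun η => F.J A Bf s d η ≤ r)).card : ℝ)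
        ≤ C.card * Real.exp (lam * (r - F.Φ A Bf s d) + cT + c3 * bud A s d) := by
  have hc30 : 0 ≤ c3 := by
    have : 0 ≤ lam * ε * Kc + 5 * lam * Kc * Q * rE + lam ^ 2 * wm * Kc ^ 2
        + 8 * lam * Kc * Q / wmin := by
      have hε := (hSmall ∅ (by simp)).1
      positivity
    linarith
  intro n
  induction n with
  | zero =>
    intro S R A Bf s d C hC hV hmA hmB hA hB hb hS hR r
    have hbn := bud_nonneg A s d
    refine (hT S R A Bf s d C hC hV hmA hmB hA hB (by omega) (by omega) ?_ r).trans ?_
    · intro u hu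
      left
      by_contra hd
      have h1 : Real.exp (-s u) * d u ≤ bud A s d :=
        single_le_sum (f := fun u => Real.exp (-s u) * (d u : ℝ)) (fun _ _ => by positivity) hu
      have h3 : 0 < Real.exp (-s u) * d u :=
        mul_pos (Real.exp_pos _) (by exact_mod_cast Nat.pos_of_ne_zero hd)
      simp only [Nat.cast_zero, zero_mul] at hb
      linarith
    · apply mul_le_mul_of_nonneg_left _ (by positivity)
      apply Real.exp_le_exp.2
      have := mul_nonneg hc30 hbn
      linarith
  | succ n ih =>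
    intro S R A Bf s d C hC hV hmA hmB hA hB hb hS hR r
    have hbn := bud_nonneg A s d
    by_cases hact : ∀ u ∈ A, d u = 0 ∨ smax < s u
    · refine (hT S R A Bf s d C hC hV hmA hmB hA hB (by omega) ?_ hact r).trans ?_
      · refine le_trans ?_ hR
        exact Nat.le_add_right _ _
      · apply mul_le_mul_of_nonneg_left _ (by positivity)
        apply Real.exp_le_exp.2
        have := mul_nonneg hc30 hbn
        linarith
    push Not at hact
    obtain ⟨u, hu, hd0, hsu⟩ := hact
    have hd : 1 ≤ d u := Nat.pos_of_ne_zero hd0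
    have huS : u ∉ S := disjoint_left.1 hV.AS hu
    have huR : u ∈ R := hV.AR hu
    set a := Real.exp (-s u) with ha
    have ha0 : 0 < a := Real.exp_pos _
    have haw : a ≤ wm := hQAw _ _ (hA u hu)
    have hamin : wmin ≤ a := by rw [hsmax, ha]; exact Real.exp_le_exp.2 (by linarith)
    obtain ⟨ell, hl0, hl1, hell⟩ := F.Φ_fresh S R A Bf s d hV hmA hmB u hu hd
    set om : H → ℝ := fun z => if z ∈ A ∪ Bf then Real.exp (-s z) else 0 with hom
    set g : H → ℝ := fun z => if z ∈ R then F.Φ ((A.erase u).erase z) (Bf.erase z) s d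
        - F.Φ A Bf s d
      else F.Φ (A.erase u ∪ ch vt z) Bf (ns vt s u z) (nd vt d u z) - F.Φ A Bf s d with hg
    -- pointwise
    have hpt : ∀ z, (((C.filter (fun η => η u = z)).filter (fun η => F.J A Bf s d η ≤ r)).card : ℝ)
        ≤ ((T C u z : ℝ) * Real.exp (-(lam * g z))) *
          Real.exp (lam * (r - F.Φ A Bf s d) + cT + c3 * (bud A s d - a)) := by
      intro z
      by_cases hne : (C.filter (fun η => η u = z)).Nonempty
      · obtain ⟨η₁, hη₁⟩ := hne
        have hη₁C := (mem_filter.1 hη₁).1
        have hη₁z := (mem_filter.1 hη₁).2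
        have hC' : IsCyl c B (insert u (insert z S)) (C.filter (fun η => η u = z)) := by
          have := hC.extend hη₁C u
          rwa [hη₁z] at this
        have hTz : (T C u z : ℝ) = ((C.filter (fun η => η u = z)).card : ℝ) := rfl
        by_cases hz : z ∈ R
        · -- collision
          have hsub : (C.filter (fun η => η u = z)).filter (fun η => F.J A Bf s d η ≤ r)
              ⊆ (C.filter (fun η => η u = z)).filter
                (fun η => F.J ((A.erase u).erase z) (Bf.erase z) s d η ≤ r) := by
            intro η hη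
            rw [mem_filter] at hη ⊢
            exact ⟨hη.1, (F.J_coll S R A Bf s d hV η (hC.subset (mem_filter.1 hη.1).1) u hu z).trans
              hη.2⟩
          have hih := ih (insert u (insert z S)) R ((A.erase u).erase z) (Bf.erase z) s d _ hC'
            (hV.coll hu hz)
            ((mass_mono ((erase_subset _ _).trans (erase_subset _ _)) s).trans hmA)
            ((mass_mono (erase_subset _ _) s).trans hmB)
            (fun v hv => hA v (mem_of_mem_erase (mem_of_mem_erase hv)))
            (fun v hv => hB v (mem_of_mem_erase hv))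
            (by
              have := bud_coll hu z s d hd
              push_cast at hb
              linarith)
            (by have := card_S_step S u z; omega)
            (by
              refine le_trans ?_ hR
              exact Nat.add_le_add_left (Nat.mul_le_mul_left _ (Nat.le_succ n)) _) r
          have hbc := bud_coll hu z s d hd
          calc (((C.filter (fun η => η u = z)).filter (fun η => F.J A Bf s d η ≤ r)).card : ℝ)
              ≤ _ := by exact_mod_cast card_le_card hsub
            _ ≤ _ := hih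
            _ ≤ (T C u z : ℝ) * Real.exp (-(lam * g z) +
                (lam * (r - F.Φ A Bf s d) + cT + c3 * (bud A s d - a))) := by
                rw [hTz]
                apply mul_le_mul_of_nonneg_left _ (by positivity)
                apply Real.exp_le_exp.2
                have hgz : g z = F.Φ ((A.erase u).erase z) (Bf.erase z) s d - F.Φ A Bf s d := by
                  simp only [hg, if_pos hz]
                rw [hgz]
                have := mul_le_mul_of_nonneg_left hbc hc30
                linarith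
            _ = _ := by rw [Real.exp_add, mul_assoc]
        · -- fresh
          have hchne : (ch vt z).Nonempty := card_pos.1 (by have := h2 z; omega)
          have hsub : (C.filter (fun η => η u = z)).filter (fun η => F.J A Bf s d η ≤ r)
              ⊆ (C.filter (fun η => η u = z)).filter
                (fun η => F.J (A.erase u ∪ ch vt z) Bf (ns vt s u z) (nd vt d u z) η ≤ r) := by
            intro η hη
            rw [mem_filter] at hη ⊢
            have hηz := (mem_filter.1 hη.1).2
            have := F.J_fresh S R A Bf s d hV η (hC.subset (mem_filter.1 hη.1).1) u hu hd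
              (by rw [hηz]; exact hz)
            rw [hηz] at this
            exact ⟨hη.1, this.trans hη.2⟩
          have hbf := bud_fresh hV hu hz s d hd hchne
          have hih := ih (insert u (insert z S)) (R ∪ insert z (ch vt z)) (A.erase u ∪ ch vt z) Bf
            (ns vt s u z) (nd vt d u z) _ hC' (hV.fresh hu hz)
            (by rw [mass_fresh hV hu hz s hchne]; exact hmA)
            (by
              have : mass Bf (ns vt s u z) = mass Bf s :=
                sum_congr rfl fun y hy => by rw [(ns_of_mem hV hz (hV.BR hy) s d).1]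
              rw [this]; exact hmB)
            (by
              intro v hv
              rw [mem_union] at hv
              by_cases hvc : v ∈ ch vt z
              · obtain ⟨e1, e2⟩ := ns_of_ch (u := u) hvc s d
                rw [e1, e2]
                refine hQA _ _ _ (h2 z) ?_
                rw [Nat.sub_add_cancel hd]; exact hA u hu
              · have hvA : v ∈ A.erase u := by tauto
                obtain ⟨e1, e2⟩ := ns_of_mem (u := u) hV hz (hV.AR (mem_of_mem_erase hvA)) s d
                rw [e1, e2]; exact hA v (mem_of_mem_erase hvA))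
            (by
              intro v hv
              obtain ⟨e1, e2⟩ := ns_of_mem (u := u) hV hz (hV.BR hv) s d
              rw [e1, e2]; exact hB v hv)
            (by rw [hbf]; push_cast at hb; linarith)
            (by have := card_S_step S u z; omega)
            (by
              have h1 := card_R_fresh hΔ R z
              have h3 : Δ * (n + 1) = Δ * n + Δ := by ring
              omega) r
          calc (((C.filter (fun η => η u = z)).filter (fun η => F.J A Bf s d η ≤ r)).card : ℝ)
              ≤ _ := by exact_mod_cast card_le_card hsub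
            _ ≤ _ := hih
            _ = (T C u z : ℝ) * Real.exp (-(lam * g z) +
                (lam * (r - F.Φ A Bf s d) + cT + c3 * (bud A s d - a))) := by
                rw [hTz, hbf]
                congr 2
                have hgz : g z = F.Φ (A.erase u ∪ ch vt z) Bf (ns vt s u z) (nd vt d u z)
                    - F.Φ A Bf s d := by
                  simp only [hg, if_neg hz]
                rw [hgz]; ring
            _ = _ := by rw [Real.exp_add, mul_assoc]
      · rw [not_nonempty_iff_eq_empty] at hne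
        rw [hne]; simp only [filter_empty, card_empty, Nat.cast_zero]
        positivity
    have hexpo := expo_fresh hC M hM (hSmall S (by omega)) huS hV.SR huR hlam hKc ha0.le haw ell
      hl0 hl1 om (fun z => by simp only [hom]; split_ifs <;> positivity)
      (fun z => by
        simp only [hom]; split_ifs with hz
        · rcases mem_union.1 hz with hz | hz
          · exact hQAw _ _ (hA z hz)
          · exact hQBw _ _ (hB z hz)
        · exact hwm)
      (by
        have h1 : ∑ z ∈ R, om z ≤ ∑ z, om z :=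
          sum_le_sum_of_subset_of_nonneg (subset_univ _) fun z _ _ => by
            simp only [hom]; split_ifs <;> positivity
        have h3 : ∑ z, om z = mass A s + mass Bf s := by
          simp only [hom, mass]
          rw [← sum_union hV.AB, ← sum_filter]
          congr 1; ext; simp
        linarith)
      hlw hQ (hsq _) g
      (by
        intro z hz
        simp only [hg, if_neg hz]
        rw [hell z hz]; ring)
      (by
        intro z hz _ _
        simp only [hg, if_pos hz]
        have := F.Φ_coll S R A Bf s d hV hmA hmB u hu z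
        simp only [hom]
        linarith)
    rw [card_filter_split C _ u]
    refine (sum_le_sum fun z _ => hpt z).trans ?_
    rw [← sum_mul]
    refine (mul_le_mul_of_nonneg_right hexpo (Real.exp_pos _).le).trans ?_
    rw [mul_assoc, ← Real.exp_add]
    apply mul_le_mul_of_nonneg_left _ (by positivity)
    apply Real.exp_le_exp.2
    have hRr : (R.card : ℝ) ≤ rE := by
      have : R.card ≤ rE := le_trans (Nat.le_add_right _ _) hR
      exact_mod_cast this
    have k1 : 8 * lam * Kc * Q ≤ a * (8 * lam * Kc * Q / wmin) := by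
      have h0 : 0 ≤ 8 * lam * Kc * Q := by positivity
      rw [mul_div_assoc', le_div_iff₀ hwmin, mul_comm a]
      exact mul_le_mul_of_nonneg_left hamin h0
    have k2 : a * (lam * ε * Kc + 5 * lam * Kc * Q * R.card + lam ^ 2 * wm * Kc ^ 2)
        ≤ a * (lam * ε * Kc + 5 * lam * Kc * Q * rE + lam ^ 2 * wm * Kc ^ 2) := by
      apply mul_le_mul_of_nonneg_left _ ha0.le
      have : 5 * lam * Kc * Q * R.card ≤ 5 * lam * Kc * Q * rE :=
        mul_le_mul_of_nonneg_left hRr (by positivity)
      linarith
    have k3 := mul_le_mul_of_nonneg_left hc3 ha0.le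
    nlinarith

end Pool.Agent.W_MP_17e8f0_pr
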