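import Pool.Agent.W_MP_17e8f0_pr.Prob

namespace Pool.Agent.W_MP_17e8f0_pr

open Finset

variable {H : Type*} [Fintype H] [DecidableEq H] {K : ℕ}
variable {c : H → Fin K} {B : Fin K → Fin K → ℕ} {S : Finset H} {C : Finset (Equiv.Perm H)}

lemma exp_le_quad {x : ℝ} (h : |x| ≤ 1) : Real.exp x ≤ 1 + x + x ^ 2 := by
  have := Real.abs_exp_sub_one_sub_id_le h
  have := (abs_le.1 this).2
  linarith

lemma exp_le_lin {x : ℝ} (h0 : 0 ≤ x) (h : x ≤ 1) : Real.exp x ≤ 1 + 2 * x := by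
  have := exp_le_quad (x := x) (by rw [abs_of_nonneg h0]; exact h)
  nlinarith

theorem expo_fresh (hC : IsCyl c B S C) (M : ℕ)
    (hM : ∀ k, (univ.filter (fun x => c x = k)).card = M)
    {ε : ℝ} (hs : Small B S ε) {u : H} (hu : u ∉ S) {R : Finset H} (hSR : S ⊆ R) (huR : u ∈ R)
    {lam Kc a wm Q : ℝ} (hlam : 0 ≤ lam) (hKc : 0 ≤ Kc) (ha : 0 ≤ a) (haw : a ≤ wm)
    (ell : H → ℝ) (hl0 : ∀ z, 0 ≤ ell z) (hl1 : ∀ z, ell z ≤ Kc)
    (om : H → ℝ) (ho0 : ∀ z, 0 ≤ om z) (ho1 : ∀ z, om z ≤ wm) (ho2 : ∑ z ∈ R, om z ≤ 2)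
    (hlw : 2 * lam * Kc * wm ≤ 1) (hQ : ∀ k l, q B M k l ≤ Q)
    (hsq : ∑ z, q B M (c u) (c z) = 1) (g : H → ℝ)
    (hfresh : ∀ z ∉ R, g z = a * (ell z - ∑ z', q B M (c u) (c z') * ell z'))
    (hcoll : ∀ z ∈ R, z ∉ S → z ≠ u → -(Kc * (a + om z)) ≤ g z) :
    ∑ z, (T C u z : ℝ) * Real.exp (-(lam * g z)) ≤
      C.card * Real.exp (a * (lam * ε * Kc + 5 * lam * Kc * Q * R.card + lam ^ 2 * wm * Kc ^ 2)
        + 8 * lam * Kc * Q) := by
  set N : ℝ := ((C.card : ℕ) : ℝ) with hN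
  have hN0 : 0 ≤ N := by positivity
  obtain ⟨L, hL⟩ : ∃ L : ℝ, L = ∑ z', q B M (c u) (c z') * ell z' := ⟨_, rfl⟩
  simp only [← hL] at hfresh
  have hε0 := hs.1
  have hε1 := hs.2.1
  have hq0 : ∀ z, 0 ≤ q B M (c u) (c z) := fun z => q_nonneg M _ _
  have hQ0 : 0 ≤ Q := (hq0 u).trans (hQ _ _)
  have hL0 : 0 ≤ L := by
    rw [hL]; exact sum_nonneg fun z _ => mul_nonneg (hq0 z) (hl0 z)
  have hL1 : L ≤ Kc := by
    calc L ≤ ∑ z', q B M (c u) (c z') * Kc := by
          rw [hL]; exact sum_le_sum fun z _ => mul_le_mul_of_nonneg_left (hl1 z) (hq0 z)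
      _ = Kc := by rw [← sum_mul, hsq, one_mul]
  have hp0 : ∀ z, (0 : ℝ) ≤ T C u z := fun z => by positivity
  have hp1 : ∀ z, (T C u z : ℝ) ≤ 2 * Q * N := fun z => by
    calc _ ≤ _ := T_le hC M hM hs hu z
      _ ≤ 2 * Q * N := by
        apply mul_le_mul_of_nonneg_right _ hN0
        exact mul_le_mul (by linarith) (hQ _ _) (hq0 z) (by norm_num)
  have hwm0 : 0 ≤ wm := ha.trans haw
  -- pointwise
  have hpt : ∀ z, (T C u z : ℝ) * Real.exp (-(lam * g z)) ≤ (T C u z : ℝ) +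
      (if z ∈ R then (T C u z : ℝ) * (2 * lam * Kc * (a + om z)) else
        (T C u z : ℝ) * (-(lam * g z) + lam ^ 2 * (a * wm * Kc ^ 2))) := by
    intro z
    split_ifs with hz
    · by_cases hzS : z ∈ S
      · rw [T_mem hC hu hzS]; simp
      by_cases hzu : z = u
      · rw [hzu, T_self hC]; simp
      have h1 := hcoll z hz hzS hzu
      have h2 : Real.exp (-(lam * g z)) ≤ 1 + 2 * (lam * Kc * (a + om z)) := by
        refine le_trans (Real.exp_le_exp.2 ?_) (exp_le_lin (x := lam * Kc * (a + om z)) ?_ ?_)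
        · nlinarith [mul_le_mul_of_nonneg_left h1 hlam]
        · have := ho0 z; positivity
        · have : lam * Kc * (a + om z) ≤ lam * Kc * (wm + wm) :=
            mul_le_mul_of_nonneg_left (add_le_add haw (ho1 z)) (by positivity)
          linarith
      nlinarith [mul_le_mul_of_nonneg_left h2 (hp0 z)]
    · have hg := hfresh z hz
      have hgabs : |g z| ≤ a * Kc := by
        rw [hg, abs_mul, abs_of_nonneg ha]
        apply mul_le_mul_of_nonneg_left _ ha
        rw [abs_le]; constructor <;> linarith [hl0 z, hl1 z]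
      have hlg : |lam * g z| ≤ lam * (a * Kc) := by
        rw [abs_mul, abs_of_nonneg hlam]; exact mul_le_mul_of_nonneg_left hgabs hlam
      have h3 : lam * (a * Kc) ≤ 1 := by
        have : lam * (a * Kc) ≤ lam * (wm * Kc) :=
          mul_le_mul_of_nonneg_left (mul_le_mul_of_nonneg_right haw hKc) hlam
        have h4 : 0 ≤ lam * (wm * Kc) := by positivity
        nlinarith
      have h2 := exp_le_quad (x := -(lam * g z)) (by rw [abs_neg]; exact hlg.trans h3)
      have h5 : (-(lam * g z)) ^ 2 ≤ lam ^ 2 * (a * wm * Kc ^ 2) := by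
        have : (-(lam * g z)) ^ 2 = lam ^ 2 * |g z| ^ 2 := by rw [sq_abs]; ring
        rw [this]
        apply mul_le_mul_of_nonneg_left _ (by positivity)
        calc |g z| ^ 2 ≤ (a * Kc) ^ 2 := pow_le_pow_left₀ (abs_nonneg _) hgabs 2
          _ = a * a * Kc ^ 2 := by ring
          _ ≤ a * wm * Kc ^ 2 := by
            apply mul_le_mul_of_nonneg_right _ (by positivity)
            exact mul_le_mul_of_nonneg_left haw ha
      have h6 : Real.exp (-(lam * g z)) ≤ 1 + (-(lam * g z) + lam ^ 2 * (a * wm * Kc ^ 2)) := by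
        linarith
      calc _ ≤ (T C u z : ℝ) * (1 + (-(lam * g z) + lam ^ 2 * (a * wm * Kc ^ 2))) :=
            mul_le_mul_of_nonneg_left h6 (hp0 z)
        _ = _ := by ring
  -- sums
  have hsum := sum_le_sum (s := univ) fun z _ => hpt z
  rw [sum_add_distrib, sum_T] at hsum
  rw [← sum_filter_add_sum_filter_not univ (fun z => z ∈ R)
    (fun z => if z ∈ R then (T C u z : ℝ) * (2 * lam * Kc * (a + om z)) else
        (T C u z : ℝ) * (-(lam * g z) + lam ^ 2 * (a * wm * Kc ^ 2)))] at hsum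
  have hfR : univ.filter (fun z => z ∈ R) = R := by ext; simp
  -- collision part
  have hA : ∑ z ∈ univ.filter (fun z => z ∈ R),
      (if z ∈ R then (T C u z : ℝ) * (2 * lam * Kc * (a + om z)) else
        (T C u z : ℝ) * (-(lam * g z) + lam ^ 2 * (a * wm * Kc ^ 2)))
      ≤ 4 * lam * Kc * Q * N * (a * R.card + 2) := by
    rw [hfR]
    calc _ = ∑ z ∈ R, (T C u z : ℝ) * (2 * lam * Kc * (a + om z)) :=
          sum_congr rfl fun z hz => by rw [if_pos hz]
      _ ≤ ∑ z ∈ R, (2 * Q * N) * (2 * lam * Kc * (a + om z)) := by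
          refine sum_le_sum fun z _ => mul_le_mul_of_nonneg_right (hp1 z) ?_
          have := ho0 z; positivity
      _ = 4 * lam * Kc * Q * N * (a * R.card + ∑ z ∈ R, om z) := by
          rw [← mul_sum, ← mul_sum, sum_add_distrib, sum_const, nsmul_eq_mul]; ring
      _ ≤ _ := by
          apply mul_le_mul_of_nonneg_left _ (by positivity)
          linarith
  -- fresh part
  have hB : ∑ z ∈ univ.filter (fun z => ¬ z ∈ R),
      (if z ∈ R then (T C u z : ℝ) * (2 * lam * Kc * (a + om z)) else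
        (T C u z : ℝ) * (-(lam * g z) + lam ^ 2 * (a * wm * Kc ^ 2)))
      ≤ N * (lam * (a * (Kc * (ε + Q * R.card))) + lam ^ 2 * (a * wm * Kc ^ 2)) := by
    have e1 : ∑ z ∈ univ.filter (fun z => ¬ z ∈ R),
        (if z ∈ R then (T C u z : ℝ) * (2 * lam * Kc * (a + om z)) else
        (T C u z : ℝ) * (-(lam * g z) + lam ^ 2 * (a * wm * Kc ^ 2)))
        = -(lam * a * (∑ z ∈ univ.filter (fun z => ¬ z ∈ R), (T C u z : ℝ) * ell z
            - L * ∑ z ∈ univ.filter (fun z => ¬ z ∈ R), (T C u z : ℝ)))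
          + (∑ z ∈ univ.filter (fun z => ¬ z ∈ R), (T C u z : ℝ))
              * (lam ^ 2 * (a * wm * Kc ^ 2)) := by
      have e0 : ∀ z ∈ univ.filter (fun z => ¬ z ∈ R),
          (if z ∈ R then (T C u z : ℝ) * (2 * lam * Kc * (a + om z)) else
          (T C u z : ℝ) * (-(lam * g z) + lam ^ 2 * (a * wm * Kc ^ 2)))
          = -(lam * a) * ((T C u z : ℝ) * ell z) + (lam * a * L) * (T C u z : ℝ)
            + (T C u z : ℝ) * (lam ^ 2 * (a * wm * Kc ^ 2)) := by
        intro z hz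
        have hz' : z ∉ R := (mem_filter.1 hz).2
        rw [if_neg hz', hfresh z hz']; ring
      rw [sum_congr rfl e0, sum_add_distrib, sum_add_distrib, ← mul_sum, ← mul_sum, ← sum_mul]
      ring
    rw [e1]
    have e2 : ∑ z ∈ univ.filter (fun z => ¬ z ∈ R), (T C u z : ℝ) ≤ N := by
      rw [hN, ← sum_T C u]
      exact sum_le_sum_of_subset_of_nonneg (filter_subset _ _) fun z _ _ => hp0 z
    have e3 : (1 - ε) * N * (L - Kc * Q * R.card)
        ≤ ∑ z ∈ univ.filter (fun z => ¬ z ∈ R), (T C u z : ℝ) * ell z := by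
      have e4 : L = ∑ z ∈ univ.filter (fun z => z ∈ R), q B M (c u) (c z) * ell z
          + ∑ z ∈ univ.filter (fun z => ¬ z ∈ R), q B M (c u) (c z) * ell z := by
        rw [hL, sum_filter_add_sum_filter_not]
      have e5 : ∑ z ∈ univ.filter (fun z => z ∈ R), q B M (c u) (c z) * ell z
          ≤ Kc * Q * R.card := by
        rw [hfR]
        calc _ ≤ ∑ _z ∈ R, Q * Kc := by
              refine sum_le_sum fun z _ => mul_le_mul (hQ _ _) (hl1 z) (hl0 z) hQ0
          _ = _ := by rw [sum_const, nsmul_eq_mul]; ring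
      calc (1 - ε) * N * (L - Kc * Q * R.card)
          ≤ (1 - ε) * N * ∑ z ∈ univ.filter (fun z => ¬ z ∈ R), q B M (c u) (c z) * ell z := by
            apply mul_le_mul_of_nonneg_left _ (by nlinarith)
            linarith
        _ = ∑ z ∈ univ.filter (fun z => ¬ z ∈ R),
              ((1 - ε) * q B M (c u) (c z) * N) * ell z := by
            rw [mul_sum]; exact sum_congr rfl fun z _ => by ring
        _ ≤ _ := by
            refine sum_le_sum fun z hz => ?_
            have hz' : z ∉ R := (mem_filter.1 hz).2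
            exact mul_le_mul_of_nonneg_right
              (le_T hC M hM hs hu (fun h => hz' (hSR h)) (by rintro rfl; exact hz' huR)) (hl0 z)
    have e6 : 0 ≤ ∑ z ∈ univ.filter (fun z => ¬ z ∈ R), (T C u z : ℝ) :=
      sum_nonneg fun z _ => hp0 z
    have hR0 : (0 : ℝ) ≤ Q * R.card := by positivity
    have e7 : -(N * (Kc * (ε + Q * R.card))) ≤
        ∑ z ∈ univ.filter (fun z => ¬ z ∈ R), (T C u z : ℝ) * ell z
            - L * ∑ z ∈ univ.filter (fun z => ¬ z ∈ R), (T C u z : ℝ) := by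
      have e8 : L * ∑ z ∈ univ.filter (fun z => ¬ z ∈ R), (T C u z : ℝ) ≤ L * N :=
        mul_le_mul_of_nonneg_left e2 hL0
      have e9 : -(N * (Kc * (ε + Q * R.card))) ≤ (1 - ε) * N * (L - Kc * Q * R.card) - L * N := by
        have : (1 - ε) * N * (L - Kc * Q * R.card) - L * N
          = -(N * (ε * L + (1 - ε) * (Kc * (Q * R.card)))) := by ring
        rw [this]
        apply neg_le_neg
        apply mul_le_mul_of_nonneg_left _ hN0
        have a1 : ε * L ≤ ε * Kc := mul_le_mul_of_nonneg_left hL1 hε0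
        have a2 : (1 - ε) * (Kc * (Q * R.card)) ≤ 1 * (Kc * (Q * R.card)) :=
          mul_le_mul_of_nonneg_right (by linarith) (by positivity)
        linarith
      linarith
    have e10 : -(lam * a * (∑ z ∈ univ.filter (fun z => ¬ z ∈ R), (T C u z : ℝ) * ell z
            - L * ∑ z ∈ univ.filter (fun z => ¬ z ∈ R), (T C u z : ℝ)))
        ≤ lam * a * (N * (Kc * (ε + Q * R.card))) := by
      rw [← mul_neg]
      apply mul_le_mul_of_nonneg_left _ (by positivity)
      linarith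
    have e11 : (∑ z ∈ univ.filter (fun z => ¬ z ∈ R), (T C u z : ℝ))
              * (lam ^ 2 * (a * wm * Kc ^ 2)) ≤ N * (lam ^ 2 * (a * wm * Kc ^ 2)) :=
      mul_le_mul_of_nonneg_right e2 (by positivity)
    calc _ ≤ lam * a * (N * (Kc * (ε + Q * R.card))) + N * (lam ^ 2 * (a * wm * Kc ^ 2)) :=
          add_le_add e10 e11
      _ = _ := by ring
  have htot : ∑ z, (T C u z : ℝ) * Real.exp (-(lam * g z)) ≤ N * (1 + (a * (lam * ε * Kc
      + 5 * lam * Kc * Q * R.card + lam ^ 2 * wm * Kc ^ 2) + 8 * lam * Kc * Q)) := by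
    calc _ ≤ N + (4 * lam * Kc * Q * N * (a * R.card + 2) +
          N * (lam * (a * (Kc * (ε + Q * R.card))) + lam ^ 2 * (a * wm * Kc ^ 2))) := by
          linarith
      _ = _ := by ring
  refine htot.trans (mul_le_mul_of_nonneg_left ?_ hN0)
  have := Real.add_one_le_exp (a * (lam * ε * Kc
      + 5 * lam * Kc * Q * R.card + lam ^ 2 * wm * Kc ^ 2) + 8 * lam * Kc * Q)
  linarith

theorem expo_match (hC : IsCyl c B S C) (M : ℕ)
    (hM : ∀ k, (univ.filter (fun x => c x = k)).card = M)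
    {ε : ℝ} (hs : Small B S ε) {u : H} (hu : u ∉ S) (Bf : Finset H) (hBf : ∀ z ∈ Bf, z ∉ S ∧ z ≠ u)
    {lam Kc a wm Q θ Nn : ℝ} (hlam : 0 ≤ lam) (hKc : 0 ≤ Kc) (ha : 0 ≤ a) (haw : a ≤ wm)
    (hNn : 0 ≤ Nn) (hθ : 0 ≤ θ)
    (f : H → ℝ) (hf0 : ∀ z, 0 ≤ f z) (hf1 : ∀ z, f z ≤ θ) (hf2 : ∀ z ∉ Bf, f z = 0)
    (loss om : H → ℝ) (hl0 : ∀ z, 0 ≤ loss z) (hl1 : ∀ z, loss z ≤ Kc * om z)
    (ho1 : ∀ z, om z ≤ wm) (ho2 : ∑ z, om z ≤ 2)
    (Fu : ℝ) (hFu : Fu = ∑ z, Nn * q B M (c u) (c z) * f z) (hFa : Fu ≤ Kc * a)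
    (hlw : 2 * lam * Kc * wm ≤ 1) (hlθ : lam * Nn * θ ≤ 1) (hQ : ∀ k l, q B M k l ≤ Q) :
    ∑ z, (T C u z : ℝ) * Real.exp (-(lam * (Nn * f z - Fu - loss z))) ≤
      C.card * Real.exp (a * (lam * ε * Kc + 2 * lam ^ 2 * Kc ^ 2 * wm
        + 2 * lam ^ 2 * Nn * θ * Kc) + 8 * lam * Kc * Q) := by
  set N : ℝ := ((C.card : ℕ) : ℝ) with hN
  have hN0 : 0 ≤ N := by positivity
  have hε0 := hs.1
  have hε1 := hs.2.1
  have hq0 : ∀ z, 0 ≤ q B M (c u) (c z) := fun z => q_nonneg M _ _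
  have hQ0 : 0 ≤ Q := (hq0 u).trans (hQ _ _)
  have hp0 : ∀ z, (0 : ℝ) ≤ T C u z := fun z => by positivity
  have hwm0 : 0 ≤ wm := ha.trans haw
  have hFu0 : 0 ≤ Fu := by
    rw [hFu]; exact sum_nonneg fun z _ => mul_nonneg (mul_nonneg hNn (hq0 z)) (hf0 z)
  have hp1 : ∀ z, (T C u z : ℝ) ≤ 2 * q B M (c u) (c z) * N := fun z => by
    calc _ ≤ _ := T_le hC M hM hs hu z
      _ ≤ 2 * q B M (c u) (c z) * N := by
        apply mul_le_mul_of_nonneg_right _ hN0
        exact mul_le_mul_of_nonneg_right (by linarith) (hq0 z)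
  have hp2 : ∀ z, (T C u z : ℝ) ≤ 2 * Q * N := fun z => by
    refine (hp1 z).trans (mul_le_mul_of_nonneg_right ?_ hN0)
    linarith [hQ (c u) (c z)]
  have hFw : lam * Fu ≤ 1 / 2 := by
    have h1 : lam * Fu ≤ lam * (Kc * wm) :=
      mul_le_mul_of_nonneg_left (hFa.trans (mul_le_mul_of_nonneg_left haw hKc)) hlam
    nlinarith
  have hlossw : ∀ z, lam * loss z ≤ 1 / 2 := by
    intro z
    have h1 : lam * loss z ≤ lam * (Kc * wm) :=
      mul_le_mul_of_nonneg_left ((hl1 z).trans (mul_le_mul_of_nonneg_left (ho1 z) hKc)) hlam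
    nlinarith only [hlw, h1]
  have hpt : ∀ z, (T C u z : ℝ) * Real.exp (-(lam * (Nn * f z - Fu - loss z))) ≤
      (T C u z : ℝ) * (1 + (lam * Fu + 2 * lam ^ 2 * Fu ^ 2))
      + (T C u z : ℝ) * (lam * loss z + 2 * lam ^ 2 * loss z ^ 2)
      - (T C u z : ℝ) * (lam * Nn * f z) + (T C u z : ℝ) * (lam * Nn * f z) ^ 2 := by
    intro z
    have hx0 : 0 ≤ lam * Fu + lam * loss z := by have := hl0 z; positivity
    have hx1 : lam * Fu + lam * loss z ≤ 1 := by linarith [hlossw z]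
    have hy0 : 0 ≤ lam * Nn * f z := by have := hf0 z; positivity
    have hy1 : lam * Nn * f z ≤ 1 :=
      (mul_le_mul_of_nonneg_left (hf1 z) (by positivity)).trans hlθ
    have h1 := exp_le_quad (x := (lam * Fu + lam * loss z) - lam * Nn * f z)
      (by rw [abs_le]; constructor <;> linarith)
    have h2 : ((lam * Fu + lam * loss z) - lam * Nn * f z) ^ 2
        ≤ (lam * Fu + lam * loss z) ^ 2 + (lam * Nn * f z) ^ 2 := by nlinarith only [hx0, hy0]
    have h3 : (lam * Fu + lam * loss z) ^ 2 ≤ 2 * lam ^ 2 * Fu ^ 2 + 2 * lam ^ 2 * loss z ^ 2 := by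
      nlinarith only [sq_nonneg (lam * Fu - lam * loss z)]
    have h4 : -(lam * (Nn * f z - Fu - loss z)) = (lam * Fu + lam * loss z) - lam * Nn * f z := by
      ring
    rw [h4]
    have h5 : Real.exp ((lam * Fu + lam * loss z) - lam * Nn * f z) ≤
        (1 + (lam * Fu + 2 * lam ^ 2 * Fu ^ 2)) + (lam * loss z + 2 * lam ^ 2 * loss z ^ 2)
        - lam * Nn * f z + (lam * Nn * f z) ^ 2 := by linarith
    calc _ ≤ (T C u z : ℝ) * ((1 + (lam * Fu + 2 * lam ^ 2 * Fu ^ 2))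
          + (lam * loss z + 2 * lam ^ 2 * loss z ^ 2)
        - lam * Nn * f z + (lam * Nn * f z) ^ 2) := mul_le_mul_of_nonneg_left h5 (hp0 z)
      _ = _ := by ring
  have hsum := sum_le_sum (s := univ) fun z _ => hpt z
  rw [sum_add_distrib, sum_sub_distrib, sum_add_distrib, ← sum_mul, sum_T] at hsum
  -- loss part
  have hA : ∑ z, (T C u z : ℝ) * (lam * loss z + 2 * lam ^ 2 * loss z ^ 2)
      ≤ N * (8 * lam * Kc * Q) := by
    have h1 : ∀ z, (T C u z : ℝ) * (lam * loss z + 2 * lam ^ 2 * loss z ^ 2)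
        ≤ (2 * Q * N) * (2 * lam * Kc * om z) := by
      intro z
      have h2 : lam * loss z + 2 * lam ^ 2 * loss z ^ 2 ≤ 2 * lam * Kc * om z := by
        have h3 : 2 * lam ^ 2 * loss z ^ 2 ≤ lam * loss z := by
          have := hlossw z
          have h0 : 0 ≤ lam * loss z := mul_nonneg hlam (hl0 z)
          nlinarith only [this, h0]
        have h4 : lam * loss z ≤ lam * (Kc * om z) := mul_le_mul_of_nonneg_left (hl1 z) hlam
        nlinarith only [h3, h4]
      have h0 : 0 ≤ lam * loss z + 2 * lam ^ 2 * loss z ^ 2 := by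
        have := hl0 z; positivity
      exact mul_le_mul (hp2 z) h2 h0 (by positivity)
    calc _ ≤ ∑ z, (2 * Q * N) * (2 * lam * Kc * om z) := sum_le_sum fun z _ => h1 z
      _ = (2 * Q * N) * (2 * lam * Kc) * ∑ z, om z := by
          rw [mul_sum]; exact sum_congr rfl fun z _ => by ring
      _ ≤ (2 * Q * N) * (2 * lam * Kc) * 2 := mul_le_mul_of_nonneg_left ho2 (by positivity)
      _ = _ := by ring
  have hB : (1 - ε) * lam * Fu * N ≤ ∑ z, (T C u z : ℝ) * (lam * Nn * f z) := by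
    calc (1 - ε) * lam * Fu * N
        = ∑ z, ((1 - ε) * q B M (c u) (c z) * N) * (lam * Nn * f z) := by
          rw [hFu, mul_sum, sum_mul]; exact sum_congr rfl fun z _ => by ring
      _ ≤ _ := by
          refine sum_le_sum fun z _ => ?_
          by_cases hz : z ∈ Bf
          · have := hf0 z
            exact mul_le_mul_of_nonneg_right (le_T hC M hM hs hu (hBf z hz).1 (hBf z hz).2)
              (by positivity)
          · rw [hf2 z hz]; simp
  have hD : ∑ z, (T C u z : ℝ) * (lam * Nn * f z) ^ 2 ≤ N * (a * (2 * lam ^ 2 * Nn * θ * Kc)) := by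
    calc _ ≤ ∑ z, (2 * q B M (c u) (c z) * N) * (lam ^ 2 * Nn ^ 2 * (θ * f z)) := by
          refine sum_le_sum fun z _ => ?_
          have h0 := hf0 z
          refine mul_le_mul (hp1 z) ?_ (by positivity) (by have := hq0 z; positivity)
          have : (lam * Nn * f z) ^ 2 = lam ^ 2 * Nn ^ 2 * (f z * f z) := by ring
          rw [this]
          apply mul_le_mul_of_nonneg_left _ (by positivity)
          exact mul_le_mul_of_nonneg_right (hf1 z) h0
      _ = N * (2 * lam ^ 2 * Nn * θ * Fu) := by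
          rw [hFu, mul_sum, mul_sum]; exact sum_congr rfl fun z _ => by ring
      _ ≤ N * (2 * lam ^ 2 * Nn * θ * (Kc * a)) := by
          apply mul_le_mul_of_nonneg_left _ hN0
          exact mul_le_mul_of_nonneg_left hFa (by positivity)
      _ = _ := by ring
  have hE : 2 * lam ^ 2 * Fu ^ 2 ≤ a * (2 * lam ^ 2 * Kc ^ 2 * wm) := by
    have h1 : Fu ^ 2 ≤ (Kc * a) * (Kc * wm) := by
      rw [sq]
      exact mul_le_mul hFa (hFa.trans (mul_le_mul_of_nonneg_left haw hKc)) hFu0 (by positivity)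
    have h2 : 0 ≤ 2 * lam ^ 2 := by positivity
    calc _ ≤ 2 * lam ^ 2 * ((Kc * a) * (Kc * wm)) := mul_le_mul_of_nonneg_left h1 h2
      _ = _ := by ring
  have htot : ∑ z, (T C u z : ℝ) * Real.exp (-(lam * (Nn * f z - Fu - loss z)))
      ≤ N * (1 + (a * (lam * ε * Kc + 2 * lam ^ 2 * Kc ^ 2 * wm
        + 2 * lam ^ 2 * Nn * θ * Kc) + 8 * lam * Kc * Q)) := by
    have h1 : ε * lam * Fu * N ≤ N * (a * (lam * ε * Kc)) := by
      have : ε * lam * Fu ≤ ε * lam * (Kc * a) := mul_le_mul_of_nonneg_left hFa (by positivity)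
      nlinarith only [this, hN0, mul_le_mul_of_nonneg_right this hN0]
    have h2 := mul_le_mul_of_nonneg_left hE hN0
    have h3 : N * (1 + (lam * Fu + 2 * lam ^ 2 * Fu ^ 2)) - (1 - ε) * lam * Fu * N
        = N * 1 + ε * lam * Fu * N + N * (2 * lam ^ 2 * Fu ^ 2) := by ring
    calc _ ≤ _ := hsum
      _ ≤ N * (1 + (lam * Fu + 2 * lam ^ 2 * Fu ^ 2)) + N * (8 * lam * Kc * Q)
          - (1 - ε) * lam * Fu * N + N * (a * (2 * lam ^ 2 * Nn * θ * Kc)) := by linarith
      _ ≤ N * 1 + N * (a * (lam * ε * Kc)) + N * (a * (2 * lam ^ 2 * Kc ^ 2 * wm))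
          + N * (8 * lam * Kc * Q) + N * (a * (2 * lam ^ 2 * Nn * θ * Kc)) := by linarith
      _ = _ := by ring
  refine htot.trans (mul_le_mul_of_nonneg_left ?_ hN0)
  have := Real.add_one_le_exp (a * (lam * ε * Kc + 2 * lam ^ 2 * Kc ^ 2 * wm
        + 2 * lam ^ 2 * Nn * θ * Kc) + 8 * lam * Kc * Q)
  linarith

end Pool.Agent.W_MP_17e8f0_pr
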