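import Pool.Agent.W_MP_17e8f0_pr.Values2

namespace Pool.Agent.W_MP_17e8f0_pr

open Finset Filter

lemma card_filter_le_of {ι : Type*} {Om0 : Finset ι} {P Q : ι → Prop} [DecidablePred P] [DecidablePred Q]
    (h : ∀ η ∈ Om0, P η → Q η) : ((Om0.filter P).card : ℝ) ≤ ((Om0.filter Q).card : ℝ) := by
  have : Om0.filter P ⊆ Om0.filter Q := by
    intro η hη
    rw [mem_filter] at hη ⊢
    exact ⟨hη.1, h η hη.1 hη.2⟩
  exact_mod_cast card_le_card this

set_option maxHeartbeats 4000000 in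
open Classical in
theorem finalA_up (K Δ : ℕ) (hK : 0 < K) {σ0 : ℝ} (hσ0 : 0 < σ0) {ε : ℝ} (hε : 0 < ε) {δ : ℝ}
    (hδ : 0 < δ) : ∃ C : ℝ, 1 ≤ C ∧ ∃ y₀ : ℝ,
    ∀ {H V : Type*} [Fintype H] [DecidableEq H] [DecidableEq V] {vt : H → V} {c : H → Fin K}
      {B : Fin K → Fin K → ℕ} {M : ℕ} {α y : ℝ},
      Inst Δ σ0 vt c B M α y → y₀ ≤ y → y₀ ≤ α * y ^ 8 →
      (((Om c B).filter (fun η => ¬ ∃ t : ℕ, (t : ℝ) ≤ y ^ 8 / mu vt c M + C * wN vt c B M α y ∧
        ∀ x, Dx vt η t x < ε)).card : ℝ) ≤ δ * (Om c B).card := by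
  have hK1 : (1:ℝ) ≤ K := by exact_mod_cast hK
  set C : ℝ := 1 + 384 * K ^ 2 / ε with hC
  have hC1 : 1 ≤ C := by rw [hC]; have : 0 ≤ 384 * (K:ℝ) ^ 2 / ε := by positivity
                         linarith
  have hC0 : 0 < C := by linarith
  set l' : ℝ := 1 + |Real.log Δ| with hl'
  have hl'1 : 1 ≤ l' := by rw [hl']; have := abs_nonneg (Real.log Δ); linarith
  set r : ℝ := min 1 (ε / (3072 * K ^ 2)) with hr
  have hr0 : 0 < r := lt_min one_pos (by positivity)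
  have hr1 : r ≤ 1 := min_le_left _ _
  have hr2 : r ≤ ε / (3072 * K ^ 2) := min_le_right _ _
  set e : ℝ := r / (16 * C * l') with he
  have he0 : 0 < e := by positivity
  set δ' : ℝ := min δ (ε / 4) with hδ'
  have hδ'0 : 0 < δ' := lt_min hδ (by positivity)
  obtain ⟨y₁, hy₁⟩ := exists_reg K Δ σ0 hσ0 he0
  obtain ⟨y₂, hy₂⟩ := eventually_atTop.1 (ev_main K Δ hδ'0)
  refine ⟨C, hC1, max 1 (max y₁ y₂), ?_⟩
  intro H V _ _ _ vt c B M α y hI hy hα
  have hR : Reg Δ vt c B M α y e := hy₁ hI (by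
    exact (le_max_left _ _).trans ((le_max_right _ _).trans hy)) (by
    exact (le_max_left _ _).trans ((le_max_right _ _).trans hα))
  have hE : Ev K Δ δ' y := hy₂ y ((le_max_right _ _).trans ((le_max_right _ _).trans hy))
  have hα1 : 1 ≤ α * y ^ 8 := (le_max_left _ _).trans hα
  have hl0 := hI.ell_pos
  have hll : Real.log Δ ≤ l' := by rw [hl', abs_of_pos hl0]; linarith
  have hel' : C * e * Real.log Δ ≤ r / 16 := by
    calc C * e * Real.log Δ ≤ C * e * l' := by gcongr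
      _ = r / 16 := by rw [he]; field_simp
  have hCel : C * e * Real.log Δ ≤ 1 / 16 := by linarith only [hr1, hel']
  have hel : e * Real.log Δ ≤ r / 16 := by
    have : 1 * (e * Real.log Δ) ≤ C * (e * Real.log Δ) :=
      mul_le_mul_of_nonneg_right hC1 (by positivity)
    linarith
  have he16 : e ≤ 1 / 16 := by
    rw [he, div_le_div_iff₀ (by positivity) (by norm_num)]
    have : 1 ≤ C * l' := by nlinarith only [hC1, hl'1]
    nlinarith only [hr1, this]
  obtain ⟨n, hn0, hn1, hn2, hn3, hn4⟩ := hI.exists_d hR he0 he16 (κ := C)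
    (by rw [abs_of_pos hC0]; exact hCel)
  have hval : ∀ k k' s s', gN y * Real.log 2 ≤ s → s ≤ gN y * Real.log Δ →
      gN y * Real.log 2 ≤ s' → s' ≤ (gN y + 1) * Real.log Δ →
      1 - ε / 2 ≤ v2 vt c B M (Frew B M (K * M) (3 / 4 * y ^ 8) (y ^ 8 + y)) k s
        (n + gN y - gN y) k' s' (n + gN y - gN y) := by
    intro k k' s s' h1 h2 h3 h4
    rw [Nat.add_sub_cancel]
    have g0 : 0 ≤ (gN y : ℝ) * Real.log 2 := mul_nonneg (by positivity) log2_pos.le
    refine le_trans ?_ (hI.v2A hR he0 he16 hC1 hCel hn2 hn3 hn4 k k' (g0.trans h1)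
      (by linarith only [hl0, h2]) (g0.trans h3) h4)
    have e1 : 4 * e * Real.log Δ ≤ ε / 8 := by
      have : ε / (3072 * K ^ 2) ≤ ε / 3072 := by
        apply div_le_div_of_nonneg_left hε.le (by norm_num)
        nlinarith only [hK1]
      nlinarith only [hr0, hr2, hel, this]
    have e2 : K * (2 * (192 * K * e ^ 2 * Real.log Δ ^ 2)) ≤ ε / 8 := by
      have f1 : (e * Real.log Δ) ^ 2 ≤ (r / 16) ^ 2 := pow_le_pow_left₀ (by positivity) hel 2
      have f2 : (r / 16) ^ 2 ≤ r := by nlinarith only [hr0, hr1]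
      have f3 : (e * Real.log Δ) ^ 2 ≤ ε / (3072 * K ^ 2) := f1.trans (f2.trans hr2)
      calc K * (2 * (192 * K * e ^ 2 * Real.log Δ ^ 2)) = 384 * K ^ 2 * (e * Real.log Δ) ^ 2 := by
            ring
        _ ≤ 384 * K ^ 2 * (ε / (3072 * K ^ 2)) := by gcongr
        _ = ε / 8 := by field_simp; norm_num
    have e3 : K * (2 * (48 * K / C ^ 2)) ≤ ε / 4 := by
      have f1 : 384 * K ^ 2 / ε ≤ C := by rw [hC]; linarith only [he0, he16]
      have f2 : C ≤ C ^ 2 := by nlinarith only [hC1]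
      have f3 : 384 * K ^ 2 ≤ C ^ 2 * ε := by
        rw [div_le_iff₀ hε] at f1
        nlinarith only [f1, hε, f2]
      have f4 : K * (2 * (48 * K / C ^ 2)) = 96 * K ^ 2 / C ^ 2 := by ring
      rw [f4, div_le_iff₀ (by positivity)]
      linarith only [f3]
    linarith only [e1, e2, e3]
  have key := upper_gen hI.ann hI.hcv hI.h2 hI.hΔ hI.hOm hδ'0 hI.hNe hα1 hE (d₁ := n + gN y)
    (d₂ := n + gN y) hn0 hn0 (by omega) (by omega) (Rm := 1 - ε / 2) (by linarith) hval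
  refine le_trans (card_filter_le_of ?_) (key.trans ?_)
  · intro η _ hη
    by_contra hcon
    apply hη
    push Not at hcon
    refine ⟨_, hn1, fun x => ?_⟩
    have h1 := hcon x
    have h2 : δ' ≤ ε / 4 := min_le_right _ _
    linarith only [hδ'0, h1, h2]
  · exact mul_le_mul_of_nonneg_right (min_le_left _ _) (by positivity)

lemma Inst.exists_x {K : ℕ} {H V : Type*} [Fintype H] [DecidableEq H] [DecidableEq V]
    {vt : H → V} {c : H → Fin K}
    {B : Fin K → Fin K → ℕ} {M : ℕ} {α y σ0 : ℝ} {Δ : ℕ}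
    (hI : Inst Δ σ0 vt c B M α y) : Nonempty H := by
  have : 0 < Fintype.card H := by
    have : (0:ℝ) < Fintype.card H := by rw [hI.ann.card_H, hI.hNe]; exact Real.exp_pos _
    exact_mod_cast this
  exact Fintype.card_pos_iff.1 this

open Classical in
theorem finalA_low (K Δ : ℕ) (hK : 0 < K) {σ0 : ℝ} (hσ0 : 0 < σ0) {ε : ℝ} (hε : ε < 1) {δ : ℝ}
    (hδ : 0 < δ) : ∃ C : ℝ, 1 ≤ C ∧ ∃ y₀ : ℝ,
    ∀ {H V : Type*} [Fintype H] [DecidableEq H] [DecidableEq V] {vt : H → V} {c : H → Fin K}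
      {B : Fin K → Fin K → ℕ} {M : ℕ} {α y : ℝ},
      Inst Δ σ0 vt c B M α y → y₀ ≤ y → y₀ ≤ α * y ^ 8 →
      (((Om c B).filter (fun η => ¬ ∃ t : ℕ, y ^ 8 / mu vt c M - C * wN vt c B M α y < t + 1 ∧
        ∃ x, ε ≤ Dx vt η t x)).card : ℝ) ≤ δ * (Om c B).card := by
  have hK1 : (1:ℝ) ≤ K := by exact_mod_cast hK
  have hε' : 0 < 1 - ε := by linarith
  set C : ℝ := 1 + 24 * K / (1 - ε) with hC
  have hC1 : 1 ≤ C := by rw [hC]; have : 0 ≤ 24 * (K:ℝ) / (1 - ε) := by positivity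
                         linarith
  have hC0 : 0 < C := by linarith
  set l' : ℝ := 1 + |Real.log Δ| with hl'
  have hl'1 : 1 ≤ l' := by rw [hl']; have := abs_nonneg (Real.log Δ); linarith
  set e : ℝ := 1 / (16 * C * l') with he
  have he0 : 0 < e := by positivity
  set δ' : ℝ := min δ ((1 - ε) / 2) with hδ'
  have hδ'0 : 0 < δ' := lt_min hδ (by positivity)
  obtain ⟨y₁, hy₁⟩ := exists_reg K Δ σ0 hσ0 he0
  obtain ⟨y₂, hy₂⟩ := eventually_atTop.1 (ev_low K Δ hδ'0)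
  refine ⟨C, hC1, max 1 (max y₁ y₂), ?_⟩
  intro H V _ _ _ vt c B M α y hI hy hα
  have hR : Reg Δ vt c B M α y e := hy₁ hI (by
    exact (le_max_left _ _).trans ((le_max_right _ _).trans hy)) (by
    exact (le_max_left _ _).trans ((le_max_right _ _).trans hα))
  have hE : EvL K Δ δ' y := hy₂ y ((le_max_right _ _).trans ((le_max_right _ _).trans hy))
  have hα1 : 1 ≤ α * y ^ 8 := (le_max_left _ _).trans hα
  have hl0 := hI.ell_pos
  have hll : Real.log Δ ≤ l' := by rw [hl', abs_of_pos hl0]; linarith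
  have hCel : C * e * Real.log Δ ≤ 1 / 16 := by
    calc C * e * Real.log Δ ≤ C * e * l' := by gcongr
      _ = 1 / 16 := by rw [he]; field_simp
  have he16 : e ≤ 1 / 16 := by
    rw [he]
    apply one_div_le_one_div_of_le (by norm_num)
    have : 1 ≤ C * l' := by nlinarith only [hC1, hl'1]
    linarith
  obtain ⟨n, hn0, hn1, hn2, hn3⟩ := hI.exists_t hR he0 he16 (κ := -C)
    (by rw [abs_neg, abs_of_pos hC0]; exact hCel)
  obtain ⟨x⟩ := hI.exists_x
  have key := lower_gen hI.ann hI.hcv hI.h2 hI.hΔ hI.hOm hδ'0 hI.hNe hα1 hE (t := n + gN y)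
    hn0 (by omega) (Vm := 1 - 12 * K / C ^ 2) (fun k s _ h2 => by
      rw [Nat.add_sub_cancel]
      exact hI.oneA hR he0 he16 hC1 hCel hn2 k h2) x
  refine le_trans (card_filter_le_of ?_) (key.trans ?_)
  · intro η _ hη
    by_contra hcon
    apply hη
    push Not at hcon
    refine ⟨n + gN y, by linarith only [hn1], x, ?_⟩
    have h2 : δ' ≤ (1 - ε) / 2 := min_le_right _ _
    have h3 : 12 * K / C ^ 2 ≤ (1 - ε) / 2 := by
      have f1 : 24 * K / (1 - ε) ≤ C := by rw [hC]; linarith only [he0, he16]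
      have f2 : C ≤ C ^ 2 := by nlinarith only [hC1]
      rw [div_le_iff₀ hε'] at f1
      rw [div_le_iff₀ (by positivity)]
      nlinarith only [f1, hε, f2]
    linarith only [hcon, h2, h3]
  · exact mul_le_mul_of_nonneg_right (min_le_left _ _) (by positivity)

open Classical in
theorem finalB_up (K Δ : ℕ) (hK : 0 < K) {σ0 : ℝ} (hσ0 : 0 < σ0) {τ : ℝ}
    (hτ : τ = th K (Real.log Δ) σ0) {δ : ℝ} (hδ : 0 < δ) : ∃ y₀ : ℝ,
    ∀ {H V : Type*} [Fintype H] [DecidableEq H] [DecidableEq V] {vt : H → V} {c : H → Fin K}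
      {B : Fin K → Fin K → ℕ} {M : ℕ} {α y : ℝ},
      Inst Δ σ0 vt c B M α y → y₀ ≤ y → y₀ ≤ α * y ^ 8 →
      (((Om c B).filter (fun η => ¬ ∃ t : ℕ, (t : ℝ) ≤ y ^ 8 / mu vt c M
        - τ / 128 * wN vt c B M α y ∧
        ∀ x, Dx vt η t x < 1 - (τ ^ 2 / (256 * K ^ 2)) ^ 2 / 4)).card : ℝ)
        ≤ δ * (Om c B).card := by
  have hK1 : (1:ℝ) ≤ K := by exact_mod_cast hK
  have hK0 : (0:ℝ) < K := by linarith
  have hτ0 : 0 < τ := by rw [hτ]; exact th_pos K hK _ _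
  have hτ1 : τ ≤ 1 := by rw [hτ]; exact th_le_one K hK _ _
  set l' : ℝ := 1 + |Real.log Δ| with hl'
  have hl'1 : 1 ≤ l' := by rw [hl']; have := abs_nonneg (Real.log Δ); linarith
  set e : ℝ := τ ^ 2 / (4000000 * K ^ 2 * l') with he
  have he0 : 0 < e := by positivity
  set ρ : ℝ := (τ ^ 2 / (256 * K ^ 2)) ^ 2 with hρ
  have hρ0 : 0 < ρ := by positivity
  have hK2 : (1:ℝ) ≤ K ^ 2 := one_le_pow₀ hK1
  have hτ2 : τ ^ 2 ≤ 1 := by nlinarith only [hτ1, hτ0]
  have hρ1 : ρ ≤ 1 := by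
    have : τ ^ 2 / (256 * K ^ 2) ≤ 1 := by
      rw [div_le_one (by positivity)]; nlinarith only [hK2, hτ2]
    rw [hρ]
    exact pow_le_one₀ (by positivity) this
  set δ' : ℝ := min δ (ρ / 2) with hδ'
  have hδ'0 : 0 < δ' := lt_min hδ (by positivity)
  obtain ⟨y₁, hy₁⟩ := exists_reg K Δ σ0 hσ0 he0
  obtain ⟨y₂, hy₂⟩ := eventually_atTop.1 (ev_main K Δ hδ'0)
  refine ⟨max 1 (max y₁ y₂), ?_⟩
  intro H V _ _ _ vt c B M α y hI hy hα
  have hR : Reg Δ vt c B M α y e := hy₁ hI (by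
    exact (le_max_left _ _).trans ((le_max_right _ _).trans hy)) (by
    exact (le_max_left _ _).trans ((le_max_right _ _).trans hα))
  have hE : Ev K Δ δ' y := hy₂ y ((le_max_right _ _).trans ((le_max_right _ _).trans hy))
  have hα1 : 1 ≤ α * y ^ 8 := (le_max_left _ _).trans hα
  have hl0 := hI.ell_pos
  have hll : Real.log Δ ≤ l' := by rw [hl', abs_of_pos hl0]; linarith
  have hmain : e * (4000000 * K ^ 2 * Real.log Δ) ≤ τ ^ 2 := by
    calc e * (4000000 * K ^ 2 * Real.log Δ) ≤ e * (4000000 * K ^ 2 * l') := by gcongr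
      _ = τ ^ 2 := by rw [he]; field_simp
  have he16 : e ≤ 1 / 16 := by
    rw [he, div_le_div_iff₀ (by positivity) (by norm_num)]
    have : 1 ≤ K ^ 2 * l' := by nlinarith only [hK2, hl'1]
    nlinarith only [hτ2, this]
  have hel : e * Real.log Δ ≤ 1 / 16 := by
    have h1 : e * Real.log Δ ≤ e * Real.log Δ * K ^ 2 := le_mul_of_one_le_right (by positivity) hK2
    linarith
  have habs : |-(τ / 128)| * e * Real.log Δ ≤ 1 / 16 := by
    rw [abs_neg, abs_of_pos (by positivity), mul_assoc]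
    have : 0 ≤ e * Real.log Δ := by positivity
    nlinarith only [he0, hK2, hτ2, he16, hτ1, hτ0, hmain]
  obtain ⟨n, hn0, hn1, hn2, hn3, hn4⟩ := hI.exists_d hR he0 he16 (κ := -(τ / 128)) habs
  have hval : ∀ k k' s s', gN y * Real.log 2 ≤ s → s ≤ gN y * Real.log Δ →
      gN y * Real.log 2 ≤ s' → s' ≤ (gN y + 1) * Real.log Δ →
      ρ ≤ v2 vt c B M (Frew B M (K * M) (3 / 4 * y ^ 8) (y ^ 8 + y)) k s
        (n + gN y - gN y) k' s' (n + gN y - gN y) := by
    intro k k' s s' h1 h2 h3 h4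
    rw [Nat.add_sub_cancel]
    have g0 : 0 ≤ (gN y : ℝ) * Real.log 2 := mul_nonneg (by positivity) log2_pos.le
    exact hI.v2B hR he0 hτ hmain hn2 hn3 hn4 k k' (g0.trans h1) (by linarith only [hl0, h2]) (g0.trans h3) h4
  have key := upper_gen hI.ann hI.hcv hI.h2 hI.hΔ hI.hOm hδ'0 hI.hNe hα1 hE (d₁ := n + gN y)
    (d₂ := n + gN y) hn0 hn0 (by omega) (by omega) (Rm := ρ) hρ1 hval
  refine le_trans (card_filter_le_of ?_) (key.trans ?_)
  · intro η _ hη
    by_contra hcon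
    apply hη
    push Not at hcon
    refine ⟨_, hn1.trans (by linarith), fun x => ?_⟩
    have h1 := hcon x
    have h2 : δ' ≤ ρ / 2 := min_le_right _ _
    linarith only [hδ'0, h1, h2]
  · exact mul_le_mul_of_nonneg_right (min_le_left _ _) (by positivity)

open Classical in
theorem finalB_low (K Δ : ℕ) (hK : 0 < K) {σ0 : ℝ} (hσ0 : 0 < σ0) {τ : ℝ}
    (hτ : τ = th K (Real.log Δ) σ0) {δ : ℝ} (hδ : 0 < δ) : ∃ y₀ : ℝ,
    ∀ {H V : Type*} [Fintype H] [DecidableEq H] [DecidableEq V] {vt : H → V} {c : H → Fin K}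
      {B : Fin K → Fin K → ℕ} {M : ℕ} {α y : ℝ},
      Inst Δ σ0 vt c B M α y → y₀ ≤ y → y₀ ≤ α * y ^ 8 →
      (((Om c B).filter (fun η => ¬ ∃ t : ℕ, y ^ 8 / mu vt c M < t + 1 ∧
        ∃ x, τ ^ 2 / (64 * K) ≤ Dx vt η t x)).card : ℝ)
        ≤ δ * (Om c B).card := by
  have hK1 : (1:ℝ) ≤ K := by exact_mod_cast hK
  have hK0 : (0:ℝ) < K := by linarith
  have hτ0 : 0 < τ := by rw [hτ]; exact th_pos K hK _ _
  have hτ1 : τ ≤ 1 := by rw [hτ]; exact th_le_one K hK _ _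
  set l' : ℝ := 1 + |Real.log Δ| with hl'
  have hl'1 : 1 ≤ l' := by rw [hl']; have := abs_nonneg (Real.log Δ); linarith
  set e : ℝ := τ ^ 2 / (4000000 * K ^ 2 * l') with he
  have he0 : 0 < e := by positivity
  have hK2 : (1:ℝ) ≤ K ^ 2 := one_le_pow₀ hK1
  have hτ2 : τ ^ 2 ≤ 1 := by nlinarith only [hτ1, hτ0]
  set δ' : ℝ := min δ (τ ^ 2 / (64 * K)) with hδ'
  have hδ'0 : 0 < δ' := lt_min hδ (by positivity)
  obtain ⟨y₁, hy₁⟩ := exists_reg K Δ σ0 hσ0 he0
  obtain ⟨y₂, hy₂⟩ := eventually_atTop.1 (ev_low K Δ hδ'0)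
  refine ⟨max 1 (max y₁ y₂), ?_⟩
  intro H V _ _ _ vt c B M α y hI hy hα
  have hR : Reg Δ vt c B M α y e := hy₁ hI (by
    exact (le_max_left _ _).trans ((le_max_right _ _).trans hy)) (by
    exact (le_max_left _ _).trans ((le_max_right _ _).trans hα))
  have hE : EvL K Δ δ' y := hy₂ y ((le_max_right _ _).trans ((le_max_right _ _).trans hy))
  have hα1 : 1 ≤ α * y ^ 8 := (le_max_left _ _).trans hα
  have hl0 := hI.ell_pos
  have hll : Real.log Δ ≤ l' := by rw [hl', abs_of_pos hl0]; linarith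
  have hmain : e * (4000000 * K ^ 2 * Real.log Δ) ≤ τ ^ 2 := by
    calc e * (4000000 * K ^ 2 * Real.log Δ) ≤ e * (4000000 * K ^ 2 * l') := by gcongr
      _ = τ ^ 2 := by rw [he]; field_simp
  have he16 : e ≤ 1 / 16 := by
    rw [he, div_le_div_iff₀ (by positivity) (by norm_num)]
    have : 1 ≤ K ^ 2 * l' := by nlinarith only [hK2, hl'1]
    nlinarith only [hτ2, this]
  obtain ⟨n, hn0, hn1, hn2, hn3⟩ := hI.exists_t hR he0 he16 (κ := 0) (by simp)
  obtain ⟨x⟩ := hI.exists_x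
  have key := lower_gen hI.ann hI.hcv hI.h2 hI.hΔ hI.hOm hδ'0 hI.hNe hα1 hE (t := n + gN y)
    hn0 (by omega) (Vm := τ ^ 2 / (32 * K)) (fun k s _ h2 => by
      rw [Nat.add_sub_cancel]
      exact hI.oneB hR he0 hτ hmain (by linarith only [hn2]) hn3 k h2) x
  refine le_trans (card_filter_le_of ?_) (key.trans ?_)
  · intro η _ hη
    by_contra hcon
    apply hη
    push Not at hcon
    refine ⟨n + gN y, by linarith only [hn1], x, ?_⟩
    have h2 : δ' ≤ τ ^ 2 / (64 * K) := min_le_right _ _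
    have h3 : τ ^ 2 / (32 * K) = τ ^ 2 / (64 * K) + τ ^ 2 / (64 * K) := by
      field_simp; norm_num
    linarith only [hcon, h2, h3]
  · exact mul_le_mul_of_nonneg_right (min_le_left _ _) (by positivity)

end Pool.Agent.W_MP_17e8f0_pr
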