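import Pool.Agent.W_MP_17e8f0_pr.Phase1

namespace Pool.Agent.W_MP_17e8f0_pr

open Filter Topology

/-- at most polynomial times simple exponential growth -/
def Sub (f : ℝ → ℝ) : Prop :=
  ∃ (k : ℕ) (a C : ℝ), 0 ≤ C ∧ 0 ≤ a ∧ ∀ᶠ y in atTop, |f y| ≤ C * y ^ k * Real.exp (a * y)

/-- at most polynomial growth -/
def Pol (f : ℝ → ℝ) : Prop :=
  ∃ (k : ℕ) (C : ℝ), 0 ≤ C ∧ ∀ᶠ y in atTop, |f y| ≤ C * y ^ k

lemma Pol.sub {f : ℝ → ℝ} (h : Pol f) : Sub f := by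
  obtain ⟨k, C, hC, h⟩ := h
  refine ⟨k, 0, C, hC, le_rfl, ?_⟩
  filter_upwards [h] with y hy
  simpa using hy

lemma Pol.const (c : ℝ) : Pol (fun _ => c) :=
  ⟨0, |c|, abs_nonneg _, Eventually.of_forall fun y => by simp⟩

lemma Pol.id : Pol (fun y => y) :=
  ⟨1, 1, zero_le_one, by
    filter_upwards [eventually_ge_atTop 0] with y hy
    rw [abs_of_nonneg hy]; simp⟩

lemma Pol.mul {f g : ℝ → ℝ} (hf : Pol f) (hg : Pol g) : Pol (fun y => f y * g y) := by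
  obtain ⟨k, C, hC, hf⟩ := hf
  obtain ⟨l, D, hD, hg⟩ := hg
  refine ⟨k + l, C * D, by positivity, ?_⟩
  filter_upwards [hf, hg, eventually_ge_atTop 0] with y h1 h2 hy
  rw [abs_mul]
  calc |f y| * |g y| ≤ (C * y ^ k) * (D * y ^ l) :=
        mul_le_mul h1 h2 (abs_nonneg _) (by positivity)
    _ = _ := by rw [pow_add]; ring

lemma Pol.add {f g : ℝ → ℝ} (hf : Pol f) (hg : Pol g) : Pol (fun y => f y + g y) := by
  obtain ⟨k, C, hC, hf⟩ := hf
  obtain ⟨l, D, hD, hg⟩ := hg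
  refine ⟨k + l, C + D, by positivity, ?_⟩
  filter_upwards [hf, hg, eventually_ge_atTop 1] with y h1 h2 hy
  have hk : y ^ k ≤ y ^ (k + l) := pow_le_pow_right₀ hy (by omega)
  have hl : y ^ l ≤ y ^ (k + l) := pow_le_pow_right₀ hy (by omega)
  calc |f y + g y| ≤ |f y| + |g y| := abs_add_le _ _
    _ ≤ C * y ^ k + D * y ^ l := add_le_add h1 h2
    _ ≤ C * y ^ (k + l) + D * y ^ (k + l) :=
        add_le_add (mul_le_mul_of_nonneg_left hk hC) (mul_le_mul_of_nonneg_left hl hD)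
    _ = _ := by ring

lemma Pol.pow {f : ℝ → ℝ} (hf : Pol f) (n : ℕ) : Pol (fun y => f y ^ n) := by
  induction n with
  | zero => simpa using Pol.const 1
  | succ n ih =>
    have := ih.mul hf
    simpa [pow_succ] using this

lemma Pol.of_le {f g : ℝ → ℝ} (hg : Pol g) (h : ∀ᶠ y in atTop, |f y| ≤ |g y|) : Pol f := by
  obtain ⟨k, C, hC, hg⟩ := hg
  refine ⟨k, C, hC, ?_⟩
  filter_upwards [hg, h] with y h1 h2
  exact h2.trans h1

lemma Sub.mul {f g : ℝ → ℝ} (hf : Sub f) (hg : Sub g) : Sub (fun y => f y * g y) := by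
  obtain ⟨k, a, C, hC, ha, hf⟩ := hf
  obtain ⟨l, b, D, hD, hb, hg⟩ := hg
  refine ⟨k + l, a + b, C * D, by positivity, by positivity, ?_⟩
  filter_upwards [hf, hg, eventually_ge_atTop 0] with y h1 h2 hy
  rw [abs_mul]
  calc |f y| * |g y| ≤ (C * y ^ k * Real.exp (a * y)) * (D * y ^ l * Real.exp (b * y)) :=
        mul_le_mul h1 h2 (abs_nonneg _) (by positivity)
    _ = _ := by rw [pow_add, add_mul, Real.exp_add]; ring

lemma Sub.add {f g : ℝ → ℝ} (hf : Sub f) (hg : Sub g) : Sub (fun y => f y + g y) := by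
  obtain ⟨k, a, C, hC, ha, hf⟩ := hf
  obtain ⟨l, b, D, hD, hb, hg⟩ := hg
  refine ⟨k + l, a + b, C + D, by positivity, by positivity, ?_⟩
  filter_upwards [hf, hg, eventually_ge_atTop 1] with y h1 h2 hy
  have hy0 : 0 ≤ y := by linarith
  have hk : y ^ k ≤ y ^ (k + l) := pow_le_pow_right₀ hy (by omega)
  have hl : y ^ l ≤ y ^ (k + l) := pow_le_pow_right₀ hy (by omega)
  have ea : Real.exp (a * y) ≤ Real.exp ((a + b) * y) :=
    Real.exp_le_exp.2 (by nlinarith)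
  have eb : Real.exp (b * y) ≤ Real.exp ((a + b) * y) :=
    Real.exp_le_exp.2 (by nlinarith)
  calc |f y + g y| ≤ |f y| + |g y| := abs_add_le _ _
    _ ≤ C * y ^ k * Real.exp (a * y) + D * y ^ l * Real.exp (b * y) := add_le_add h1 h2
    _ ≤ C * y ^ (k + l) * Real.exp ((a + b) * y) + D * y ^ (k + l) * Real.exp ((a + b) * y) := by
        refine add_le_add ?_ ?_
        · exact mul_le_mul (mul_le_mul_of_nonneg_left hk hC) ea (by positivity) (by positivity)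
        · exact mul_le_mul (mul_le_mul_of_nonneg_left hl hD) eb (by positivity) (by positivity)
    _ = _ := by ring

lemma Sub.exp_lin {a b : ℝ} (ha : 0 ≤ a) : Sub (fun y => Real.exp (a * y + b)) := by
  refine ⟨0, a, Real.exp b, (Real.exp_pos _).le, ha, Eventually.of_forall fun y => ?_⟩
  rw [abs_of_pos (Real.exp_pos _), Real.exp_add]
  simp [mul_comm]

lemma Sub.of_le {f g : ℝ → ℝ} (hg : Sub g) (h : ∀ᶠ y in atTop, |f y| ≤ |g y|) : Sub f := by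
  obtain ⟨k, a, C, hC, ha, hg⟩ := hg
  refine ⟨k, a, C, hC, ha, ?_⟩
  filter_upwards [hg, h] with y h1 h2
  exact h2.trans h1

lemma Pol.tendsto {f : ℝ → ℝ} (hf : Pol f) {c : ℝ} (hc : 0 < c) :
    Tendsto (fun y => f y * Real.exp (-(c * y))) atTop (𝓝 0) := by
  obtain ⟨k, C, hC, hf⟩ := hf
  have h1 : Tendsto (fun y : ℝ => (c * y) ^ k * Real.exp (-(c * y))) atTop (𝓝 0) :=
    (Real.tendsto_pow_mul_exp_neg_atTop_nhds_zero k).comp (tendsto_id.const_mul_atTop hc)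
  have h2 : Tendsto (fun y : ℝ => (C / c ^ k) * ((c * y) ^ k * Real.exp (-(c * y)))) atTop
      (𝓝 0) := by
    simpa using h1.const_mul (C / c ^ k)
  refine squeeze_zero_norm' ?_ h2
  filter_upwards [hf, eventually_ge_atTop 0] with y h3 hy
  rw [Real.norm_eq_abs, abs_mul, abs_of_pos (Real.exp_pos _)]
  calc |f y| * Real.exp (-(c * y)) ≤ (C * y ^ k) * Real.exp (-(c * y)) :=
        mul_le_mul_of_nonneg_right h3 (Real.exp_pos _).le
    _ = _ := by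
        have : c ^ k ≠ 0 := by positivity
        rw [mul_pow]; field_simp

lemma Sub.tendsto {f : ℝ → ℝ} (hf : Sub f) {c : ℝ} (hc : 0 < c) :
    Tendsto (fun y => f y * Real.exp (-(c * y ^ 8))) atTop (𝓝 0) := by
  obtain ⟨k, a, C, hC, ha, hf⟩ := hf
  have hp : Pol (fun y => C * y ^ k) := (Pol.const C).mul (Pol.id.pow k)
  refine squeeze_zero_norm' ?_ (hp.tendsto (c := 1) one_pos)
  filter_upwards [hf, eventually_ge_atTop 1, eventually_ge_atTop ((a + 1) / c)] with y h3 hy hy2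
  rw [Real.norm_eq_abs, abs_mul, abs_of_pos (Real.exp_pos _)]
  have hy0 : 0 ≤ y := by linarith
  calc |f y| * Real.exp (-(c * y ^ 8))
      ≤ (C * y ^ k * Real.exp (a * y)) * Real.exp (-(c * y ^ 8)) :=
        mul_le_mul_of_nonneg_right h3 (Real.exp_pos _).le
    _ = C * y ^ k * Real.exp (a * y + -(c * y ^ 8)) := by rw [Real.exp_add]; ring
    _ ≤ C * y ^ k * Real.exp (-(1 * y)) := by
        apply mul_le_mul_of_nonneg_left _ (by positivity)
        apply Real.exp_le_exp.2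
        rw [div_le_iff₀ hc] at hy2
        have h7 : y ≤ y ^ 7 := le_self_pow₀ hy (by norm_num)
        have h8 : y ^ 8 = y * y ^ 7 := by ring
        have h9 : (a + 1) * y ≤ c * y ^ 8 := by
          rw [h8]
          calc (a + 1) * y ≤ (y * c) * y := mul_le_mul_of_nonneg_right hy2 hy0
            _ ≤ (y * c) * y ^ 7 := mul_le_mul_of_nonneg_left h7 (by positivity)
            _ = _ := by ring
        linarith

/-! ### the concrete scales -/

noncomputable def gN (y : ℝ) : ℕ := ⌈y⌉₊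
noncomputable def AN (Δ : ℕ) : ℕ := ⌈(2 + 2 * Real.log (Δ + 1)) / Real.log 2⌉₊
noncomputable def hN (Δ : ℕ) (y : ℝ) : ℕ := AN Δ * gN y
noncomputable def LN (Δ : ℕ) (y : ℝ) : ℕ := (hN Δ y + 3) * (hN Δ y + 1)
noncomputable def dmN (y : ℝ) : ℕ := ⌈4 * y ^ 8⌉₊
noncomputable def n3N (y : ℝ) : ℕ := ⌈(4 * y ^ 8 + 3) * Real.exp (3 / 4 * y ^ 8)⌉₊
noncomputable def tN (Δ : ℕ) (y : ℝ) : ℕ := tau Δ (gN y)
noncomputable def r1N (Δ : ℕ) (y : ℝ) : ℕ := 2 * Δ + Δ * tN Δ y + Δ * (Δ * tN Δ y)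
noncomputable def rTN (Δ : ℕ) (y : ℝ) : ℕ := r1N Δ y + 2 * (Δ * n3N y)
noncomputable def nTN (Δ : ℕ) (y : ℝ) : ℕ :=
  2 * tN Δ y + 2 * (Δ * tN Δ y) + 6 * n3N y + 2 * LN Δ y
noncomputable def epsN (K Δ : ℕ) (y : ℝ) : ℝ :=
  4 * (nTN Δ y + 1) * (K : ℝ) ^ 2 * y ^ 8 * Real.exp (-(y ^ 8))
noncomputable def LamN (δ y : ℝ) : ℝ := 8 / δ * y ^ 8
noncomputable def wmN (y : ℝ) : ℝ := Real.exp (-(gN y * Real.log 2))
noncomputable def c3N (K Δ : ℕ) (δ y : ℝ) : ℝ :=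
  LamN δ y * epsN K Δ y * K + 5 * LamN δ y * K * (K * Real.exp (-(y ^ 8))) * rTN Δ y
    + LamN δ y ^ 2 * wmN y * (K : ℝ) ^ 2
    + 8 * LamN δ y * K * (K * Real.exp (-(y ^ 8))) / Real.exp (-(3 / 4 * y ^ 8))
noncomputable def c4N (K Δ : ℕ) (δ y : ℝ) : ℝ :=
  LamN δ y * epsN K Δ y * K + 2 * LamN δ y ^ 2 * (K : ℝ) ^ 2 * wmN y
    + 2 * LamN δ y ^ 2 * Real.exp (-y) * K
    + 8 * LamN δ y * K * (K * Real.exp (-(y ^ 8))) / Real.exp (-(3 / 4 * y ^ 8))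
noncomputable def bN (K Δ : ℕ) (y : ℝ) : ℝ :=
  Real.exp y * (Δ + 1 + 2 * K * (1 + Δ) * tN Δ y * r1N Δ y)

/-- conditions needed for the upper bound -/
structure Ev (K Δ : ℕ) (δ y : ℝ) : Prop where
  one_le : 1 ≤ y
  eps : epsN K Δ y ≤ 1
  lw : 2 * LamN δ y * K * wmN y ≤ 1
  lt : LamN δ y * Real.exp (-y) ≤ 1
  cc : c4N K Δ δ y + 2 * (c3N K Δ δ y * dmN y) ≤ 1
  ey : 4 / δ * Real.exp (-y) ≤ δ / 2
  ex : (LN Δ y : ℝ) * ((LN Δ y * Δ : ℕ) : ℝ) ^ (2 * LN Δ y) * (2 * K : ℝ) ^ (LN Δ y)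
    * Real.exp (-(y ^ 8)) ≤ δ / 2
  bb : bN K Δ y * ((hN Δ y + 2) * (1 / 2 : ℝ) ^ (hN Δ y)) ≤ δ / 4

lemma pol_gN : Pol (fun y => (gN y : ℝ)) := by
  refine (Pol.id.add (Pol.const 1)).of_le ?_
  filter_upwards [eventually_ge_atTop 0] with y hy
  rw [abs_of_nonneg (by positivity), abs_of_nonneg (by positivity)]
  exact (Nat.ceil_lt_add_one hy).le

lemma gN_ge (y : ℝ) : y ≤ gN y := Nat.le_ceil y

lemma gN_le {y : ℝ} (hy : 0 ≤ y) : (gN y : ℝ) ≤ y + 1 := (Nat.ceil_lt_add_one hy).le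

lemma pol_hN (Δ : ℕ) : Pol (fun y => (hN Δ y : ℝ)) := by
  have := (Pol.const (AN Δ : ℝ)).mul pol_gN
  simpa [hN] using this

lemma pol_LN (Δ : ℕ) : Pol (fun y => (LN Δ y : ℝ)) := by
  have := ((pol_hN Δ).add (Pol.const 3)).mul ((pol_hN Δ).add (Pol.const 1))
  simpa [LN] using this

lemma pol_dmN : Pol (fun y => (dmN y : ℝ)) := by
  refine (((Pol.const 4).mul (Pol.id.pow 8)).add (Pol.const 1)).of_le ?_
  filter_upwards [eventually_ge_atTop 0] with y hy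
  rw [abs_of_nonneg (by positivity), abs_of_nonneg (by positivity)]
  exact (Nat.ceil_lt_add_one (by positivity)).le

lemma tau_le (Δ k : ℕ) : tau Δ k ≤ (Δ + 1) ^ k := by
  induction k with
  | zero => simp [tau]
  | succ k ih =>
    rw [tau, pow_succ]
    have h1 : 1 ≤ (Δ + 1) ^ k := Nat.one_le_pow _ _ (by omega)
    nlinarith

lemma tN_le (Δ : ℕ) {y : ℝ} (hy : 0 ≤ y) :
    (tN Δ y : ℝ) ≤ Real.exp (Real.log (Δ + 1) * y + Real.log (Δ + 1)) := by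
  have h1 : (tN Δ y : ℝ) ≤ ((Δ : ℝ) + 1) ^ (gN y) := by exact_mod_cast tau_le Δ (gN y)
  refine h1.trans ?_
  have h2 : (0:ℝ) < (Δ : ℝ) + 1 := by positivity
  have h3 : ((Δ : ℝ) + 1) ^ (gN y) = Real.exp (Real.log (Δ + 1) * gN y) := by
    rw [mul_comm, Real.exp_nat_mul, Real.exp_log h2]
  rw [h3]
  apply Real.exp_le_exp.2
  have h4 : 0 ≤ Real.log ((Δ : ℝ) + 1) := Real.log_nonneg (by
    have : (0:ℝ) ≤ Δ := by positivity
    linarith)
  have h5 := gN_le hy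
  nlinarith

lemma sub_tN (Δ : ℕ) : Sub (fun y => (tN Δ y : ℝ)) := by
  have h4 : 0 ≤ Real.log ((Δ : ℝ) + 1) := Real.log_nonneg (by
    have : (0:ℝ) ≤ Δ := by positivity
    linarith)
  refine (Sub.exp_lin (a := Real.log (Δ + 1)) (b := Real.log (Δ + 1)) h4).of_le ?_
  filter_upwards [eventually_ge_atTop 0] with y hy
  rw [abs_of_nonneg (by positivity), abs_of_nonneg (by positivity)]
  exact tN_le Δ hy

lemma sub_r1N (Δ : ℕ) : Sub (fun y => (r1N Δ y : ℝ)) := by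
  have := ((Pol.const (2 * Δ : ℝ)).sub.add ((Pol.const (Δ : ℝ)).sub.mul (sub_tN Δ))).add
    ((Pol.const (Δ : ℝ)).sub.mul ((Pol.const (Δ : ℝ)).sub.mul (sub_tN Δ)))
  simpa [r1N] using this

lemma pol_n3 : Pol (fun y => (n3N y : ℝ) * Real.exp (-(3 / 4 * y ^ 8))) := by
  refine (((Pol.const 4).mul (Pol.id.pow 8)).add (Pol.const 4)).of_le ?_
  filter_upwards [eventually_ge_atTop 0] with y hy
  rw [abs_of_nonneg (by positivity), abs_of_nonneg (by positivity)]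
  have h1 : (n3N y : ℝ) ≤ (4 * y ^ 8 + 3) * Real.exp (3 / 4 * y ^ 8) + 1 :=
    (Nat.ceil_lt_add_one (by positivity)).le
  have h2 : (1:ℝ) ≤ Real.exp (3 / 4 * y ^ 8) := Real.one_le_exp (by positivity)
  have h3 : (n3N y : ℝ) ≤ (4 * y ^ 8 + 4) * Real.exp (3 / 4 * y ^ 8) := by nlinarith
  calc (n3N y : ℝ) * Real.exp (-(3 / 4 * y ^ 8))
      ≤ ((4 * y ^ 8 + 4) * Real.exp (3 / 4 * y ^ 8)) * Real.exp (-(3 / 4 * y ^ 8)) :=
        mul_le_mul_of_nonneg_right h3 (Real.exp_pos _).le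
    _ = 4 * y ^ 8 + 4 := by
        rw [mul_assoc, ← Real.exp_add]; simp

lemma sub_damp {f : ℝ → ℝ} (hf : Sub f) :
    Sub (fun y => f y * Real.exp (-(3 / 4 * y ^ 8))) := by
  refine hf.of_le (Eventually.of_forall fun y => ?_)
  rw [abs_mul, abs_of_pos (Real.exp_pos _)]
  have : Real.exp (-(3 / 4 * y ^ 8)) ≤ 1 := Real.exp_le_one_iff.2 (by
    have : 0 ≤ y ^ 8 := by positivity
    linarith)
  exact mul_le_of_le_one_right (abs_nonneg _) this

lemma sub_rT (Δ : ℕ) : Sub (fun y => (rTN Δ y : ℝ) * Real.exp (-(3 / 4 * y ^ 8))) := by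
  have h1 := (sub_damp (sub_r1N Δ)).add (((Pol.const (2 * Δ : ℝ)).mul pol_n3).sub)
  refine h1.of_le (Eventually.of_forall fun y => le_of_eq ?_)
  congr 1
  simp only [rTN]
  push_cast
  ring

lemma sub_nT (Δ : ℕ) : Sub (fun y => ((nTN Δ y : ℝ) + 1) * Real.exp (-(3 / 4 * y ^ 8))) := by
  have h1 := (sub_damp ((((Pol.const (2:ℝ)).sub.mul (sub_tN Δ)).add
    ((Pol.const (2 * Δ : ℝ)).sub.mul (sub_tN Δ))).add
    (((Pol.const 2).mul (pol_LN Δ)).add (Pol.const 1)).sub)).add (((Pol.const (6 : ℝ)).mul pol_n3).sub)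
  refine h1.of_le (Eventually.of_forall fun y => le_of_eq ?_)
  congr 1
  simp only [nTN]
  push_cast
  ring

lemma sub_eps (K Δ : ℕ) : Sub (fun y => epsN K Δ y * Real.exp (1 / 4 * y ^ 8)) := by
  have h1 := (Pol.const (4 * (K:ℝ) ^ 2)).sub.mul ((Pol.id.pow 8).sub.mul (sub_nT Δ))
  refine h1.of_le (Eventually.of_forall fun y => le_of_eq ?_)
  congr 1
  simp only [epsN]
  have : Real.exp (-(3 / 4 * y ^ 8)) = Real.exp (-(y ^ 8)) * Real.exp (1 / 4 * y ^ 8) := by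
    rw [← Real.exp_add]; congr 1; ring
  rw [this]
  ring

lemma pol_Lam (δ : ℝ) : Pol (fun y => LamN δ y) := (Pol.const (8 / δ)).mul (Pol.id.pow 8)

lemma tends_aux {f g : ℝ → ℝ} (hf : Sub f) (h : ∀ y, g y = f y * Real.exp (-(1 / 4 * y ^ 8))) :
    Tendsto g atTop (𝓝 0) := by
  have := hf.tendsto (c := 1 / 4) (by norm_num)
  exact this.congr fun y => (h y).symm

lemma wm_bound {f : ℝ → ℝ} (hf : Pol f) :
    Tendsto (fun y => f y * wmN y) atTop (𝓝 0) := by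
  have h2 : (0:ℝ) < Real.log 2 := Real.log_pos (by norm_num)
  refine squeeze_zero_norm' (a := fun y => ‖f y * Real.exp (-(Real.log 2 * y))‖) ?_
    (by simpa using (hf.tendsto h2).norm)
  filter_upwards with y
  rw [norm_mul, norm_mul]
  apply mul_le_mul_of_nonneg_left _ (norm_nonneg _)
  rw [Real.norm_eq_abs, Real.norm_eq_abs, abs_of_pos (Real.exp_pos _), wmN,
    abs_of_pos (Real.exp_pos _)]
  apply Real.exp_le_exp.2
  have := gN_ge y
  nlinarith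

end Pool.Agent.W_MP_17e8f0_pr
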