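import Pool.Agent.W_MP_17e8f0_pr.Growth

namespace Pool.Agent.W_MP_17e8f0_pr

open Filter Topology

lemma ev_eps (K Δ : ℕ) : Tendsto (fun y => epsN K Δ y) atTop (𝓝 0) := by
  refine tends_aux (sub_eps K Δ) fun y => ?_
  rw [mul_assoc, ← Real.exp_add]; simp

lemma ev_cc (K Δ : ℕ) (δ : ℝ) :
    Tendsto (fun y => c4N K Δ δ y + 2 * (c3N K Δ δ y * dmN y)) atTop (𝓝 0) := by
  have hL := pol_Lam δ
  have hd := pol_dmN
  have pK := Pol.const (K : ℝ)
  have p1 := Pol.const (1 : ℝ)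
  have p2 := Pol.const (2 : ℝ)
  -- eps part
  have t1 : Tendsto (fun y => epsN K Δ y * (LamN δ y * K + 2 * (LamN δ y * K * dmN y))) atTop
      (𝓝 0) := by
    refine tends_aux ((sub_eps K Δ).mul ((hL.mul pK).add (p2.mul ((hL.mul pK).mul hd))).sub)
      fun y => ?_
    have h1 : Real.exp (1 / 4 * y ^ 8) * Real.exp (-(1 / 4 * y ^ 8)) = 1 := by
      rw [← Real.exp_add]; simp
    linear_combination (-(epsN K Δ y * (LamN δ y * K + 2 * (LamN δ y * K * dmN y)))) * h1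
  have t2 : Tendsto (fun y => (2 * LamN δ y ^ 2 * (K : ℝ) ^ 2 + 2 * (LamN δ y ^ 2 * (K : ℝ) ^ 2
      * dmN y)) * wmN y) atTop (𝓝 0) := by
    refine wm_bound ?_
    exact ((p2.mul (hL.pow 2)).mul (pK.pow 2)).add (p2.mul (((hL.pow 2).mul (pK.pow 2)).mul hd))
  have t3 : Tendsto (fun y => (2 * LamN δ y ^ 2 * K) * Real.exp (-(1 * y))) atTop (𝓝 0) :=
    ((p2.mul (hL.pow 2)).mul pK).tendsto one_pos
  have t4 : Tendsto (fun y => (8 * LamN δ y * K * K * (1 + 2 * dmN y))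
      * Real.exp (-(1 / 4 * y ^ 8))) atTop (𝓝 0) := by
    have : Pol (fun y => 8 * LamN δ y * K * K * (1 + 2 * dmN y)) :=
      ((((Pol.const 8).mul hL).mul pK).mul pK).mul (p1.add (p2.mul hd))
    exact this.sub.tendsto (by norm_num)
  have t5 : Tendsto (fun y => (2 * (5 * LamN δ y * K * K * dmN y)
      * ((rTN Δ y : ℝ) * Real.exp (-(3 / 4 * y ^ 8)))) * Real.exp (-(1 / 4 * y ^ 8))) atTop
      (𝓝 0) := by
    have : Pol (fun y => 2 * (5 * LamN δ y * K * K * dmN y)) :=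
      p2.mul (((((Pol.const 5).mul hL).mul pK).mul pK).mul hd)
    exact (this.sub.mul (sub_rT Δ)).tendsto (by norm_num)
  have tt := (((t1.add t2).add t3).add t4).add t5
  simp only [add_zero] at tt
  refine tt.congr fun y => ?_
  unfold c4N c3N
  have e1 : Real.exp (-(y ^ 8)) / Real.exp (-(3 / 4 * y ^ 8)) = Real.exp (-(1 / 4 * y ^ 8)) := by
    rw [← Real.exp_sub]; congr 1; ring
  have e2 : Real.exp (-(y ^ 8)) = Real.exp (-(3 / 4 * y ^ 8)) * Real.exp (-(1 / 4 * y ^ 8)) := by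
    rw [← Real.exp_add]; congr 1; ring
  have e3 : 8 * LamN δ y * K * (K * Real.exp (-(y ^ 8))) / Real.exp (-(3 / 4 * y ^ 8))
      = 8 * LamN δ y * K * K * Real.exp (-(1 / 4 * y ^ 8)) := by
    rw [← e1]; ring
  rw [e3, e2, one_mul]
  ring

lemma ev_ex (K Δ : ℕ) {δ : ℝ} (hδ : 0 < δ) : ∀ᶠ y : ℝ in atTop,
    (LN Δ y : ℝ) * ((LN Δ y * Δ : ℕ) : ℝ) ^ (2 * LN Δ y) * (2 * K : ℝ) ^ (LN Δ y)
    * Real.exp (-(y ^ 8)) ≤ δ / 2 := by
  set D : ℝ := (2 * AN Δ + 3) ^ 2 with hD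
  set D' : ℝ := D + 2 * Δ * D ^ 2 + 2 * K * D with hD'
  have h0 : Tendsto (fun y : ℝ => Real.exp (-y)) atTop (𝓝 0) := Real.tendsto_exp_neg_atTop_nhds_zero
  filter_upwards [eventually_ge_atTop 1, eventually_ge_atTop (D' + 1),
    h0.eventually (ge_mem_nhds (show (0:ℝ) < δ / 2 by positivity))] with y hy1 hyD hyδ
  refine le_trans ?_ hyδ
  have hy0 : 0 ≤ y := by linarith
  have hg := gN_le hy0
  have hD0 : 0 ≤ D := by positivity
  have hD'0 : 0 ≤ D' := by positivity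
  have hh : (hN Δ y : ℝ) ≤ 2 * AN Δ * y := by
    have : (hN Δ y : ℝ) = AN Δ * gN y := by simp [hN]
    rw [this]
    calc (AN Δ : ℝ) * gN y ≤ AN Δ * (y + 1) := mul_le_mul_of_nonneg_left hg (by positivity)
      _ ≤ AN Δ * (2 * y) := mul_le_mul_of_nonneg_left (by linarith) (by positivity)
      _ = _ := by ring
  have hLN : (LN Δ y : ℝ) ≤ D * y ^ 2 := by
    have e1 : (LN Δ y : ℝ) = ((hN Δ y : ℝ) + 3) * ((hN Δ y : ℝ) + 1) := by simp [LN]
    rw [e1, hD]
    have a1 : (hN Δ y : ℝ) + 3 ≤ (2 * AN Δ + 3) * y := by nlinarith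
    have a2 : (hN Δ y : ℝ) + 1 ≤ (2 * AN Δ + 3) * y := by nlinarith
    calc _ ≤ ((2 * AN Δ + 3) * y) * ((2 * AN Δ + 3) * y) :=
          mul_le_mul a1 a2 (by positivity) (by positivity)
      _ = _ := by ring
  set l : ℝ := (LN Δ y : ℝ) with hl
  have hl0 : 0 ≤ l := by positivity
  have b1 : l ≤ Real.exp l := by have := Real.add_one_le_exp l; linarith
  have b2 : (((LN Δ y * Δ : ℕ) : ℝ)) ^ (2 * LN Δ y) ≤ Real.exp (2 * l * (l * Δ)) := by
    have e1 : (((LN Δ y * Δ : ℕ) : ℝ)) ≤ Real.exp (l * Δ) := by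
      push_cast
      have := Real.add_one_le_exp (l * Δ); linarith
    calc _ ≤ Real.exp (l * Δ) ^ (2 * LN Δ y) := pow_le_pow_left₀ (by positivity) e1 _
      _ = _ := by
        rw [← Real.exp_nat_mul]; congr 1; push_cast; ring
  have b3 : (2 * K : ℝ) ^ (LN Δ y) ≤ Real.exp (l * (2 * K)) := by
    have e1 : (2 * K : ℝ) ≤ Real.exp (2 * K) := by
      have := Real.add_one_le_exp (2 * K : ℝ); linarith
    calc _ ≤ Real.exp (2 * K) ^ (LN Δ y) := pow_le_pow_left₀ (by positivity) e1 _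
      _ = _ := by rw [← Real.exp_nat_mul]
  calc l * ((LN Δ y * Δ : ℕ) : ℝ) ^ (2 * LN Δ y) * (2 * K : ℝ) ^ (LN Δ y) * Real.exp (-(y ^ 8))
      ≤ Real.exp l * Real.exp (2 * l * (l * Δ)) * Real.exp (l * (2 * K)) * Real.exp (-(y ^ 8)) := by
        apply mul_le_mul_of_nonneg_right _ (Real.exp_pos _).le
        exact mul_le_mul (mul_le_mul b1 b2 (by positivity) (by positivity)) b3 (by positivity)
          (by positivity)
    _ = Real.exp (l + 2 * l * (l * Δ) + l * (2 * K) + -(y ^ 8)) := by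
        rw [Real.exp_add, Real.exp_add, Real.exp_add]
    _ ≤ Real.exp (-y) := by
        apply Real.exp_le_exp.2
        have c1 : l ≤ D * y ^ 4 := by
          refine hLN.trans (mul_le_mul_of_nonneg_left ?_ hD0)
          exact pow_le_pow_right₀ hy1 (by norm_num)
        have c2 : 2 * l * (l * Δ) ≤ 2 * Δ * D ^ 2 * y ^ 4 := by
          have : l * l ≤ (D * y ^ 2) * (D * y ^ 2) := mul_le_mul hLN hLN hl0 (by positivity)
          have h3 : 0 ≤ 2 * (Δ : ℝ) := by positivity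
          nlinarith
        have c3 : l * (2 * K) ≤ 2 * K * D * y ^ 4 := by
          have : l * (2 * K) ≤ (D * y ^ 4) * (2 * K) := mul_le_mul_of_nonneg_right c1 (by positivity)
          linarith
        have c4 : l + 2 * l * (l * Δ) + l * (2 * K) ≤ D' * y ^ 4 := by
          rw [hD']; linarith
        have c5 : D' + 1 ≤ y ^ 4 := hyD.trans (le_self_pow₀ hy1 (by norm_num))
        have c6 : y ≤ y ^ 4 := le_self_pow₀ hy1 (by norm_num)
        have c7 : y ^ 8 = y ^ 4 * y ^ 4 := by ring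
        have c8 : (D' + 1) * y ^ 4 ≤ y ^ 8 := by
          rw [c7]; exact mul_le_mul_of_nonneg_right c5 (by positivity)
        linarith

lemma ev_bb (K Δ : ℕ) :
    Tendsto (fun y => bN K Δ y * ((hN Δ y + 2) * (1 / 2 : ℝ) ^ (hN Δ y))) atTop (𝓝 0) := by
  set κ := Real.log ((Δ : ℝ) + 1) with hκ
  have hκ0 : 0 ≤ κ := Real.log_nonneg (by
    have : (0:ℝ) ≤ Δ := by positivity
    linarith)
  set C : ℝ := Δ + 1 + 2 * K * (1 + Δ) * (3 * Δ + Δ ^ 2) with hC
  have hC0 : 0 ≤ C := by positivity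
  have hlog2 : (0:ℝ) < Real.log 2 := Real.log_pos (by norm_num)
  have hpol : Pol (fun y => C * Real.exp (2 * κ) * ((hN Δ y : ℝ) + 2)) :=
    (Pol.const _).mul ((pol_hN Δ).add (Pol.const 2))
  refine squeeze_zero_norm' ?_ (hpol.tendsto (c := 1) one_pos)
  filter_upwards [eventually_ge_atTop 0] with y hy
  have hb0 : 0 ≤ bN K Δ y := by unfold bN; positivity
  rw [Real.norm_eq_abs, abs_of_nonneg (by positivity)]
  have ht := tN_le Δ hy
  rw [← hκ] at ht
  set E := Real.exp (κ * y + κ) with hE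
  have hE1 : 1 ≤ E := Real.one_le_exp (by positivity)
  have hr : (r1N Δ y : ℝ) ≤ (3 * Δ + Δ ^ 2) * E := by
    have e1 : (r1N Δ y : ℝ) = 2 * Δ + Δ * tN Δ y + Δ * (Δ * tN Δ y) := by simp [r1N]
    rw [e1]
    have a1 : (Δ : ℝ) * tN Δ y ≤ Δ * E := mul_le_mul_of_nonneg_left ht (by positivity)
    have a2 : (Δ : ℝ) * (Δ * tN Δ y) ≤ Δ * (Δ * E) := mul_le_mul_of_nonneg_left a1 (by positivity)
    have a3 : (2:ℝ) * Δ ≤ 2 * Δ * E := by
      have : (0:ℝ) ≤ 2 * Δ := by positivity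
      nlinarith
    nlinarith
  have hb : bN K Δ y ≤ Real.exp y * (C * (E * E)) := by
    unfold bN
    apply mul_le_mul_of_nonneg_left _ (Real.exp_pos _).le
    have a1 : (tN Δ y : ℝ) * r1N Δ y ≤ E * ((3 * Δ + Δ ^ 2) * E) :=
      mul_le_mul ht hr (by positivity) (by positivity)
    have a2 : 2 * (K : ℝ) * (1 + Δ) * ((tN Δ y : ℝ) * r1N Δ y)
        ≤ 2 * K * (1 + Δ) * (E * ((3 * Δ + Δ ^ 2) * E)) :=
      mul_le_mul_of_nonneg_left a1 (by positivity)
    have a3 : (Δ : ℝ) + 1 ≤ (Δ + 1) * (E * E) := by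
      have h1 : 1 ≤ E * E := by nlinarith
      have h2 : (0:ℝ) ≤ Δ + 1 := by positivity
      nlinarith
    rw [hC]
    nlinarith
  have hpow : (1 / 2 : ℝ) ^ (hN Δ y) ≤ Real.exp (-((2 + 2 * κ) * y)) := by
    have e1 : (1 / 2 : ℝ) ^ (hN Δ y) = Real.exp (-(hN Δ y * Real.log 2)) := by
      rw [Real.exp_neg, Real.exp_nat_mul, Real.exp_log (by norm_num), one_div, inv_pow]
    rw [e1]
    apply Real.exp_le_exp.2
    have e2 : (hN Δ y : ℝ) = AN Δ * gN y := by simp [hN]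
    rw [e2]
    have e3 : (2 + 2 * κ) / Real.log 2 ≤ AN Δ := Nat.le_ceil _
    rw [div_le_iff₀ hlog2] at e3
    have e4 := gN_ge y
    have e5 : (2 + 2 * κ) * y ≤ (AN Δ * Real.log 2) * gN y :=
      mul_le_mul e3 e4 hy (by positivity)
    linarith
  calc bN K Δ y * ((hN Δ y + 2) * (1 / 2 : ℝ) ^ (hN Δ y))
      ≤ (Real.exp y * (C * (E * E))) * ((hN Δ y + 2) * Real.exp (-((2 + 2 * κ) * y))) := by
        apply mul_le_mul hb _ (by positivity) (by positivity)
        exact mul_le_mul_of_nonneg_left hpow (by positivity)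
    _ = C * Real.exp (2 * κ) * ((hN Δ y : ℝ) + 2) * Real.exp (-(1 * y)) := by
        have : Real.exp y * (E * E) * Real.exp (-((2 + 2 * κ) * y))
            = Real.exp (2 * κ) * Real.exp (-(1 * y)) := by
          rw [hE, ← Real.exp_add, ← Real.exp_add, ← Real.exp_add, ← Real.exp_add]
          congr 1; ring
        calc _ = C * (hN Δ y + 2) * (Real.exp y * (E * E) * Real.exp (-((2 + 2 * κ) * y))) := by
              ring
          _ = _ := by rw [this]; ring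

theorem ev_main (K Δ : ℕ) {δ : ℝ} (hδ : 0 < δ) : ∀ᶠ y : ℝ in atTop, Ev K Δ δ y := by
  have h0 : Tendsto (fun y : ℝ => Real.exp (-y)) atTop (𝓝 0) := Real.tendsto_exp_neg_atTop_nhds_zero
  have e1 := (ev_eps K Δ).eventually (ge_mem_nhds (show (0:ℝ) < 1 by norm_num))
  have p1 : Pol (fun y => 2 * LamN δ y * K) :=
    ((Pol.const 2).mul (pol_Lam δ)).mul (Pol.const (K:ℝ))
  have e2 := (wm_bound p1).eventually (ge_mem_nhds (show (0:ℝ) < 1 by norm_num))
  have e3 := ((pol_Lam δ).tendsto (c := 1) one_pos).eventually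
    (ge_mem_nhds (show (0:ℝ) < 1 by norm_num))
  have e4 := (ev_cc K Δ δ).eventually (ge_mem_nhds (show (0:ℝ) < 1 by norm_num))
  have e5' : Tendsto (fun y : ℝ => 4 / δ * Real.exp (-y)) atTop (𝓝 0) := by
    simpa using h0.const_mul (4 / δ)
  have e5 := e5'.eventually (ge_mem_nhds (show (0:ℝ) < δ / 2 by positivity))
  have e6 := ev_ex K Δ hδ
  have e7 := (ev_bb K Δ).eventually (ge_mem_nhds (show (0:ℝ) < δ / 4 by positivity))
  filter_upwards [eventually_ge_atTop 1, e1, e2, e3, e4, e5, e6, e7] with y a0 a1 a2 a3 a4 a5 a6 a7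
  exact ⟨a0, a1, a2, by simpa using a3, a4, a5, a6, a7⟩

end Pool.Agent.W_MP_17e8f0_pr
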