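import Pool.Agent.W_MP_17e8f0_pr.Growth2

namespace Pool.Agent.W_MP_17e8f0_pr

open Filter Topology

noncomputable def n1N (y : ℝ) : ℕ := ⌈(4 * y ^ 8 + 3) * Real.exp (y ^ 8 - y)⌉₊
noncomputable def rT1N (Δ : ℕ) (y : ℝ) : ℕ := Δ + Δ * tN Δ y + Δ * n1N y
noncomputable def nT1N (Δ : ℕ) (y : ℝ) : ℕ := 2 * tN Δ y + 2 * n1N y
noncomputable def eps1N (K Δ : ℕ) (y : ℝ) : ℝ :=
  4 * (nT1N Δ y + 1) * (K : ℝ) ^ 2 * y ^ 8 * Real.exp (-(y ^ 8))
noncomputable def c31N (K Δ : ℕ) (δ y : ℝ) : ℝ :=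
  LamN δ y * eps1N K Δ y * K + 5 * LamN δ y * K * (K * Real.exp (-(y ^ 8))) * rT1N Δ y
    + LamN δ y ^ 2 * wmN y * (K : ℝ) ^ 2
    + 8 * LamN δ y * K * (K * Real.exp (-(y ^ 8))) / Real.exp (-(y ^ 8 - y))

/-- conditions needed for the lower bound -/
structure EvL (K Δ : ℕ) (δ y : ℝ) : Prop where
  one_le : 1 ≤ y
  eps : eps1N K Δ y ≤ 1
  lw : 2 * LamN δ y * K * wmN y ≤ 1
  cc : c31N K Δ δ y * dmN y ≤ 1
  e1 : Real.exp (1 - 4 * y ^ 8) ≤ δ / 4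
  e2 : (tN Δ y : ℝ) * (2 * (K * Real.exp (-(y ^ 8))) * (Δ + Δ * tN Δ y : ℕ)) ≤ δ / 4
  e3 : Real.exp (-y) ≤ δ / 2

lemma pol_n1 : Pol (fun y => (n1N y : ℝ) * Real.exp (-(y ^ 8)) * Real.exp y) := by
  refine (((Pol.const 4).mul (Pol.id.pow 8)).add (Pol.const 4)).of_le ?_
  filter_upwards [eventually_ge_atTop 1] with y hy
  rw [abs_of_nonneg (by positivity), abs_of_nonneg (by positivity)]
  have h1 : (n1N y : ℝ) ≤ (4 * y ^ 8 + 3) * Real.exp (y ^ 8 - y) + 1 :=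
    (Nat.ceil_lt_add_one (by positivity)).le
  have h8 : y ≤ y ^ 8 := le_self_pow₀ hy (by norm_num)
  have h2 : (1:ℝ) ≤ Real.exp (y ^ 8 - y) := Real.one_le_exp (by linarith)
  have h3 : (n1N y : ℝ) ≤ (4 * y ^ 8 + 4) * Real.exp (y ^ 8 - y) := by nlinarith
  calc (n1N y : ℝ) * Real.exp (-(y ^ 8)) * Real.exp y
      ≤ ((4 * y ^ 8 + 4) * Real.exp (y ^ 8 - y)) * Real.exp (-(y ^ 8)) * Real.exp y := by
        apply mul_le_mul_of_nonneg_right _ (Real.exp_pos _).le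
        exact mul_le_mul_of_nonneg_right h3 (Real.exp_pos _).le
    _ = (4 * y ^ 8 + 4) * (Real.exp (y ^ 8 - y) * Real.exp (-(y ^ 8)) * Real.exp y) := by ring
    _ = 4 * y ^ 8 + 4 := by
        rw [← Real.exp_add, ← Real.exp_add]
        have : y ^ 8 - y + -(y ^ 8) + y = 0 := by ring
        rw [this, Real.exp_zero, mul_one]

lemma n1_rw (y : ℝ) : (n1N y : ℝ) * Real.exp (-(y ^ 8))
    = ((n1N y : ℝ) * Real.exp (-(y ^ 8)) * Real.exp y) * Real.exp (-(1 * y)) := by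
  have : Real.exp y * Real.exp (-(1 * y)) = 1 := by rw [← Real.exp_add]; simp
  rw [mul_assoc ((n1N y : ℝ) * Real.exp (-(y ^ 8))), this, mul_one]

lemma eps1_tendsto (K Δ : ℕ) {P : ℝ → ℝ} (hP : Pol P) :
    Tendsto (fun y => eps1N K Δ y * P y) atTop (𝓝 0) := by
  have p8 : Pol (fun y : ℝ => y ^ 8) := Pol.id.pow 8
  have pK : Pol (fun _ : ℝ => 4 * (K : ℝ) ^ 2) := Pol.const _
  have s1 : Sub (fun y => (4 * (K : ℝ) ^ 2) * (y ^ 8 * (P y * (2 * tN Δ y + 1)))) :=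
    pK.sub.mul (p8.sub.mul (hP.sub.mul (((Pol.const 2).sub.mul (sub_tN Δ)).add (Pol.const 1).sub)))
  have s2 : Pol (fun y => (4 * (K : ℝ) ^ 2) * (y ^ 8 * (P y * (2 * ((n1N y : ℝ)
      * Real.exp (-(y ^ 8)) * Real.exp y))))) :=
    pK.mul (p8.mul (hP.mul ((Pol.const 2).mul pol_n1)))
  have tt := (s1.tendsto (c := 1) one_pos).add (s2.tendsto (c := 1) one_pos)
  rw [add_zero] at tt
  refine tt.congr fun y => ?_
  have h := n1_rw y
  unfold eps1N nT1N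
  push_cast
  have e1 : 4 * (K : ℝ) ^ 2 * (y ^ 8 * (P y * (2 * ((n1N y : ℝ) * Real.exp (-(y ^ 8)) * Real.exp y))))
      * Real.exp (-(1 * y)) = 8 * (K : ℝ) ^ 2 * y ^ 8 * P y * ((n1N y : ℝ) * Real.exp (-(y ^ 8))) := by
    linear_combination (-(8 * (K : ℝ) ^ 2 * y ^ 8 * P y)) * h
  rw [e1, one_mul]
  ring

lemma rT1_tendsto (Δ : ℕ) {P : ℝ → ℝ} (hP : Pol P) :
    Tendsto (fun y => P y * ((rT1N Δ y : ℝ) * Real.exp (-(y ^ 8)))) atTop (𝓝 0) := by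
  have s1 : Sub (fun y => P y * (Δ + Δ * tN Δ y)) :=
    hP.sub.mul ((Pol.const (Δ : ℝ)).sub.add ((Pol.const (Δ : ℝ)).sub.mul (sub_tN Δ)))
  have s2 : Pol (fun y => P y * (Δ * ((n1N y : ℝ) * Real.exp (-(y ^ 8)) * Real.exp y))) :=
    hP.mul ((Pol.const (Δ : ℝ)).mul pol_n1)
  have tt := (s1.tendsto (c := 1) one_pos).add (s2.tendsto (c := 1) one_pos)
  rw [add_zero] at tt
  refine tt.congr fun y => ?_
  have h := n1_rw y
  unfold rT1N
  push_cast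
  have e1 : P y * (Δ * ((n1N y : ℝ) * Real.exp (-(y ^ 8)) * Real.exp y)) * Real.exp (-(1 * y))
      = P y * (Δ * ((n1N y : ℝ) * Real.exp (-(y ^ 8)))) := by
    linear_combination (-(P y * Δ)) * h
  rw [e1, one_mul]
  ring

lemma ev_cc1 (K Δ : ℕ) (δ : ℝ) :
    Tendsto (fun y => c31N K Δ δ y * dmN y) atTop (𝓝 0) := by
  have hL := pol_Lam δ
  have hd := pol_dmN
  have pK := Pol.const (K : ℝ)
  have t1 : Tendsto (fun y => eps1N K Δ y * (LamN δ y * K * dmN y)) atTop (𝓝 0) :=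
    eps1_tendsto K Δ ((hL.mul pK).mul hd)
  have t2 : Tendsto (fun y => (LamN δ y ^ 2 * (K : ℝ) ^ 2 * dmN y) * wmN y) atTop (𝓝 0) :=
    wm_bound (((hL.pow 2).mul (pK.pow 2)).mul hd)
  have t3 : Tendsto (fun y => (5 * LamN δ y * K * K * dmN y) * ((rT1N Δ y : ℝ)
      * Real.exp (-(y ^ 8)))) atTop (𝓝 0) :=
    rT1_tendsto Δ (((((Pol.const 5).mul hL).mul pK).mul pK).mul hd)
  have t4 : Tendsto (fun y => (8 * LamN δ y * K * K * dmN y) * Real.exp (-(1 * y))) atTop (𝓝 0) :=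
    (((((Pol.const 8).mul hL).mul pK).mul pK).mul hd).tendsto one_pos
  have tt := ((t1.add t2).add t3).add t4
  simp only [add_zero] at tt
  refine tt.congr fun y => ?_
  unfold c31N
  have e1 : Real.exp (-(y ^ 8)) / Real.exp (-(y ^ 8 - y)) = Real.exp (-(1 * y)) := by
    rw [← Real.exp_sub]; congr 1; ring
  have e3 : 8 * LamN δ y * K * (K * Real.exp (-(y ^ 8))) / Real.exp (-(y ^ 8 - y))
      = 8 * LamN δ y * K * K * Real.exp (-(1 * y)) := by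
    rw [← e1]; ring
  rw [e3]
  ring

theorem ev_low (K Δ : ℕ) {δ : ℝ} (hδ : 0 < δ) : ∀ᶠ y : ℝ in atTop, EvL K Δ δ y := by
  have h0 : Tendsto (fun y : ℝ => Real.exp (-y)) atTop (𝓝 0) := Real.tendsto_exp_neg_atTop_nhds_zero
  have e1' : Tendsto (fun y => eps1N K Δ y) atTop (𝓝 0) := by
    simpa using eps1_tendsto K Δ (Pol.const 1)
  have e1 := e1'.eventually (ge_mem_nhds (show (0:ℝ) < 1 by norm_num))
  have p1 : Pol (fun y => 2 * LamN δ y * K) :=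
    ((Pol.const 2).mul (pol_Lam δ)).mul (Pol.const (K:ℝ))
  have e2 := (wm_bound p1).eventually (ge_mem_nhds (show (0:ℝ) < 1 by norm_num))
  have e4 := (ev_cc1 K Δ δ).eventually (ge_mem_nhds (show (0:ℝ) < 1 by norm_num))
  have e5' : Tendsto (fun y : ℝ => Real.exp 1 * Real.exp (-(4 * y ^ 8))) atTop (𝓝 0) :=
    (Pol.const (Real.exp 1)).sub.tendsto (by norm_num)
  have e5 := e5'.eventually (ge_mem_nhds (show (0:ℝ) < δ / 4 by positivity))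
  have e6' : Tendsto (fun y : ℝ => ((tN Δ y : ℝ) * ((2 * K) * (Δ + Δ * tN Δ y)))
      * Real.exp (-(1 * y ^ 8))) atTop (𝓝 0) := by
    have : Sub (fun y : ℝ => ((tN Δ y : ℝ) * ((2 * K) * (Δ + Δ * tN Δ y)))) :=
      (sub_tN Δ).mul ((Pol.const (2 * (K:ℝ))).sub.mul
        ((Pol.const (Δ : ℝ)).sub.add ((Pol.const (Δ : ℝ)).sub.mul (sub_tN Δ))))
    exact this.tendsto one_pos
  have e6 := e6'.eventually (ge_mem_nhds (show (0:ℝ) < δ / 4 by positivity))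
  have e7 := h0.eventually (ge_mem_nhds (show (0:ℝ) < δ / 2 by positivity))
  filter_upwards [eventually_ge_atTop 1, e1, e2, e4, e5, e6, e7] with y a0 a1 a2 a4 a5 a6 a7
  refine ⟨a0, a1, a2, a4, ?_, ?_, a7⟩
  · rw [sub_eq_add_neg, Real.exp_add]; exact a5
  · refine le_trans (le_of_eq ?_) a6
    push_cast
    rw [one_mul]
    ring

end Pool.Agent.W_MP_17e8f0_pr
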