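import Pool.Agent.W_MP_17e8f0_pr.OneSided

namespace Pool.Agent.W_MP_17e8f0_pr

open Finset

variable {H V : Type*} [Fintype H] [DecidableEq H] [DecidableEq V] {K : ℕ}
variable {vt : H → V}

/-- no small set of edges spans fewer vertices than edges -/
def Exc (vt : H → V) (η : Equiv.Perm H) (L : ℕ) : Prop :=
  ∀ E : Finset H, (∀ y ∈ E, η y ∈ E) → E.card ≤ 2 * L → E.card ≤ 2 * (E.image vt).card

lemma orient {η : Equiv.Perm H} (hη : ∀ x, η (η x) = x) (hne : ∀ x, η x ≠ x) {L : ℕ}
    (hE : Exc vt η L) (E : Finset H) (hcl : ∀ y ∈ E, η y ∈ E) (hc : E.card ≤ 2 * L) :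
    ∃ T : Finset H, (∀ y ∈ E, y ∉ T → η y ∈ T) ∧ (∀ y ∈ T, ∀ y' ∈ T, vt y = vt y' → y = y') := by
  classical
  set ι := {e : Finset H // e ∈ E.image (fun y => ({y, η y} : Finset H))} with hι
  set t : ι → Finset V := fun e => e.1.image vt with ht
  have hall : ∀ s : Finset ι, s.card ≤ (s.biUnion t).card := by
    intro s
    set E' : Finset H := s.biUnion (fun e => e.1) with hE'
    have hsub : E' ⊆ E := by
      intro y hy
      rw [hE', mem_biUnion] at hy
      obtain ⟨e, _, hye⟩ := hy
      obtain ⟨y₀, hy₀, he⟩ := mem_image.1 e.2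
      rw [← he] at hye
      simp only [mem_insert, mem_singleton] at hye
      rcases hye with rfl | rfl
      · exact hy₀
      · exact hcl _ hy₀
    have hcl' : ∀ y ∈ E', η y ∈ E' := by
      intro y hy
      rw [hE', mem_biUnion] at hy ⊢
      obtain ⟨e, hes, hye⟩ := hy
      refine ⟨e, hes, ?_⟩
      obtain ⟨y₀, hy₀, he⟩ := mem_image.1 e.2
      rw [← he] at hye ⊢
      simp only [mem_insert, mem_singleton] at hye ⊢
      rcases hye with rfl | rfl
      · right; rfl
      · left; exact hη _
    have hcard : E'.card = 2 * s.card := by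
      rw [hE', card_biUnion]
      · rw [sum_congr rfl (g := fun _ => 2), sum_const, smul_eq_mul, mul_comm]
        intro e _
        obtain ⟨y₀, hy₀, he⟩ := mem_image.1 e.2
        rw [← he, card_pair (hne y₀).symm]
      · intro e _ e' _ hee
        rw [Function.onFun, disjoint_left]
        intro y hy hy'
        apply hee
        obtain ⟨y₀, hy₀, he⟩ := mem_image.1 e.2
        obtain ⟨y₁, hy₁, he'⟩ := mem_image.1 e'.2
        rw [← he] at hy
        rw [← he'] at hy'
        apply Subtype.ext
        rw [← he, ← he']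
        simp only [mem_insert, mem_singleton] at hy hy'
        rcases hy with rfl | rfl <;> rcases hy' with h | h
        · rw [h]
        · rw [h, hη]; ext; simp only [mem_insert, mem_singleton]; tauto
        · rw [← h, hη]; ext; simp only [mem_insert, mem_singleton]; tauto
        · rw [η.injective h]
    have h1 := hE E' hcl' ((card_le_card hsub).trans hc)
    have h2 : E'.image vt = s.biUnion t := by
      rw [hE', biUnion_image]
    rw [hcard, h2] at h1
    omega
  obtain ⟨f, hf, hft⟩ := (Finset.all_card_le_biUnion_card_iff_exists_injective t).1 hall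
  have hft' : ∀ e : ι, ∃ y ∈ e.1, vt y = f e := fun e => by
    have := hft e
    rw [ht, mem_image] at this
    obtain ⟨y, hy, hy'⟩ := this
    exact ⟨y, hy, hy'⟩
  choose g hg1 hg2 using hft'
  refine ⟨univ.image g, ?_, ?_⟩
  · intro y hy hyT
    have he : ({y, η y} : Finset H) ∈ E.image (fun y => ({y, η y} : Finset H)) :=
      mem_image_of_mem _ hy
    have := hg1 ⟨_, he⟩
    simp only [mem_insert, mem_singleton] at this
    rcases this with h | h
    · exfalso; apply hyT; rw [← h]; exact mem_image_of_mem _ (mem_univ _)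
    · rw [← h]; exact mem_image_of_mem _ (mem_univ _)
  · intro y hy y' hy' hvv
    rw [mem_image] at hy hy'
    obtain ⟨e, _, rfl⟩ := hy
    obtain ⟨e', _, rfl⟩ := hy'
    rw [hg2, hg2] at hvv
    rw [hf hvv]

/-- non-backtracking walks of length `n` from `x` to `z` -/
def Wk (vt : H → V) (η : Equiv.Perm H) (n : ℕ) (x z : H) : Finset (Fin (n + 1) → H) :=
  univ.filter (fun y => y 0 = x ∧ y (Fin.last n) = z ∧
    ∀ i : Fin n, y i.succ ∈ ch vt (η (y i.castSucc)))

lemma Wk_succ_card (η : Equiv.Perm H) (n : ℕ) (x z : H) :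
    ∑ v ∈ ch vt (η x), (Wk vt η n v z).card ≤ (Wk vt η (n + 1) x z).card := by
  rw [← card_sigma]
  refine card_le_card_of_injOn (fun p => Fin.cons x p.2) ?_ ?_
  · intro p hp
    simp only [coe_sigma, Set.mem_sigma_iff, mem_coe] at hp
    obtain ⟨hp1, hp2⟩ := hp
    simp only [Wk, mem_filter, mem_univ, true_and] at hp2
    simp only [Wk, coe_filter, mem_univ, true_and]
    obtain ⟨h0, h1, h2⟩ := hp2
    refine ⟨by simp, ?_, ?_⟩
    · rw [← Fin.succ_last, Fin.cons_succ]; exact h1
    · intro i
      refine Fin.cases ?_ ?_ i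
      · simp only [Fin.castSucc_zero, Fin.cons_zero]
        rw [Fin.cons_succ, h0]; exact hp1
      · intro j
        rw [Fin.cons_succ, ← Fin.succ_castSucc, Fin.cons_succ]
        exact h2 j
  · intro p hp p' hp' h
    simp only [coe_sigma, Set.mem_sigma_iff, mem_coe] at hp hp'
    have h2 : p.2 = p'.2 := by
      have := congrArg Fin.tail h
      simpa using this
    obtain ⟨v, y⟩ := p
    obtain ⟨v', y'⟩ := p'
    simp only at h2
    subst h2
    have e1 : y 0 = v := by
      have := hp.2; simp only [Wk, mem_filter] at this; exact this.2.1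
    have e2 : y 0 = v' := by
      have := hp'.2; simp only [Wk, mem_filter] at this; exact this.2.1
    rw [← e1, ← e2]

lemma PM_le_Wk (h2 : ∀ z : H, 2 ≤ (ch vt z).card) (η : Equiv.Perm H) (n : ℕ) (x z : H) :
    (PM vt η ^ n) x z ≤ (1 / 2 : ℝ) ^ n * (Wk vt η n x z).card := by
  induction n generalizing x with
  | zero =>
    rw [pow_zero, pow_zero, Matrix.one_apply, one_mul]
    split_ifs with h
    · have : 0 < (Wk vt η 0 x z).card := by
        refine card_pos.2 ⟨fun _ => x, ?_⟩
        simp [Wk, h]
      exact_mod_cast this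
    · positivity
  | succ n ih =>
    rw [PM_pow_succ]
    calc ∑ v ∈ ch vt (η x), ((ch vt (η x)).card : ℝ)⁻¹ * (PM vt η ^ n) v z
        ≤ ∑ v ∈ ch vt (η x), (1 / 2 : ℝ) * ((1 / 2 : ℝ) ^ n * (Wk vt η n v z).card) := by
          refine sum_le_sum fun v _ => mul_le_mul ?_ (ih v) (PM_pow_nonneg _ _ _ _) (by norm_num)
          rw [one_div]
          exact inv_anti₀ (by norm_num) (by exact_mod_cast h2 (η x))
      _ = (1 / 2 : ℝ) ^ (n + 1) * (∑ v ∈ ch vt (η x), (Wk vt η n v z).card : ℕ) := by
          push_cast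
          rw [mul_sum]
          exact sum_congr rfl fun v _ => by ring
      _ ≤ _ := by
          apply mul_le_mul_of_nonneg_left _ (by positivity)
          exact_mod_cast Wk_succ_card η n x z

lemma lower_card {n : ℕ} {D : Finset (Fin (n + 1))} (hD : ∀ i j, i ≤ j → j ∈ D → i ∈ D)
    (i : Fin (n + 1)) : i ∈ D ↔ (i : ℕ) < D.card := by
  constructor
  · intro hi
    have h1 : (univ.filter (fun j : Fin (n + 1) => j ≤ i)) ⊆ D := by
      intro j hj
      simp only [mem_filter, mem_univ, true_and] at hj
      exact hD j i hj hi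
    have h2 := card_le_card h1
    have h3 : (univ.filter (fun j : Fin (n + 1) => j ≤ i)) = Finset.Iic i := by ext; simp
    rw [h3, Fin.card_Iic] at h2
    omega
  · intro hi
    by_contra hni
    have h1 : D ⊆ Finset.Iio i := by
      intro j hj
      rw [mem_Iio]
      by_contra hji
      exact hni (hD i j (not_lt.1 hji) hj)
    have h2 := card_le_card h1
    rw [Fin.card_Iio] at h2
    omega

theorem Wk_card_le {η : Equiv.Perm H} (hη : ∀ x, η (η x) = x) (hne : ∀ x, η x ≠ x) {L n : ℕ}
    (hE : Exc vt η L) (hL : (n + 3) * (n + 1) ≤ L) (x z : H) :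
    (Wk vt η n x z).card ≤ n + 2 := by
  classical
  by_contra hcon
  push Not at hcon
  obtain ⟨W, hW, hWc⟩ := exists_subset_card_eq (show n + 3 ≤ (Wk vt η n x z).card by omega)
  set E : Finset H := W.biUnion (fun y => (univ.image y) ∪ (univ.image (fun i => η (y i)))) with hEd
  have hmemE : ∀ y ∈ W, ∀ i, y i ∈ E := by
    intro y hy i
    rw [hEd, mem_biUnion]
    exact ⟨y, hy, mem_union_left _ (mem_image_of_mem _ (mem_univ _))⟩
  have hcl : ∀ y ∈ E, η y ∈ E := by
    intro v hv
    rw [hEd, mem_biUnion] at hv ⊢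
    obtain ⟨y, hy, hv⟩ := hv
    refine ⟨y, hy, ?_⟩
    rw [mem_union, mem_image, mem_image] at hv ⊢
    rcases hv with ⟨i, _, rfl⟩ | ⟨i, _, rfl⟩
    · right; exact ⟨i, mem_univ _, rfl⟩
    · left; exact ⟨i, mem_univ _, (hη _).symm⟩
  have hEc : E.card ≤ 2 * L := by
    calc E.card ≤ ∑ y ∈ W, ((univ.image y) ∪ (univ.image (fun i => η (y i)))).card :=
          card_biUnion_le
      _ ≤ ∑ _y ∈ W, 2 * (n + 1) := by
          refine sum_le_sum fun y _ => ?_
          refine (card_union_le _ _).trans ?_
          have h1 : (univ.image y).card ≤ n + 1 := by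
            simpa using (card_image_le (s := univ) (f := y))
          have h3 : (univ.image (fun i => η (y i))).card ≤ n + 1 := by
            simpa using (card_image_le (s := univ) (f := fun i => η (y i)))
          omega
      _ = (n + 3) * (2 * (n + 1)) := by rw [sum_const, hWc, smul_eq_mul]
      _ ≤ 2 * L := by nlinarith
  obtain ⟨T, hT1, hT2⟩ := orient hη hne hE E hcl hEc
  -- step structure
  have hstep : ∀ y ∈ W, ∀ i : Fin n, y i.succ ≠ η (y i.castSucc) ∧
      vt (y i.succ) = vt (η (y i.castSucc)) := by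
    intro y hy i
    have := hW hy
    simp only [Wk, mem_filter] at this
    exact mem_ch.1 (this.2.2.2 i)
  have hmono1 : ∀ y ∈ W, ∀ i : Fin n, y i.succ ∈ T → y i.castSucc ∈ T := by
    intro y hy i hi
    by_contra hni
    have h1 := hT1 _ (hmemE y hy i.castSucc) hni
    exact (hstep y hy i).1 (hT2 _ hi _ h1 (hstep y hy i).2)
  have hmono : ∀ y ∈ W, ∀ i j : Fin (n + 1), i ≤ j → y j ∈ T → y i ∈ T := by
    intro y hy i j hij
    induction j using Fin.induction with
    | zero =>
      intro h
      have : i = 0 := le_antisymm hij (Fin.zero_le _)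
      rwa [this]
    | succ j ih =>
      intro h
      rcases eq_or_lt_of_le hij with h' | h'
      · rwa [h']
      · exact ih (Fin.le_castSucc_iff.2 h') (hmono1 y hy j h)
  set cnt : (Fin (n + 1) → H) → ℕ := fun y => (univ.filter (fun i => y i ∈ T)).card with hcnt
  have hTiff : ∀ y ∈ W, ∀ i : Fin (n + 1), y i ∈ T ↔ (i : ℕ) < cnt y := by
    intro y hy i
    have := lower_card (D := univ.filter (fun i => y i ∈ T))
      (fun i j hij hj => by
        simp only [mem_filter, mem_univ, true_and] at hj ⊢
        exact hmono y hy i j hij hj) i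
    simpa using this
  have hinj : Set.InjOn cnt W := by
    intro y hy y' hy' hcc
    rw [mem_coe] at hy hy'
    have hyW := hW hy
    have hyW' := hW hy'
    simp only [Wk, mem_filter] at hyW hyW'
    have hTT : ∀ i, y i ∈ T ↔ y' i ∈ T := by
      intro i
      rw [hTiff y hy i, hTiff y' hy' i]
      simp only [hcnt] at hcc ⊢
      rw [hcc]
    have hfor : ∀ i, y i ∈ T → y i = y' i := by
      intro i
      induction i using Fin.induction with
      | zero => intro _; rw [hyW.2.1, hyW'.2.1]
      | succ i ih =>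
        intro hi
        have h1 := ih (hmono1 y hy i hi)
        refine hT2 _ hi _ ((hTT _).1 hi) ?_
        rw [(hstep y hy i).2, (hstep y' hy' i).2, h1]
    funext i
    by_cases hi : y i ∈ T
    · exact hfor i hi
    · -- backward
      have hback : ∀ i, y i ∉ T → y i = y' i := by
        intro i
        induction i using Fin.reverseInduction with
        | last => intro _; rw [hyW.2.2.1, hyW'.2.2.1]
        | cast i ih =>
          intro hi
          have hi' : y' i.castSucc ∉ T := fun h => hi ((hTT _).2 h)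
          have hs : y i.succ ∉ T := fun h => hi (hmono1 y hy i h)
          have h1 := ih hs
          have h3 := hT1 _ (hmemE y hy i.castSucc) hi
          have h4 := hT1 _ (hmemE y' hy' i.castSucc) hi'
          have h5 := hT2 _ h3 _ h4 (by
            rw [← (hstep y hy i).2, ← (hstep y' hy' i).2, h1])
          exact η.injective h5
      exact hback i hi
  have hle : W.card ≤ (range (n + 2)).card := by
    refine card_le_card_of_injOn cnt ?_ hinj
    intro y hy
    simp only [coe_range, Set.mem_Iio]
    have : (univ.filter (fun i => y i ∈ T)).card ≤ n + 1 := by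
      simpa using card_le_univ (univ.filter (fun i => y i ∈ T))
    simp only [hcnt]; omega
  rw [card_range, hWc] at hle
  omega

theorem PM_pow_le {η : Equiv.Perm H} (hη : ∀ x, η (η x) = x) (hne : ∀ x, η x ≠ x) {L n : ℕ}
    (hE : Exc vt η L) (hL : (n + 3) * (n + 1) ≤ L) (h2 : ∀ z : H, 2 ≤ (ch vt z).card) (x z : H) :
    (PM vt η ^ n) x z ≤ (n + 2) * (1 / 2 : ℝ) ^ n := by
  refine (PM_le_Wk h2 η n x z).trans ?_
  rw [mul_comm]
  apply mul_le_mul_of_nonneg_right _ (by positivity)
  exact_mod_cast Wk_card_le hη hne hE hL x z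

end Pool.Agent.W_MP_17e8f0_pr
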