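import Pool.Agent.W_MP_17e8f0_pr.Model
import Pool.Agent.W_MP_17e8f0_pr.Final

/-! The law of the random pairing is uniform on `Om`. -/

namespace Pool.Agent.W_MP_17e8f0_pr

open Finset

namespace Comm

variable {K : ℕ} (G : Comm K)

/-- vertex of a half-edge -/
def vt : G.H → G.V := Sigma.fst

/-- community of a half-edge -/
def cl : G.H → Fin K := fun x => G.com x.1

/-- numbers of pairings between the classes -/
def Bm : Fin K → Fin K → ℕ := fun k l => if k = l then G.N / K - (K - 1) * G.p else G.p

variable {G}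

lemma mem_Hk {k : Fin K} {x : G.H} : x ∈ G.Hk k ↔ G.cl x = k := by
  simp [Hk, cl]

lemma isBlocks_mem {b : Fin K → Fin K → Finset G.H} (hb : G.IsBlocks b) {k l : Fin K} {x : G.H}
    (hx : x ∈ b k l) : G.cl x = k := by
  obtain ⟨h1, h2, h3⟩ := hb
  by_cases hkl : k = l
  · subst hkl
    rw [h3 k, mem_sdiff] at hx
    exact mem_Hk.1 hx.1
  · exact mem_Hk.1 ((h1 k l hkl).1 hx)

lemma isBlocks_exists {b : Fin K → Fin K → Finset G.H} (hb : G.IsBlocks b) (x : G.H) :
    ∃ l, x ∈ b (G.cl x) l := by
  obtain ⟨h1, h2, h3⟩ := hb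
  by_cases h : ∃ l, l ≠ G.cl x ∧ x ∈ b (G.cl x) l
  · obtain ⟨l, _, hl⟩ := h; exact ⟨l, hl⟩
  · refine ⟨G.cl x, ?_⟩
    rw [h3, mem_sdiff]
    refine ⟨mem_Hk.2 rfl, ?_⟩
    simp only [mem_biUnion, mem_filter, mem_univ, true_and, not_exists, not_and]
    push Not at h
    exact h

lemma isBlocks_unique {b : Fin K → Fin K → Finset G.H} (hb : G.IsBlocks b) {k l l' : Fin K}
    {x : G.H} (hx : x ∈ b k l) (hx' : x ∈ b k l') : l = l' := by
  obtain ⟨h1, h2, h3⟩ := hb
  by_contra hne
  by_cases hl : l = k
  · subst hl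
    rw [h3 l, mem_sdiff] at hx
    apply hx.2
    simp only [mem_biUnion, mem_filter, mem_univ, true_and]
    exact ⟨l', Ne.symm hne, hx'⟩
  · by_cases hl' : l' = k
    · subst hl'
      rw [h3 l', mem_sdiff] at hx'
      apply hx'.2
      simp only [mem_biUnion, mem_filter, mem_univ, true_and]
      exact ⟨l, hne, hx⟩
    · exact (disjoint_left.1 (h2 k l l' hl hl' hne)) hx hx'

lemma isBlocks_card (hv : G.Valid) {b : Fin K → Fin K → Finset G.H} (hb : G.IsBlocks b)
    (k l : Fin K) : (b k l).card = G.Bm k l := by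
  obtain ⟨h1, h2, h3⟩ := hb
  unfold Bm
  split_ifs with hkl
  · subst hkl
    rw [h3 k, card_sdiff_of_subset, hv.size]
    · congr 1
      rw [card_biUnion]
      · rw [sum_congr rfl (g := fun _ => G.p) (fun l hl => (h1 k l (by
          simp only [mem_filter, mem_univ, true_and] at hl; exact Ne.symm hl)).2), sum_const,
          smul_eq_mul]
        congr 1
        rw [filter_ne' univ k, card_erase_of_mem (mem_univ _), card_univ, Fintype.card_fin]
      · intro l hl l' hl' hne
        exact h2 k l l' (by simpa using hl) (by simpa using hl') hne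
    · intro x hx
      simp only [mem_biUnion, mem_filter, mem_univ, true_and] at hx
      obtain ⟨l, hl, hx⟩ := hx
      exact (h1 k l (Ne.symm hl)).1 hx
  · exact (h1 k l hkl).2

/-- the blocks of a pairing -/
def blk (η : Equiv.Perm G.H) : Fin K → Fin K → Finset G.H :=
  fun k l => univ.filter (fun x => G.cl x = k ∧ G.cl (η x) = l)

lemma pairing_blk {b : Fin K → Fin K → Finset G.H} (hb : G.IsBlocks b) {η : Equiv.Perm G.H}
    (h : G.IsPairing b η) : blk η = b := by
  obtain ⟨h1, h2, h3⟩ := h
  have key : ∀ x k l, x ∈ b k l → G.cl (η x) = l := fun x k l hx => isBlocks_mem hb (h3 k l x hx)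
  ext k l x
  simp only [blk, mem_filter, mem_univ, true_and]
  constructor
  · rintro ⟨hk, hl⟩
    obtain ⟨l', hl'⟩ := isBlocks_exists hb x
    rw [hk] at hl'
    have := key x k l' hl'
    rw [← this, hl] at hl'
    exact hl'
  · intro hx
    exact ⟨isBlocks_mem hb hx, key x k l hx⟩

lemma mem_pairings {b : Fin K → Fin K → Finset G.H} {η : Equiv.Perm G.H} :
    η ∈ G.pairings b ↔ G.IsPairing b η := by simp [pairings]

lemma mem_blocks {b : Fin K → Fin K → Finset G.H} : b ∈ G.blocks ↔ G.IsBlocks b := by
  simp [blocks]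

lemma pairings_eq (hv : G.Valid) {b : Fin K → Fin K → Finset G.H} (hb : G.IsBlocks b) :
    G.pairings b = (Om G.cl G.Bm).filter (fun η => blk η = b) := by
  ext η
  rw [mem_pairings, mem_filter]
  constructor
  · intro h
    have h1 := pairing_blk hb h
    refine ⟨?_, h1⟩
    simp only [Om, mem_filter, mem_univ, true_and]
    refine ⟨h.1, h.2.1, fun k l => ?_⟩
    rw [← isBlocks_card hv hb k l, ← h1]
    rfl
  · rintro ⟨h1, h2⟩
    refine ⟨Om.invol h1, Om.ne h1, fun k l x hx => ?_⟩
    rw [← h2] at hx ⊢
    simp only [blk, mem_filter, mem_univ, true_and] at hx ⊢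
    rw [Om.invol h1]
    exact ⟨hx.2, hx.1⟩

lemma blk_mem {η : Equiv.Perm G.H} (h : η ∈ Om G.cl G.Bm) : blk η ∈ G.blocks := by
  rw [mem_blocks]
  refine ⟨fun k l hkl => ⟨?_, ?_⟩, ?_, ?_⟩
  · intro x hx
    simp only [blk, mem_filter, mem_univ, true_and] at hx
    exact mem_Hk.2 hx.1
  · have := Om.count h k l
    unfold blk
    rw [this, Bm, if_neg hkl]
  · intro k l l' _ _ hne
    rw [disjoint_left]
    intro x hx hx'
    simp only [blk, mem_filter, mem_univ, true_and] at hx hx'
    exact hne (hx.2.symm.trans hx'.2)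
  · intro k
    ext x
    simp only [blk, mem_filter, mem_univ, true_and, mem_sdiff, mem_Hk, mem_biUnion, not_exists,
      not_and]
    constructor
    · rintro ⟨h1, h2⟩
      exact ⟨h1, fun l hl _ hl' => hl (by rw [← hl', h2])⟩
    · rintro ⟨h1, h2⟩
      refine ⟨h1, ?_⟩
      by_contra hne
      exact h2 _ hne h1 rfl

lemma sum_pairings (hv : G.Valid) (A : Equiv.Perm G.H → Prop) [DecidablePred A] :
    ∑ b ∈ G.blocks, ((G.pairings b).filter A).card = ((Om G.cl G.Bm).filter A).card := by
  rw [card_eq_sum_card_fiberwise (f := blk) (t := G.blocks)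
    (fun η hη => blk_mem (mem_filter.1 hη).1)]
  refine sum_congr rfl fun b hb => ?_
  rw [pairings_eq hv (mem_blocks.1 hb), filter_filter, filter_filter]
  congr 1
  ext η
  simp only [mem_filter]
  tauto

lemma exists_perm (hv : G.Valid) {b b' : Fin K → Fin K → Finset G.H} (hb : G.IsBlocks b)
    (hb' : G.IsBlocks b') : ∃ π : Equiv.Perm G.H, ∀ k l x, x ∈ b k l ↔ π x ∈ b' k l := by
  choose f hf using isBlocks_exists hb
  choose f' hf' using isBlocks_exists hb'
  have h1 : ∀ x k l, x ∈ b k l ↔ (G.cl x, f x) = (k, l) := by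
    intro x k l
    constructor
    · intro hx
      have := isBlocks_mem hb hx
      subst this
      rw [isBlocks_unique hb hx (hf x)]
    · intro h
      rw [Prod.mk.injEq] at h
      rw [← h.1, ← h.2]; exact hf x
  have h2 : ∀ x k l, x ∈ b' k l ↔ (G.cl x, f' x) = (k, l) := by
    intro x k l
    constructor
    · intro hx
      have := isBlocks_mem hb' hx
      subst this
      rw [isBlocks_unique hb' hx (hf' x)]
    · intro h
      rw [Prod.mk.injEq] at h
      rw [← h.1, ← h.2]; exact hf' x
  have hcard : ∀ kl : Fin K × Fin K, Fintype.card {x : G.H // (G.cl x, f x) = kl}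
      = Fintype.card {x : G.H // (G.cl x, f' x) = kl} := by
    rintro ⟨k, l⟩
    rw [Fintype.card_subtype, Fintype.card_subtype]
    have e1 : univ.filter (fun x => (G.cl x, f x) = (k, l)) = b k l := by
      ext x; rw [mem_filter, h1]; simp
    have e2 : univ.filter (fun x => (G.cl x, f' x) = (k, l)) = b' k l := by
      ext x; rw [mem_filter, h2]; simp
    rw [e1, e2, isBlocks_card hv hb, isBlocks_card hv hb']
  refine ⟨Equiv.ofFiberEquiv (f := fun x => (G.cl x, f x)) (g := fun x => (G.cl x, f' x))
    (fun kl => Fintype.equivOfCardEq (hcard kl)), fun k l x => ?_⟩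
  rw [h1, h2]
  have := Equiv.ofFiberEquiv_map (f := fun x => (G.cl x, f x)) (g := fun x => (G.cl x, f' x))
    (fun kl => Fintype.equivOfCardEq (hcard kl)) x
  exact (by rw [this])

lemma card_pairings_le (hv : G.Valid) {b b' : Fin K → Fin K → Finset G.H} (hb : G.IsBlocks b)
    (hb' : G.IsBlocks b') : (G.pairings b).card ≤ (G.pairings b').card := by
  obtain ⟨π, hπ⟩ := exists_perm hv hb hb'
  refine card_le_card_of_injOn (fun η => (π.symm.trans η).trans π) ?_ ?_
  · intro η hη
    have hη' : G.IsPairing b η := by simpa [pairings] using hη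
    have : G.IsPairing b' ((π.symm.trans η).trans π) := by
      refine ⟨fun x => ?_, fun x => ?_, fun k l x hx => ?_⟩
      · simp only [Equiv.trans_apply, Equiv.symm_apply_apply]
        rw [hη'.1]; simp
      · simp only [Equiv.trans_apply]
        intro h
        apply hη'.2.1 (π.symm x)
        apply π.injective
        rw [h]; simp
      · simp only [Equiv.trans_apply]
        rw [← hπ]
        apply hη'.2.2
        rw [hπ]; simpa using hx
    simpa [pairings] using this
  · intro η _ η' _ h
    ext x : 1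
    have := congrArg (fun e : Equiv.Perm G.H => π.symm (e (π x))) h
    simpa using this

/-- the law of the random pairing is uniform on `Om` -/
theorem prob_eq (hv : G.Valid) (A : Equiv.Perm G.H → Prop) [DecidablePred A] :
    G.prob A = (((Om G.cl G.Bm).filter A).card : ℝ) / (Om G.cl G.Bm).card := by
  unfold prob
  rcases G.blocks.eq_empty_or_nonempty with h0 | ⟨b₀, hb₀⟩
  · have h1 : (Om G.cl G.Bm) = ∅ := by
      rw [eq_empty_iff_forall_notMem]
      intro η hη
      have := blk_mem hη
      rw [h0] at this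
      exact absurd this (notMem_empty _)
    rw [h0, h1]; simp
  · set m := (G.pairings b₀).card with hm
    have hconst : ∀ b ∈ G.blocks, (G.pairings b).card = m := fun b hb =>
      le_antisymm (card_pairings_le hv (mem_blocks.1 hb) (mem_blocks.1 hb₀))
        (card_pairings_le hv (mem_blocks.1 hb₀) (mem_blocks.1 hb))
    have e1 : ∑ b ∈ G.blocks, ((((G.pairings b).filter A).card : ℝ) / (G.pairings b).card)
        = (((Om G.cl G.Bm).filter A).card : ℝ) / m := by
      rw [← sum_pairings hv A, Nat.cast_sum, sum_div]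
      exact sum_congr rfl fun b hb => by rw [hconst b hb]
    have e2 : ((Om G.cl G.Bm).card : ℝ) = m * G.blocks.card := by
      have h := sum_pairings hv (fun _ => True)
      simp only [filter_true] at h
      rw [← h, sum_congr rfl hconst, sum_const, smul_eq_mul]
      push_cast; ring
    rw [e2, ← div_div]
    congr 1
    rw [← e1]
    refine sum_congr rfl fun b _ => ?_
    congr 2
    refine congrArg card ?_
    ext; simp

end Comm

end Pool.Agent.W_MP_17e8f0_pr
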