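import Pool.Agent.W_MP_17e8f0_pr.Link1

/-! Existence of a compatible pairing. -/

namespace Pool.Agent.W_MP_17e8f0_pr

open Finset

/-- the model type -/
abbrev TT {K : ℕ} (n : Fin K → Fin K → ℕ) : Type :=
  (k : Fin K) × (l : Fin K) × Fin (n k l)

/-- swap neighbours -/
def flp (i : ℕ) : ℕ := if i % 2 = 0 then i + 1 else i - 1

lemma flp_lt {i n : ℕ} (hn : Even n) (hi : i < n) : flp i < n := by
  obtain ⟨m, hm⟩ := hn
  unfold flp; split_ifs <;> omega

lemma flp_flp (i : ℕ) : flp (flp i) = i := by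
  unfold flp; split_ifs <;> omega

lemma flp_ne (i : ℕ) : flp i ≠ i := by
  unfold flp; split_ifs <;> omega

lemma tt_ext {K : ℕ} {n : Fin K → Fin K → ℕ} {k k' l l' : Fin K} {i i' : ℕ} {hi : i < n k l}
    {hi' : i' < n k' l'} (h1 : k = k') (h2 : l = l') (h3 : i = i') :
    (⟨k, l, ⟨i, hi⟩⟩ : TT n) = ⟨k', l', ⟨i', hi'⟩⟩ := by
  subst h1; subst h2; subst h3; rfl

/-- the involution on the model type -/
def ivl {K : ℕ} (n : Fin K → Fin K → ℕ) (hs : ∀ k l, n k l = n l k) (he : ∀ k, Even (n k k)) :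
    TT n → TT n
  | ⟨k, l, ⟨i, hi⟩⟩ => ⟨l, k, ⟨if k = l then flp i else i, by
      split_ifs with h
      · subst h; exact flp_lt (he k) hi
      · rw [hs]; exact hi⟩⟩

lemma ivl_ivl {K : ℕ} (n : Fin K → Fin K → ℕ) (hs : ∀ k l, n k l = n l k)
    (he : ∀ k, Even (n k k)) (x : TT n) : ivl n hs he (ivl n hs he x) = x := by
  obtain ⟨k, l, ⟨i, hi⟩⟩ := x
  unfold ivl
  apply tt_ext rfl rfl
  by_cases h : k = l
  · rw [if_pos h, if_pos h.symm, flp_flp]
  · rw [if_neg h, if_neg (Ne.symm h)]

lemma ivl_ne {K : ℕ} (n : Fin K → Fin K → ℕ) (hs : ∀ k l, n k l = n l k)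
    (he : ∀ k, Even (n k k)) (x : TT n) : ivl n hs he x ≠ x := by
  obtain ⟨k, l, ⟨i, hi⟩⟩ := x
  intro h
  have h1 : l = k := congrArg (fun t : TT n => t.1) h
  subst h1
  have h2 : (if l = l then flp i else i) = i := congrArg (fun t : TT n => t.2.2.1) h
  rw [if_pos rfl] at h2
  exact flp_ne i h2

theorem Om_nonempty {H : Type*} [Fintype H] [DecidableEq H] {K : ℕ} {c : H → Fin K}
    {n : Fin K → Fin K → ℕ} (hs : ∀ k l, n k l = n l k) (he : ∀ k, Even (n k k))
    (hsum : ∀ k, (univ.filter (fun x => c x = k)).card = ∑ l, n k l) : (Om c n).Nonempty := by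
  have hcard : ∀ k, Fintype.card {x : H // c x = k} = Fintype.card ((l : Fin K) × Fin (n k l)) := by
    intro k
    rw [Fintype.card_subtype, hsum, Fintype.card_sigma]
    simp
  set e : H ≃ TT n := (Equiv.sigmaFiberEquiv c).symm.trans
    (Equiv.sigmaCongrRight (fun k => Fintype.equivOfCardEq (hcard k))) with he'
  have he1 : ∀ x, (e x).1 = c x := fun x => rfl
  set I : Equiv.Perm (TT n) := ⟨ivl n hs he, ivl n hs he, ivl_ivl n hs he, ivl_ivl n hs he⟩ with hI
  have hI1 : ∀ t : TT n, (I t).1 = t.2.1 := by rintro ⟨k, l, ⟨i, hi⟩⟩; rfl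
  refine ⟨(e.trans I).trans e.symm, ?_⟩
  simp only [Om, mem_filter, mem_univ, true_and]
  refine ⟨fun x => ?_, fun x => ?_, fun k l => ?_⟩
  · simp only [Equiv.trans_apply, Equiv.apply_symm_apply]
    have : I (I (e x)) = e x := ivl_ivl n hs he (e x)
    rw [this]; simp
  · simp only [Equiv.trans_apply]
    intro h
    apply ivl_ne n hs he (e x)
    have : I (e x) = e x := by rw [Equiv.symm_apply_eq] at h; exact h
    exact this
  · have h1 : (univ.filter (fun x => c x = k ∧ c (((e.trans I).trans e.symm) x) = l)).card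
        = (univ.filter (fun t : TT n => t.1 = k ∧ t.2.1 = l)).card := by
      refine card_bij (fun x _ => e x) ?_ ?_ ?_
      · intro x hx
        have hx' := (mem_filter.1 hx).2
        rw [mem_filter]
        refine ⟨mem_univ _, by rw [he1]; exact hx'.1, ?_⟩
        rw [← hI1, ← hx'.2, ← he1]; simp
      · intro x _ x' _ h; exact e.injective h
      · intro t ht
        have ht' := (mem_filter.1 ht).2
        refine ⟨e.symm t, ?_, by simp⟩
        rw [mem_filter]
        refine ⟨mem_univ _, by rw [← he1]; simpa using ht'.1, ?_⟩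
        rw [← he1, ← ht'.2, ← hI1]; simp
    rw [h1]
    have h2 : (univ.filter (fun t : TT n => t.1 = k ∧ t.2.1 = l)).card
        = (univ : Finset (Fin (n k l))).card := by
      symm
      refine card_bij (fun i _ => (⟨k, l, i⟩ : TT n)) ?_ ?_ ?_
      · intro i _; simp
      · intro i _ i' _ h
        simpa using h
      · rintro ⟨k', l', i⟩ ht
        simp only [mem_filter, mem_univ, true_and] at ht
        obtain ⟨h3, h4⟩ := ht
        subst h3; subst h4
        exact ⟨i, mem_univ _, rfl⟩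
    rw [h2, card_univ, Fintype.card_fin]

namespace Comm

variable {K : ℕ} {G : Comm K}

lemma sum_Bm (hv : G.Valid) (k : Fin K) : ∑ l, G.Bm k l = G.N / K := by
  unfold Bm
  rw [← sum_filter_add_sum_filter_not univ (fun l => k = l)]
  have e1 : ∑ l ∈ univ.filter (fun l => k = l), (if k = l then G.N / K - (K - 1) * G.p else G.p)
      = G.N / K - (K - 1) * G.p := by
    rw [filter_eq univ k, if_pos (mem_univ _), sum_singleton, if_pos rfl]
  have e2 : ∑ l ∈ univ.filter (fun l => ¬ k = l), (if k = l then G.N / K - (K - 1) * G.p else G.p)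
      = (K - 1) * G.p := by
    rw [sum_congr rfl (g := fun _ => G.p) (fun l hl => by
      rw [if_neg (mem_filter.1 hl).2]), sum_const, smul_eq_mul]
    congr 1
    have : univ.filter (fun l => ¬ k = l) = univ.erase k := by
      ext l; simp [eq_comm]
    rw [this, card_erase_of_mem (mem_univ _), card_univ, Fintype.card_fin]
  rw [e1, e2]
  exact Nat.sub_add_cancel hv.block

lemma om_nonempty (hv : G.Valid) : (Om G.cl G.Bm).Nonempty := by
  refine Om_nonempty (fun k l => ?_) (fun k => ?_) (fun k => ?_)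
  · unfold Bm
    by_cases h : k = l
    · rw [if_pos h, if_pos h.symm]
    · rw [if_neg h, if_neg (Ne.symm h)]
  · unfold Bm; rw [if_pos rfl]; exact hv.parity
  · rw [sum_Bm hv]
    have := hv.size k
    unfold Hk at this
    exact this

end Comm

end Pool.Agent.W_MP_17e8f0_pr
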