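import Pool.Agent.W_MP_17e8f0_pr.Link2

/-! The parameters of the model. -/

namespace Pool.Agent.W_MP_17e8f0_pr

open Finset

variable {K : ℕ} {G : Comm K}

lemma card_ch_add (z : G.H) : (ch G.vt z).card + 1 = G.deg z.1 := by
  have h1 : (univ.filter (fun y : G.H => G.vt y = G.vt z)).card = G.deg z.1 := by
    have : (univ.filter (fun y : G.H => G.vt y = G.vt z)).card
        = (univ : Finset (Fin (G.deg z.1))).card := by
      symm
      refine card_bij (fun i _ => (⟨z.1, i⟩ : G.H)) ?_ ?_ ?_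
      · intro i _; exact mem_filter.2 ⟨mem_univ _, rfl⟩
      · intro i _ i' _ h
        simpa using h
      · rintro ⟨v, i⟩ ht
        have h := (mem_filter.1 ht).2
        have h' : v = z.1 := h
        subst h'
        exact ⟨i, mem_univ _, rfl⟩
    rw [this, card_univ, Fintype.card_fin]
  unfold ch
  rw [card_erase_of_mem (by simp), h1]
  have : 0 < G.deg z.1 := by
    rw [← h1]; exact card_pos.2 ⟨z, by simp⟩
  omega

lemma card_ch_real (z : G.H) : ((ch G.vt z).card : ℝ) = G.dg z := by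
  unfold Comm.dg
  rw [← card_ch_add z]; push_cast; ring

lemma X_eq (z : G.H) : X G.vt z = Real.log (G.dg z) := by
  unfold X; rw [card_ch_real]

lemma PM_eq (η : Equiv.Perm G.H) : PM G.vt η = G.P η := by
  ext x y
  unfold PM Comm.P
  rw [card_ch_real, one_div]
  by_cases h : y ≠ η x ∧ y.1 = (η x).1
  · have h' : y ∈ ch G.vt (η x) := mem_ch.2 h
    rw [if_pos h, if_pos h']
  · have h' : ¬ y ∈ ch G.vt (η x) := fun h' => h (mem_ch.1 h')
    rw [if_neg h, if_neg h']

lemma Dx_eq (η : Equiv.Perm G.H) (t : ℕ) (x : G.H) :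
    Dx G.vt η t x = ∑ y : G.H, max (1 / (G.N : ℝ) - (G.P η ^ t) x y) 0 := by
  unfold Dx; rw [PM_eq]; rfl

lemma D_eq (η : Equiv.Perm G.H) (t : ℕ) : G.D η t = ⨆ x, Dx G.vt η t x := by
  unfold Comm.D
  congr 1
  ext x
  rw [Dx_eq]

lemma N_eq (hv : G.Valid) : G.N = K * (G.N / K) := by
  have h1 : G.N = ∑ k : Fin K, (G.Hk k).card := by
    unfold Comm.N Comm.Hk
    rw [← card_univ, card_eq_sum_card_fiberwise (f := fun x : G.H => G.com x.1) (t := univ)
      (fun _ _ => mem_univ _)]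
  conv_lhs => rw [h1]
  rw [sum_congr rfl (fun k _ => hv.size k), sum_const, card_univ, Fintype.card_fin, smul_eq_mul]

lemma ann_of (hK : 0 < K) (hv : G.Valid) (hN : 0 < G.N) (hα0 : 0 < G.alpha) (hα1 : G.alpha ≤ 1) :
    Ann G.cl G.Bm (G.N / K) G.alpha := by
  have hN' := N_eq hv
  have hM : 0 < G.N / K := by
    rcases Nat.eq_zero_or_pos (G.N / K) with h | h
    · rw [h, mul_zero] at hN'; omega
    · exact h
  refine ⟨hK, hM, hα0, hα1, fun k => ?_, fun k l => ?_⟩
  · exact hv.size k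
  · set M := G.N / K with hMd
    have hKr : (K : ℝ) ≠ 0 := by exact_mod_cast hK.ne'
    have hMr : (M : ℝ) ≠ 0 := by exact_mod_cast hM.ne'
    have hNr : (G.N : ℝ) = K * M := by rw [hN']; push_cast; rfl
    have hαM : G.alpha * M = G.p * K := by
      unfold Comm.alpha
      rw [hNr]; field_simp
    unfold q Comm.Bm
    by_cases h : k = l
    · rw [if_pos h, if_pos h, Nat.cast_sub hv.block, ← hMd]
      push_cast
      rw [Nat.cast_sub (by omega)]
      push_cast
      rw [div_eq_div_iff (by positivity) hMr]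
      have : (G.p : ℝ) = G.alpha * M / K := by rw [hαM]; field_simp
      rw [this]
      field_simp
      ring
    · rw [if_neg h, if_neg h]
      rw [div_eq_div_iff (by positivity) hMr]
      have : (G.p : ℝ) = G.alpha * M / K := by rw [hαM]; field_simp
      rw [this]
      field_simp
      ring

lemma muk_link (hK : 0 < K) (hv : G.Valid) (k : Fin K) :
    muk G.vt G.cl (G.N / K) k = G.muk k := by
  unfold muk Comm.muk
  have hKr : (K : ℝ) ≠ 0 := by exact_mod_cast hK.ne'
  have hNr : (G.N : ℝ) = K * (G.N / K : ℕ) := by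
    conv_lhs => rw [N_eq hv]
    push_cast; rfl
  rw [hNr]
  have e1 : ∑ z ∈ univ.filter (fun z => G.cl z = k), X G.vt z = ∑ x ∈ G.Hk k, Real.log (G.dg x) :=
    sum_congr rfl fun z _ => X_eq z
  rw [e1]
  rw [← div_div, div_self hKr]
  ring

lemma mu_link (hK : 0 < K) (hv : G.Valid) : mu G.vt G.cl (G.N / K) = G.mu := by
  unfold mu muk Comm.mu
  have hKr : (K : ℝ) ≠ 0 := by exact_mod_cast hK.ne'
  have hNr : (G.N : ℝ) = K * (G.N / K : ℕ) := by
    conv_lhs => rw [N_eq hv]
    push_cast; rfl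
  rw [hNr, ← sum_div, sum_fiberwise, sum_congr rfl (fun z _ => X_eq z)]
  ring

lemma sig2_link (hK : 0 < K) (hv : G.Valid) : sig2 G.vt G.cl (G.N / K) = G.sigma2 := by
  unfold sig2 Comm.sigma2
  have hNr : (G.N : ℝ) = K * (G.N / K : ℕ) := by
    conv_lhs => rw [N_eq hv]
    push_cast; rfl
  rw [hNr, mu_link hK hv, sum_congr rfl (fun z _ => by rw [X_eq z])]
  ring

lemma nu2_link (hK : 0 < K) (hv : G.Valid) (hA : Ann G.cl G.Bm (G.N / K) G.alpha) :
    nu2 G.vt G.cl G.Bm (G.N / K) G.alpha = G.nu2 := by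
  have hKr : (K : ℝ) ≠ 0 := by exact_mod_cast hK.ne'
  have hα := hA.hα0.ne'
  have h1 := hA.K_nu2 (vt := G.vt)
  have h2 := hA.K_sig2 (vt := G.vt)
  rw [sig2_link hK hv] at h2
  have h3 : G.alpha ^ 2 * ∑ l, gk G.vt G.cl (G.N / K) G.alpha l ^ 2
      = ∑ l, (G.muk l - G.mu) ^ 2 := by
    rw [mul_sum]
    refine sum_congr rfl fun l _ => ?_
    unfold gk
    rw [muk_link hK hv, mu_link hK hv]
    field_simp
  have hsum : ∑ l, G.muk l = K * G.mu := by
    have : mu G.vt G.cl (G.N / K) = (∑ l, muk G.vt G.cl (G.N / K) l) / K := rfl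
    rw [mu_link hK hv, sum_congr rfl (fun l _ => muk_link hK hv l)] at this
    rw [this]; field_simp
  have h4 : ∑ l, (G.muk l - G.mu) ^ 2 = ∑ l, G.muk l ^ 2 - K * G.mu ^ 2 := by
    have : ∀ l, (G.muk l - G.mu) ^ 2 = G.muk l ^ 2 - 2 * G.mu * G.muk l + G.mu ^ 2 := by
      intro l; ring
    simp only [this]
    rw [sum_add_distrib, sum_sub_distrib, ← mul_sum, hsum, sum_const, card_univ,
      Fintype.card_fin, nsmul_eq_mul]
    ring
  have h5 : ∑ k, ∑ l ∈ univ.filter (fun l => l ≠ k), G.muk k * G.muk l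
      = (K * G.mu) ^ 2 - ∑ l, G.muk l ^ 2 := by
    have e1 : ∀ k, ∑ l ∈ univ.filter (fun l => l ≠ k), G.muk k * G.muk l
        = G.muk k * (K * G.mu) - G.muk k ^ 2 := by
      intro k
      rw [← mul_sum, filter_ne', ← hsum, ← add_sum_erase univ G.muk (mem_univ k)]
      ring
    simp only [e1]
    rw [sum_sub_distrib, ← sum_mul, hsum]
    ring
  unfold Comm.nu2
  rw [h5]
  set Sg := ∑ l, gk G.vt G.cl (G.N / K) G.alpha l ^ 2 with hSg
  set Sm := ∑ l, G.muk l ^ 2 with hSm
  have h6 : nu2 G.vt G.cl G.Bm (G.N / K) G.alpha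
      = G.sigma2 + 2 * G.alpha * (1 - G.alpha) * Sg / K := by
    have : K * nu2 G.vt G.cl G.Bm (G.N / K) G.alpha
        = K * (G.sigma2 + 2 * G.alpha * (1 - G.alpha) * Sg / K) := by
      rw [mul_add, mul_div_cancel₀ _ hKr]
      linear_combination h1 - h2
    exact mul_left_cancel₀ hKr this
  rw [h6]
  have h7 : Sg = (Sm - K * G.mu ^ 2) / G.alpha ^ 2 := by
    rw [eq_div_iff (by positivity), ← h4, ← h3]; ring
  rw [h7]
  field_simp
  ring

end Pool.Agent.W_MP_17e8f0_pr
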