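import Pool.Agent.W_MP_17e8f0_pr.Link3

/-! Mixing times and the final assembly. -/

namespace Pool.Agent.W_MP_17e8f0_pr

open Finset Filter Topology

variable {K : ℕ} {G : Comm K}

lemma D_lt_of [Nonempty G.H] {η : Equiv.Perm G.H} {t : ℕ} {ε : ℝ}
    (h : ∀ x, Dx G.vt η t x < ε) : G.D η t < ε := by
  rw [D_eq]
  obtain ⟨x, hx⟩ := exists_eq_ciSup_of_finite (f := fun x => Dx G.vt η t x)
  rw [← hx]; exact h x

lemma le_D (η : Equiv.Perm G.H) (t : ℕ) (x : G.H) : Dx G.vt η t x ≤ G.D η t := by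
  rw [D_eq]
  exact le_ciSup (f := fun x => Dx G.vt η t x) (Set.finite_range _).bddAbove x

lemma D_succ_le [Nonempty G.H] (h2 : ∀ z : G.H, 2 ≤ (ch G.vt z).card) (η : Equiv.Perm G.H)
    (t : ℕ) : G.D η (t + 1) ≤ G.D η t := by
  rw [D_eq η (t + 1)]
  refine ciSup_le fun x => ?_
  rw [Nat.add_comm]
  refine (Dx_add h2 η 1 t x).trans ?_
  calc ∑ z, (PM G.vt η ^ 1) x z * Dx G.vt η t z ≤ ∑ z, (PM G.vt η ^ 1) x z * G.D η t := by
        refine sum_le_sum fun z _ => ?_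
        exact mul_le_mul_of_nonneg_left (le_D η t z) (PM_pow_nonneg _ _ _ _)
    _ = G.D η t := by rw [← sum_mul, PM_row h2, one_mul]

lemma D_anti [Nonempty G.H] (h2 : ∀ z : G.H, 2 ≤ (ch G.vt z).card) (η : Equiv.Perm G.H) :
    Antitone (G.D η) := antitone_nat_of_succ_le (D_succ_le h2 η)

lemma tmix_fin {η : Equiv.Perm G.H} {t : ℕ} {ε : ℝ} (h : G.D η t < ε) :
    ∃ s : ℕ, G.tmix η ε = s ∧ s ≤ t ∧ G.D η s < ε := by
  have hne : {t : ℕ | G.D η t < ε}.Nonempty := ⟨t, h⟩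
  refine ⟨sInf {t : ℕ | G.D η t < ε}, ?_, Nat.sInf_le h, Nat.sInf_mem hne⟩
  unfold Comm.tmix
  apply le_antisymm
  · exact sInf_le ⟨_, Nat.sInf_mem hne, rfl⟩
  · apply le_sInf
    rintro _ ⟨s, hs, rfl⟩
    have : sInf {t : ℕ | G.D η t < ε} ≤ s := Nat.sInf_le hs
    exact Nat.cast_le.2 this

lemma lt_of_D [Nonempty G.H] (h2 : ∀ z : G.H, 2 ≤ (ch G.vt z).card) {η : Equiv.Perm G.H}
    {s t : ℕ} {ε : ℝ} (hs : G.D η s < ε) (ht : ε ≤ G.D η t) : t < s := by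
  by_contra h
  push Not at h
  have := D_anti h2 η h
  linarith

lemma prob_le_one (hv : G.Valid) (A : Equiv.Perm G.H → Prop) : G.prob A ≤ 1 := by
  classical
  rw [Comm.prob_eq hv]
  apply div_le_one_of_le₀ _ (by positivity)
  exact_mod_cast card_le_card (filter_subset _ _)

open Classical in
lemma prob_ge (hv : G.Valid) {A Q1 Q2 Q3 : Equiv.Perm G.H → Prop} {d1 d2 d3 : ℝ}
    (h : ∀ η ∈ Om G.cl G.Bm, Q1 η → Q2 η → Q3 η → A η)
    (h1 : (((Om G.cl G.Bm).filter (fun η => ¬ Q1 η)).card : ℝ) ≤ d1 * (Om G.cl G.Bm).card)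
    (h2 : (((Om G.cl G.Bm).filter (fun η => ¬ Q2 η)).card : ℝ) ≤ d2 * (Om G.cl G.Bm).card)
    (h3 : (((Om G.cl G.Bm).filter (fun η => ¬ Q3 η)).card : ℝ) ≤ d3 * (Om G.cl G.Bm).card) :
    1 - (d1 + d2 + d3) ≤ G.prob A := by
  rw [Comm.prob_eq hv]
  have hpos : (0:ℝ) < (Om G.cl G.Bm).card := by
    exact_mod_cast card_pos.2 (Comm.om_nonempty hv)
  rw [le_div_iff₀ hpos]
  have hsub : Om G.cl G.Bm ⊆ (Om G.cl G.Bm).filter A ∪ ((Om G.cl G.Bm).filter (fun η => ¬ Q1 η)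
      ∪ ((Om G.cl G.Bm).filter (fun η => ¬ Q2 η) ∪ (Om G.cl G.Bm).filter (fun η => ¬ Q3 η))) := by
    intro η hη
    simp only [mem_union, mem_filter]
    by_cases q1 : Q1 η
    · by_cases q2 : Q2 η
      · by_cases q3 : Q3 η
        · left; exact ⟨hη, h η hη q1 q2 q3⟩
        · right; right; right; exact ⟨hη, q3⟩
      · right; right; left; exact ⟨hη, q2⟩
    · right; left; exact ⟨hη, q1⟩
  have hc : ((Om G.cl G.Bm).card : ℝ) ≤ ((Om G.cl G.Bm).filter A).card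
      + ((((Om G.cl G.Bm).filter (fun η => ¬ Q1 η)).card : ℝ)
      + ((((Om G.cl G.Bm).filter (fun η => ¬ Q2 η)).card : ℝ)
      + (((Om G.cl G.Bm).filter (fun η => ¬ Q3 η)).card : ℝ))) := by
    have e1 := card_le_card hsub
    have e2 := card_union_le ((Om G.cl G.Bm).filter A) ((Om G.cl G.Bm).filter (fun η => ¬ Q1 η)
      ∪ ((Om G.cl G.Bm).filter (fun η => ¬ Q2 η) ∪ (Om G.cl G.Bm).filter (fun η => ¬ Q3 η)))
    have e3 := card_union_le ((Om G.cl G.Bm).filter (fun η => ¬ Q1 η))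
      ((Om G.cl G.Bm).filter (fun η => ¬ Q2 η) ∪ (Om G.cl G.Bm).filter (fun η => ¬ Q3 η))
    have e4 := card_union_le ((Om G.cl G.Bm).filter (fun η => ¬ Q2 η))
      ((Om G.cl G.Bm).filter (fun η => ¬ Q3 η))
    exact_mod_cast (by omega)
  linarith

/-- the scale -/
noncomputable def yy (G : Comm K) : ℝ := Real.log G.N ^ ((1:ℝ) / 8)

lemma yy_pow (hN : 1 ≤ G.N) : yy G ^ 8 = Real.log G.N := by
  have h0 : 0 ≤ Real.log G.N := Real.log_nonneg (by exact_mod_cast hN)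
  unfold yy
  rw [← Real.rpow_natCast, ← Real.rpow_mul h0]
  norm_num

lemma inst_of (hK : 0 < K) (hv : G.Valid) (hN : 1 ≤ G.N) (hα0 : 0 < G.alpha)
    (hα1 : G.alpha ≤ 1) {Δ : ℕ} (hΔ : ∀ v, G.deg v ≤ Δ) {σ0 : ℝ} (hσ0 : 0 < σ0)
    (hσ : σ0 ^ 2 ≤ G.sigma2) :
    Inst Δ σ0 G.vt G.cl G.Bm (G.N / K) G.alpha (yy G) where
  ann := ann_of hK hv (by omega) hα0 hα1
  hcv := by
    intro x y h
    exact congrArg G.com h
  h2 := by
    intro z
    have h1 := card_ch_add z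
    have h2 := hv.three_le z.1
    omega
  hΔ := by
    intro z
    rw [card_ch_add z]; exact hΔ _
  hOm := Comm.om_nonempty hv
  hNe := by
    rw [yy_pow hN, Real.exp_log (by exact_mod_cast (by omega))]
    conv_rhs => rw [N_eq hv]
    push_cast; rfl
  hσ0 := hσ0
  hσ := by rw [sig2_link hK hv]; exact hσ

lemma wN_link (hK : 0 < K) (hv : G.Valid) (hN : 1 ≤ G.N) (hα0 : 0 < G.alpha)
    (hα1 : G.alpha ≤ 1) : wN G.vt G.cl G.Bm (G.N / K) G.alpha (yy G) = G.w := by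
  unfold wN Comm.w
  rw [yy_pow hN, mu_link hK hv, nu2_link hK hv (ann_of hK hv (by omega) hα0 hα1)]

lemma sigma2_nonneg : 0 ≤ G.sigma2 := by
  unfold Comm.sigma2
  exact mul_nonneg (by positivity) (sum_nonneg fun _ _ => sq_nonneg _)

/-- everything that is needed along the sequence -/
lemma regime_ev (hK : 0 < K) {G : ℕ → Comm K} (hR : Regime G)
    (hαN : Tendsto (fun n => (G n).alpha * Real.log (G n).N) atTop atTop) :
    ∃ (Δ : ℕ) (σ0 : ℝ), 0 < σ0 ∧ ∀ y₀ : ℝ, ∀ᶠ n in atTop,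
      1 ≤ (G n).N ∧ 0 < (G n).alpha ∧
      Inst Δ σ0 (G n).vt (G n).cl (G n).Bm ((G n).N / K) (G n).alpha (yy (G n)) ∧
      y₀ ≤ yy (G n) ∧ y₀ ≤ (G n).alpha * yy (G n) ^ 8 := by
  obtain ⟨Δ, hΔ⟩ := hR.deg_le
  have hs := hR.sigma_pos
  set s := liminf (fun n => (G n).sigma2) atTop with hsd
  have hev : ∀ᶠ n in atTop, s / 2 < (G n).sigma2 :=
    eventually_lt_of_lt_liminf (by rw [← hsd]; linarith)
      (isBoundedUnder_of ⟨0, fun n => sigma2_nonneg⟩)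
  refine ⟨Δ, Real.sqrt (s / 2), Real.sqrt_pos.2 (by linarith), fun y₀ => ?_⟩
  have hN1 : ∀ᶠ n in atTop, 1 ≤ (G n).N := hR.N_tendsto.eventually (eventually_ge_atTop 1)
  have hlogN : Tendsto (fun n => Real.log ((G n).N : ℝ)) atTop atTop :=
    Real.tendsto_log_atTop.comp (tendsto_natCast_atTop_atTop.comp hR.N_tendsto)
  have hy : Tendsto (fun n => yy (G n)) atTop atTop :=
    (tendsto_rpow_atTop (by norm_num)).comp hlogN
  filter_upwards [hev, hN1, hy.eventually (eventually_ge_atTop y₀),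
    hαN.eventually (eventually_ge_atTop y₀), hαN.eventually (eventually_gt_atTop 0)] with
    n h1 h2 h3 h4 h5
  have hα0 : 0 < (G n).alpha := by
    by_contra hc
    push Not at hc
    have : 0 ≤ Real.log ((G n).N : ℝ) := Real.log_nonneg (by exact_mod_cast h2)
    nlinarith
  refine ⟨h2, hα0, inst_of hK (hR.valid n) h2 hα0 (hR.alpha_le n) (hΔ n)
    (Real.sqrt_pos.2 (by linarith)) ?_, h3, ?_⟩
  · rw [Real.sq_sqrt (by linarith)]; exact h1.le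
  · rw [yy_pow h2]; exact h4

/-- Part (A): tightness. -/
theorem partA (hK : 0 < K) {G : ℕ → Comm K} (hR : Regime G)
    (hαN : Tendsto (fun n => (G n).alpha * Real.log (G n).N) atTop atTop)
    {ε : ℝ} (hε0 : 0 < ε) (hε1 : ε < 1) {δ : ℝ} (hδ : 0 < δ) :
    ∃ C : ℝ, ∀ᶠ n in atTop, 1 - δ ≤ (G n).prob (fun η => ∃ t : ℕ, (G n).tmix η ε = t ∧
      |(t : ℝ) - Real.log (G n).N / (G n).mu| ≤ C * (G n).w) := by
  classical
  obtain ⟨Δ, σ0, hσ0, hreg⟩ := regime_ev hK hR hαN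
  obtain ⟨C1, hC1, y1, hy1⟩ := finalA_up K Δ hK hσ0 hε0 (δ := δ / 2) (by positivity)
  obtain ⟨C2, hC2, y2, hy2⟩ := finalA_low K Δ hK hσ0 hε1 (δ := δ / 2) (by positivity)
  refine ⟨max C1 C2, ?_⟩
  filter_upwards [hreg y1, hreg y2] with n h1 h2
  obtain ⟨hN, hα0, hI, a1, a2⟩ := h1
  obtain ⟨_, _, _, b1, b2⟩ := h2
  have hv := hR.valid n
  have hne : Nonempty (G n).H := hI.exists_x
  have k1 := hy1 hI a1 a2
  have k2 := hy2 hI b1 b2
  rw [wN_link hK hv hN hα0 (hR.alpha_le n), mu_link hK hv, yy_pow hN] at k1 k2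
  have hw : 0 ≤ (G n).w := Real.sqrt_nonneg _
  have key := prob_ge hv (A := fun η => ∃ t : ℕ, (G n).tmix η ε = t ∧
      |(t : ℝ) - Real.log (G n).N / (G n).mu| ≤ max C1 C2 * (G n).w) (Q3 := fun _ => True)
    (d3 := 0) (fun η _ q1 q2 _ => ?_) k1 k2 (by simp)
  · linarith
  · obtain ⟨t, ht, hD⟩ := q1
    obtain ⟨t', ht', x, hx⟩ := q2
    obtain ⟨s, hs, hst, hDs⟩ := tmix_fin (D_lt_of hD)
    refine ⟨s, hs, ?_⟩
    have e1 : t' < s := lt_of_D hI.h2 hDs (hx.trans (le_D η t' x))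
    have e2 : (t' : ℝ) + 1 ≤ s := by exact_mod_cast e1
    have e3 : (s : ℝ) ≤ t := by exact_mod_cast hst
    have e4 : C1 * (G n).w ≤ max C1 C2 * (G n).w := mul_le_mul_of_nonneg_right (le_max_left _ _) hw
    have e5 : C2 * (G n).w ≤ max C1 C2 * (G n).w := mul_le_mul_of_nonneg_right (le_max_right _ _) hw
    rw [abs_le]
    constructor <;> linarith

/-- Part (B): the window is attained. -/
theorem partB (hK : 0 < K) {G : ℕ → Comm K} (hR : Regime G)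
    (hαN : Tendsto (fun n => (G n).alpha * Real.log (G n).N) atTop atTop) :
    ∃ ε ε' c : ℝ, 0 < ε ∧ ε < ε' ∧ ε' < 1 ∧ 0 < c ∧
      Tendsto (fun n => (G n).prob (fun η => ∃ t t' : ℕ, (G n).tmix η ε = t ∧
        (G n).tmix η ε' = t' ∧ c * (G n).w ≤ (t : ℝ) - t')) atTop (𝓝 1) := by
  classical
  have hK1 : (1:ℝ) ≤ K := by exact_mod_cast hK
  obtain ⟨Δ, σ0, hσ0, hreg⟩ := regime_ev hK hR hαN
  set τ := th K (Real.log Δ) σ0 with hτ
  have hτ0 : 0 < τ := th_pos K hK _ _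
  have hτ1 : τ ≤ 1 := th_le_one K hK _ _
  have hK2 : (1:ℝ) ≤ K ^ 2 := one_le_pow₀ hK1
  have hτ2 : τ ^ 2 ≤ 1 := by nlinarith
  have hε : 0 < τ ^ 2 / (64 * K) := by positivity
  have hε4 : τ ^ 2 / (64 * K) ≤ 1 / 64 := by
    rw [div_le_div_iff₀ (by positivity) (by norm_num)]
    nlinarith
  have hρ0 : 0 < (τ ^ 2 / (256 * (K:ℝ) ^ 2)) ^ 2 := by positivity
  have hρ1 : (τ ^ 2 / (256 * (K:ℝ) ^ 2)) ^ 2 ≤ 1 := by
    apply pow_le_one₀ (by positivity)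
    rw [div_le_one (by positivity)]; nlinarith
  refine ⟨τ ^ 2 / (64 * K), 1 - (τ ^ 2 / (256 * (K:ℝ) ^ 2)) ^ 2 / 4, τ / 128, hε, by linarith,
    by linarith, by positivity, ?_⟩
  rw [Metric.tendsto_nhds]
  intro d hd
  obtain ⟨C1, hC1, y1, hy1⟩ := finalA_up K Δ hK hσ0 hε (δ := d / 4) (by positivity)
  obtain ⟨y2, hy2⟩ := finalB_up K Δ hK hσ0 hτ (δ := d / 4) (by positivity)
  obtain ⟨y3, hy3⟩ := finalB_low K Δ hK hσ0 hτ (δ := d / 4) (by positivity)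
  filter_upwards [hreg y1, hreg y2, hreg y3] with n h1 h2 h3
  obtain ⟨hN, hα0, hI, a1, a2⟩ := h1
  obtain ⟨_, _, _, b1, b2⟩ := h2
  obtain ⟨_, _, _, c1, c2⟩ := h3
  have hv := hR.valid n
  have hne : Nonempty (G n).H := hI.exists_x
  have k1 := hy1 hI a1 a2
  have k2 := hy2 hI b1 b2
  have k3 := hy3 hI c1 c2
  rw [wN_link hK hv hN hα0 (hR.alpha_le n), mu_link hK hv, yy_pow hN] at k1 k2
  rw [mu_link hK hv, yy_pow hN] at k3
  have key := prob_ge hv (A := fun η => ∃ t t' : ℕ, (G n).tmix η (τ ^ 2 / (64 * K)) = t ∧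
        (G n).tmix η (1 - (τ ^ 2 / (256 * (K:ℝ) ^ 2)) ^ 2 / 4) = t'
        ∧ τ / 128 * (G n).w ≤ (t : ℝ) - t') (fun η _ q1 q2 q3 => ?_) k1 k2 k3
  · rw [Real.dist_eq, abs_lt]
    have := prob_le_one hv (fun η => ∃ t t' : ℕ, (G n).tmix η (τ ^ 2 / (64 * K)) = t ∧
        (G n).tmix η (1 - (τ ^ 2 / (256 * (K:ℝ) ^ 2)) ^ 2 / 4) = t'
        ∧ τ / 128 * (G n).w ≤ (t : ℝ) - t')
    constructor <;> linarith
  · obtain ⟨t1, _, hD1⟩ := q1
    obtain ⟨t2, ht2, hD2⟩ := q2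
    obtain ⟨t3, ht3, x, hx⟩ := q3
    obtain ⟨s, hs, hst, hDs⟩ := tmix_fin (D_lt_of hD1)
    obtain ⟨s', hs', hst', hDs'⟩ := tmix_fin (D_lt_of hD2)
    refine ⟨s, s', hs, hs', ?_⟩
    have e1 : t3 < s := lt_of_D hI.h2 hDs (hx.trans (le_D η t3 x))
    have e2 : (t3 : ℝ) + 1 ≤ s := by exact_mod_cast e1
    have e3 : (s' : ℝ) ≤ t2 := by exact_mod_cast hst'
    linarith

end Pool.Agent.W_MP_17e8f0_pr
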