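import Pool.Agent.W_MP_17e8f0_pr.UpperGen
import Pool.Agent.W_MP_17e8f0_pr.OneSided
import Pool.Agent.W_MP_17e8f0_pr.Growth3

namespace Pool.Agent.W_MP_17e8f0_pr

open Finset

variable {H V : Type*} [Fintype H] [DecidableEq H] [DecidableEq V] {K : ℕ}
variable {vt : H → V} {c : H → Fin K} {B : Fin K → Fin K → ℕ} {M : ℕ} {α : ℝ}

lemma n1N_mul {y : ℝ} : 4 * y ^ 8 + 3 ≤ n1N y * Real.exp (-(y ^ 8 - y)) := by
  have h1 : (4 * y ^ 8 + 3) * Real.exp (y ^ 8 - y) ≤ n1N y := Nat.le_ceil _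
  have h2 := mul_le_mul_of_nonneg_right h1 (Real.exp_pos (-(y ^ 8 - y))).le
  rwa [mul_assoc, ← Real.exp_add, add_neg_cancel, Real.exp_zero, mul_one] at h2

theorem lower_gen (hA : Ann c B M α) (hcv : ∀ x y, vt x = vt y → c x = c y)
    (h2 : ∀ z : H, 2 ≤ (ch vt z).card) {Δ : ℕ} (hΔ : ∀ z : H, (ch vt z).card + 1 ≤ Δ)
    (hOm : (Om c B).Nonempty)
    {δ y : ℝ} (hδ : 0 < δ)
    (hNe0 : (K * M : ℝ) = Real.exp (y ^ 8)) (hαy : 1 ≤ α * y ^ 8) (hE : EvL K Δ δ y)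
    {t : ℕ} (ht : t ≤ dmN y) (hgt : gN y ≤ t) {Vm : ℝ}
    (hVm : ∀ k s, gN y * Real.log 2 ≤ s → s ≤ gN y * Real.log Δ →
      Vm ≤ An vt c B M (t - gN y) (ind K (y ^ 8 - y)) k s) (x : H) :
    (((Om c B).filter (fun η => Dx vt η t x < Vm - δ)).card : ℝ) ≤ δ * (Om c B).card := by
  have hK0 : (0:ℝ) < K := by exact_mod_cast hA.hK
  have hK1 : (1:ℝ) ≤ K := by exact_mod_cast hA.hK
  have hcard := hA.card_H
  have hNe : (Fintype.card H : ℝ) = Real.exp (y ^ 8) := by rw [hcard, hNe0]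
  have hlam : 0 ≤ LamN δ y := by unfold LamN; positivity
  have htd : (t : ℝ) ≤ dmN y := by exact_mod_cast ht
  have h1 : (dmN y : ℝ) ≤ 4 * y ^ 8 + 1 := (Nat.ceil_lt_add_one (by positivity)).le
  have key := one_sided (vt := vt) (c := c) (B := B) (M := M) (Kc := K) hA.hM hcv hA.hsq h2 hΔ
    (lam := LamN δ y) (ε := eps1N K Δ y) (wm := wmN y) (Q := K * Real.exp (-(y ^ 8)))
    (smax := y ^ 8 - y) (c3 := c31N K Δ δ y) (nT := nT1N Δ y) (rT := rT1N Δ y) (n := n1N y)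
    hK1 hlam
    (fun S hS => small_of hA (Δ := Δ) hNe0 hαy (by unfold eps1N; rfl) hE.eps S hS)
    (by
      intro k l
      refine (hA.q_le k l).trans (le_of_eq ?_)
      have hM : (M : ℝ) ≠ 0 := by exact_mod_cast hA.hM0.ne'
      rw [Real.exp_neg, ← hNe0]
      have hK : (K : ℝ) ≠ 0 := by exact_mod_cast hA.hK.ne'
      field_simp) (by positivity) hE.lw (Real.exp_pos _).le
    (by unfold c31N; exact le_rfl) (h := gN y) (t := t)
    (by have h := n1N_mul (y := y); linarith) hgt (Vm := Vm) (δ := δ / 2)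
    hVm (le_of_eq rfl) hOm (by show 2 * tN Δ y + 2 * n1N y ≤ nT1N Δ y; exact le_rfl)
    (r₁ := Δ + Δ * tN Δ y) (by unfold rT1N; exact le_rfl) (le_of_eq rfl) x
  have hsub : (Om c B).filter (fun η => Dx vt η t x < Vm - δ)
      ⊆ (Om c B).filter (fun η => Gq vt (y ^ 8 - y) η t 0 x ≤ Vm - δ / 2) := by
    intro η hη
    rw [mem_filter] at hη ⊢
    refine ⟨hη.1, ?_⟩
    have h3 := Dx_lower (vt := vt) h2 (smax := y ^ 8 - y) (η := η) t x
    rw [hNe, ← Real.exp_sub] at h3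
    have h4 : y ^ 8 - y - y ^ 8 = -y := by ring
    rw [h4] at h3
    have h5 := hE.e3
    have h6 := hη.2
    linarith
  have h3 : (((Om c B).filter (fun η => Dx vt η t x < Vm - δ)).card : ℝ)
      ≤ (((Om c B).filter (fun η => Gq vt (y ^ 8 - y) η t 0 x ≤ Vm - δ / 2)).card : ℝ) := by
    exact_mod_cast card_le_card hsub
  refine h3.trans (key.trans ?_)
  rw [mul_comm]
  refine mul_le_mul_of_nonneg_right ?_ (by positivity)
  have e1 : Real.exp (-(LamN δ y * (δ / 2)) + c31N K Δ δ y * t) ≤ δ / 4 := by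
    refine le_trans (Real.exp_le_exp.2 ?_) hE.e1
    have f1 : LamN δ y * (δ / 2) = 4 * y ^ 8 := by
      unfold LamN; field_simp; ring
    have hc0 : 0 ≤ c31N K Δ δ y := by
      have : 0 ≤ wmN y := (Real.exp_pos _).le
      have : 0 ≤ eps1N K Δ y := by unfold eps1N; positivity
      unfold c31N
      positivity
    have f2 := mul_le_mul_of_nonneg_left htd hc0
    have f3 := hE.cc
    rw [f1]; linarith
  have e2 : (tau Δ (gN y) : ℝ) * (2 * (K * Real.exp (-(y ^ 8))) * ((Δ + Δ * tN Δ y : ℕ) : ℝ))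
      ≤ δ / 4 := hE.e2
  linarith

end Pool.Agent.W_MP_17e8f0_pr
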