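import Mathlib

namespace Pool.Agent.W_MP_17e8f0_pr

open Finset

variable {H : Type*} [Fintype H] [DecidableEq H] {K : ℕ}

/-- The fixed-point-free involutions of `H` with exactly `B k l` elements of class `k`
paired to class `l`. -/
def Om (c : H → Fin K) (B : Fin K → Fin K → ℕ) : Finset (Equiv.Perm H) :=
  univ.filter (fun η => (∀ x, η (η x) = x) ∧ (∀ x, η x ≠ x) ∧
    ∀ k l, (univ.filter (fun x => c x = k ∧ c (η x) = l)).card = B k l)

/-- A cylinder set: the elements of `Om` with prescribed values on a closed set `S`. -/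
def IsCyl (c : H → Fin K) (B : Fin K → Fin K → ℕ) (S : Finset H)
    (C : Finset (Equiv.Perm H)) : Prop :=
  ∃ η₀ ∈ Om c B, (∀ x ∈ S, η₀ x ∈ S) ∧ C = (Om c B).filter (fun η => ∀ x ∈ S, η x = η₀ x)

variable {c : H → Fin K} {B : Fin K → Fin K → ℕ} {S : Finset H} {C : Finset (Equiv.Perm H)}

lemma Om.invol {η : Equiv.Perm H} (h : η ∈ Om c B) (x : H) : η (η x) = x := by
  simp only [Om, mem_filter] at h; exact h.2.1 x

lemma Om.ne {η : Equiv.Perm H} (h : η ∈ Om c B) (x : H) : η x ≠ x := by
  simp only [Om, mem_filter] at h; exact h.2.2.1 x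

lemma Om.count {η : Equiv.Perm H} (h : η ∈ Om c B) (k l : Fin K) :
    (univ.filter (fun x => c x = k ∧ c (η x) = l)).card = B k l := by
  simp only [Om, mem_filter] at h; exact h.2.2.2 k l

lemma IsCyl.subset (hC : IsCyl c B S C) : C ⊆ Om c B := by
  obtain ⟨η₀, _, _, rfl⟩ := hC
  exact filter_subset _ _

lemma IsCyl.closed (hC : IsCyl c B S C) {η : Equiv.Perm H} (hη : η ∈ C) {x : H} (hx : x ∈ S) :
    η x ∈ S := by
  obtain ⟨η₀, _, hcl, rfl⟩ := hC
  rw [mem_filter] at hη
  rw [hη.2 x hx]; exact hcl x hx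

lemma IsCyl.notMem (hC : IsCyl c B S C) {η : Equiv.Perm H} (hη : η ∈ C) {x : H} (hx : x ∉ S) :
    η x ∉ S := by
  intro h
  have := hC.closed hη h
  rw [Om.invol (hC.subset hη)] at this
  exact hx this

lemma IsCyl.nonempty (hC : IsCyl c B S C) : C.Nonempty := by
  obtain ⟨η₀, h0, hcl, rfl⟩ := hC
  exact ⟨η₀, mem_filter.2 ⟨h0, fun _ _ => rfl⟩⟩

lemma IsCyl.eq_of_mem (hC : IsCyl c B S C) {η₁ : Equiv.Perm H} (h₁ : η₁ ∈ C) :
    C = (Om c B).filter (fun η => ∀ x ∈ S, η x = η₁ x) := by
  obtain ⟨η₀, h0, hcl, rfl⟩ := hC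
  rw [mem_filter] at h₁
  ext η
  simp only [mem_filter]
  constructor
  · rintro ⟨a, b⟩
    exact ⟨a, fun x hx => (b x hx).trans (h₁.2 x hx).symm⟩
  · rintro ⟨a, b⟩
    exact ⟨a, fun x hx => (b x hx).trans (h₁.2 x hx)⟩

lemma isCyl_empty (h : (Om c B).Nonempty) : IsCyl c B ∅ (Om c B) := by
  obtain ⟨η, hη⟩ := h
  exact ⟨η, hη, by simp, by simp⟩

lemma IsCyl.extend (hC : IsCyl c B S C) {η : Equiv.Perm H} (hη : η ∈ C) (u : H) :
    IsCyl c B (insert u (insert (η u) S)) (C.filter (fun η' => η' u = η u)) := by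
  refine ⟨η, hC.subset hη, ?_, ?_⟩
  · intro x hx
    simp only [mem_insert] at hx ⊢
    rcases hx with rfl | rfl | hx
    · simp
    · left; exact Om.invol (hC.subset hη) u
    · right; right; exact hC.closed hη hx
  · rw [hC.eq_of_mem hη]
    ext η'
    simp only [mem_filter, mem_insert]
    constructor
    · rintro ⟨⟨h1, h2⟩, h3⟩
      refine ⟨h1, ?_⟩
      rintro x (rfl | rfl | hx)
      · exact h3
      · rw [Om.invol (hC.subset hη), ← h3, Om.invol h1]
      · exact h2 x hx
    · rintro ⟨h1, h2⟩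
      exact ⟨⟨h1, fun x hx => h2 x (Or.inr (Or.inr hx))⟩, h2 u (Or.inl rfl)⟩

lemma conj_mem (hC : IsCyl c B S C) {x y : H} (hx : x ∉ S) (hy : y ∉ S) (hxy : c x = c y)
    {η : Equiv.Perm H} (hη : η ∈ C) :
    Equiv.swap x y * η * Equiv.swap x y ∈ C := by
  obtain ⟨η₀, h0, hcl, rfl⟩ := hC
  have hcs : ∀ z, c (Equiv.swap x y z) = c z := by
    intro z
    rcases eq_or_ne z x with rfl | h1
    · rw [Equiv.swap_apply_left]; exact hxy.symm
    · rcases eq_or_ne z y with rfl | h2
      · rw [Equiv.swap_apply_right]; exact hxy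
      · rw [Equiv.swap_apply_of_ne_of_ne h1 h2]
  rw [mem_filter] at hη ⊢
  obtain ⟨hη1, hη2⟩ := hη
  refine ⟨?_, ?_⟩
  · simp only [Om, mem_filter, mem_univ, true_and]
    refine ⟨?_, ?_, ?_⟩
    · intro z
      simp [Equiv.Perm.mul_apply, Om.invol hη1]
    · intro z hz
      simp only [Equiv.Perm.mul_apply] at hz
      have : η (Equiv.swap x y z) = Equiv.swap x y z := by
        have := congrArg (Equiv.swap x y) hz
        simpa using this
      exact Om.ne hη1 _ this
    · intro k l
      rw [← Om.count hη1 k l]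
      refine card_bij' (fun z _ => Equiv.swap x y z) (fun z _ => Equiv.swap x y z) ?_ ?_ ?_ ?_
      · intro z hz
        simp only [mem_filter, mem_univ, true_and, Equiv.Perm.mul_apply, hcs] at hz ⊢
        exact hz
      · intro z hz
        simp only [mem_filter, mem_univ, true_and, Equiv.Perm.mul_apply, hcs,
          Equiv.swap_apply_self] at hz ⊢
        exact hz
      · intro z _; simp
      · intro z _; simp
  · intro z hz
    have hz1 : Equiv.swap x y z = z :=
      Equiv.swap_apply_of_ne_of_ne (by rintro rfl; exact hx hz) (by rintro rfl; exact hy hz)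
    simp only [Equiv.Perm.mul_apply, hz1, hη2 z hz]
    have := hcl z hz
    exact Equiv.swap_apply_of_ne_of_ne (by intro h; rw [h] at this; exact hx this)
      (by intro h; rw [h] at this; exact hy this)

/-- number of `η ∈ C` with `η u = z` -/
def T (C : Finset (Equiv.Perm H)) (u z : H) : ℕ := (C.filter (fun η => η u = z)).card

lemma T_conj (hC : IsCyl c B S C) {x y : H} (hx : x ∉ S) (hy : y ∉ S) (hxy : c x = c y)
    (u z : H) : T C u z = T C (Equiv.swap x y u) (Equiv.swap x y z) := by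
  unfold T
  refine card_bij' (fun η _ => Equiv.swap x y * η * Equiv.swap x y)
    (fun η _ => Equiv.swap x y * η * Equiv.swap x y) ?_ ?_ ?_ ?_
  · intro η hη
    rw [mem_filter] at hη ⊢
    refine ⟨conj_mem hC hx hy hxy hη.1, ?_⟩
    simp [Equiv.Perm.mul_apply, hη.2]
  · intro η hη
    rw [mem_filter] at hη ⊢
    refine ⟨conj_mem hC hx hy hxy hη.1, ?_⟩
    simp [Equiv.Perm.mul_apply, hη.2]
  · intro η _
    ext z; simp [Equiv.Perm.mul_apply]
  · intro η _
    ext z; simp [Equiv.Perm.mul_apply]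

lemma T_eq_right (hC : IsCyl c B S C) {u z z' : H} (hz : z ∉ S) (hz' : z' ∉ S)
    (h1 : z ≠ u) (h2 : z' ≠ u) (hc : c z = c z') : T C u z = T C u z' := by
  rw [T_conj hC hz hz' hc u z, Equiv.swap_apply_left,
    Equiv.swap_apply_of_ne_of_ne h1.symm h2.symm]

lemma T_self (hC : IsCyl c B S C) (u : H) : T C u u = 0 := by
  unfold T
  rw [card_eq_zero, filter_eq_empty_iff]
  intro η hη
  exact Om.ne (hC.subset hη) u

lemma T_mem (hC : IsCyl c B S C) {u z : H} (hu : u ∉ S) (hz : z ∈ S) : T C u z = 0 := by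
  unfold T
  rw [card_eq_zero, filter_eq_empty_iff]
  intro η hη h
  exact hC.notMem hη hu (h ▸ hz)

/-- number of `η ∈ C` with `c (η u) = l` -/
def U (c : H → Fin K) (C : Finset (Equiv.Perm H)) (u : H) (l : Fin K) : ℕ :=
  (C.filter (fun η => c (η u) = l)).card

lemma U_eq_sum (C : Finset (Equiv.Perm H)) (u : H) (l : Fin K) :
    U c C u l = ∑ z ∈ univ.filter (fun z => c z = l), T C u z := by
  unfold U T
  rw [card_eq_sum_card_fiberwise (f := fun η : Equiv.Perm H => η u)
    (t := univ.filter (fun z => c z = l))]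
  · refine sum_congr rfl ?_
    intro z hz
    congr 1
    ext η
    simp only [mem_filter, mem_univ, true_and] at hz ⊢
    constructor
    · rintro ⟨⟨a, b⟩, d⟩; exact ⟨a, d⟩
    · rintro ⟨a, d⟩; exact ⟨⟨a, by rw [d]; exact hz⟩, d⟩
  · intro η hη
    simp only [coe_filter, Set.mem_setOf_eq, mem_univ, true_and] at hη ⊢
    exact hη.2

/-- unexposed elements of class `k` -/
def aS (c : H → Fin K) (S : Finset H) (k : Fin K) : ℕ := (univ.filter (fun x => x ∉ S ∧ c x = k)).card

lemma U_conj (hC : IsCyl c B S C) {u u' : H} (hu : u ∉ S) (hu' : u' ∉ S) (h : c u = c u')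
    (l : Fin K) : U c C u l = U c C u' l := by
  rw [U_eq_sum, U_eq_sum]
  have hcs : ∀ z, c (Equiv.swap u u' z) = c z := by
    intro z
    rcases eq_or_ne z u with rfl | h1
    · rw [Equiv.swap_apply_left]; exact h.symm
    · rcases eq_or_ne z u' with rfl | h2
      · rw [Equiv.swap_apply_right]; exact h
      · rw [Equiv.swap_apply_of_ne_of_ne h1 h2]
  refine sum_bij' (fun z _ => Equiv.swap u u' z) (fun z _ => Equiv.swap u u' z) ?_ ?_ ?_ ?_ ?_
  · intro z hz; simpa [hcs] using hz
  · intro z hz; simpa [hcs] using hz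
  · intro z _; simp
  · intro z _; simp
  · intro z _
    have := T_conj hC hu hu' h u z
    rw [Equiv.swap_apply_left] at this
    exact this

lemma U_eq_mul (hC : IsCyl c B S C) {u z : H} (hu : u ∉ S) (hz : z ∉ S) (hzu : z ≠ u) :
    (U c C u (c z) : ℝ) = T C u z * (aS c S (c z) - if c u = c z then 1 else 0) := by
  rw [U_eq_sum]
  have h1 : ∀ z' ∈ univ.filter (fun z' => c z' = c z),
      T C u z' = if z' ∉ S ∧ z' ≠ u then T C u z else 0 := by
    intro z' hz'
    simp only [mem_filter, mem_univ, true_and] at hz'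
    split_ifs with h
    · exact T_eq_right hC h.1 hz h.2 hzu hz'
    · rw [not_and_or, not_not, not_not] at h
      rcases h with h | h
      · exact T_mem hC hu h
      · rw [h]; exact T_self hC u
  rw [sum_congr rfl h1, ← sum_filter, sum_const, filter_filter]
  have h2 : ((univ.filter (fun z' => c z' = c z ∧ (z' ∉ S ∧ z' ≠ u))).card : ℝ)
      = aS c S (c z) - if c u = c z then 1 else 0 := by
    unfold aS
    have : univ.filter (fun z' => c z' = c z ∧ (z' ∉ S ∧ z' ≠ u))
        = (univ.filter (fun x => x ∉ S ∧ c x = c z)).erase u := by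
      ext y; simp only [mem_filter, mem_univ, true_and, mem_erase]; tauto
    rw [this]
    by_cases hc : c u = c z
    · have hm : u ∈ univ.filter (fun x => x ∉ S ∧ c x = c z) := by simp [hu, hc]
      rw [card_erase_of_mem hm, if_pos hc]
      have : 1 ≤ (univ.filter (fun x => x ∉ S ∧ c x = c z)).card := card_pos.2 ⟨u, hm⟩
      rw [Nat.cast_sub this]; norm_num
    · have hm : u ∉ univ.filter (fun x => x ∉ S ∧ c x = c z) := by simp [hc]
      rw [erase_eq_of_notMem hm, if_neg hc]; simp
  rw [smul_eq_mul]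
  push_cast
  rw [h2]; ring

/-- unexposed pairs of type `(k,l)` -/
def bS (c : H → Fin K) (S : Finset H) (η : Equiv.Perm H) (k l : Fin K) : ℕ :=
  (univ.filter (fun x => x ∉ S ∧ c x = k ∧ c (η x) = l)).card

lemma bS_eq (hC : IsCyl c B S C) {η η' : Equiv.Perm H} (h : η ∈ C) (h' : η' ∈ C) (k l : Fin K) :
    bS c S η k l = bS c S η' k l := by
  have key : ∀ ξ ∈ C, bS c S ξ k l
      + (univ.filter (fun x => x ∈ S ∧ c x = k ∧ c (ξ x) = l)).card = B k l := by
    intro ξ hξ
    rw [← Om.count (hC.subset hξ) k l, bS, ← card_union_of_disjoint]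
    · congr 1
      ext x; simp only [mem_union, mem_filter, mem_univ, true_and]; tauto
    · rw [disjoint_filter]; intro x _ h1 h2; exact h1.1 h2.1
  have k1 := key η h
  have k2 := key η' h'
  have : (univ.filter (fun x => x ∈ S ∧ c x = k ∧ c (η x) = l))
      = (univ.filter (fun x => x ∈ S ∧ c x = k ∧ c (η' x) = l)) := by
    ext x
    simp only [mem_filter, mem_univ, true_and]
    have he : x ∈ S → η x = η' x := by
      intro hx
      rw [hC.eq_of_mem h'] at h
      exact (mem_filter.1 h).2 x hx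
    constructor
    · rintro ⟨a, b, d⟩; exact ⟨a, b, by rw [← he a]; exact d⟩
    · rintro ⟨a, b, d⟩; exact ⟨a, b, by rw [he a]; exact d⟩
  rw [this] at k1
  omega

lemma bS_le (hC : IsCyl c B S C) {η : Equiv.Perm H} (h : η ∈ C) (k l : Fin K) :
    bS c S η k l ≤ B k l := by
  rw [← Om.count (hC.subset h) k l]
  refine card_le_card ?_
  intro x; simp only [mem_filter, mem_univ, true_and]; tauto

lemma le_bS (hC : IsCyl c B S C) {η : Equiv.Perm H} (h : η ∈ C) (k l : Fin K) :
    B k l ≤ bS c S η k l + S.card := by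
  rw [← Om.count (hC.subset h) k l]
  have : univ.filter (fun x => c x = k ∧ c (η x) = l)
      ⊆ univ.filter (fun x => x ∉ S ∧ c x = k ∧ c (η x) = l) ∪ S := by
    intro x; simp only [mem_filter, mem_univ, true_and, mem_union]; tauto
  exact (card_le_card this).trans (card_union_le _ _)

lemma sum_U (hC : IsCyl c B S C) {η : Equiv.Perm H} (h : η ∈ C) {u : H} (hu : u ∉ S) (l : Fin K) :
    aS c S (c u) * U c C u l = bS c S η (c u) l * C.card := by
  have h1 : ∑ u' ∈ univ.filter (fun x => x ∉ S ∧ c x = c u), U c C u' l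
      = aS c S (c u) * U c C u l := by
    rw [sum_congr rfl (g := fun _ => U c C u l), sum_const, smul_eq_mul, aS]
    intro u' hu'
    simp only [mem_filter, mem_univ, true_and] at hu'
    exact U_conj hC hu'.1 hu hu'.2 l
  rw [← h1]
  have h2 : ∀ u', U c C u' l = ∑ η' ∈ C, if c (η' u') = l then 1 else 0 := by
    intro u'; unfold U; rw [card_filter]
  simp only [h2]
  rw [sum_comm]
  rw [sum_congr rfl (g := fun _ => bS c S η (c u) l), sum_const, smul_eq_mul, mul_comm]
  intro η' hη'
  rw [← card_filter, filter_filter, bS_eq hC h hη', bS]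
  congr 1
  ext x; simp only [mem_filter, mem_univ, true_and]; tauto

theorem T_formula (hC : IsCyl c B S C) {η : Equiv.Perm H} (h : η ∈ C) {u z : H} (hu : u ∉ S)
    (hz : z ∉ S) (hzu : z ≠ u) :
    (T C u z : ℝ) * (aS c S (c u) * (aS c S (c z) - if c u = c z then 1 else 0))
      = bS c S η (c u) (c z) * C.card := by
  have h1 := U_eq_mul hC hu hz hzu
  have h2 : (aS c S (c u) : ℝ) * U c C u (c z) = bS c S η (c u) (c z) * C.card := by
    exact_mod_cast sum_U hC h hu (c z)
  rw [← h2, h1]; ring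

end Pool.Agent.W_MP_17e8f0_pr
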