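import Pool.Agent.W_MP_17e8f0_pr.Walk

namespace Pool.Agent.W_MP_17e8f0_pr

open Finset

variable {H V : Type*} [Fintype H] [DecidableEq H] [DecidableEq V] {K : ℕ}
variable {vt : H → V} {c : H → Fin K} {B : Fin K → Fin K → ℕ} {M : ℕ} {Kc : ℝ}

/-- functional of the last matching phase -/
noncomputable def J0 (f : H → H → ℝ) (A Bf : Finset H) (η : Equiv.Perm H) : ℝ :=
  ∑ u ∈ A, ∑ z ∈ Bf, if η u = z then f u z else 0

/-- potential of the last matching phase -/
noncomputable def P0 (c : H → Fin K) (B : Fin K → Fin K → ℕ) (M : ℕ) (Nn : ℝ)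
    (f : H → H → ℝ) (A Bf : Finset H) : ℝ :=
  ∑ u ∈ A, ∑ z ∈ Bf, Nn * q B M (c u) (c z) * f u z

theorem match_bound
    (hM : ∀ k, (univ.filter (fun x => c x = k)).card = M)
    {lam ε wm Q wmin θ Nn c4 : ℝ} {nE : ℕ}
    (hKc : 0 ≤ Kc) (hlam : 0 ≤ lam) (hwmin : 0 < wmin)
    (hSmall : ∀ S : Finset H, S.card ≤ nE → Small B S ε)
    (hQ : ∀ k l, q B M k l ≤ Q) (hlw : 2 * lam * Kc * wm ≤ 1) (hQ0 : 0 ≤ Q)
    (hNn : 0 ≤ Nn) (hθ : 0 ≤ θ) (hlθ : lam * Nn * θ ≤ 1) (hNq : Nn * Q ≤ Kc) (hwm : 0 ≤ wm)
    (hc4 : lam * ε * Kc + 2 * lam ^ 2 * Kc ^ 2 * wm + 2 * lam ^ 2 * Nn * θ * Kc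
      + 8 * lam * Kc * Q / wmin ≤ c4)
    (s : H → ℝ) (f : H → H → ℝ) (hf0 : ∀ u z, 0 ≤ f u z) (hf1 : ∀ u z, f u z ≤ θ)
    (hf2 : ∀ u z, f u z ≤ Real.exp (-s u) * Real.exp (-s z)) :
    ∀ (n : ℕ) (S A Bf : Finset H) (C : Finset (Equiv.Perm H)),
      IsCyl c B S C → Disjoint A S → Disjoint Bf S → Disjoint A Bf → mass A s ≤ 1 →
      mass Bf s ≤ 1 → (∀ u ∈ A, Real.exp (-s u) ≤ wm) → (∀ u ∈ Bf, Real.exp (-s u) ≤ wm) →
      (∀ u ∈ A, wmin ≤ Real.exp (-s u)) → A.card ≤ n → S.card + 2 * n ≤ nE → ∀ r : ℝ,
      ((C.filter (fun η => Nn * J0 f A Bf η ≤ r)).card : ℝ)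
        ≤ C.card * Real.exp (lam * (r - P0 c B M Nn f A Bf) + c4 * mass A s) := by
  have hε0 := (hSmall ∅ (by simp)).1
  have hc40 : 0 ≤ c4 := by
    refine le_trans ?_ hc4
    positivity
  have hq0 : ∀ k l, 0 ≤ q B M k l := fun k l => q_nonneg M _ _
  intro n
  induction n with
  | zero =>
    intro S A Bf C hC hAS hBS hAB hmA hmB hA hB hAw hn hS r
    have hA0 : A = ∅ := by rw [← card_eq_zero]; omega
    subst hA0
    simp only [J0, P0, mass, sum_empty, mul_zero, sub_zero, add_zero]
    by_cases hr : 0 ≤ r
    · have h1 : 1 ≤ Real.exp (lam * r) := Real.one_le_exp (mul_nonneg hlam hr)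
      have h2 : ((C.filter (fun _ => (0:ℝ) ≤ r)).card : ℝ) ≤ C.card := by
        exact_mod_cast card_le_card (filter_subset _ _)
      have h3 : (0 : ℝ) ≤ C.card := by positivity
      nlinarith
    · rw [filter_false_of_mem (fun _ _ => hr)]
      simp only [card_empty, Nat.cast_zero]
      positivity
  | succ n ih =>
    intro S A Bf C hC hAS hBS hAB hmA hmB hA hB hAw hn hS r
    by_cases hAe : A = ∅
    · exact ih S A Bf C hC hAS hBS hAB hmA hmB hA hB hAw (by rw [hAe]; simp) (by omega) r
    obtain ⟨u, hu⟩ := nonempty_iff_ne_empty.2 hAe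
    have huS : u ∉ S := disjoint_left.1 hAS hu
    set a := Real.exp (-s u) with ha
    have ha0 : 0 < a := Real.exp_pos _
    have haw : a ≤ wm := hA u hu
    have hamin : wmin ≤ a := hAw u hu
    set om : H → ℝ := fun z => if z ∈ A ∪ Bf then Real.exp (-s z) else 0 with hom
    have hom0 : ∀ z, 0 ≤ om z := fun z => by simp only [hom]; split_ifs <;> positivity
    set t : H → H → ℝ := fun u z => Nn * q B M (c u) (c z) * f u z with ht
    have ht0 : ∀ u z, 0 ≤ t u z := fun u z => mul_nonneg (mul_nonneg hNn (hq0 _ _)) (hf0 _ _)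
    have ht1 : ∀ u z, t u z ≤ Kc * (Real.exp (-s u) * Real.exp (-s z)) := fun u z => by
      refine mul_le_mul ?_ (hf2 u z) (hf0 _ _) hKc
      exact (mul_le_mul_of_nonneg_left (hQ _ _) hNn).trans hNq
    have hrow : ∀ a, ∑ b ∈ Bf, t a b ≤ Kc * Real.exp (-s a) := by
      intro a
      calc _ ≤ ∑ b ∈ Bf, Kc * (Real.exp (-s a) * Real.exp (-s b)) :=
            sum_le_sum fun b _ => ht1 a b
        _ = Kc * Real.exp (-s a) * mass Bf s := by
            rw [mass, mul_sum]; exact sum_congr rfl fun b _ => by ring
        _ ≤ Kc * Real.exp (-s a) * 1 := mul_le_mul_of_nonneg_left hmB (by positivity)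
        _ = _ := by ring
    have hcol : ∀ b, ∑ a ∈ A, t a b ≤ Kc * Real.exp (-s b) := by
      intro b
      calc _ ≤ ∑ a ∈ A, Kc * (Real.exp (-s a) * Real.exp (-s b)) :=
            sum_le_sum fun a _ => ht1 a b
        _ = Kc * Real.exp (-s b) * mass A s := by
            rw [mass, mul_sum]; exact sum_congr rfl fun b _ => by ring
        _ ≤ Kc * Real.exp (-s b) * 1 := mul_le_mul_of_nonneg_left hmA (by positivity)
        _ = _ := by ring
    set Fu : ℝ := ∑ z ∈ Bf, t u z with hFu
    set loss : H → ℝ := fun z => P0 c B M Nn f A Bf - Fu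
      - P0 c B M Nn f ((A.erase u).erase z) (Bf.erase z) with hloss
    have hP : ∀ A' B', P0 c B M Nn f A' B' = ∑ a ∈ A', ∑ b ∈ B', t a b := fun _ _ => rfl
    have hAu : ∑ a ∈ A, ∑ b ∈ Bf, t a b = ∑ a ∈ A.erase u, ∑ b ∈ Bf, t a b + Fu :=
      (sum_erase_add A _ hu).symm
    have hloss0 : ∀ z, 0 ≤ loss z := by
      intro z
      simp only [hloss, hP, hAu]
      have : ∑ a ∈ (A.erase u).erase z, ∑ b ∈ Bf.erase z, t a b
          ≤ ∑ a ∈ A.erase u, ∑ b ∈ Bf, t a b := by
        calc _ ≤ ∑ a ∈ (A.erase u).erase z, ∑ b ∈ Bf, t a b :=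
              sum_le_sum fun a _ => sum_le_sum_of_subset_of_nonneg (erase_subset _ _)
                fun b _ _ => ht0 a b
          _ ≤ _ := sum_le_sum_of_subset_of_nonneg (erase_subset _ _) fun a _ _ =>
                sum_nonneg fun b _ => ht0 a b
      linarith
    have hloss1 : ∀ z, loss z ≤ Kc * om z := by
      intro z
      simp only [hloss, hP, hAu, hom]
      by_cases hzA : z ∈ A
      · have hzB : z ∉ Bf := disjoint_left.1 hAB hzA
        rw [erase_eq_of_notMem hzB, if_pos (mem_union_left _ hzA)]
        by_cases hzu : z = u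
        · subst hzu
          rw [erase_eq_of_notMem (notMem_erase z A)]
          have : 0 ≤ Kc * Real.exp (-s z) := by positivity
          linarith
        · have hz' : ∑ a ∈ A.erase u, ∑ b ∈ Bf, t a b
              = ∑ a ∈ (A.erase u).erase z, ∑ b ∈ Bf, t a b + ∑ b ∈ Bf, t z b :=
            (sum_erase_add _ _ (mem_erase.2 ⟨hzu, hzA⟩)).symm
          have := hrow z
          linarith
      · rw [erase_eq_of_notMem (fun h => hzA (mem_of_mem_erase h))]
        by_cases hzB : z ∈ Bf
        · rw [if_pos (mem_union_right _ hzB)]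
          have h3 : ∑ a ∈ A.erase u, ∑ b ∈ Bf, t a b
              = ∑ a ∈ A.erase u, ∑ b ∈ Bf.erase z, t a b + ∑ a ∈ A.erase u, t a z := by
            rw [← sum_add_distrib]
            exact sum_congr rfl fun a _ => (sum_erase_add Bf _ hzB).symm
          have h4 : ∑ a ∈ A.erase u, t a z ≤ ∑ a ∈ A, t a z :=
            sum_le_sum_of_subset_of_nonneg (erase_subset _ _) fun a _ _ => ht0 a z
          have := hcol z
          linarith
        · rw [erase_eq_of_notMem hzB, if_neg (by rw [mem_union]; tauto)]
          linarith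
    set fz : H → ℝ := fun z => if z ∈ Bf then f u z else 0 with hfz
    have hpt : ∀ z, (((C.filter (fun η => η u = z)).filter
          (fun η => Nn * J0 f A Bf η ≤ r)).card : ℝ)
        ≤ ((T C u z : ℝ) * Real.exp (-(lam * (Nn * fz z - Fu - loss z)))) *
          Real.exp (lam * (r - P0 c B M Nn f A Bf) + c4 * (mass A s - a)) := by
      intro z
      by_cases hne : (C.filter (fun η => η u = z)).Nonempty
      · obtain ⟨η₁, hη₁⟩ := hne
        have hη₁C := (mem_filter.1 hη₁).1
        have hη₁z := (mem_filter.1 hη₁).2
        have hC' : IsCyl c B (insert u (insert z S)) (C.filter (fun η => η u = z)) := by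
          have := hC.extend hη₁C u
          rwa [hη₁z] at this
        have hTz : (T C u z : ℝ) = ((C.filter (fun η => η u = z)).card : ℝ) := rfl
        have hsub : (C.filter (fun η => η u = z)).filter (fun η => Nn * J0 f A Bf η ≤ r)
            ⊆ (C.filter (fun η => η u = z)).filter
              (fun η => Nn * J0 f ((A.erase u).erase z) (Bf.erase z) η ≤ r - Nn * fz z) := by
          intro η hη
          rw [mem_filter] at hη ⊢
          have hηz := (mem_filter.1 hη.1).2
          refine ⟨hη.1, ?_⟩
          have h1 : fz z + J0 f ((A.erase u).erase z) (Bf.erase z) η ≤ J0 f A Bf η := by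
            have g0 : ∀ a b, 0 ≤ (if η a = b then f a b else 0) := fun a b => by
              split_ifs
              · exact hf0 _ _
              · exact le_rfl
            have h2 : J0 f A Bf η = J0 f (A.erase u) Bf η
                + ∑ b ∈ Bf, (if η u = b then f u b else 0) :=
              (sum_erase_add A _ hu).symm
            have h3 : ∑ b ∈ Bf, (if η u = b then f u b else 0) = fz z := by
              rw [hηz]; simp only [hfz]
              rw [sum_ite_eq]
            have h4 : J0 f ((A.erase u).erase z) (Bf.erase z) η ≤ J0 f (A.erase u) Bf η := by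
              unfold J0
              calc _ ≤ ∑ a ∈ (A.erase u).erase z, ∑ b ∈ Bf, (if η a = b then f a b else 0) :=
                    sum_le_sum fun a _ => sum_le_sum_of_subset_of_nonneg (erase_subset _ _)
                      fun b _ _ => g0 a b
                _ ≤ _ := sum_le_sum_of_subset_of_nonneg (erase_subset _ _) fun a _ _ =>
                      sum_nonneg fun b _ => g0 a b
            linarith
          have := mul_le_mul_of_nonneg_left h1 hNn
          linarith [hη.2]
        have hAsub : (A.erase u).erase z ⊆ A := (erase_subset _ _).trans (erase_subset _ _)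
        have hih := ih (insert u (insert z S)) ((A.erase u).erase z) (Bf.erase z) _ hC'
          (by
            rw [disjoint_left]
            intro x hx
            simp only [mem_erase, mem_insert] at hx ⊢
            rintro (rfl | rfl | hxS)
            · exact hx.2.1 rfl
            · exact hx.1 rfl
            · exact disjoint_left.1 hAS hx.2.2 hxS)
          (by
            rw [disjoint_left]
            intro x hx
            simp only [mem_erase, mem_insert] at hx ⊢
            rintro (rfl | rfl | hxS)
            · exact disjoint_left.1 hAB hu hx.2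
            · exact hx.1 rfl
            · exact disjoint_left.1 hBS hx.2 hxS)
          (disjoint_of_subset_left hAsub (disjoint_of_subset_right (erase_subset _ _) hAB))
          ((mass_mono hAsub s).trans hmA)
          ((mass_mono (erase_subset _ _) s).trans hmB)
          (fun v hv => hA v (hAsub hv))
          (fun v hv => hB v (mem_of_mem_erase hv))
          (fun v hv => hAw v (hAsub hv))
          (by
            have h1 : ((A.erase u).erase z).card ≤ (A.erase u).card :=
              card_le_card (erase_subset _ _)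
            have h2 := card_erase_of_mem hu
            have h3 : 0 < A.card := card_pos.2 ⟨u, hu⟩
            omega)
          (by have := card_S_step S u z; omega) (r - Nn * fz z)
        have hmass : mass ((A.erase u).erase z) s ≤ mass A s - a := by
          have h1 : mass ((A.erase u).erase z) s ≤ mass (A.erase u) s :=
            mass_mono (erase_subset _ _) s
          have h2 : mass A s = mass (A.erase u) s + a := by
            unfold mass; rw [sum_erase_add _ _ hu]
          linarith
        calc (((C.filter (fun η => η u = z)).filter (fun η => Nn * J0 f A Bf η ≤ r)).card : ℝ)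
            ≤ _ := by exact_mod_cast card_le_card hsub
          _ ≤ _ := hih
          _ ≤ (T C u z : ℝ) * Real.exp (-(lam * (Nn * fz z - Fu - loss z)) +
              (lam * (r - P0 c B M Nn f A Bf) + c4 * (mass A s - a))) := by
              rw [hTz]
              apply mul_le_mul_of_nonneg_left _ (by positivity)
              apply Real.exp_le_exp.2
              have hgz : P0 c B M Nn f ((A.erase u).erase z) (Bf.erase z)
                  = P0 c B M Nn f A Bf - Fu - loss z := by
                simp only [hloss]; ring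
              rw [hgz]
              have := mul_le_mul_of_nonneg_left hmass hc40
              linarith
          _ = _ := by rw [Real.exp_add, mul_assoc]
      · rw [not_nonempty_iff_eq_empty] at hne
        rw [hne]; simp only [filter_empty, card_empty, Nat.cast_zero]
        positivity
    have hexpo := expo_match hC M hM (hSmall S (by omega)) huS Bf
      (fun z hz => ⟨disjoint_left.1 hBS hz, fun h => disjoint_left.1 hAB hu (h ▸ hz)⟩)
      hlam hKc ha0.le haw hNn hθ fz
      (fun z => by simp only [hfz]; split_ifs; exacts [hf0 _ _, le_rfl])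
      (fun z => by simp only [hfz]; split_ifs; exacts [hf1 _ _, hθ])
      (fun z hz => by simp only [hfz, if_neg hz])
      loss om hloss0 hloss1
      (fun z => by
        simp only [hom]; split_ifs with hz
        · rcases mem_union.1 hz with hz | hz
          · exact hA z hz
          · exact hB z hz
        · exact hwm)
      (by
        have h3 : ∑ z, om z = mass A s + mass Bf s := by
          simp only [hom, mass]
          rw [← sum_union hAB, ← sum_filter]
          congr 1; ext; simp
        linarith)
      Fu
      (by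
        simp only [hFu, hfz, ht, mul_ite, mul_zero]
        rw [← sum_filter]
        congr 1; ext; simp)
      (hrow u) hlw hlθ hQ
    rw [card_filter_split C _ u]
    refine (sum_le_sum fun z _ => hpt z).trans ?_
    rw [← sum_mul]
    refine (mul_le_mul_of_nonneg_right hexpo (Real.exp_pos _).le).trans ?_
    rw [mul_assoc, ← Real.exp_add]
    apply mul_le_mul_of_nonneg_left _ (by positivity)
    apply Real.exp_le_exp.2
    have k1 : 8 * lam * Kc * Q ≤ a * (8 * lam * Kc * Q / wmin) := by
      have h0 : 0 ≤ 8 * lam * Kc * Q := by positivity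
      rw [mul_div_assoc', le_div_iff₀ hwmin, mul_comm a]
      exact mul_le_mul_of_nonneg_left hamin h0
    have k3 := mul_le_mul_of_nonneg_left hc4 ha0.le
    nlinarith

end Pool.Agent.W_MP_17e8f0_pr
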