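import Mathlib

/-!
# The random graph with `K` communities and its non-backtracking walk

This file holds the definitions used in the statement of the theorem. They follow the problem
file line by line.
-/

namespace Pool.Agent.W_MP_17e8f0_pr

open Finset Filter

/-- The deterministic data: a finite vertex set `V`, degrees `deg`, communities
`com : V → Fin K` (so `V_k` is the set of `v` with `com v = k`), and the integer `p`. -/
structure Comm (K : ℕ) where
  /-- the vertices -/
  V : Type
  /-- the vertex set is finite -/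
  [fin : Fintype V]
  [dec : DecidableEq V]
  /-- the degrees -/
  deg : V → ℕ
  /-- the communities -/
  com : V → Fin K
  /-- the size of the blocks -/
  p : ℕ

attribute [instance] Comm.fin Comm.dec

namespace Comm

variable {K : ℕ} (G : Comm K)

/-- The half-edges: vertex `v` carries `deg v` half-edges. -/
abbrev H : Type := (v : G.V) × Fin (G.deg v)

/-- The half-edges attached to vertices of community `k`. -/
def Hk (k : Fin K) : Finset G.H := univ.filter (fun x => G.com x.1 = k)

/-- The number of half-edges. -/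
def N : ℕ := Fintype.card G.H

/-- The standing assumptions of the model: all degrees are at least `3`, every community
carries `N / K` half-edges, `(K - 1) p ≤ N / K`, and `N / K - (K - 1) p` is even. -/
structure Valid : Prop where
  three_le : ∀ v, 3 ≤ G.deg v
  size : ∀ k, (G.Hk k).card = G.N / K
  block : (K - 1) * G.p ≤ G.N / K
  parity : Even (G.N / K - (K - 1) * G.p)

/-- The choice of blocks: `b k l`, for `l ≠ k`, are pairwise disjoint subsets of `H_k` with `p`
elements each, and `b k k` is the rest of `H_k`. -/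
def IsBlocks (b : Fin K → Fin K → Finset G.H) : Prop :=
  (∀ k l, k ≠ l → b k l ⊆ G.Hk k ∧ (b k l).card = G.p) ∧
  (∀ k l l', l ≠ k → l' ≠ k → l ≠ l' → Disjoint (b k l) (b k l')) ∧
  (∀ k, b k k = G.Hk k \ (univ.filter (fun l => l ≠ k)).biUnion (b k))

/-- `η` is a pairing of the half-edges (an involution without fixed points) which pairs
`b k l` with `b l k` for all `k ≠ l`, and pairs each `b k k` within itself. -/
def IsPairing (b : Fin K → Fin K → Finset G.H) (η : Equiv.Perm G.H) : Prop :=
  (∀ x, η (η x) = x) ∧ (∀ x, η x ≠ x) ∧ ∀ k l, ∀ x ∈ b k l, η x ∈ b l k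

open Classical in
/-- All choices of blocks. -/
noncomputable def blocks : Finset (Fin K → Fin K → Finset G.H) := univ.filter G.IsBlocks

open Classical in
/-- All pairings compatible with the blocks `b`. -/
noncomputable def pairings (b : Fin K → Fin K → Finset G.H) : Finset (Equiv.Perm G.H) :=
  univ.filter (G.IsPairing b)

open Classical in
/-- The probability that the random pairing `η` has the property `A`, where the blocks are
chosen uniformly at random and, given the blocks, `η` is uniform among the compatible pairings. -/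
noncomputable def prob (A : Equiv.Perm G.H → Prop) : ℝ :=
  (∑ b ∈ G.blocks, (((G.pairings b).filter A).card : ℝ) / (G.pairings b).card) / G.blocks.card

/-- `deg(x) = d(u) - 1` for a half-edge `x` at the vertex `u`. -/
def dg (x : G.H) : ℝ := (G.deg x.1 : ℝ) - 1

open Classical in
/-- The transition matrix of the non-backtracking walk. -/
noncomputable def P (η : Equiv.Perm G.H) : Matrix G.H G.H ℝ :=
  fun x y => if y ≠ η x ∧ y.1 = (η x).1 then 1 / G.dg (η x) else 0

/-- `D(t) = max_x ∑_y (1/N - P^t(x,y))_+`. -/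
noncomputable def D (η : Equiv.Perm G.H) (t : ℕ) : ℝ :=
  ⨆ x : G.H, ∑ y : G.H, max (1 / (G.N : ℝ) - (G.P η ^ t) x y) 0

/-- `t_mix(ε) = inf {t ≥ 0 : D(t) < ε}`, which is `∞` if there is no such `t`. -/
noncomputable def tmix (η : Equiv.Perm G.H) (ε : ℝ) : ℕ∞ :=
  sInf ((fun t : ℕ => (t : ℕ∞)) '' {t : ℕ | G.D η t < ε})

/-- `α = p K² / N`. -/
noncomputable def alpha : ℝ := (G.p : ℝ) * (K : ℝ) ^ 2 / G.N

/-- `μ`, the mean of `log deg(x)`. -/
noncomputable def mu : ℝ := 1 / (G.N : ℝ) * ∑ x : G.H, Real.log (G.dg x)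

/-- `σ²`, the variance of `log deg(x)`. -/
noncomputable def sigma2 : ℝ := 1 / (G.N : ℝ) * ∑ x : G.H, (Real.log (G.dg x) - G.mu) ^ 2

/-- `μ_k`, the mean of `log deg(x)` over `H_k`. -/
noncomputable def muk (k : Fin K) : ℝ := (K : ℝ) / G.N * ∑ x ∈ G.Hk k, Real.log (G.dg x)

/-- `ν²`. -/
noncomputable def nu2 : ℝ :=
  G.sigma2 + 2 * (1 - G.alpha) / ((K : ℝ) ^ 2 * G.alpha) *
    (((K : ℝ) - 1) * ∑ k, G.muk k ^ 2
      - ∑ k, ∑ l ∈ univ.filter (fun l => l ≠ k), G.muk k * G.muk l)

/-- The window `w_N = √(ν² / μ³ · log N)`. -/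
noncomputable def w : ℝ := Real.sqrt (G.nu2 / G.mu ^ 3 * Real.log G.N)

end Comm

/-- The regime: `N → ∞`, `α ≤ 1`, bounded degrees, `liminf σ² > 0`. -/
structure Regime {K : ℕ} (G : ℕ → Comm K) : Prop where
  valid : ∀ n, (G n).Valid
  N_tendsto : Tendsto (fun n => (G n).N) atTop atTop
  alpha_le : ∀ n, (G n).alpha ≤ 1
  deg_le : ∃ Δ : ℕ, ∀ n v, (G n).deg v ≤ Δ
  sigma_pos : 0 < liminf (fun n => (G n).sigma2) atTop

end Pool.Agent.W_MP_17e8f0_pr
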