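import Pool.Agent.W_MP_17e8f0_pr.Pair

namespace Pool.Agent.W_MP_17e8f0_pr

open Finset

variable {H V : Type*} [Fintype H] [DecidableEq H] [DecidableEq V] {K : ℕ}
variable {vt : H → V} {c : H → Fin K} {B : Fin K → Fin K → ℕ} {M : ℕ} {Kc : ℝ}

variable (P : Par vt c B M)

/-- all vertices of half-edges at the vertex of `x` -/
def vs (vt : H → V) (x : H) : Finset H := insert x (ch vt x)

lemma mem_vs {x y : H} : y ∈ vs vt x ↔ vt y = vt x := by
  unfold vs
  rw [mem_insert, mem_ch]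
  constructor
  · rintro (rfl | h)
    · rfl
    · exact h.2
  · intro h
    by_cases hyx : y = x
    · left; exact hyx
    · right; exact ⟨hyx, h⟩

lemma card_vs_le {Δ : ℕ} (hΔ : ∀ z : H, (ch vt z).card + 1 ≤ Δ) (x : H) : (vs vt x).card ≤ Δ :=
  (card_insert_le _ _).trans (hΔ x)

/-- the potential is bounded below by the minimal value when masses are one -/
lemma Φ2_ge {F : Fin K → ℝ → Fin K → ℝ → ℝ} {A Bf : Finset H} {s : H → ℝ} {d : H → ℕ}
    (hmA : mass A s = 1) (hmB : mass Bf s = 1) {Rm : ℝ}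
    (h : ∀ u ∈ A, ∀ z ∈ Bf, Rm ≤ v2 vt c B M F (c u) (s u) (d u) (c z) (s z) (d z)) :
    Rm ≤ Φ2 vt c B M F A Bf s d := by
  have h1 : Rm = ∑ u ∈ A, ∑ z ∈ Bf, Real.exp (-s u) * Real.exp (-s z) * Rm := by
    simp only [← sum_mul, ← mul_sum]
    unfold mass at hmA hmB
    rw [hmB, mul_one, hmA, one_mul]
  rw [h1]
  unfold Φ2
  refine sum_le_sum fun u hu => sum_le_sum fun z hz => ?_
  exact mul_le_mul_of_nonneg_left (h u hu z hz) (by positivity)

/-- end of both phase 1 explorations -/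
lemma phase1_end {h d₁ d₂ : ℕ} {Rm δ : ℝ}
    (hRm : ∀ k k' s s', h * Real.log 2 ≤ s → s ≤ h * Real.log P.Δ → h * Real.log 2 ≤ s' →
      s' ≤ (h + 1) * Real.log P.Δ →
      Rm ≤ v2 vt c B M (Frew B M P.Nn P.smax P.lth) k s (d₁ - h) k' s' (d₂ - h))
    (hwm : Real.exp (-(h * Real.log 2)) ≤ P.wm) (hd1 : d₁ ≤ P.dm) (hd2 : d₂ ≤ P.dm)
    {S R A Bf : Finset H} {s : H → ℝ} {d : H → ℕ} {C : Finset (Equiv.Perm H)}
    (hC : IsCyl c B S C) (hV : Val vt S R A Bf) (hmA : mass A s = 1) (hmB : mass Bf s = 1)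
    (hA : ∀ u ∈ A, d u = d₁ - h ∧ h * Real.log 2 ≤ s u ∧ s u ≤ h * Real.log P.Δ)
    (hB : ∀ u ∈ Bf, d u = d₂ - h ∧ h * Real.log 2 ≤ s u ∧ s u ≤ (h + 1) * Real.log P.Δ)
    (hS : S.card + 6 * P.n ≤ P.nT) (hR : R.card + 2 * (P.Δ * P.n) ≤ P.rT) :
    ((C.filter (fun η => P.Nn * J2 vt A Bf s d η ≤ Rm - δ)).card : ℝ)
      ≤ C.card * Real.exp (-(P.lam * δ) + P.c4 + 2 * (P.c3 * P.dm)) := by
  refine (stage1 P hC hV hmA.le hmB.le
    (fun u hu => le_trans (Real.exp_le_exp.2 (by linarith [(hA u hu).2.1])) hwm)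
    (fun u hu => le_trans (Real.exp_le_exp.2 (by linarith [(hB u hu).2.1])) hwm)
    (fun u hu => by have := (hA u hu).1; omega)
    (fun u hu => by have := (hB u hu).1; omega) hS hR (Rm - δ)).trans ?_
  apply mul_le_mul_of_nonneg_left _ (by positivity)
  apply Real.exp_le_exp.2
  have h1 : Rm ≤ Φ2 vt c B M (Frew B M P.Nn P.smax P.lth) A Bf s d := by
    refine Φ2_ge hmA hmB fun u hu z hz => ?_
    obtain ⟨a1, a2, a3⟩ := hA u hu
    obtain ⟨b1, b2, b3⟩ := hB z hz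
    rw [a1, b1]
    exact hRm _ _ _ _ a2 a3 b2 b3
  have := mul_le_mul_of_nonneg_left h1 P.hlam
  linarith

lemma Plog2 : (0:ℝ) < Real.log 2 := Real.log_pos (by norm_num)

/-- second side of phase 1 -/
lemma phase1_B {h d₁ d₂ r₁ : ℕ} {Rm δ : ℝ} (hr₁ : r₁ + 2 * (P.Δ * P.n) ≤ P.rT)
    (hRm : ∀ k k' s s', h * Real.log 2 ≤ s → s ≤ h * Real.log P.Δ → h * Real.log 2 ≤ s' →
      s' ≤ (h + 1) * Real.log P.Δ →
      Rm ≤ v2 vt c B M (Frew B M P.Nn P.smax P.lth) k s (d₁ - h) k' s' (d₂ - h))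
    (hwm : Real.exp (-(h * Real.log 2)) ≤ P.wm) (hd1 : d₁ ≤ P.dm) (hd2 : d₂ ≤ P.dm)
    (hh2 : h ≤ d₂)
    {S R A Bf : Finset H} {s : H → ℝ} {d : H → ℕ} {C : Finset (Equiv.Perm H)}
    (hC : IsCyl c B S C) (hV : Val vt S R A Bf) (hmA : mass A s = 1) (hmB : mass Bf s = 1)
    (hA : ∀ u ∈ A, d u = d₁ - h ∧ h * Real.log 2 ≤ s u ∧ s u ≤ h * Real.log P.Δ)
    (hB : ∀ u ∈ Bf, d u = d₂ ∧ 0 ≤ s u ∧ s u ≤ Real.log P.Δ)
    (hBc : Bf.card ≤ P.Δ)
    (hS : S.card + 2 * (P.Δ * tau P.Δ h) + 6 * P.n ≤ P.nT)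
    (hR : R.card + P.Δ * (P.Δ * tau P.Δ h) ≤ r₁) :
    ((C.filter (fun η => P.Nn * J2 vt A Bf s d η ≤ Rm - δ)).card : ℝ)
      ≤ C.card * (Real.exp (-(P.lam * δ) + P.c4 + 2 * (P.c3 * P.dm))
        + (P.Δ * tau P.Δ h : ℕ) * (2 * P.Q * r₁)) := by
  have key := phase1 P.G P.hM P.h2 P.hΔ (ε := P.ε) (Q := P.Q)
    (β := Real.exp (-(P.lam * δ) + P.c4 + 2 * (P.c3 * P.dm))) (r := Rm - δ) (mB := 1)
    (nE := P.nT - 6 * P.n) (rE := r₁) (e := d₂ - h)
    (fun S hS => P.hSmall S (by omega)) P.hQ P.hQ0 (Real.exp_pos _).le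
    (fun s d => d₂ - h ≤ d ∧ d ≤ d₂ ∧ ((d₂ - d : ℕ) : ℝ) * Real.log 2 ≤ s ∧
      s ≤ ((d₂ - d : ℕ) + 1 : ℝ) * Real.log P.Δ)
    (fun s d => d = d₁ - h ∧ h * Real.log 2 ≤ s ∧ s ≤ h * Real.log P.Δ)
    (by
      rintro s d D he hD2 hDΔ ⟨g1, g2, g3, g4⟩
      have e1 : d₂ - d = (d₂ - (d + 1)) + 1 := by omega
      have l1 : Real.log 2 ≤ Real.log D := Real.log_le_log (by norm_num) (by exact_mod_cast hD2)
      have l2 : Real.log D ≤ Real.log P.Δ :=
        Real.log_le_log (by have : 0 < D := by omega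
                            exact_mod_cast this) (by exact_mod_cast hDΔ)
      refine ⟨he, by omega, ?_, ?_⟩
      · rw [e1]; push_cast; linarith
      · rw [e1]; push_cast; linarith)
    (by
      intro S' R' A' B' s' d' C' hC' hV' hmA' hmB' hA' hB' hS' hR' hi'
      have := phase1_end P (δ := δ) hRm hwm hd1 hd2 hC' hV'.symm hmB' hmA' hB'
        (by
          intro u hu
          obtain ⟨g1, g2, g3, g4⟩ := hA' u hu
          have g5 := hi' u hu
          have g6 : d' u = d₂ - h := by omega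
          have g7 : d₂ - d' u = h := by omega
          rw [g7] at g3 g4
          exact ⟨g6, g3, g4⟩) (by omega) (by omega)
      have e1 : C'.filter (fun η => P.G.J A' B' s' d' η ≤ Rm - δ)
          = C'.filter (fun η => P.Nn * J2 vt B' A' s' d' η ≤ Rm - δ) := by
        apply filter_congr
        intro η hη
        rw [← J2_symm (Om.invol (hC'.subset hη))]
        rfl
      rw [e1]
      exact this)
    (P.Δ * tau P.Δ h) S R Bf A s d C hC hV.symm hmB hmA
    (by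
      intro u hu
      obtain ⟨g1, g2, g3⟩ := hB u hu
      rw [g1]
      refine ⟨by omega, le_rfl, ?_, ?_⟩
      · simp; exact g2
      · simp; exact g3)
    hA
    (by
      calc ∑ u ∈ Bf, tau P.Δ (d u - (d₂ - h)) = ∑ _u ∈ Bf, tau P.Δ h := by
            refine sum_congr rfl fun u hu => ?_
            rw [(hB u hu).1]
            congr 1; omega
        _ = Bf.card * tau P.Δ h := by rw [sum_const, smul_eq_mul]
        _ ≤ _ := Nat.mul_le_mul_right _ hBc)
    (by omega) (by omega)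
  have e1 : C.filter (fun η => P.Nn * J2 vt A Bf s d η ≤ Rm - δ)
      = C.filter (fun η => P.G.J Bf A s d η ≤ Rm - δ) := by
    apply filter_congr
    intro η hη
    rw [J2_symm (Om.invol (hC.subset hη))]
    rfl
  rw [e1]
  exact key

theorem pair_bound {h d₁ d₂ r₁ : ℕ} {Rm δ : ℝ} (hr₁ : r₁ + 2 * (P.Δ * P.n) ≤ P.rT)
    (hRm : ∀ k k' s s', h * Real.log 2 ≤ s → s ≤ h * Real.log P.Δ → h * Real.log 2 ≤ s' →
      s' ≤ (h + 1) * Real.log P.Δ →
      Rm ≤ v2 vt c B M (Frew B M P.Nn P.smax P.lth) k s (d₁ - h) k' s' (d₂ - h))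
    (hwm : Real.exp (-(h * Real.log 2)) ≤ P.wm) (hd1 : d₁ ≤ P.dm) (hd2 : d₂ ≤ P.dm)
    (hh1 : h ≤ d₁) (hh2 : h ≤ d₂) (hOm : (Om c B).Nonempty)
    (hS : 2 * tau P.Δ h + 2 * (P.Δ * tau P.Δ h) + 6 * P.n ≤ P.nT)
    (hR : 2 * P.Δ + P.Δ * tau P.Δ h + P.Δ * (P.Δ * tau P.Δ h) ≤ r₁)
    {x y : H} (hxy : vt x ≠ vt y) :
    (((Om c B).filter (fun η => P.Nn * (PM vt η ^ (d₁ + d₂ + 1)) x y ≤ Rm - δ)).card : ℝ)
      ≤ (Om c B).card * (Real.exp (-(P.lam * δ) + P.c4 + 2 * (P.c3 * P.dm))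
        + ((tau P.Δ h : ℝ) + P.Δ * tau P.Δ h) * (2 * P.Q * r₁)) := by
  have hyx : vt y ≠ vt x := hxy.symm
  set s : H → ℝ := fun z => if z ∈ ch vt y then Real.log (ch vt y).card else 0 with hs
  set d : H → ℕ := fun z => if z ∈ ch vt y then d₂ else d₁ with hd
  have hxch : x ∉ ch vt y := fun h' => hxy (mem_ch.1 h').2
  have hsx : s x = 0 := by simp only [hs, if_neg hxch]
  have hdx : d x = d₁ := by simp only [hd, if_neg hxch]
  have hcy : 0 < (ch vt y).card := by have := P.h2 y; omega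
  have hV : Val vt ∅ (vs vt x ∪ vs vt y) {x} (ch vt y) := by
    refine ⟨by simp, ?_, ?_, by simp, by simp, ?_, ?_⟩
    · intro z hz
      rw [mem_singleton] at hz
      rw [mem_union, mem_vs]; left; rw [hz]
    · intro z hz
      rw [mem_union, mem_vs, mem_vs]; right; exact (mem_ch.1 hz).2
    · rw [disjoint_singleton_left]; exact hxch
    · intro z hz w hw
      rw [mem_union, mem_vs, mem_vs] at hz ⊢
      rcases hz with hz | hz
      · left; exact hw.trans hz
      · right; exact hw.trans hz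
  have hmA : mass {x} s = 1 := by simp [mass, hsx]
  have hmB : mass (ch vt y) s = 1 := by
    unfold mass
    rw [sum_congr rfl (g := fun _ => (((ch vt y).card : ℝ))⁻¹), sum_const, nsmul_eq_mul]
    · have : ((ch vt y).card : ℝ) ≠ 0 := by exact_mod_cast hcy.ne'
      field_simp
    · intro z hz
      simp only [hs, if_pos hz]
      rw [Real.exp_neg, Real.exp_log (by exact_mod_cast hcy)]
  have hΔy : (ch vt y).card ≤ P.Δ := by have := P.hΔ y; omega
  have key := phase1 P.F P.hM P.h2 P.hΔ (ε := P.ε) (Q := P.Q)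
    (β := Real.exp (-(P.lam * δ) + P.c4 + 2 * (P.c3 * P.dm))
      + (P.Δ * tau P.Δ h : ℕ) * (2 * P.Q * r₁)) (r := Rm - δ) (mB := 1)
    (nE := P.nT - (2 * (P.Δ * tau P.Δ h) + 6 * P.n))
    (rE := r₁ - P.Δ * (P.Δ * tau P.Δ h)) (e := d₁ - h)
    (fun S hS => P.hSmall S (by omega)) P.hQ P.hQ0
    (by have := P.hQ0; positivity)
    (fun s d => d₁ - h ≤ d ∧ d ≤ d₁ ∧ ((d₁ - d : ℕ) : ℝ) * Real.log 2 ≤ s ∧
      s ≤ ((d₁ - d : ℕ) : ℝ) * Real.log P.Δ)
    (fun s d => d = d₂ ∧ 0 ≤ s ∧ s ≤ Real.log P.Δ)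
    (by
      rintro s d D he hD2 hDΔ ⟨g1, g2, g3, g4⟩
      have e1 : d₁ - d = (d₁ - (d + 1)) + 1 := by omega
      have l1 : Real.log 2 ≤ Real.log D := Real.log_le_log (by norm_num) (by exact_mod_cast hD2)
      have l2 : Real.log D ≤ Real.log P.Δ :=
        Real.log_le_log (by have : 0 < D := by omega
                            exact_mod_cast this) (by exact_mod_cast hDΔ)
      refine ⟨he, by omega, ?_, ?_⟩
      · rw [e1]; push_cast; linarith
      · rw [e1]; push_cast; linarith)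
    (by
      intro S' R' A' B' s' d' C' hC' hV' hmA' hmB' hA' hB' hS' hR' hi'
      by_cases hBc : B'.card ≤ P.Δ
      · refine phase1_B P (δ := δ) hr₁ hRm hwm hd1 hd2 hh2 hC' hV' hmA' hmB' ?_ hB' hBc
          (by omega) (by omega)
        intro u hu
        obtain ⟨g1, g2, g3, g4⟩ := hA' u hu
        have g5 := hi' u hu
        have g6 : d' u = d₁ - h := by omega
        have g7 : d₁ - d' u = h := by omega
        rw [g7] at g3 g4
        exact ⟨g6, g3, g4⟩
      · -- impossible: mass one and each weight at least 1/Δ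
        exfalso
        push Not at hBc
        have hΔpos : (0:ℝ) < P.Δ := by
          have := P.hΔ y; have h0 : 0 < P.Δ := by omega
          exact_mod_cast h0
        have h1 : (B'.card : ℝ) * (P.Δ : ℝ)⁻¹ ≤ mass B' s' := by
          unfold mass
          rw [← nsmul_eq_mul, ← sum_const]
          refine sum_le_sum fun z hz => ?_
          have e0 : (P.Δ : ℝ)⁻¹ = Real.exp (-Real.log P.Δ) := by
            rw [Real.exp_neg, Real.exp_log hΔpos]
          rw [e0]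
          exact Real.exp_le_exp.2 (by linarith [(hB' z hz).2.2])
        rw [hmB', ← div_eq_mul_inv, div_le_one hΔpos] at h1
        have : B'.card ≤ P.Δ := by exact_mod_cast h1
        omega)
    (tau P.Δ h) ∅ (vs vt x ∪ vs vt y) {x} (ch vt y) s d (Om c B) (isCyl_empty hOm) hV hmA hmB
    (by
      intro u hu
      rw [mem_singleton] at hu
      rw [hu, hsx, hdx]
      simp)
    (by
      intro u hu
      have e1 : s u = Real.log (ch vt y).card := by simp only [hs, if_pos hu]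
      have e2 : d u = d₂ := by simp only [hd, if_pos hu]
      rw [e1, e2]
      refine ⟨rfl, Real.log_natCast_nonneg _, ?_⟩
      exact Real.log_le_log (by exact_mod_cast hcy) (by exact_mod_cast hΔy))
    (by
      rw [sum_singleton, hdx]
      have : d₁ - (d₁ - h) = h := by omega
      rw [this])
    (by simp only [card_empty]; omega)
    (by
      have h1 := card_union_le (vs vt x) (vs vt y)
      have h3 := card_vs_le P.hΔ x
      have h4 := card_vs_le P.hΔ y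
      omega)
  have e1 : ∀ η ∈ Om c B, P.F.J {x} (ch vt y) s d η = P.Nn * (PM vt η ^ (d₁ + d₂ + 1)) x y := by
    intro η hη
    show P.Nn * J2 vt {x} (ch vt y) s d η = _
    congr 1
    unfold J2
    rw [sum_singleton, pow_succ, Matrix.mul_apply, ← Equiv.sum_comp η]
    have h3 : ∀ z, PM vt η (η z) y = if z ∈ ch vt y then ((ch vt y).card : ℝ)⁻¹ else 0 := by
      intro z
      rw [PM_rev (Om.invol hη), Om.invol hη]
      unfold PM
      rw [Om.invol hη]
    simp only [h3, mul_ite, mul_zero]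
    rw [← sum_filter]
    have h5 : univ.filter (fun z => z ∈ ch vt y) = ch vt y := by ext; simp
    rw [h5]
    refine sum_congr rfl fun z hz => ?_
    have e3 : s z = Real.log (ch vt y).card := by simp only [hs, if_pos hz]
    have e4 : d z = d₂ := by simp only [hd, if_pos hz]
    rw [hsx, hdx, e3, e4, neg_zero, Real.exp_zero, one_mul, Real.exp_neg,
      Real.exp_log (by exact_mod_cast hcy)]
    ring
  have e2 : (Om c B).filter (fun η => P.Nn * (PM vt η ^ (d₁ + d₂ + 1)) x y ≤ Rm - δ)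
      = (Om c B).filter (fun η => P.F.J {x} (ch vt y) s d η ≤ Rm - δ) := by
    apply filter_congr
    intro η hη
    rw [e1 η hη]
  rw [e2]
  refine key.trans ?_
  apply mul_le_mul_of_nonneg_left _ (by positivity)
  have h1 : ((r₁ - P.Δ * (P.Δ * tau P.Δ h) : ℕ) : ℝ) ≤ r₁ := by
    exact_mod_cast Nat.sub_le _ _
  have h3 : 2 * P.Q * ((r₁ - P.Δ * (P.Δ * tau P.Δ h) : ℕ) : ℝ) ≤ 2 * P.Q * r₁ :=
    mul_le_mul_of_nonneg_left h1 (by have := P.hQ0; positivity)
  have h4 := mul_le_mul_of_nonneg_left h3 (show (0:ℝ) ≤ ((tau P.Δ h : ℕ) : ℝ) by positivity)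
  push_cast
  linarith

end Pool.Agent.W_MP_17e8f0_pr
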