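import Pool.Agent.W_MP_17e8f0_pr.Explore

namespace Pool.Agent.W_MP_17e8f0_pr

open Finset

variable {H V : Type*} [Fintype H] [DecidableEq H] [DecidableEq V] {K : ℕ}
variable {vt : H → V} {c : H → Fin K} {B : Fin K → Fin K → ℕ} {M : ℕ} {Kc : ℝ}

/-- size of a `Δ`-ary tree -/
def tau (Δ : ℕ) : ℕ → ℕ
  | 0 => 0
  | k + 1 => 1 + Δ * tau Δ k

theorem phase1 (F : Func vt c B M Kc)
    (hM : ∀ k, (univ.filter (fun x => c x = k)).card = M)
    (h2 : ∀ z : H, 2 ≤ (ch vt z).card) {Δ : ℕ} (hΔ : ∀ z : H, (ch vt z).card + 1 ≤ Δ)
    {ε Q β r mB : ℝ} {nE rE e : ℕ}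
    (hSmall : ∀ S : Finset H, S.card ≤ nE → Small B S ε)
    (hQ : ∀ k l, q B M k l ≤ Q) (hQ0 : 0 ≤ Q) (hβ : 0 ≤ β)
    (QA QB : ℝ → ℕ → Prop)
    (hQA : ∀ (s : ℝ) (d D : ℕ), e ≤ d → 2 ≤ D → D ≤ Δ → QA s (d + 1) → QA (s + Real.log D) d)
    (hT : ∀ (S R A Bf : Finset H) (s : H → ℝ) (d : H → ℕ) (C : Finset (Equiv.Perm H)),
      IsCyl c B S C → Val vt S R A Bf → mass A s = 1 → mass Bf s = mB →
      (∀ u ∈ A, QA (s u) (d u)) → (∀ u ∈ Bf, QB (s u) (d u)) → S.card ≤ nE → R.card ≤ rE →
      (∀ u ∈ A, d u ≤ e) →
      ((C.filter (fun η => F.J A Bf s d η ≤ r)).card : ℝ) ≤ C.card * β) :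
    ∀ (n : ℕ) (S R A Bf : Finset H) (s : H → ℝ) (d : H → ℕ) (C : Finset (Equiv.Perm H)),
      IsCyl c B S C → Val vt S R A Bf → mass A s = 1 → mass Bf s = mB →
      (∀ u ∈ A, QA (s u) (d u)) → (∀ u ∈ Bf, QB (s u) (d u)) →
      (∑ u ∈ A, tau Δ (d u - e)) ≤ n → S.card + 2 * n ≤ nE → R.card + Δ * n ≤ rE →
      ((C.filter (fun η => F.J A Bf s d η ≤ r)).card : ℝ) ≤ C.card * (β + n * (2 * Q * rE)) := by
  intro n
  induction n with
  | zero =>
    intro S R A Bf s d C hC hV hmA hmB hA hB hb hS hR
    refine (hT S R A Bf s d C hC hV hmA hmB hA hB (by omega) (by omega) ?_).trans ?_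
    · intro u hu
      by_contra hd
      push Not at hd
      have h1 : tau Δ (d u - e) ≤ ∑ u ∈ A, tau Δ (d u - e) :=
        single_le_sum (f := fun u => tau Δ (d u - e)) (fun _ _ => Nat.zero_le _) hu
      obtain ⟨k, hk⟩ : ∃ k, d u - e = k + 1 := ⟨d u - e - 1, by omega⟩
      rw [hk, tau] at h1
      omega
    · simp
  | succ n ih =>
    intro S R A Bf s d C hC hV hmA hmB hA hB hb hS hR
    have hRr : R.card ≤ rE := le_trans (Nat.le_add_right _ _) hR
    by_cases hact : ∀ u ∈ A, d u ≤ e
    · refine (hT S R A Bf s d C hC hV hmA hmB hA hB (by omega) hRr hact).trans ?_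
      apply mul_le_mul_of_nonneg_left _ (by positivity)
      have : 0 ≤ ((n + 1 : ℕ) : ℝ) * (2 * Q * rE) := by positivity
      linarith
    push Not at hact
    obtain ⟨u, hu, hde⟩ := hact
    have hd : 1 ≤ d u := by omega
    have huS : u ∉ S := disjoint_left.1 hV.AS hu
    have hβ0 : 0 ≤ (C.card : ℝ) := by positivity
    -- pointwise
    have hpt : ∀ z, (((C.filter (fun η => η u = z)).filter (fun η => F.J A Bf s d η ≤ r)).card : ℝ)
        ≤ (T C u z : ℝ) * (β + n * (2 * Q * rE)) + (if z ∈ R then (T C u z : ℝ) else 0) := by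
      intro z
      by_cases hz : z ∈ R
      · rw [if_pos hz]
        have h1 : (((C.filter (fun η => η u = z)).filter (fun η => F.J A Bf s d η ≤ r)).card : ℝ)
            ≤ T C u z := by exact_mod_cast card_le_card (filter_subset _ _)
        refine h1.trans ?_
        have h3 : (0 : ℝ) ≤ (T C u z : ℝ) * (β + n * (2 * Q * rE)) := by positivity
        linarith
      · rw [if_neg hz, add_zero]
        by_cases hne : (C.filter (fun η => η u = z)).Nonempty
        · obtain ⟨η₁, hη₁⟩ := hne
          have hη₁C := (mem_filter.1 hη₁).1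
          have hη₁z := (mem_filter.1 hη₁).2
          have hC' : IsCyl c B (insert u (insert z S)) (C.filter (fun η => η u = z)) := by
            have := hC.extend hη₁C u
            rwa [hη₁z] at this
          have hchne : (ch vt z).Nonempty := card_pos.1 (by have := h2 z; omega)
          have hsub : (C.filter (fun η => η u = z)).filter (fun η => F.J A Bf s d η ≤ r)
              ⊆ (C.filter (fun η => η u = z)).filter
                (fun η => F.J (A.erase u ∪ ch vt z) Bf (ns vt s u z) (nd vt d u z) η ≤ r) := by
            intro η hη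
            rw [mem_filter] at hη ⊢
            have hηz := (mem_filter.1 hη.1).2
            have := F.J_fresh S R A Bf s d hV η (hC.subset (mem_filter.1 hη.1).1) u hu hd
              (by rw [hηz]; exact hz)
            rw [hηz] at this
            exact ⟨hη.1, this.trans hη.2⟩
          have hih := ih (insert u (insert z S)) (R ∪ insert z (ch vt z)) (A.erase u ∪ ch vt z) Bf
            (ns vt s u z) (nd vt d u z) _ hC' (hV.fresh hu hz)
            (by rw [mass_fresh hV hu hz s hchne]; exact hmA)
            (by
              have : mass Bf (ns vt s u z) = mass Bf s :=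
                sum_congr rfl fun y hy => by rw [(ns_of_mem hV hz (hV.BR hy) s d).1]
              rw [this]; exact hmB)
            (by
              intro v hv
              rw [mem_union] at hv
              by_cases hvc : v ∈ ch vt z
              · obtain ⟨e1, e2⟩ := ns_of_ch (u := u) hvc s d
                rw [e1, e2]
                refine hQA _ _ _ (by omega) (h2 z) (by have := hΔ z; omega) ?_
                rw [Nat.sub_add_cancel hd]; exact hA u hu
              · have hvA : v ∈ A.erase u := by tauto
                obtain ⟨e1, e2⟩ := ns_of_mem (u := u) hV hz (hV.AR (mem_of_mem_erase hvA)) s d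
                rw [e1, e2]; exact hA v (mem_of_mem_erase hvA))
            (by
              intro v hv
              obtain ⟨e1, e2⟩ := ns_of_mem (u := u) hV hz (hV.BR hv) s d
              rw [e1, e2]; exact hB v hv)
            (by
              have hdis : Disjoint (A.erase u) (ch vt z) := by
                rw [disjoint_left]
                intro x hx hx2
                exact hV.ch_notMem hz hx2 (hV.AR (mem_erase.1 hx).2)
              rw [sum_union hdis]
              have s1 : ∑ x ∈ A.erase u, tau Δ (nd vt d u z x - e) = ∑ x ∈ A.erase u, tau Δ (d x - e) := by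
                refine sum_congr rfl fun x hx => ?_
                rw [(ns_of_mem (u := u) hV hz (hV.AR (mem_of_mem_erase hx)) s d).2]
              have s2 : ∑ x ∈ ch vt z, tau Δ (nd vt d u z x - e) = (ch vt z).card * tau Δ (d u - 1 - e) := by
                rw [sum_congr rfl (g := fun _ => tau Δ (d u - 1 - e)), sum_const, smul_eq_mul]
                intro x hx
                rw [(ns_of_ch (u := u) hx s d).2]
              have s3 := sum_erase_add A (fun x => tau Δ (d x - e)) hu
              have s4 : tau Δ (d u - e) = 1 + Δ * tau Δ (d u - 1 - e) := by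
                obtain ⟨k, hk⟩ : ∃ k, d u - e = k + 1 := ⟨d u - e - 1, by omega⟩
                have hk2 : d u - 1 - e = k := by omega
                rw [hk, hk2, tau]
              have s5 : (ch vt z).card * tau Δ (d u - 1 - e) ≤ Δ * tau Δ (d u - 1 - e) :=
                Nat.mul_le_mul_right _ (by have := hΔ z; omega)
              rw [s1, s2]
              omega)
            (by have := card_S_step S u z; omega)
            (by
              have h1 := card_R_fresh hΔ R z
              have h3 : Δ * (n + 1) = Δ * n + Δ := by ring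
              omega)
          calc (((C.filter (fun η => η u = z)).filter (fun η => F.J A Bf s d η ≤ r)).card : ℝ)
              ≤ _ := by exact_mod_cast card_le_card hsub
            _ ≤ _ := hih
        · rw [not_nonempty_iff_eq_empty] at hne
          have : (T C u z : ℝ) = 0 := by unfold T; rw [hne]; simp
          rw [hne, this]; simp
    have hTsum : ∑ z ∈ R, (T C u z : ℝ) ≤ C.card * (2 * Q * rE) := by
      calc ∑ z ∈ R, (T C u z : ℝ) ≤ ∑ _z ∈ R, 2 * Q * C.card := by
            refine sum_le_sum fun z _ => ?_
            refine (T_le hC M hM (hSmall S (by omega)) huS z).trans ?_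
            apply mul_le_mul_of_nonneg_right _ hβ0
            have := (hSmall S (by omega)).2.1
            exact mul_le_mul (by linarith) (hQ _ _) (q_nonneg _ _ _) (by norm_num)
        _ = R.card * (2 * Q * C.card) := by rw [sum_const, nsmul_eq_mul]
        _ ≤ rE * (2 * Q * C.card) := by
            apply mul_le_mul_of_nonneg_right (by exact_mod_cast hRr) (by positivity)
        _ = _ := by ring
    rw [card_filter_split C _ u]
    refine (sum_le_sum fun z _ => hpt z).trans ?_
    rw [sum_add_distrib, ← sum_mul, sum_T, ← sum_filter]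
    have hfR : univ.filter (fun z => z ∈ R) = R := by ext; simp
    rw [hfR]
    push_cast
    nlinarith

end Pool.Agent.W_MP_17e8f0_pr
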