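import Pool.Agent.W_MP_17e8f0_pr.Match

namespace Pool.Agent.W_MP_17e8f0_pr

open Finset

variable {H : Type*} [Fintype H] [DecidableEq H] {K : ℕ}
variable {c : H → Fin K} {B : Fin K → Fin K → ℕ} {S : Finset H} {C : Finset (Equiv.Perm H)}

/-- ideal probability of a pairing between class `k` and a given element of class `l` -/
noncomputable def q (B : Fin K → Fin K → ℕ) (M : ℕ) (k l : Fin K) : ℝ := (B k l : ℝ) / (M : ℝ) ^ 2

lemma q_nonneg (M : ℕ) (k l : Fin K) : 0 ≤ q B M k l := by unfold q; positivity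

/-- smallness of the explored part -/
def Small (B : Fin K → Fin K → ℕ) (S : Finset H) (ε : ℝ) : Prop :=
  0 ≤ ε ∧ ε ≤ 1 ∧ ∀ k l, 4 * ((S.card : ℝ) + 1) ≤ ε * B k l

lemma aS_le (M : ℕ) (hM : ∀ k, (univ.filter (fun x => c x = k)).card = M) (k : Fin K) :
    aS c S k ≤ M := by
  rw [← hM k]
  refine card_le_card ?_
  intro x; simp only [mem_filter, mem_univ, true_and]; tauto

lemma le_aS (M : ℕ) (hM : ∀ k, (univ.filter (fun x => c x = k)).card = M) (k : Fin K) :
    M ≤ aS c S k + S.card := by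
  rw [← hM k]
  have : univ.filter (fun x => c x = k) ⊆ univ.filter (fun x => x ∉ S ∧ c x = k) ∪ S := by
    intro x; simp only [mem_filter, mem_univ, true_and, mem_union]; tauto
  exact (card_le_card this).trans (card_union_le _ _)

lemma B_le (hC : IsCyl c B S C) (M : ℕ) (hM : ∀ k, (univ.filter (fun x => c x = k)).card = M)
    (k l : Fin K) : B k l ≤ M := by
  obtain ⟨η, hη⟩ := hC.nonempty
  rw [← Om.count (hC.subset hη) k l, ← hM k]
  refine card_le_card ?_
  intro x; simp only [mem_filter, mem_univ, true_and]; tauto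

theorem T_le (hC : IsCyl c B S C) (M : ℕ) (hM : ∀ k, (univ.filter (fun x => c x = k)).card = M)
    {ε : ℝ} (hs : Small B S ε) {u : H} (hu : u ∉ S) (z : H) :
    (T C u z : ℝ) ≤ (1 + ε) * q B M (c u) (c z) * C.card := by
  have hq := q_nonneg (B := B) M (c u) (c z)
  obtain ⟨h0, h1, hs⟩ := hs
  by_cases hz : z ∈ S
  · rw [T_mem hC hu hz]; push_cast; positivity
  by_cases hzu : z = u
  · rw [hzu, T_self hC]; push_cast; rw [hzu] at hq; positivity
  obtain ⟨η, hη⟩ := hC.nonempty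
  have hf := T_formula hC hη hu hz hzu
  have hb : (bS c S η (c u) (c z) : ℝ) ≤ B (c u) (c z) := by exact_mod_cast bS_le hC hη _ _
  have hBM : (B (c u) (c z) : ℝ) ≤ M := by exact_mod_cast B_le hC M hM _ _
  have h4 := hs (c u) (c z)
  have ha1 : (M : ℝ) ≤ aS c S (c u) + S.card := by exact_mod_cast le_aS M hM (c u)
  have ha2 : (M : ℝ) ≤ aS c S (c z) + S.card := by exact_mod_cast le_aS M hM (c z)
  have hSc : (0 : ℝ) ≤ S.card := by positivity
  have hsM : (S.card : ℝ) + 1 ≤ ε / 4 * M := by nlinarith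
  have hMpos : (0 : ℝ) < M := by
    by_contra hneg
    have hM0 : (M : ℝ) = 0 := le_antisymm (not_lt.1 hneg) (by positivity)
    rw [hM0] at hsM; linarith
  have e1 : (M : ℝ) * (1 - ε / 4) ≤ aS c S (c u) := by nlinarith
  have hind : (if c u = c z then (1 : ℝ) else 0) ≤ 1 := by split_ifs <;> norm_num
  have e2 : (M : ℝ) * (1 - ε / 4) ≤ aS c S (c z) - (if c u = c z then 1 else 0) := by nlinarith
  have e0 : 0 ≤ (M : ℝ) * (1 - ε / 4) := by nlinarith
  have e3 : ((M : ℝ) * (1 - ε / 4)) * ((M : ℝ) * (1 - ε / 4))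
      ≤ aS c S (c u) * (aS c S (c z) - (if c u = c z then 1 else 0)) :=
    mul_le_mul e1 e2 e0 (e0.trans e1)
  have hT : (0 : ℝ) ≤ T C u z := by positivity
  have e4 : (T C u z : ℝ) * (((M : ℝ) * (1 - ε / 4)) * ((M : ℝ) * (1 - ε / 4)))
      ≤ B (c u) (c z) * C.card := by
    calc _ ≤ (T C u z : ℝ) * (aS c S (c u) * (aS c S (c z) - (if c u = c z then 1 else 0))) :=
          mul_le_mul_of_nonneg_left e3 hT
      _ = bS c S η (c u) (c z) * C.card := hf
      _ ≤ _ := mul_le_mul_of_nonneg_right hb (by positivity)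
  have e5 : 1 ≤ (1 + ε) * (1 - ε / 4) ^ 2 := by nlinarith [mul_nonneg h0 (sub_nonneg.2 h1), mul_nonneg (mul_nonneg h0 h0) (sub_nonneg.2 h1)]
  unfold q
  rw [mul_div_assoc', div_mul_eq_mul_div, le_div_iff₀ (by positivity)]
  have e6 : (T C u z : ℝ) * (M : ℝ) ^ 2 ≤ (T C u z : ℝ) * (M : ℝ) ^ 2 * ((1 + ε) * (1 - ε / 4) ^ 2) := by
    nlinarith [mul_nonneg hT (sq_nonneg (M : ℝ))]
  calc (T C u z : ℝ) * (M : ℝ) ^ 2 ≤ _ := e6
    _ = (1 + ε) * ((T C u z : ℝ) * (((M : ℝ) * (1 - ε / 4)) * ((M : ℝ) * (1 - ε / 4)))) := by ring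
    _ ≤ (1 + ε) * (B (c u) (c z) * C.card) := mul_le_mul_of_nonneg_left e4 (by linarith)
    _ = _ := by ring

theorem le_T (hC : IsCyl c B S C) (M : ℕ) (hM : ∀ k, (univ.filter (fun x => c x = k)).card = M)
    {ε : ℝ} (hs : Small B S ε) {u z : H} (hu : u ∉ S) (hz : z ∉ S) (hzu : z ≠ u) :
    (1 - ε) * q B M (c u) (c z) * C.card ≤ T C u z := by
  obtain ⟨h0, h1, hs⟩ := hs
  obtain ⟨η, hη⟩ := hC.nonempty
  have hf := T_formula hC hη hu hz hzu
  have hb : (B (c u) (c z) : ℝ) ≤ bS c S η (c u) (c z) + S.card := by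
    exact_mod_cast le_bS hC hη _ _
  have hBM : (B (c u) (c z) : ℝ) ≤ M := by exact_mod_cast B_le hC M hM _ _
  have h4 := hs (c u) (c z)
  have hSc : (0 : ℝ) ≤ S.card := by positivity
  have hsM : (S.card : ℝ) + 1 ≤ ε / 4 * M := by nlinarith
  have hMpos : (0 : ℝ) < M := by
    by_contra hneg
    have hM0 : (M : ℝ) = 0 := le_antisymm (not_lt.1 hneg) (by positivity)
    rw [hM0] at hsM; linarith
  have ha1 : (aS c S (c u) : ℝ) ≤ M := by exact_mod_cast aS_le M hM (c u)
  have ha2 : (aS c S (c z) : ℝ) ≤ M := by exact_mod_cast aS_le M hM (c z)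
  have hind : (0 : ℝ) ≤ (if c u = c z then (1 : ℝ) else 0) := by split_ifs <;> norm_num
  have hind1 : (if c u = c z then (1 : ℝ) else 0) ≤ 1 := by split_ifs <;> norm_num
  have hz1 : (1 : ℝ) ≤ aS c S (c z) := by
    have : 1 ≤ aS c S (c z) := card_pos.2 ⟨z, by simp [hz]⟩
    exact_mod_cast this
  have e3 : aS c S (c u) * (aS c S (c z) - (if c u = c z then (1 : ℝ) else 0)) ≤ (M : ℝ) * M :=
    mul_le_mul ha1 (by linarith) (by linarith) (by positivity)
  have hT : (0 : ℝ) ≤ T C u z := by positivity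
  have hCc : (0 : ℝ) ≤ C.card := by positivity
  have e4 : ((1 - ε) * B (c u) (c z)) * C.card ≤ T C u z * ((M : ℝ) * M) := by
    calc _ ≤ (bS c S η (c u) (c z) : ℝ) * C.card :=
          mul_le_mul_of_nonneg_right (by nlinarith) hCc
      _ = _ := hf.symm
      _ ≤ _ := mul_le_mul_of_nonneg_left e3 hT
  unfold q
  rw [mul_div_assoc', div_mul_eq_mul_div, div_le_iff₀ (by positivity)]
  calc _ ≤ _ := e4
    _ = _ := by ring

lemma sum_T (C : Finset (Equiv.Perm H)) (u : H) : ∑ z, (T C u z : ℝ) = C.card := by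
  unfold T
  rw [card_eq_sum_card_fiberwise (f := fun η : Equiv.Perm H => η u) (t := univ) (s := C)]
  · push_cast; rfl
  · intro _ _; simp

lemma card_filter_split (C : Finset (Equiv.Perm H)) (P : Equiv.Perm H → Prop) [DecidablePred P]
    (u : H) :
    ((C.filter P).card : ℝ) = ∑ z, (((C.filter (fun η => η u = z)).filter P).card : ℝ) := by
  rw [card_eq_sum_card_fiberwise (f := fun η : Equiv.Perm H => η u) (t := univ) (s := C.filter P)]
  · push_cast
    refine sum_congr rfl fun z _ => ?_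
    rw [filter_filter, filter_filter]
    congr 2
    ext η; simp only [mem_filter]; tauto
  · intro _ _; simp

end Pool.Agent.W_MP_17e8f0_pr
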