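import Pool.Agent.W_MP_17e8f0_pr.LowerGen

namespace Pool.Agent.W_MP_17e8f0_pr

open Finset

variable {H V : Type*} [Fintype H] [DecidableEq H] [DecidableEq V] {K : ℕ}

/-- an instance at scale `y` -/
structure Inst (Δ : ℕ) (σ0 : ℝ) (vt : H → V) (c : H → Fin K) (B : Fin K → Fin K → ℕ)
    (M : ℕ) (α y : ℝ) : Prop where
  ann : Ann c B M α
  hcv : ∀ x y, vt x = vt y → c x = c y
  h2 : ∀ z : H, 2 ≤ (ch vt z).card
  hΔ : ∀ z : H, (ch vt z).card + 1 ≤ Δ
  hOm : (Om c B).Nonempty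
  hNe : (K * M : ℝ) = Real.exp (y ^ 8)
  hσ0 : 0 < σ0
  hσ : σ0 ^ 2 ≤ sig2 vt c M

/-- the window -/
noncomputable def wN (vt : H → V) (c : H → Fin K) (B : Fin K → Fin K → ℕ)
    (M : ℕ) (α y : ℝ) : ℝ := Real.sqrt (nu2 vt c B M α / mu vt c M ^ 3 * y ^ 8)

variable {vt : H → V} {c : H → Fin K} {B : Fin K → Fin K → ℕ} {M : ℕ} {α y σ0 : ℝ} {Δ : ℕ}

lemma Inst.X_lo (hI : Inst Δ σ0 vt c B M α y) (z : H) : Real.log 2 ≤ X vt z := by
  unfold X
  exact Real.log_le_log (by norm_num) (by exact_mod_cast hI.h2 z)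

lemma Inst.X_hi (hI : Inst Δ σ0 vt c B M α y) (z : H) : X vt z ≤ Real.log Δ := by
  unfold X
  have h1 := hI.h2 z
  have h2 := hI.hΔ z
  refine Real.log_le_log (by exact_mod_cast (by omega)) (by exact_mod_cast (by omega))

lemma Inst.muk_lo (hI : Inst Δ σ0 vt c B M α y) (k : Fin K) : Real.log 2 ≤ muk vt c M k := by
  have hM : (0:ℝ) < M := by exact_mod_cast hI.ann.hM0
  unfold muk
  rw [le_div_iff₀ hM]
  calc Real.log 2 * M = ∑ _z ∈ univ.filter (fun z => c z = k), Real.log 2 := by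
        rw [sum_const, hI.ann.hM, nsmul_eq_mul]; ring
    _ ≤ _ := sum_le_sum fun z _ => hI.X_lo z

lemma Inst.muk_hi (hI : Inst Δ σ0 vt c B M α y) (k : Fin K) : muk vt c M k ≤ Real.log Δ := by
  have hM : (0:ℝ) < M := by exact_mod_cast hI.ann.hM0
  unfold muk
  rw [div_le_iff₀ hM]
  calc _ ≤ ∑ _z ∈ univ.filter (fun z => c z = k), Real.log Δ := sum_le_sum fun z _ => hI.X_hi z
    _ = Real.log Δ * M := by rw [sum_const, hI.ann.hM, nsmul_eq_mul]; ring

lemma Inst.mu_lo (hI : Inst Δ σ0 vt c B M α y) : Real.log 2 ≤ mu vt c M := by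
  have hK : (0:ℝ) < K := by exact_mod_cast hI.ann.hK
  unfold mu
  rw [le_div_iff₀ hK]
  calc Real.log 2 * K = ∑ _k : Fin K, Real.log 2 := by
        rw [sum_const, card_univ, Fintype.card_fin, nsmul_eq_mul]; ring
    _ ≤ _ := sum_le_sum fun k _ => hI.muk_lo k

lemma Inst.mu_hi (hI : Inst Δ σ0 vt c B M α y) : mu vt c M ≤ Real.log Δ := by
  have hK : (0:ℝ) < K := by exact_mod_cast hI.ann.hK
  unfold mu
  rw [div_le_iff₀ hK]
  calc _ ≤ ∑ _k : Fin K, Real.log Δ := sum_le_sum fun k _ => hI.muk_hi k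
    _ = Real.log Δ * K := by rw [sum_const, card_univ, Fintype.card_fin, nsmul_eq_mul]; ring

lemma log2_pos : (0:ℝ) < Real.log 2 := Real.log_pos (by norm_num)

lemma half_lt_log2 : (1:ℝ) / 2 < Real.log 2 := by
  have := Real.log_two_gt_d9; linarith

lemma Inst.mu_pos (hI : Inst Δ σ0 vt c B M α y) : 0 < mu vt c M := log2_pos.trans_le hI.mu_lo

lemma Inst.nu_lo (hI : Inst Δ σ0 vt c B M α y) : σ0 ^ 2 ≤ nu2 vt c B M α :=
  hI.hσ.trans hI.ann.sig2_le

lemma Inst.nu_pos (hI : Inst Δ σ0 vt c B M α y) : 0 < nu2 vt c B M α :=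
  lt_of_lt_of_le (by have := hI.hσ0; positivity) hI.nu_lo

lemma Inst.ell_pos (hI : Inst Δ σ0 vt c B M α y) : 0 < Real.log Δ :=
  hI.mu_pos.trans_le hI.mu_hi

lemma Inst.nu_hi (hI : Inst Δ σ0 vt c B M α y) :
    α * nu2 vt c B M α ≤ 3 * Real.log Δ ^ 2 := by
  have hK : (0:ℝ) < K := by exact_mod_cast hI.ann.hK
  have hM : (0:ℝ) < M := by exact_mod_cast hI.ann.hM0
  have hα0 := hI.ann.hα0
  have hα1 := hI.ann.hα1
  have h1 := hI.ann.K_nu2 (vt := vt)
  have hsq : ∀ a b : ℝ, 0 ≤ a → a ≤ Real.log Δ → 0 ≤ b → b ≤ Real.log Δ →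
      (a - b) ^ 2 ≤ Real.log Δ ^ 2 := by
    intro a b ha0 ha1 hb0 hb1
    apply sq_le_sq' <;> linarith
  have h2 : ∑ l, sl vt c M l ≤ K * Real.log Δ ^ 2 := by
    calc ∑ l, sl vt c M l ≤ ∑ _l : Fin K, Real.log Δ ^ 2 := by
          refine sum_le_sum fun l _ => ?_
          unfold sl
          rw [div_le_iff₀ hM]
          calc _ ≤ ∑ _z ∈ univ.filter (fun z => c z = l), Real.log Δ ^ 2 := by
                refine sum_le_sum fun z _ => ?_
                exact hsq _ _ (log2_pos.le.trans (hI.X_lo z)) (hI.X_hi z)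
                  (log2_pos.le.trans (hI.muk_lo _)) (hI.muk_hi _)
            _ = _ := by rw [sum_const, hI.ann.hM, nsmul_eq_mul]; ring
      _ = _ := by rw [sum_const, card_univ, Fintype.card_fin, nsmul_eq_mul]
  have h3 : α ^ 2 * ∑ l, gk vt c M α l ^ 2 ≤ K * Real.log Δ ^ 2 := by
    rw [mul_sum]
    calc _ ≤ ∑ _l : Fin K, Real.log Δ ^ 2 := by
          refine sum_le_sum fun l _ => ?_
          have : α ^ 2 * gk vt c M α l ^ 2 = (muk vt c M l - mu vt c M) ^ 2 := by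
            unfold gk; field_simp
          rw [this]
          exact hsq _ _ (log2_pos.le.trans (hI.muk_lo _)) (hI.muk_hi _)
            hI.mu_pos.le hI.mu_hi
      _ = _ := by rw [sum_const, card_univ, Fintype.card_fin, nsmul_eq_mul]
  have h4 : K * (α * nu2 vt c B M α) ≤ K * (3 * Real.log Δ ^ 2) := by
    have e1 : K * (α * nu2 vt c B M α) = α * ∑ l, sl vt c M l
        + (2 - α) * (α ^ 2 * ∑ l, gk vt c M α l ^ 2) := by
      linear_combination α * h1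
    have e2 : 0 ≤ ∑ l, sl vt c M l := sum_nonneg fun l _ => Ann.sl_nonneg l
    have e3 : 0 ≤ α ^ 2 * ∑ l, gk vt c M α l ^ 2 :=
      mul_nonneg (by positivity) (sum_nonneg fun _ _ => sq_nonneg _)
    have e4 : α * ∑ l, sl vt c M l ≤ K * Real.log Δ ^ 2 := by nlinarith
    have e5 : (2 - α) * (α ^ 2 * ∑ l, gk vt c M α l ^ 2) ≤ 2 * (K * Real.log Δ ^ 2) := by nlinarith
    rw [e1]; linarith
  exact le_of_mul_le_mul_left h4 hK

lemma Inst.w_sq (hI : Inst Δ σ0 vt c B M α y) :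
    wN vt c B M α y ^ 2 * mu vt c M ^ 3 = nu2 vt c B M α * y ^ 8 := by
  have h1 := hI.mu_pos
  have h2 := hI.nu_pos
  unfold wN
  rw [Real.sq_sqrt (by positivity)]
  field_simp

lemma wN_nonneg : 0 ≤ wN vt c B M α y := Real.sqrt_nonneg _

/-- regularity at level `e` -/
structure Reg (Δ : ℕ) (vt : H → V) (c : H → Fin K) (B : Fin K → Fin K → ℕ)
    (M : ℕ) (α y e : ℝ) : Prop where
  y1 : 1 ≤ y
  hO : (hN Δ y + gN y + 10) * (1 + Real.log Δ) + y ≤ e * wN vt c B M α y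
  hw : wN vt c B M α y ≤ e * y ^ 8
  hα : 1 ≤ e * (α * y ^ 8)

lemma exists_reg (K : ℕ) (Δ : ℕ) (σ0 : ℝ) (hσ0 : 0 < σ0) {e : ℝ} (he : 0 < e) : ∃ y₀ : ℝ,
    ∀ {H V : Type*} [Fintype H] [DecidableEq H] [DecidableEq V] {vt : H → V} {c : H → Fin K}
      {B : Fin K → Fin K → ℕ} {M : ℕ} {α y : ℝ},
      Inst Δ σ0 vt c B M α y → y₀ ≤ y → y₀ ≤ α * y ^ 8 → Reg Δ vt c B M α y e := by
  set l := Real.log Δ with hl
  set κ : ℝ := Real.sqrt (σ0 ^ 2 / l ^ 3) with hκ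
  set A : ℝ := (2 * AN Δ + 12) * (1 + l) + 1 with hA
  set C2 : ℝ := 3 * l ^ 2 / Real.log 2 ^ 3 with hC2
  refine ⟨max (max 1 (A / (e * κ))) (max (1 / e) (C2 / e ^ 2)), ?_⟩
  intro H V _ _ _ vt c B M α y hI hy hα
  have hy1 : 1 ≤ y := (le_max_left _ _).trans ((le_max_left _ _).trans hy)
  have hy2 : A / (e * κ) ≤ y := (le_max_right _ _).trans ((le_max_left _ _).trans hy)
  have hα1 : 1 / e ≤ α * y ^ 8 := (le_max_left _ _).trans ((le_max_right _ _).trans hα)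
  have hα2 : C2 / e ^ 2 ≤ α * y ^ 8 := (le_max_right _ _).trans ((le_max_right _ _).trans hα)
  have hl0 : 0 < l := hI.ell_pos
  have hκ0 : 0 < κ := Real.sqrt_pos.2 (by positivity)
  have hμ0 := hI.mu_pos
  have hμ1 := hI.mu_hi
  have hν := hI.nu_lo
  have hw0 : 0 ≤ wN vt c B M α y := wN_nonneg
  have hα0 := hI.ann.hα0
  have h8 : 0 < y ^ 8 := by positivity
  have hwlow : κ * y ^ 4 ≤ wN vt c B M α y := by
    apply Real.le_sqrt_of_sq_le
    have e1 : (κ * y ^ 4) ^ 2 = σ0 ^ 2 / l ^ 3 * y ^ 8 := by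
      rw [mul_pow, hκ, Real.sq_sqrt (by positivity)]; ring
    rw [e1]
    apply mul_le_mul_of_nonneg_right _ h8.le
    exact div_le_div₀ hI.nu_pos.le hν (by positivity) (pow_le_pow_left₀ hμ0.le hμ1 3)
  refine ⟨hy1, ?_, ?_, ?_⟩
  · have e1 : (hN Δ y + gN y + 10) * (1 + l) + y ≤ A * y := by
      have f1 := gN_le (show 0 ≤ y by linarith)
      have f2 : (hN Δ y : ℝ) = AN Δ * gN y := by simp [hN]
      have f3 : (hN Δ y : ℝ) ≤ 2 * AN Δ * y := by
        rw [f2]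
        calc (AN Δ : ℝ) * gN y ≤ AN Δ * (2 * y) :=
              mul_le_mul_of_nonneg_left (by linarith) (by positivity)
          _ = _ := by ring
      have f4 : (hN Δ y + gN y + 10 : ℝ) ≤ (2 * AN Δ + 12) * y := by nlinarith
      have f5 := mul_le_mul_of_nonneg_right f4 (show 0 ≤ 1 + l by linarith)
      rw [hA]; linarith
    refine e1.trans ?_
    rw [div_le_iff₀ (by positivity)] at hy2
    have e2 : y * y ≤ y ^ 4 := by
      have : y ^ 2 ≤ y ^ 4 := pow_le_pow_right₀ hy1 (by norm_num)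
      linarith
    calc A * y ≤ (y * (e * κ)) * y := mul_le_mul_of_nonneg_right hy2 (by linarith)
      _ = e * (κ * (y * y)) := by ring
      _ ≤ e * (κ * y ^ 4) := by gcongr
      _ ≤ _ := mul_le_mul_of_nonneg_left hwlow he.le
  · apply Real.sqrt_le_iff.2
    refine ⟨by positivity, ?_⟩
    rw [div_le_iff₀ (by positivity)] at hα2
    have e1 : nu2 vt c B M α ≤ 3 * l ^ 2 / α := by
      rw [le_div_iff₀ hα0]; have := hI.nu_hi; linarith
    have e2 : nu2 vt c B M α / mu vt c M ^ 3 ≤ 3 * l ^ 2 / α / Real.log 2 ^ 3 :=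
      div_le_div₀ (by positivity) e1 (by have := log2_pos; positivity)
        (pow_le_pow_left₀ log2_pos.le hI.mu_lo 3)
    have e3 : 3 * l ^ 2 / α / Real.log 2 ^ 3 = C2 / α := by rw [hC2]; ring
    rw [e3] at e2
    calc nu2 vt c B M α / mu vt c M ^ 3 * y ^ 8 ≤ C2 / α * y ^ 8 :=
          mul_le_mul_of_nonneg_right e2 h8.le
      _ ≤ (α * y ^ 8 * e ^ 2) / α * y ^ 8 := by gcongr
      _ = (e * y ^ 8) ^ 2 := by field_simp
  · rw [div_le_iff₀ he] at hα1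
    linarith

end Pool.Agent.W_MP_17e8f0_pr
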