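import Pool.Agent.W_MP_17e8f0_pr.ExcBound

namespace Pool.Agent.W_MP_17e8f0_pr

open Finset

variable {H V : Type*} [Fintype H] [DecidableEq H] [DecidableEq V] {K : ℕ}
variable {vt : H → V} {c : H → Fin K} {B : Fin K → Fin K → ℕ} {M : ℕ}

lemma Dx_nonneg (η : Equiv.Perm H) (t : ℕ) (x : H) : 0 ≤ Dx vt η t x :=
  sum_nonneg fun _ _ => le_max_right _ _

lemma Dx_le_one (η : Equiv.Perm H) (t : ℕ) (x : H) : Dx vt η t x ≤ 1 := by
  have hN : (Fintype.card H : ℝ) ≠ 0 := by
    have : Fintype.card H ≠ 0 := (Fintype.card_pos_iff.2 ⟨x⟩).ne'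
    exact_mod_cast this
  calc Dx vt η t x ≤ ∑ _y : H, 1 / (Fintype.card H : ℝ) := by
        refine sum_le_sum fun y _ => max_le ?_ (by positivity)
        have := PM_pow_nonneg (vt := vt) η t x y
        linarith
    _ = 1 := by rw [sum_const, card_univ, nsmul_eq_mul]; field_simp

lemma Dx_add (h2 : ∀ z : H, 2 ≤ (ch vt z).card) (η : Equiv.Perm H) (n t : ℕ) (x : H) :
    Dx vt η (n + t) x ≤ ∑ z, (PM vt η ^ n) x z * Dx vt η t z := by
  unfold Dx
  simp only [mul_sum]
  rw [sum_comm]
  refine sum_le_sum fun y _ => ?_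
  apply max_le
  · have h1 : ∑ z, (PM vt η ^ n) x z * (1 / (Fintype.card H : ℝ)) = 1 / (Fintype.card H : ℝ) := by
      rw [← sum_mul, PM_row h2, one_mul]
    have h3 : 1 / (Fintype.card H : ℝ) - (PM vt η ^ (n + t)) x y
        = ∑ z, (PM vt η ^ n) x z * (1 / (Fintype.card H : ℝ) - (PM vt η ^ t) z y) := by
      simp only [mul_sub, sum_sub_distrib]
      rw [h1, pow_add, Matrix.mul_apply]
    rw [h3]
    refine sum_le_sum fun z _ => ?_
    exact mul_le_mul_of_nonneg_left (le_max_left _ _) (PM_pow_nonneg _ _ _ _)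
  · exact sum_nonneg fun z _ => mul_nonneg (PM_pow_nonneg _ _ _ _) (le_max_right _ _)

open Classical in
theorem upper_all (h2 : ∀ z : H, 2 ≤ (ch vt z).card) {Δ : ℕ}
    (hΔ : ∀ z : H, (ch vt z).card + 1 ≤ Δ) {t n L : ℕ} {r δ b β βE : ℝ} (hr : r ≤ 1) (hδ : 0 < δ)
    (hb : 0 < b) (hβ0 : 0 ≤ β)
    (hpair : ∀ x y : H, vt x ≠ vt y →
      (((Om c B).filter (fun η => (Fintype.card H : ℝ) * (PM vt η ^ t) x y ≤ r)).card : ℝ)
        ≤ (Om c B).card * β)
    (hexc : (((Om c B).filter (fun η => ¬ Exc vt η L)).card : ℝ) ≤ (Om c B).card * βE)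
    (hL : (n + 3) * (n + 1) ≤ L) (hHne : Nonempty H) :
    (((Om c B).filter (fun η => ∃ x, 1 - r + δ + b * ((n + 2) * (1 / 2 : ℝ) ^ n)
        < Dx vt η (n + t) x)).card : ℝ)
      ≤ (Om c B).card * ((Δ + Fintype.card H * β) / (δ * b) + βE) := by
  set N : ℝ := (Fintype.card H : ℝ) with hN
  have hN0 : 0 < N := by
    have : 0 < Fintype.card H := Fintype.card_pos
    rw [hN]; exact_mod_cast this
  set BX : Equiv.Perm H → Finset H := fun η => univ.filter (fun x =>
    δ * N < ((univ.filter (fun y => N * (PM vt η ^ t) x y ≤ r)).card : ℝ)) with hBX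
  -- deterministic part
  have hdet : ∀ η ∈ Om c B, Exc vt η L → ((BX η).card : ℝ) ≤ b → ∀ x,
      Dx vt η (n + t) x ≤ 1 - r + δ + b * ((n + 2) * (1 / 2 : ℝ) ^ n) := by
    intro η hη hE hbx x
    have hgood : ∀ z, z ∉ BX η → Dx vt η t z ≤ 1 - r + δ := by
      intro z hz
      simp only [hBX, mem_filter, mem_univ, true_and, not_lt] at hz
      unfold Dx
      rw [← sum_filter_add_sum_filter_not univ (fun y => N * (PM vt η ^ t) z y ≤ r)]
      have s1 : ∑ y ∈ univ.filter (fun y => N * (PM vt η ^ t) z y ≤ r),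
          max (1 / N - (PM vt η ^ t) z y) 0 ≤ δ := by
        calc _ ≤ ∑ _y ∈ univ.filter (fun y => N * (PM vt η ^ t) z y ≤ r), 1 / N := by
              refine sum_le_sum fun y _ => max_le ?_ (by positivity)
              have := PM_pow_nonneg (vt := vt) η t z y
              linarith
          _ = ((univ.filter (fun y => N * (PM vt η ^ t) z y ≤ r)).card : ℝ) * (1 / N) := by
              rw [sum_const, nsmul_eq_mul]
          _ ≤ (δ * N) * (1 / N) := mul_le_mul_of_nonneg_right hz (by positivity)
          _ = δ := by field_simp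
      have s2 : ∑ y ∈ univ.filter (fun y => ¬ N * (PM vt η ^ t) z y ≤ r),
          max (1 / N - (PM vt η ^ t) z y) 0 ≤ 1 - r := by
        calc _ ≤ ∑ _y ∈ univ.filter (fun y => ¬ N * (PM vt η ^ t) z y ≤ r), (1 - r) / N := by
              refine sum_le_sum fun y hy => max_le ?_ (div_nonneg (by linarith) hN0.le)
              have hy' := not_le.1 (mem_filter.1 hy).2
              have : r / N ≤ (PM vt η ^ t) z y := by
                rw [div_le_iff₀ hN0]; linarith
              rw [sub_div]; linarith
          _ ≤ ∑ _y : H, (1 - r) / N :=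
              sum_le_sum_of_subset_of_nonneg (filter_subset _ _)
                fun _ _ _ => div_nonneg (by linarith) hN0.le
          _ = 1 - r := by rw [sum_const, card_univ, nsmul_eq_mul, ← hN]; field_simp
      linarith
    have hP0 : ∀ z, 0 ≤ (PM vt η ^ n) x z := fun z => PM_pow_nonneg _ _ _ _
    calc Dx vt η (n + t) x ≤ ∑ z, (PM vt η ^ n) x z * Dx vt η t z := Dx_add h2 η n t x
      _ ≤ ∑ z, ((PM vt η ^ n) x z * (1 - r + δ) + if z ∈ BX η then (PM vt η ^ n) x z else 0) := by
          refine sum_le_sum fun z _ => ?_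
          split_ifs with hz
          · have h1 := mul_le_mul_of_nonneg_left (Dx_le_one (vt := vt) η t z) (hP0 z)
            have h3 : 0 ≤ (PM vt η ^ n) x z * (1 - r + δ) :=
              mul_nonneg (hP0 z) (by linarith)
            linarith
          · have h1 := mul_le_mul_of_nonneg_left (hgood z hz) (hP0 z)
            linarith
      _ = (1 - r + δ) + ∑ z ∈ BX η, (PM vt η ^ n) x z := by
          rw [sum_add_distrib, ← sum_mul, PM_row h2, one_mul, ← sum_filter]
          congr 2
          ext; simp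
      _ ≤ (1 - r + δ) + ∑ _z ∈ BX η, (n + 2) * (1 / 2 : ℝ) ^ n := by
          have := sum_le_sum (s := BX η) fun z _ =>
            PM_pow_le (Om.invol hη) (Om.ne hη) hE hL h2 x z
          linarith
      _ = (1 - r + δ) + (BX η).card * ((n + 2) * (1 / 2 : ℝ) ^ n) := by
          rw [sum_const, nsmul_eq_mul]
      _ ≤ _ := by
          have := mul_le_mul_of_nonneg_right hbx
            (show (0:ℝ) ≤ (n + 2) * (1 / 2 : ℝ) ^ n by positivity)
          linarith
  -- probabilistic part
  have hsub : (Om c B).filter (fun η => ∃ x, 1 - r + δ + b * ((n + 2) * (1 / 2 : ℝ) ^ n)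
        < Dx vt η (n + t) x)
      ⊆ (Om c B).filter (fun η => b < ((BX η).card : ℝ))
        ∪ (Om c B).filter (fun η => ¬ Exc vt η L) := by
    intro η hη
    rw [mem_filter] at hη
    rw [mem_union, mem_filter, mem_filter]
    by_contra hcon
    push Not at hcon
    obtain ⟨x, hx⟩ := hη.2
    exact absurd (hdet η hη.1 (hcon.2 hη.1) (hcon.1 hη.1) x) (not_le.2 hx)
  have hmark : (((Om c B).filter (fun η => b < ((BX η).card : ℝ))).card : ℝ)
      ≤ (Om c B).card * ((Δ + N * β) / (δ * b)) := by
    have s1 : (((Om c B).filter (fun η => b < ((BX η).card : ℝ))).card : ℝ) * b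
        ≤ ∑ η ∈ Om c B, ((BX η).card : ℝ) := by
      calc _ = ∑ _η ∈ (Om c B).filter (fun η => b < ((BX η).card : ℝ)), b := by
            rw [sum_const, nsmul_eq_mul]
        _ ≤ ∑ η ∈ (Om c B).filter (fun η => b < ((BX η).card : ℝ)), ((BX η).card : ℝ) :=
            sum_le_sum fun η hη => (mem_filter.1 hη).2.le
        _ ≤ _ := sum_le_sum_of_subset_of_nonneg (filter_subset _ _) fun _ _ _ => by positivity
    have s2 : (∑ η ∈ Om c B, ((BX η).card : ℝ)) * (δ * N)
        ≤ ∑ η ∈ Om c B, ∑ x, ((univ.filter (fun y => N * (PM vt η ^ t) x y ≤ r)).card : ℝ) := by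
      rw [sum_mul]
      refine sum_le_sum fun η _ => ?_
      calc ((BX η).card : ℝ) * (δ * N) = ∑ _x ∈ BX η, δ * N := by rw [sum_const, nsmul_eq_mul]
        _ ≤ ∑ x ∈ BX η, ((univ.filter (fun y => N * (PM vt η ^ t) x y ≤ r)).card : ℝ) := by
            refine sum_le_sum fun x hx => ?_
            simp only [hBX, mem_filter, mem_univ, true_and] at hx
            exact hx.le
        _ ≤ _ := sum_le_sum_of_subset_of_nonneg (subset_univ _) fun _ _ _ => by positivity
    have s3 : ∑ η ∈ Om c B, ∑ x, ((univ.filter (fun y => N * (PM vt η ^ t) x y ≤ r)).card : ℝ)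
        = ∑ x, ∑ y, (((Om c B).filter (fun η => N * (PM vt η ^ t) x y ≤ r)).card : ℝ) := by
      simp only [card_filter, Nat.cast_sum]
      rw [sum_comm]
      refine sum_congr rfl fun x _ => ?_
      rw [sum_comm]
    have s4 : ∑ x, ∑ y, (((Om c B).filter (fun η => N * (PM vt η ^ t) x y ≤ r)).card : ℝ)
        ≤ N * ((Om c B).card * (Δ + N * β)) := by
      have : ∀ x : H, ∑ y, (((Om c B).filter (fun η => N * (PM vt η ^ t) x y ≤ r)).card : ℝ)
          ≤ (Om c B).card * (Δ + N * β) := by
        intro x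
        calc _ ≤ ∑ y, ((if vt y = vt x then ((Om c B).card : ℝ) else 0)
              + (Om c B).card * β) := by
              refine sum_le_sum fun y _ => ?_
              split_ifs with h
              · have : (((Om c B).filter (fun η => N * (PM vt η ^ t) x y ≤ r)).card : ℝ)
                    ≤ (Om c B).card := by exact_mod_cast card_le_card (filter_subset _ _)
                have h5 : 0 ≤ ((Om c B).card : ℝ) * β := by positivity
                linarith
              · have := hpair x y (fun h' => h h'.symm)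
                linarith
          _ = (vs vt x).card * (Om c B).card + N * ((Om c B).card * β) := by
              rw [sum_add_distrib, ← sum_filter, sum_const, nsmul_eq_mul, sum_const, nsmul_eq_mul,
                card_univ]
              congr 3
              congr 1
              ext y; simp [mem_vs]
          _ ≤ Δ * (Om c B).card + N * ((Om c B).card * β) := by
              have : ((vs vt x).card : ℝ) ≤ Δ := by exact_mod_cast card_vs_le hΔ x
              have := mul_le_mul_of_nonneg_right this (show (0:ℝ) ≤ (Om c B).card by positivity)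
              linarith
          _ = _ := by ring
      calc _ ≤ ∑ _x : H, ((Om c B).card : ℝ) * (Δ + N * β) := sum_le_sum fun x _ => this x
        _ = _ := by rw [sum_const, nsmul_eq_mul, card_univ]
    rw [mul_div_assoc', le_div_iff₀ (by positivity)]
    have s5 : (∑ η ∈ Om c B, ((BX η).card : ℝ)) * δ ≤ (Om c B).card * (Δ + N * β) := by
      have := s2.trans (s3.le.trans s4)
      have h6 : ((∑ η ∈ Om c B, ((BX η).card : ℝ)) * δ) * N ≤ ((Om c B).card * (Δ + N * β)) * N := by
        linarith
      exact le_of_mul_le_mul_right h6 hN0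
    calc _ = ((((Om c B).filter (fun η => b < ((BX η).card : ℝ))).card : ℝ) * b) * δ := by ring
      _ ≤ _ := mul_le_mul_of_nonneg_right s1 hδ.le
      _ ≤ _ := s5
  calc _ ≤ ((((Om c B).filter (fun η => b < ((BX η).card : ℝ)))
        ∪ ((Om c B).filter (fun η => ¬ Exc vt η L))).card : ℝ) := by
        exact_mod_cast card_le_card hsub
    _ ≤ (((Om c B).filter (fun η => b < ((BX η).card : ℝ))).card : ℝ)
        + (((Om c B).filter (fun η => ¬ Exc vt η L)).card : ℝ) := by
        exact_mod_cast card_union_le _ _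
    _ ≤ _ := by rw [mul_add]; linarith

end Pool.Agent.W_MP_17e8f0_pr
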