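import Pool.Agent.W_MP_17e8f0_pr.Upper
import Pool.Agent.W_MP_17e8f0_pr.PairBound
import Pool.Agent.W_MP_17e8f0_pr.Annealed3
import Pool.Agent.W_MP_17e8f0_pr.Growth2

namespace Pool.Agent.W_MP_17e8f0_pr

open Finset

variable {H V : Type*} [Fintype H] [DecidableEq H] [DecidableEq V] {K : ℕ}
variable {vt : H → V} {c : H → Fin K} {B : Fin K → Fin K → ℕ} {M : ℕ} {α : ℝ}

lemma Ann.card_H (hA : Ann c B M α) : (Fintype.card H : ℝ) = K * M := by
  have h1 : Fintype.card H = ∑ k : Fin K, (univ.filter (fun x => c x = k)).card := by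
    rw [← card_univ, card_eq_sum_card_fiberwise (f := c) (t := univ) (fun _ _ => mem_univ _)]
  rw [h1]
  simp only [hA.hM]
  simp

lemma Ann.B_eq (hA : Ann c B M α) (k l : Fin K) :
    (B k l : ℝ) = ((1 - α) * (if k = l then 1 else 0) + α / K) * M := by
  have h := hA.hq k l
  have hM : (M : ℝ) ≠ 0 := by exact_mod_cast hA.hM0.ne'
  unfold q at h
  rw [div_eq_iff (by positivity)] at h
  rw [h]; field_simp

lemma Ann.B_ge (hA : Ann c B M α) (k l : Fin K) : α / K * M ≤ B k l := by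
  rw [hA.B_eq]
  apply mul_le_mul_of_nonneg_right _ (by positivity)
  have := hA.hα1
  split_ifs <;> nlinarith

lemma Ann.q_le (hA : Ann c B M α) (k l : Fin K) : q B M k l ≤ 1 / M := by
  rw [hA.hq]
  apply div_le_div_of_nonneg_right _ (by positivity)
  have := hA.hα1
  have h0 := hA.hα0
  have hK : (1:ℝ) ≤ K := by exact_mod_cast hA.hK
  have h1 : α / K ≤ α := div_le_self h0.le hK
  split_ifs <;> nlinarith

lemma small_of (hA : Ann c B M α) {Δ : ℕ} {y : ℝ} {nT : ℕ} {e : ℝ}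
    (hN : (K * M : ℝ) = Real.exp (y ^ 8)) (hαy : 1 ≤ α * y ^ 8)
    (he : e = 4 * (nT + 1) * (K : ℝ) ^ 2 * y ^ 8 * Real.exp (-(y ^ 8)))
    (he1 : e ≤ 1) (S : Finset H) (hS : S.card ≤ nT) : Small B S e := by
  have hK0 : (0:ℝ) < K := by exact_mod_cast hA.hK
  have he0 : 0 ≤ e := by rw [he]; positivity
  refine ⟨he0, he1, fun k l => ?_⟩
  have h1 := mul_le_mul_of_nonneg_left (hA.B_ge k l) he0
  refine le_trans ?_ h1
  rw [he]
  have h2 : Real.exp (-(y ^ 8)) * Real.exp (y ^ 8) = 1 := by rw [← Real.exp_add]; simp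
  have h3 : 4 * ((nT : ℝ) + 1) * (K : ℝ) ^ 2 * y ^ 8 * Real.exp (-(y ^ 8)) * (α / K * M)
      = 4 * (nT + 1) * (α * y ^ 8) := by
    have : 4 * ((nT : ℝ) + 1) * (K : ℝ) ^ 2 * y ^ 8 * Real.exp (-(y ^ 8)) * (α / K * M)
        = 4 * (nT + 1) * (α * y ^ 8) * (Real.exp (-(y ^ 8)) * (K * M)) := by
      field_simp
    rw [this, hN, h2, mul_one]
  rw [h3]
  have h4 : (S.card : ℝ) ≤ nT := by exact_mod_cast hS
  have h5 : (0:ℝ) ≤ 4 * (nT + 1) := by positivity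
  nlinarith

lemma n3N_mul {y : ℝ} : 4 * y ^ 8 + 3 ≤ n3N y * Real.exp (-(3 / 4 * y ^ 8)) := by
  have h1 : (4 * y ^ 8 + 3) * Real.exp (3 / 4 * y ^ 8) ≤ n3N y := Nat.le_ceil _
  have h2 := mul_le_mul_of_nonneg_right h1 (Real.exp_pos (-(3 / 4 * y ^ 8))).le
  rwa [mul_assoc, ← Real.exp_add, add_neg_cancel, Real.exp_zero, mul_one] at h2

/-- the concrete parameters -/
noncomputable def parN (hA : Ann c B M α) (hcv : ∀ x y, vt x = vt y → c x = c y)
    (h2 : ∀ z : H, 2 ≤ (ch vt z).card) {Δ : ℕ} (hΔ : ∀ z : H, (ch vt z).card + 1 ≤ Δ)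
    {δ y : ℝ} (hδ : 0 < δ)
    (hN : (K * M : ℝ) = Real.exp (y ^ 8)) (hαy : 1 ≤ α * y ^ 8) (hE : Ev K Δ δ y) :
    Par vt c B M where
  Kc := K
  lam := LamN δ y
  ε := epsN K Δ y
  wm := wmN y
  Q := K * Real.exp (-(y ^ 8))
  smax := 3 / 4 * y ^ 8
  lth := y ^ 8 + y
  Nn := K * M
  c3 := c3N K Δ δ y
  c4 := c4N K Δ δ y
  nT := nTN Δ y
  rT := rTN Δ y
  n := n3N y
  dm := dmN y
  Δ := Δ
  hM := hA.hM
  hcv := hcv
  hsq := hA.hsq
  h2 := h2
  hΔ := hΔ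
  hKc := by positivity
  hlam := by unfold LamN; positivity
  hSmall := fun S hS => small_of hA (Δ := Δ) hN hαy (by unfold epsN; rfl) hE.eps S hS
  hQ := by
    intro k l
    refine (hA.q_le k l).trans (le_of_eq ?_)
    have hM : (M : ℝ) ≠ 0 := by exact_mod_cast hA.hM0.ne'
    rw [Real.exp_neg, ← hN]
    have hK : (K : ℝ) ≠ 0 := by exact_mod_cast hA.hK.ne'
    field_simp
  hQ0 := by positivity
  hlw := hE.lw
  hwm := (Real.exp_pos _).le
  hNn := by positivity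
  hlθ := by
    refine le_trans (le_of_eq ?_) hE.lt
    rw [hN, mul_assoc, ← Real.exp_add]
    congr 2; ring
  hNq := by
    rw [hN]
    have : Real.exp (y ^ 8) * (K * Real.exp (-(y ^ 8))) = K := by
      rw [mul_left_comm, ← Real.exp_add]; simp
    rw [this]
  hc3 := by unfold c3N; exact le_rfl
  hc4 := by
    unfold c4N
    have : 2 * LamN δ y ^ 2 * (K * M) * Real.exp (-(y ^ 8 + y)) * K
        = 2 * LamN δ y ^ 2 * Real.exp (-y) * K := by
      rw [hN, mul_assoc (2 * LamN δ y ^ 2), ← Real.exp_add]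
      congr 3; ring
    rw [this]
  hn1 := by
    have h := n3N_mul (y := y)
    have : 0 ≤ y ^ 8 := by positivity
    linarith
  hdm := by
    have h := n3N_mul (y := y)
    have h1 : (dmN y : ℝ) ≤ 4 * y ^ 8 + 1 := (Nat.ceil_lt_add_one (by positivity)).le
    linarith

lemma pow_aux (a b r : ℝ) (k : ℕ) (h : b * a = 1) :
    b ^ k * (2 * (r * a)) ^ (k + 1) = (2 * r) ^ (k + 1) * a := by
  have h1 : b ^ k * a ^ k = 1 := by rw [← mul_pow, h, one_pow]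
  have h2 : (2 * (r * a)) ^ (k + 1) = (2 * r) ^ (k + 1) * (a ^ k * a) := by
    rw [← pow_succ, ← mul_pow]; ring
  rw [h2]
  linear_combination ((2 * r) ^ (k + 1) * a) * h1

open Classical in
theorem upper_gen (hA : Ann c B M α) (hcv : ∀ x y, vt x = vt y → c x = c y)
    (h2 : ∀ z : H, 2 ≤ (ch vt z).card) {Δ : ℕ} (hΔ : ∀ z : H, (ch vt z).card + 1 ≤ Δ)
    (hOm : (Om c B).Nonempty)
    {δ y : ℝ} (hδ : 0 < δ)
    (hNe0 : (K * M : ℝ) = Real.exp (y ^ 8)) (hαy : 1 ≤ α * y ^ 8) (hE : Ev K Δ δ y)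
    {d₁ d₂ : ℕ} (hd1 : d₁ ≤ dmN y) (hd2 : d₂ ≤ dmN y) (hg1 : gN y ≤ d₁) (hg2 : gN y ≤ d₂)
    {Rm : ℝ} (hRm1 : Rm ≤ 1)
    (hRm : ∀ k k' s s', gN y * Real.log 2 ≤ s → s ≤ gN y * Real.log Δ → gN y * Real.log 2 ≤ s' →
      s' ≤ (gN y + 1) * Real.log Δ →
      Rm ≤ v2 vt c B M (Frew B M (K * M) (3 / 4 * y ^ 8) (y ^ 8 + y)) k s (d₁ - gN y) k' s'
        (d₂ - gN y)) :
    (((Om c B).filter (fun η => ∃ x, 1 - Rm + δ < Dx vt η (hN Δ y + (d₁ + d₂ + 1)) x)).card : ℝ)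
      ≤ δ * (Om c B).card := by
  have hK0 : (0:ℝ) < K := by exact_mod_cast hA.hK
  have hK1 : (1:ℝ) ≤ K := by exact_mod_cast hA.hK
  have hcard := hA.card_H
  have hHne : Nonempty H := by
    have : 0 < Fintype.card H := by
      have : (0:ℝ) < Fintype.card H := by rw [hcard, hNe0]; exact Real.exp_pos _
      exact_mod_cast this
    exact Fintype.card_pos_iff.1 this
  set P := parN hA hcv h2 hΔ hδ hNe0 hαy hE with hP
  set β : ℝ := Real.exp (-(LamN δ y * (δ / 4)) + c4N K Δ δ y + 2 * (c3N K Δ δ y * dmN y))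
        + ((tN Δ y : ℝ) + Δ * tN Δ y) * (2 * (K * Real.exp (-(y ^ 8))) * r1N Δ y) with hβ
  have hβ0 : 0 ≤ β := by positivity
  have hpair : ∀ x z : H, vt x ≠ vt z →
      (((Om c B).filter (fun η => (Fintype.card H : ℝ) * (PM vt η ^ (d₁ + d₂ + 1)) x z
        ≤ Rm - δ / 4)).card : ℝ) ≤ (Om c B).card * β := by
    intro x z hxz
    have := pair_bound P (h := gN y) (d₁ := d₁) (d₂ := d₂) (r₁ := r1N Δ y) (Rm := Rm)
      (δ := δ / 4) (le_of_eq rfl) hRm (le_of_eq rfl) hd1 hd2 hg1 hg2 hOm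
      (by show 2 * tN Δ y + 2 * (Δ * tN Δ y) + 6 * n3N y ≤ nTN Δ y; unfold nTN; omega)
      (le_of_eq rfl) hxz
    rw [hcard]
    exact this
  set βE : ℝ := ∑ k ∈ range (LN Δ y),
        (Fintype.card H : ℝ) ^ k * ((k * Δ : ℕ) : ℝ) ^ (2 * (k + 1))
          * (2 * (K * Real.exp (-(y ^ 8)))) ^ (k + 1) with hβE
  have hexc : (((Om c B).filter (fun η => ¬ Exc vt η (LN Δ y))).card : ℝ)
      ≤ (Om c B).card * βE :=
    exc_bound hA.hM P.hSmall P.hQ P.hQ0 hΔ hOm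
      (by show 2 * LN Δ y ≤ nTN Δ y; unfold nTN; omega)
  have hb0 : 0 < bN K Δ y := by unfold bN; positivity
  have key := upper_all h2 hΔ (c := c) (B := B) (t := d₁ + d₂ + 1) (n := hN Δ y) (L := LN Δ y)
    (r := Rm - δ / 4) (δ := δ / 4) (b := bN K Δ y) (β := β) (βE := βE) (by linarith)
    (by positivity) hb0 hβ0 hpair hexc (le_of_eq rfl) hHne
  -- bounds
  have hNe : (Fintype.card H : ℝ) = Real.exp (y ^ 8) := by rw [hcard, hNe0]
  have hNβ : (Fintype.card H : ℝ) * β ≤ 1 + 2 * K * (1 + Δ) * tN Δ y * r1N Δ y := by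
    rw [hNe, hβ, mul_add]
    have e1 : Real.exp (y ^ 8) * Real.exp (-(LamN δ y * (δ / 4)) + c4N K Δ δ y
        + 2 * (c3N K Δ δ y * dmN y)) ≤ 1 := by
      rw [← Real.exp_add]
      apply Real.exp_le_one_iff.2
      have f1 : LamN δ y * (δ / 4) = 2 * y ^ 8 := by
        unfold LamN; field_simp; ring
      have f2 := hE.cc
      have f3 : 1 ≤ y ^ 8 := one_le_pow₀ hE.one_le
      rw [f1]; linarith
    have e2 : Real.exp (y ^ 8) * (((tN Δ y : ℝ) + Δ * tN Δ y)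
        * (2 * (K * Real.exp (-(y ^ 8))) * r1N Δ y)) = 2 * K * (1 + Δ) * tN Δ y * r1N Δ y := by
      have : Real.exp (y ^ 8) * Real.exp (-(y ^ 8)) = 1 := by rw [← Real.exp_add]; simp
      linear_combination (2 * K * (1 + Δ) * tN Δ y * r1N Δ y) * this
    rw [e2]; linarith
  have hfirst : (Δ + Fintype.card H * β) / (δ / 4 * bN K Δ y) ≤ δ / 2 := by
    refine le_trans ?_ hE.ey
    rw [div_le_iff₀ (by positivity)]
    have e1 : 4 / δ * Real.exp (-y) * (δ / 4 * bN K Δ y)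
        = Δ + 1 + 2 * K * (1 + Δ) * tN Δ y * r1N Δ y := by
      unfold bN
      have e2 : Real.exp (-y) * Real.exp y = 1 := by rw [← Real.exp_add]; simp
      have : 4 / δ * Real.exp (-y) * (δ / 4 * (Real.exp y * (Δ + 1 + 2 * K * (1 + Δ) * tN Δ y
          * r1N Δ y))) = (4 / δ * (δ / 4)) * (Real.exp (-y) * Real.exp y)
            * (Δ + 1 + 2 * K * (1 + Δ) * tN Δ y * r1N Δ y) := by ring
      rw [this, e2]
      field_simp
    rw [e1]; linarith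
  have hsecond : βE ≤ δ / 2 := by
    refine le_trans ?_ hE.ex
    have e1 : ∀ k ∈ range (LN Δ y), (Fintype.card H : ℝ) ^ k * ((k * Δ : ℕ) : ℝ) ^ (2 * (k + 1))
          * (2 * (K * Real.exp (-(y ^ 8)))) ^ (k + 1)
        ≤ ((LN Δ y * Δ : ℕ) : ℝ) ^ (2 * LN Δ y) * (2 * K : ℝ) ^ (LN Δ y)
          * Real.exp (-(y ^ 8)) := by
      intro k hk
      rw [mem_range] at hk
      have f1 : (Fintype.card H : ℝ) ^ k * (2 * (K * Real.exp (-(y ^ 8)))) ^ (k + 1)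
          = (2 * K : ℝ) ^ (k + 1) * Real.exp (-(y ^ 8)) := by
        rw [hNe]
        exact pow_aux _ _ _ k (by rw [← Real.exp_add]; simp)
      have f2 : (2 * K : ℝ) ^ (k + 1) ≤ (2 * K : ℝ) ^ (LN Δ y) :=
        pow_le_pow_right₀ (by linarith) (by omega)
      have f3 : ((k * Δ : ℕ) : ℝ) ^ (2 * (k + 1)) ≤ ((LN Δ y * Δ : ℕ) : ℝ) ^ (2 * LN Δ y) := by
        rcases Nat.eq_zero_or_pos (k * Δ) with h0 | h0
        · rw [h0, Nat.cast_zero, zero_pow (by omega)]; positivity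
        · have g1 : k * Δ ≤ LN Δ y * Δ := Nat.mul_le_mul_right _ hk.le
          have g2 : (1:ℝ) ≤ ((LN Δ y * Δ : ℕ) : ℝ) := by exact_mod_cast (by omega)
          calc ((k * Δ : ℕ) : ℝ) ^ (2 * (k + 1)) ≤ ((LN Δ y * Δ : ℕ) : ℝ) ^ (2 * (k + 1)) :=
                pow_le_pow_left₀ (by positivity) (by exact_mod_cast g1) _
            _ ≤ _ := pow_le_pow_right₀ g2 (by omega)
      calc _ = ((k * Δ : ℕ) : ℝ) ^ (2 * (k + 1)) * ((Fintype.card H : ℝ) ^ k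
            * (2 * (K * Real.exp (-(y ^ 8)))) ^ (k + 1)) := by ring
        _ = ((k * Δ : ℕ) : ℝ) ^ (2 * (k + 1)) * ((2 * K : ℝ) ^ (k + 1) * Real.exp (-(y ^ 8))) := by
            rw [f1]
        _ ≤ ((LN Δ y * Δ : ℕ) : ℝ) ^ (2 * LN Δ y) * ((2 * K : ℝ) ^ (LN Δ y)
            * Real.exp (-(y ^ 8))) := by
            apply mul_le_mul f3 _ (by positivity) (by positivity)
            exact mul_le_mul_of_nonneg_right f2 (Real.exp_pos _).le
        _ = _ := by ring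
    calc βE ≤ ∑ _k ∈ range (LN Δ y), ((LN Δ y * Δ : ℕ) : ℝ) ^ (2 * LN Δ y)
          * (2 * K : ℝ) ^ (LN Δ y) * Real.exp (-(y ^ 8)) := sum_le_sum e1
      _ = _ := by rw [sum_const, card_range, nsmul_eq_mul]; ring
  have hsub : (Om c B).filter (fun η => ∃ x, 1 - Rm + δ < Dx vt η (hN Δ y + (d₁ + d₂ + 1)) x)
      ⊆ (Om c B).filter (fun η => ∃ x, 1 - (Rm - δ / 4) + δ / 4
        + bN K Δ y * ((hN Δ y + 2) * (1 / 2 : ℝ) ^ (hN Δ y)) < Dx vt η (hN Δ y + (d₁ + d₂ + 1)) x) := by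
    intro η hη
    rw [mem_filter] at hη ⊢
    obtain ⟨h1, x, hx⟩ := hη
    refine ⟨h1, x, lt_of_le_of_lt ?_ hx⟩
    have := hE.bb
    linarith
  have h3 : (((Om c B).filter (fun η => ∃ x, 1 - Rm + δ
      < Dx vt η (hN Δ y + (d₁ + d₂ + 1)) x)).card : ℝ)
      ≤ (((Om c B).filter (fun η => ∃ x, 1 - (Rm - δ / 4) + δ / 4
        + bN K Δ y * ((hN Δ y + 2) * (1 / 2 : ℝ) ^ (hN Δ y))
          < Dx vt η (hN Δ y + (d₁ + d₂ + 1)) x)).card : ℝ) := by
    exact_mod_cast card_le_card hsub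
  refine h3.trans (key.trans ?_)
  rw [mul_comm]
  exact mul_le_mul_of_nonneg_right (by linarith) (by positivity)

end Pool.Agent.W_MP_17e8f0_pr
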