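import Pool.Agent.W_MP_17e8f0_pr.Scale

namespace Pool.Agent.W_MP_17e8f0_pr

open Finset

variable {H V : Type*} [Fintype H] [DecidableEq H] [DecidableEq V] {K : ℕ}
variable {vt : H → V} {c : H → Fin K} {B : Fin K → Fin K → ℕ} {M : ℕ} {α y σ0 e : ℝ} {Δ : ℕ}

lemma Inst.w_pos (hI : Inst Δ σ0 vt c B M α y) (hR : Reg Δ vt c B M α y e) :
    0 < wN vt c B M α y := by
  have h1 := hI.w_sq
  have h2 := hI.nu_pos
  have h3 := hR.y1
  have h4 := wN_nonneg (vt := vt) (c := c) (B := B) (M := M) (α := α) (y := y)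
  rcases h4.lt_or_eq with h | h
  · exact h
  · exfalso
    rw [← h] at h1
    have : 0 < nu2 vt c B M α * y ^ 8 := by positivity
    simp at h1
    rcases h1 with h1 | h1
    · exact h2.ne' h1
    · rw [h1] at h3; norm_num at h3

/-- existence of the time parameter -/
lemma Inst.exists_d (hI : Inst Δ σ0 vt c B M α y) (hR : Reg Δ vt c B M α y e) (he0 : 0 < e)
    (he : e ≤ 1 / 16) {κ : ℝ} (hκ : |κ| * e * Real.log Δ ≤ 1 / 16) :
    ∃ n : ℕ, n + gN y ≤ dmN y ∧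
      ((hN Δ y + ((n + gN y) + (n + gN y) + 1) : ℕ) : ℝ) ≤ y ^ 8 / mu vt c M
        + κ * wN vt c B M α y ∧
      y ^ 8 / 2 + κ * wN vt c B M α y * mu vt c M / 2 - e * wN vt c B M α y + y
        ≤ n * mu vt c M ∧
      n * mu vt c M ≤ 9 / 16 * y ^ 8 ∧ y ^ 8 / 4 ≤ n * mu vt c M := by
  set μ := mu vt c M with hμ
  set w := wN vt c B M α y with hw
  set l := Real.log Δ with hl
  have hμ0 : 0 < μ := hI.mu_pos
  have hμ1 : μ ≤ l := hI.mu_hi
  have hμ2 : 1 / 2 < μ := half_lt_log2.trans_le hI.mu_lo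
  have hw0 : 0 < w := hI.w_pos hR
  have hO := hR.hO
  have hwe := hR.hw
  have hy1 := hR.y1
  have h8 : 1 ≤ y ^ 8 := one_le_pow₀ hy1
  rw [← hw] at hO hwe
  rw [← hl] at hO
  have hκw : |κ * w * μ| ≤ y ^ 8 / 16 := by
    rw [abs_mul, abs_mul, abs_of_pos hw0, abs_of_pos hμ0]
    calc |κ| * w * μ ≤ |κ| * (e * y ^ 8) * l := by gcongr
      _ = (|κ| * e * l) * y ^ 8 := by ring
      _ ≤ 1 / 16 * y ^ 8 := mul_le_mul_of_nonneg_right hκ (by positivity)
      _ = _ := by ring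
  obtain ⟨hκ1, hκ2⟩ := abs_le.1 hκw
  have hew : e * w ≤ y ^ 8 / 256 := by
    calc e * w ≤ (1 / 16) * (1 / 16 * y ^ 8) := by
          apply mul_le_mul he _ hw0.le (by norm_num)
          exact hwe.trans (mul_le_mul_of_nonneg_right he (by positivity))
      _ = _ := by ring
  have hb1 : (hN Δ y + gN y + 10 : ℝ) * μ ≤ (hN Δ y + gN y + 10) * (1 + l) :=
    mul_le_mul_of_nonneg_left (by linarith only [he0, he, hμ1]) (by positivity)
  have hhN : (0:ℝ) ≤ hN Δ y := by positivity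
  have hgN : (0:ℝ) ≤ gN y := by positivity
  have hg1 : 0 ≤ (hN Δ y : ℝ) * μ := by positivity
  have hg2 : 0 ≤ (gN y : ℝ) * μ := by positivity
  set r : ℝ := (y ^ 8 / μ + κ * w - hN Δ y - 1) / 2 with hr
  have hrμ : r * μ = (y ^ 8 + κ * w * μ) / 2 - (hN Δ y + 1) * μ / 2 := by
    rw [hr]; field_simp; ring
  have hrpos : 0 ≤ r := by
    have : 0 ≤ r * μ := by rw [hrμ]; nlinarith only [he0, he, hμ2, hO, hy1, hκ1, hew, hb1, hg1, hg2]
    exact nonneg_of_mul_nonneg_left this hμ0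
  have hd1 : (⌊r⌋₊ : ℝ) ≤ r := Nat.floor_le hrpos
  have hd2 : r - 1 < ⌊r⌋₊ := by
    have := Nat.lt_floor_add_one r; linarith
  have hd3 : (r - 1) * μ ≤ ⌊r⌋₊ * μ := mul_le_mul_of_nonneg_right hd2.le hμ0.le
  have hgd : gN y ≤ ⌊r⌋₊ := by
    have : (gN y : ℝ) * μ ≤ ⌊r⌋₊ * μ := by
      refine le_trans ?_ hd3
      rw [sub_mul, hrμ]
      nlinarith only [he0, he, hμ2, hO, hy1, hκ1, hew, hb1, hg1, hg2]
    exact_mod_cast le_of_mul_le_mul_right this hμ0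
  refine ⟨⌊r⌋₊ - gN y, ?_, ?_, ?_, ?_, ?_⟩
  · rw [Nat.sub_add_cancel hgd]
    have e1 : r ≤ 4 * y ^ 8 := by
      have : r * μ ≤ (4 * y ^ 8) * μ := by rw [hrμ]; nlinarith only [hw0, he0, he, hμ2, hκ2, hg1, hμ0, hwe]
      exact le_of_mul_le_mul_right this hμ0
    unfold dmN
    exact (Nat.floor_le_floor e1).trans (Nat.floor_le_ceil _)
  · rw [Nat.sub_add_cancel hgd]
    push_cast
    rw [hr] at hd1
    linarith only [hd1]
  · rw [Nat.cast_sub hgd, sub_mul]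
    rw [sub_mul, hrμ] at hd3
    nlinarith only [he0, he, hμ2, hO, hb1, hg1, hd3]
  · rw [Nat.cast_sub hgd, sub_mul]
    have : (⌊r⌋₊ : ℝ) * μ ≤ r * μ := mul_le_mul_of_nonneg_right hd1 hμ0.le
    rw [hrμ] at this
    nlinarith only [he0, he, hμ2, hO, hy1, hκ2, hew, hb1, hg1, hg2, this]
  · rw [Nat.cast_sub hgd, sub_mul]
    rw [sub_mul, hrμ] at hd3
    nlinarith only [he0, he, hμ2, hO, hy1, hκ1, hew, hb1, hg1, hg2, hd3]

lemma Inst.VV_le (hI : Inst Δ σ0 vt c B M α y) (hR : Reg Δ vt c B M α y e) (he0 : 0 < e)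
    (he : e * Real.log Δ ≤ 1 / 16) {n : ℕ} (hn : n * mu vt c M ≤ y ^ 8) :
    VV vt c B M α n ≤ 3 * K * (wN vt c B M α y * mu vt c M) ^ 2 := by
  have hK0 : (0:ℝ) < K := by exact_mod_cast hI.ann.hK
  have hα0 := hI.ann.hα0
  have hμ0 := hI.mu_pos
  have hμ1 := hI.mu_hi
  have hν := hI.nu_pos
  have hws := hI.w_sq
  have hαe := hR.hα
  have hy1 := hR.y1
  have h8 : 1 ≤ y ^ 8 := one_le_pow₀ hy1
  unfold VV
  set μ := mu vt c M with hμ
  set w := wN vt c B M α y with hw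
  set ν := nu2 vt c B M α with hνd
  have e1 : n * ν ≤ (w * μ) ^ 2 := by
    have : (n * ν) * μ ≤ (w * μ) ^ 2 * μ := by
      calc (n * ν) * μ = (n * μ) * ν := by ring
        _ ≤ y ^ 8 * ν := mul_le_mul_of_nonneg_right hn hν.le
        _ = (w * μ) ^ 2 * μ := by rw [mul_pow]; linear_combination (-1) * hws
    exact le_of_mul_le_mul_right this hμ0
  have e2 : ν / α ≤ e * (w * μ) ^ 2 * μ := by
    rw [div_le_iff₀ hα0]
    have : ν * 1 ≤ ν * (e * (α * y ^ 8)) := mul_le_mul_of_nonneg_left hαe hν.le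
    calc ν = ν * 1 := by ring
      _ ≤ ν * (e * (α * y ^ 8)) := this
      _ = e * (w * μ) ^ 2 * μ * α := by rw [mul_pow]; linear_combination (-(e * α)) * hws
  have e3 : e * (w * μ) ^ 2 * μ ≤ 1 / 16 * (w * μ) ^ 2 := by
    have : e * μ ≤ 1 / 16 := (mul_le_mul_of_nonneg_left hμ1 he0.le).trans he
    nlinarith only [this, sq_nonneg (w * μ)]
  have e4 : 2 * (n * (K * ν)) + 8 * (K * ν / α) = K * (2 * (n * ν) + 8 * (ν / α)) := by ring
  rw [e4]
  have e5 : 2 * (n * ν) + 8 * (ν / α) ≤ 3 * (w * μ) ^ 2 := by nlinarith only [e1, e2, e3]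
  calc K * (2 * (n * ν) + 8 * (ν / α)) ≤ K * (3 * (w * μ) ^ 2) :=
        mul_le_mul_of_nonneg_left e5 hK0.le
    _ = _ := by ring

lemma Inst.far (hI : Inst Δ σ0 vt c B M α y) (hR : Reg Δ vt c B M α y e) (he0 : 0 < e)
    (he1 : e ≤ 1 / 16)
    (he : e * Real.log Δ ≤ 1 / 16) {n : ℕ} (hn : n * mu vt c M ≤ 9 / 16 * y ^ 8)
    (k : Fin K) {s : ℝ} (hs : s ≤ (gN y + 1) * Real.log Δ) :
    An vt c B M n (fun _ s' => if 3 / 4 * y ^ 8 < s' then 1 else 0) k s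
      ≤ 192 * K * e ^ 2 * Real.log Δ ^ 2 := by
  have hK0 : (0:ℝ) < K := by exact_mod_cast hI.ann.hK
  have hμ0 := hI.mu_pos
  have hμ1 := hI.mu_hi
  have hw0 := hI.w_pos hR
  have hwe := hR.hw
  have hO := hR.hO
  have hy1 := hR.y1
  have h8 : 1 ≤ y ^ 8 := one_le_pow₀ hy1
  have hl0 : 0 < Real.log Δ := hI.ell_pos
  have hhN : (0:ℝ) ≤ hN Δ y := by positivity
  have hgN : (0:ℝ) ≤ gN y := by positivity
  have hew : e * wN vt c B M α y ≤ y ^ 8 / 256 := by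
    calc e * wN vt c B M α y ≤ (1 / 16) * (1 / 16 * y ^ 8) := by
          apply mul_le_mul he1 _ hw0.le (by norm_num)
          exact hwe.trans (mul_le_mul_of_nonneg_right he1 (by positivity))
      _ = _ := by ring
  have hs2 : s ≤ y ^ 8 / 256 := by
    refine hs.trans (le_trans ?_ hew)
    nlinarith only [he0, he1, hμ0, hμ1, hO, hy1]
  refine (hI.ann.cheb_up n k s (b := y ^ 8 / 8) (by positivity) (by linarith only [he0, he1, hn, h8, hs2])).trans ?_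
  have h1 := hI.VV_le hR he0 he (n := n) (by linarith)
  rw [div_le_iff₀ (by positivity)]
  refine h1.trans ?_
  have h2 : (wN vt c B M α y * mu vt c M) ^ 2 ≤ (e * y ^ 8 * Real.log Δ) ^ 2 := by
    apply pow_le_pow_left₀ (by positivity)
    exact mul_le_mul hwe hμ1 hμ0.le (by positivity)
  calc 3 * K * (wN vt c B M α y * mu vt c M) ^ 2 ≤ 3 * K * (e * y ^ 8 * Real.log Δ) ^ 2 :=
        mul_le_mul_of_nonneg_left h2 (by positivity)
    _ = _ := by ring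

/-- class mixing -/
lemma Inst.mixing (hI : Inst Δ σ0 vt c B M α y) (hR : Reg Δ vt c B M α y e) (he0 : 0 < e)
    {n : ℕ} (hn : y ^ 8 / 4 ≤ n * mu vt c M) : 1 / (4 * e * Real.log Δ) ≤ α * n := by
  have hμ0 := hI.mu_pos
  have hμ1 := hI.mu_hi
  have hαe := hR.hα
  have hl0 : 0 < Real.log Δ := hI.ell_pos
  have hα0 := hI.ann.hα0
  rw [div_le_iff₀ (by positivity)]
  have h1 : y ^ 8 ≤ 4 * (n * Real.log Δ) := by
    have : (n : ℝ) * mu vt c M ≤ n * Real.log Δ := mul_le_mul_of_nonneg_left hμ1 (by positivity)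
    linarith
  have h2 : e * (α * y ^ 8) ≤ e * (α * (4 * (n * Real.log Δ))) := by gcongr
  calc (1:ℝ) ≤ e * (α * y ^ 8) := hαe
    _ ≤ _ := h2
    _ = _ := by ring

lemma pow_le_inv {a : ℝ} (ha0 : 0 < a) (ha1 : a ≤ 1) {n : ℕ} {x : ℝ} (hx : 0 < x)
    (h : x ≤ a * n) : (1 - a) ^ n ≤ 1 / x := by
  have h1 : 1 - a ≤ Real.exp (-a) := by have := Real.add_one_le_exp (-a); linarith
  have h2 : (1 - a) ^ n ≤ Real.exp (-a) ^ n := pow_le_pow_left₀ (by linarith) h1 n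
  rw [← Real.exp_nat_mul] at h2
  refine h2.trans ?_
  rw [show (n : ℝ) * -a = -(a * n) by ring, Real.exp_neg, one_div]
  apply inv_anti₀ hx
  have := Real.add_one_le_exp (a * n)
  linarith

/-- two-sided value for the upper bound (A) -/
lemma Inst.v2A (hI : Inst Δ σ0 vt c B M α y) (hR : Reg Δ vt c B M α y e) (he0 : 0 < e)
    (he1 : e ≤ 1 / 16) {C : ℝ} (hC : 1 ≤ C) (he : C * e * Real.log Δ ≤ 1 / 16) {n : ℕ}
    (hn1 : y ^ 8 / 2 + C * wN vt c B M α y * mu vt c M / 2 - e * wN vt c B M α y + y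
        ≤ n * mu vt c M)
    (hn2 : n * mu vt c M ≤ 9 / 16 * y ^ 8) (hn3 : y ^ 8 / 4 ≤ n * mu vt c M)
    (k k' : Fin K) {s s' : ℝ} (hs0 : 0 ≤ s) (hs : s ≤ (gN y + 1) * Real.log Δ) (hs0' : 0 ≤ s')
    (hs' : s' ≤ (gN y + 1) * Real.log Δ) :
    1 - 4 * e * Real.log Δ - K * (2 * (192 * K * e ^ 2 * Real.log Δ ^ 2) + 2 * (48 * K / C ^ 2))
      ≤ v2 vt c B M (Frew B M (K * M) (3 / 4 * y ^ 8) (y ^ 8 + y)) k s n k' s' n := by
  have hK0 : (0:ℝ) < K := by exact_mod_cast hI.ann.hK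
  have hμ0 := hI.mu_pos
  have hμ1 := hI.mu_hi
  have hμ2 : 1 / 2 < mu vt c M := half_lt_log2.trans_le hI.mu_lo
  have hw0 := hI.w_pos hR
  have hl0 : 0 < Real.log Δ := hI.ell_pos
  have hy1 := hR.y1
  have h8 : 1 ≤ y ^ 8 := one_le_pow₀ hy1
  have hel : e * Real.log Δ ≤ 1 / 16 := by
    have : 1 * (e * Real.log Δ) ≤ C * (e * Real.log Δ) :=
      mul_le_mul_of_nonneg_right hC (by positivity)
    linarith only [he, this]
  set μ := mu vt c M with hμ
  set w := wN vt c B M α y with hw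
  have hwμ : 0 < w * μ := by positivity
  have hcheb : ∀ (k₁ : Fin K) (s₁ : ℝ), 0 ≤ s₁ →
      An vt c B M n (fun _ s' => if s' < (y ^ 8 + y) / 2 then 1 else 0) k₁ s₁ ≤ 48 * K / C ^ 2 := by
    intro k₁ s₁ hs₁
    have hb : 0 < C * w * μ / 4 := by positivity
    refine (hI.ann.cheb_low n k₁ s₁ hb ?_).trans ?_
    · have : e * w ≤ C * w * μ / 4 := by
        have f1 : e ≤ μ / 4 := by linarith only [he0, he1, hμ2]
        have f2 : μ / 4 ≤ C * (μ / 4) := by nlinarith only [he0, he1, hC, hμ0]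
        calc e * w ≤ (C * (μ / 4)) * w := mul_le_mul_of_nonneg_right (f1.trans f2) hw0.le
          _ = _ := by ring
      rw [← hμ]
      linarith only [he0, he1, hy1, hn1, hs₁, this]
    · have h1 := hI.VV_le hR he0 hel (n := n) (by linarith)
      rw [← hw, ← hμ] at h1
      rw [div_le_iff₀ (by positivity)]
      refine h1.trans (le_of_eq ?_)
      field_simp
      ring
  have hmix := hI.mixing hR he0 hn3
  have hp := pow_le_inv hI.ann.hα0 hI.ann.hα1 (n := n) (x := 1 / (4 * e * Real.log Δ))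
    (by positivity) hmix
  rw [one_div_one_div] at hp
  have key := hI.ann.v2_lower1 (vt := vt) (Nn := K * M) (smax := 3 / 4 * y ^ 8) (lth := y ^ 8 + y)
    (Kc := K) rfl le_rfl (n := n) (n' := n) (k := k) (k' := k') (s := s) (s' := s')
    (m₁ := (y ^ 8 + y) / 2) (m₂ := (y ^ 8 + y) / 2) (by linarith)
    (hI.far hR he0 he1 hel hn2 k hs) (hI.far hR he0 he1 hel hn2 k' hs')
    (hcheb k s hs0) (hcheb k' s' hs0')
  refine le_trans ?_ key
  nlinarith only [hp]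

end Pool.Agent.W_MP_17e8f0_pr
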