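import Pool.Agent.W_MP_17e8f0_pr.Values

namespace Pool.Agent.W_MP_17e8f0_pr

open Finset

variable {H V : Type*} [Fintype H] [DecidableEq H] [DecidableEq V] {K : ℕ}
variable {vt : H → V} {c : H → Fin K} {B : Fin K → Fin K → ℕ} {M : ℕ} {α y σ0 e : ℝ} {Δ : ℕ}

lemma th_le_one (K : ℕ) (hK : 0 < K) (Bx σ : ℝ) : th K Bx σ ≤ 1 := by
  have h1 := th_pos K hK Bx σ
  have h2 := th_sq K hK Bx σ
  have h3 : 1 ≤ C4 K Bx σ := by
    unfold C4
    have h1 : (1:ℝ) ≤ K := by exact_mod_cast hK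
    have h2 : 0 ≤ Bx ^ 4 / σ ^ 4 := by positivity
    nlinarith only [h1, h2]
  by_contra h
  push Not at h
  nlinarith

lemma Inst.nu_div_le (hI : Inst Δ σ0 vt c B M α y) (hR : Reg Δ vt c B M α y e) :
    nu2 vt c B M α / α ≤ e * (wN vt c B M α y * mu vt c M) ^ 2 * mu vt c M := by
  have hα0 := hI.ann.hα0
  have hν := hI.nu_pos
  have hws := hI.w_sq
  have hαe := hR.hα
  rw [div_le_iff₀ hα0]
  have := mul_le_mul_of_nonneg_left hαe hν.le
  calc nu2 vt c B M α = nu2 vt c B M α * 1 := by ring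
    _ ≤ nu2 vt c B M α * (e * (α * y ^ 8)) := this
    _ = _ := by rw [mul_pow]; linear_combination (-(e * α)) * hws

lemma Inst.sqrt_lo (hI : Inst Δ σ0 vt c B M α y) {r : ℝ} (hr : 0 ≤ r) {n : ℕ}
    (hn : r ^ 2 * y ^ 8 ≤ n * mu vt c M) :
    r * (wN vt c B M α y * mu vt c M) ≤ Real.sqrt (n * nu2 vt c B M α) := by
  have hμ0 := hI.mu_pos
  have hν := hI.nu_pos
  have hws := hI.w_sq
  apply Real.le_sqrt_of_sq_le
  have h1 : (r * (wN vt c B M α y * mu vt c M)) ^ 2 * mu vt c M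
      ≤ n * nu2 vt c B M α * mu vt c M := by
    calc (r * (wN vt c B M α y * mu vt c M)) ^ 2 * mu vt c M
        = (r ^ 2 * y ^ 8) * nu2 vt c B M α := by
          rw [mul_pow, mul_pow]; linear_combination (r ^ 2) * hws
      _ ≤ (n * mu vt c M) * nu2 vt c B M α := mul_le_mul_of_nonneg_right hn hν.le
      _ = _ := by ring
  exact le_of_mul_le_mul_right h1 hμ0

set_option maxHeartbeats 1000000 in
lemma Inst.v2B (hI : Inst Δ σ0 vt c B M α y) (hR : Reg Δ vt c B M α y e) (he0 : 0 < e)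
    {τ : ℝ} (hτ : τ = th K (Real.log Δ) σ0)
    (he : e * (4000000 * K ^ 2 * Real.log Δ) ≤ τ ^ 2) {n : ℕ}
    (hn1 : y ^ 8 / 2 + (-(τ / 128)) * wN vt c B M α y * mu vt c M / 2
      - e * wN vt c B M α y + y ≤ n * mu vt c M)
    (hn2 : n * mu vt c M ≤ 9 / 16 * y ^ 8) (hn3 : y ^ 8 / 4 ≤ n * mu vt c M)
    (k k' : Fin K) {s s' : ℝ} (hs0 : 0 ≤ s) (hs : s ≤ (gN y + 1) * Real.log Δ) (hs0' : 0 ≤ s')
    (hs' : s' ≤ (gN y + 1) * Real.log Δ) :
    (τ ^ 2 / (256 * K ^ 2)) ^ 2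
      ≤ v2 vt c B M (Frew B M (K * M) (3 / 4 * y ^ 8) (y ^ 8 + y)) k s n k' s' n := by
  have hK0 : (0:ℝ) < K := by exact_mod_cast hI.ann.hK
  have hK1 : (1:ℝ) ≤ K := by exact_mod_cast hI.ann.hK
  have hμ0 := hI.mu_pos
  have hμ1 := hI.mu_hi
  have hμ2 : 1 / 2 < mu vt c M := half_lt_log2.trans_le hI.mu_lo
  have hw0 := hI.w_pos hR
  have hl0 : 0 < Real.log Δ := hI.ell_pos
  have hl1 : 1 / 2 < Real.log Δ := hμ2.trans_le hμ1
  have hy1 := hR.y1
  have h8 : 1 ≤ y ^ 8 := one_le_pow₀ hy1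
  have hα0 := hI.ann.hα0
  have hα1 := hI.ann.hα1
  have hν := hI.nu_pos
  have hτ0 : 0 < τ := by rw [hτ]; exact th_pos K hI.ann.hK _ _
  have hτ1 : τ ≤ 1 := by rw [hτ]; exact th_le_one K hI.ann.hK _ _
  have hτ2 : τ ^ 2 ≤ τ := by nlinarith only [hτ0, hτ1]
  have hK2 : (1:ℝ) ≤ K ^ 2 := one_le_pow₀ hK1
  have hKK : (K:ℝ) ≤ K ^ 2 := by nlinarith only [hK1]
  have hel : e * Real.log Δ ≤ τ ^ 2 / 4000000 := by
    have : e * Real.log Δ ≤ e * Real.log Δ * K ^ 2 := le_mul_of_one_le_right (by positivity) hK2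
    linarith
  have hel2 : e * Real.log Δ ≤ 1 / 32 := by nlinarith only [hτ1, hτ2, hel]
  have hel3 : e * Real.log Δ ≤ 1 / 16 := by linarith
  have hee : e ≤ τ / 2000000 := by nlinarith only [hτ2, hel, he0, hμ1, hμ2]
  have he16 : e ≤ 1 / 16 := by linarith
  set μ := mu vt c M with hμ
  set w := wN vt c B M α y with hw
  set ν := nu2 vt c B M α with hνd
  have hwμ : 0 < w * μ := by positivity
  set b : ℝ := τ * (w * μ) / 256 with hb
  have hb0 : 0 < b := by positivity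
  set Lc : ℕ := ⌈2 / α⌉₊ with hLc
  have hL1 : 2 / α ≤ Lc := Nat.le_ceil _
  have hL2 : (Lc : ℝ) ≤ 3 / α := by
    have h1 : (Lc : ℝ) < 2 / α + 1 := Nat.ceil_lt_add_one (by positivity)
    have h2 : 1 ≤ 1 / α := by rw [le_div_iff₀ hα0]; linarith
    have h3 : 3 / α = 2 / α + 1 / α := by ring
    linarith
  have hL3 : (Lc : ℝ) * μ ≤ y ^ 8 / 8 := by
    have h1 : 1 / α ≤ e * y ^ 8 := by
      rw [div_le_iff₀ hα0]; have := hR.hα; linarith
    have h2 : (Lc : ℝ) ≤ 3 * (e * y ^ 8) := by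
      have : 3 / α = 3 * (1 / α) := by ring
      linarith only [hL2, h1, this]
    calc (Lc : ℝ) * μ ≤ (3 * (e * y ^ 8)) * Real.log Δ :=
          mul_le_mul h2 hμ1 hμ0.le (by positivity)
      _ = 3 * (e * Real.log Δ) * y ^ 8 := by ring
      _ ≤ 3 * (1 / 32) * y ^ 8 := by gcongr
      _ ≤ _ := by linarith
  have hLn : Lc ≤ n := by
    have : (Lc : ℝ) * μ ≤ n * μ := by linarith
    exact_mod_cast le_of_mul_le_mul_right this hμ0
  obtain ⟨n₀, hn₀⟩ : ∃ n₀, n = n₀ + Lc := ⟨n - Lc, (Nat.sub_add_cancel hLn).symm⟩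
  have hn₀μ : y ^ 8 / 8 ≤ n₀ * μ := by
    rw [hn₀] at hn3; push_cast at hn3; linarith
  have hsq : w * μ / 3 ≤ Real.sqrt (n₀ * ν) := by
    have := hI.sqrt_lo (r := 1 / 3) (by norm_num) (n := n₀) (by rw [← hμ]; linarith only [he0, h8, hτ1, hee, hn₀μ])
    rw [← hμ, ← hw, ← hνd] at this
    linarith only [this]
  have hαn₀ : 1 / (8 * e * Real.log Δ) ≤ α * n₀ := by
    rw [div_le_iff₀ (by positivity)]
    have h1 : y ^ 8 ≤ 8 * (n₀ * Real.log Δ) := by
      have : (n₀ : ℝ) * μ ≤ n₀ * Real.log Δ := mul_le_mul_of_nonneg_left hμ1 (by positivity)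
      linarith only [hn₀μ, this]
    calc (1:ℝ) ≤ e * (α * y ^ 8) := hR.hα
      _ ≤ e * (α * (8 * (n₀ * Real.log Δ))) := by gcongr
      _ = _ := by ring
  have hc1 : 4096 * K / τ ^ 2 ≤ α * n₀ := by
    refine le_trans ?_ hαn₀
    rw [div_le_div_iff₀ (by positivity) (by positivity)]
    have : e * Real.log Δ * K ≤ e * Real.log Δ * K ^ 2 :=
      mul_le_mul_of_nonneg_left hKK (by positivity)
    nlinarith only [he, this]
  have hc2 : 2 ≤ α * n₀ := by
    refine le_trans ?_ hc1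
    rw [le_div_iff₀ (by positivity)]
    nlinarith only [he0, hK1, hτ1, hτ2, hee]
  -- the mixing constant
  have hpc : 1 / (4 * K) ≤ (1 - (1 - α) ^ Lc) / K - VV vt c B M α Lc / b ^ 2 := by
    have h1 : (1 - α) ^ Lc ≤ 1 / 2 := by
      apply pow_le_inv hα0 hα1 (by norm_num)
      rw [div_le_iff₀ hα0] at hL1; linarith
    have h2 : VV vt c B M α Lc / b ^ 2 ≤ 1 / (4 * K) := by
      have e1 : VV vt c B M α Lc ≤ 14 * (K * (ν / α)) := by
        unfold VV
        rw [← hνd]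
        have f1 : (Lc : ℝ) * (K * ν) ≤ 3 / α * (K * ν) :=
          mul_le_mul_of_nonneg_right hL2 (by positivity)
        have f2 : 3 / α * (K * ν) = 3 * (K * (ν / α)) := by ring
        have f3 : K * ν / α = K * (ν / α) := by ring
        rw [f3]; linarith only [f1, f2]
      have e2 := hI.nu_div_le hR
      rw [← hμ, ← hw, ← hνd] at e2
      have e3 : VV vt c B M α Lc ≤ 14 * (K * (e * (w * μ) ^ 2 * Real.log Δ)) := by
        refine e1.trans ?_
        have : ν / α ≤ e * (w * μ) ^ 2 * Real.log Δ :=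
          e2.trans (mul_le_mul_of_nonneg_left hμ1 (by positivity))
        gcongr
      rw [div_le_div_iff₀ (by positivity) (by positivity)]
      have e4 : b ^ 2 = τ ^ 2 * (w * μ) ^ 2 / 65536 := by rw [hb]; ring
      rw [e4, one_mul]
      calc VV vt c B M α Lc * (4 * K) ≤ 14 * (K * (e * (w * μ) ^ 2 * Real.log Δ)) * (4 * K) :=
            mul_le_mul_of_nonneg_right e3 (by positivity)
        _ = (56 * 65536 * (e * (K ^ 2 * Real.log Δ))) * (w * μ) ^ 2 / 65536 := by ring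
        _ ≤ τ ^ 2 * (w * μ) ^ 2 / 65536 := by
            apply div_le_div_of_nonneg_right _ (by norm_num)
            apply mul_le_mul_of_nonneg_right _ (by positivity)
            refine le_trans ?_ he
            have : 0 ≤ e * (K ^ 2 * Real.log Δ) := by positivity
            nlinarith only [this]
    have h3 : (1 / 2) / K ≤ (1 - (1 - α) ^ Lc) / K :=
      div_le_div_of_nonneg_right (by linarith only [h1]) hK0.le
    have h4 : (1:ℝ) / 2 / K = 1 / (4 * K) + 1 / (4 * K) := by field_simp; norm_num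
    linarith only [h2, h3, h4]
  -- one side
  have hone : ∀ (k₁ : Fin K) (s₁ : ℝ), 0 ≤ s₁ → s₁ ≤ (gN y + 1) * Real.log Δ → ∀ l,
      τ ^ 2 / (256 * K ^ 2) ≤ An vt c B M n
        (fun k' s' => if k' = l ∧ (y ^ 8 + y) / 2 ≤ s' ∧ s' ≤ 3 / 4 * y ^ 8 then 1 else 0) k₁ s₁ := by
    intro k₁ s₁ hs₁ hs₁' l
    have hpz := hI.ann.pz_up hI.hσ0 hI.hσ (fun z => log2_pos.le.trans (hI.X_lo z)) hI.X_hi
      (n := n₀) hc2 (by rw [← hτ]; exact hc1) (m := (y ^ 8 + y) / 2 - Lc * μ + b) k₁ s₁ (by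
        rw [← hμ, ← hτ, ← hνd]
        have e1 : (n : ℝ) = n₀ + Lc := by rw [hn₀]; push_cast; ring
        rw [e1] at hn1
        have e2 : τ / 32 * (w * μ / 3) ≤ τ / 32 * Real.sqrt (n₀ * ν) :=
          mul_le_mul_of_nonneg_left hsq (by positivity)
        have e3 : e * w ≤ τ * (w * μ) / 1000000 := by
          have : e * w ≤ (τ / 2000000) * w := mul_le_mul_of_nonneg_right hee hw0.le
          have h5 : τ * w ≤ τ * w * (2 * μ) := le_mul_of_one_le_right (by positivity) (by linarith only [hμ2])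
          nlinarith only [this, h5]
        have e4 : 0 < τ * (w * μ) := by positivity
        rw [hb]
        nlinarith only [he0, hy1, hτ1, hee, hb, hb0, hn1, hs₁, e2, e3])
    rw [← hτ] at hpz
    have hj := hI.ann.joint (p0 := τ ^ 2 / (32 * K)) (n₀ := n₀) (L := Lc) (m := (y ^ 8 + y) / 2)
      hb0 k₁ l s₁ hpz (le_trans (by positivity) hpc)
    rw [← hn₀] at hj
    have hfar := hI.far hR he0 he16 hel3 hn2 k₁ hs₁'
    have hpt : ∀ (k' : Fin K) (s' : ℝ), (if k' = l ∧ (y ^ 8 + y) / 2 ≤ s' then (1:ℝ) else 0)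
        + (-1) * (if 3 / 4 * y ^ 8 < s' then 1 else 0)
        ≤ if k' = l ∧ (y ^ 8 + y) / 2 ≤ s' ∧ s' ≤ 3 / 4 * y ^ 8 then 1 else 0 := by
      intro k' s'
      by_cases a1 : k' = l ∧ (y ^ 8 + y) / 2 ≤ s' <;> by_cases a2 : 3 / 4 * y ^ 8 < s'
      · rw [if_pos a1, if_pos a2, if_neg (fun h => absurd h.2.2 (not_le.2 a2))]; norm_num
      · rw [if_pos a1, if_neg a2, if_pos ⟨a1.1, a1.2, not_lt.1 a2⟩]; norm_num
      · rw [if_neg a1, if_pos a2]; split_ifs <;> norm_num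
      · rw [if_neg a1, if_neg a2]; split_ifs <;> norm_num
    refine le_trans ?_ (An_mono hpt n k₁ s₁)
    rw [An_add (vt := vt) (c := c) (B := B) (M := M)
      (fun k' s' => if k' = l ∧ (y ^ 8 + y) / 2 ≤ s' then (1:ℝ) else 0),
      An_smul (vt := vt) (c := c) (B := B) (M := M) (-1)
        (fun _ s' => if 3 / 4 * y ^ 8 < s' then 1 else 0)]
    have h1 : τ ^ 2 / (32 * K) * (1 / (4 * K)) ≤ τ ^ 2 / (32 * K)
        * ((1 - (1 - α) ^ Lc) / K - VV vt c B M α Lc / b ^ 2) :=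
      mul_le_mul_of_nonneg_left hpc (by positivity)
    have h2 : τ ^ 2 / (32 * K) * (1 / (4 * K)) = 2 * (τ ^ 2 / (256 * K ^ 2)) := by
      field_simp; norm_num
    have h3 : 192 * K * e ^ 2 * Real.log Δ ^ 2 ≤ τ ^ 2 / (256 * K ^ 2) := by
      rw [le_div_iff₀ (by positivity)]
      have g1 : (e * Real.log Δ * K ^ 2) ≤ τ ^ 2 / 4000000 := by linarith only [he]
      have g2 : (e * Real.log Δ * K ^ 2) ^ 2 ≤ (τ ^ 2 / 4000000) ^ 2 :=
        pow_le_pow_left₀ (by positivity) g1 2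
      have g3 : (K:ℝ) ^ 3 ≤ K ^ 4 := pow_le_pow_right₀ hK1 (by norm_num)
      have g4 : 0 ≤ (e * Real.log Δ) ^ 2 := by positivity
      have g5 : τ ^ 4 ≤ τ ^ 2 := pow_le_pow_of_le_one hτ0.le hτ1 (by norm_num)
      calc 192 * K * e ^ 2 * Real.log Δ ^ 2 * (256 * K ^ 2)
          = 49152 * ((e * Real.log Δ) ^ 2 * K ^ 3) := by ring
        _ ≤ 49152 * ((e * Real.log Δ) ^ 2 * K ^ 4) := by gcongr
        _ = 49152 * (e * Real.log Δ * K ^ 2) ^ 2 := by ring
        _ ≤ 49152 * (τ ^ 2 / 4000000) ^ 2 := by gcongr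
        _ ≤ τ ^ 2 := by nlinarith only [g5]
    linarith only [hj, hfar, h1, h2, h3]
  have hfin := hI.ann.v2_lower2 (vt := vt) (Nn := K * M) (smax := 3 / 4 * y ^ 8)
    (lth := y ^ 8 + y) rfl (n := n) (n' := n) (k := k) (k' := k') (s := s) (s' := s')
    (m₁ := (y ^ 8 + y) / 2) (m₂ := (y ^ 8 + y) / 2) (by linarith)
    (p₁ := τ ^ 2 / (256 * K ^ 2)) (p₂ := τ ^ 2 / (256 * K ^ 2)) (by positivity)
    (hone k s hs0 hs) (hone k' s' hs0' hs') (by positivity)
  rw [sq]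
  exact hfin

/-- the time for the lower bounds -/
lemma Inst.exists_t (hI : Inst Δ σ0 vt c B M α y) (hR : Reg Δ vt c B M α y e) (he0 : 0 < e)
    (he : e ≤ 1 / 16) {κ : ℝ} (hκ : |κ| * e * Real.log Δ ≤ 1 / 16) :
    ∃ n : ℕ, n + gN y ≤ dmN y ∧
      (y ^ 8 / mu vt c M + κ * wN vt c B M α y : ℝ) < ((n + gN y : ℕ) : ℝ) + 1 ∧
      n * mu vt c M ≤ y ^ 8 + κ * wN vt c B M α y * mu vt c M ∧
      y ^ 8 / 4 ≤ n * mu vt c M := by
  set μ := mu vt c M with hμ
  set w := wN vt c B M α y with hw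
  set l := Real.log Δ with hl
  have hμ0 : 0 < μ := hI.mu_pos
  have hμ1 : μ ≤ l := hI.mu_hi
  have hμ2 : 1 / 2 < μ := half_lt_log2.trans_le hI.mu_lo
  have hw0 : 0 < w := hI.w_pos hR
  have hO := hR.hO
  have hwe := hR.hw
  have hy1 := hR.y1
  have h8 : 1 ≤ y ^ 8 := one_le_pow₀ hy1
  rw [← hw] at hO hwe
  rw [← hl] at hO
  have hκw : |κ * w * μ| ≤ y ^ 8 / 16 := by
    rw [abs_mul, abs_mul, abs_of_pos hw0, abs_of_pos hμ0]
    calc |κ| * w * μ ≤ |κ| * (e * y ^ 8) * l := by gcongr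
      _ = (|κ| * e * l) * y ^ 8 := by ring
      _ ≤ 1 / 16 * y ^ 8 := mul_le_mul_of_nonneg_right hκ (by positivity)
      _ = _ := by ring
  obtain ⟨hκ1, hκ2⟩ := abs_le.1 hκw
  have hew : e * w ≤ y ^ 8 / 256 := by
    calc e * w ≤ (1 / 16) * (1 / 16 * y ^ 8) := by
          apply mul_le_mul he _ hw0.le (by norm_num)
          exact hwe.trans (mul_le_mul_of_nonneg_right he (by positivity))
      _ = _ := by ring
  have hhN : (0:ℝ) ≤ hN Δ y := by positivity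
  have hgN : (0:ℝ) ≤ gN y := by positivity
  have hb1 : (gN y + 10 : ℝ) * μ ≤ (hN Δ y + gN y + 10) * (1 + l) := by
    apply mul_le_mul (by linarith) (by linarith) hμ0.le (by positivity)
  have hg2 : 0 ≤ (gN y : ℝ) * μ := by positivity
  set r : ℝ := y ^ 8 / μ + κ * w with hr
  have hrμ : r * μ = y ^ 8 + κ * w * μ := by
    rw [hr]; field_simp
  have hrpos : 0 ≤ r := by
    have : 0 ≤ r * μ := by rw [hrμ]; nlinarith only [he0, he, hμ2, hO, hy1, hκ1, hew, hb1, hg2]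
    exact nonneg_of_mul_nonneg_left this hμ0
  have hd1 : (⌊r⌋₊ : ℝ) ≤ r := Nat.floor_le hrpos
  have hd2 : r < ⌊r⌋₊ + 1 := Nat.lt_floor_add_one r
  have hd3 : (r - 1) * μ ≤ ⌊r⌋₊ * μ := mul_le_mul_of_nonneg_right (by linarith) hμ0.le
  have hgd : gN y ≤ ⌊r⌋₊ := by
    have : (gN y : ℝ) * μ ≤ ⌊r⌋₊ * μ := by
      refine le_trans ?_ hd3
      rw [sub_mul, hrμ]
      nlinarith only [he0, he, hμ2, hO, hy1, hκ1, hew, hb1, hg2]
    exact_mod_cast le_of_mul_le_mul_right this hμ0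
  refine ⟨⌊r⌋₊ - gN y, ?_, ?_, ?_, ?_⟩
  · rw [Nat.sub_add_cancel hgd]
    have e1 : r ≤ 4 * y ^ 8 := by
      have : r * μ ≤ (4 * y ^ 8) * μ := by rw [hrμ]; nlinarith only [he, hμ1, hO, hy1, hg2, hμ0, he0, hμ2, hκ2, hw0, hwe]
      exact le_of_mul_le_mul_right this hμ0
    unfold dmN
    exact (Nat.floor_le_floor e1).trans (Nat.floor_le_ceil _)
  · rw [Nat.sub_add_cancel hgd]
    exact hd2
  · rw [Nat.cast_sub hgd, sub_mul]
    have : (⌊r⌋₊ : ℝ) * μ ≤ r * μ := mul_le_mul_of_nonneg_right hd1 hμ0.le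
    rw [hrμ] at this
    linarith
  · rw [Nat.cast_sub hgd, sub_mul]
    rw [sub_mul, hrμ] at hd3
    nlinarith only [he0, he, hμ2, hO, hy1, hκ1, hew, hb1, hg2, hd3]

/-- one-sided value (A) -/
lemma Inst.oneA (hI : Inst Δ σ0 vt c B M α y) (hR : Reg Δ vt c B M α y e) (he0 : 0 < e)
    (he1 : e ≤ 1 / 16) {C : ℝ} (hC : 1 ≤ C) (he : C * e * Real.log Δ ≤ 1 / 16) {n : ℕ}
    (hn : n * mu vt c M ≤ y ^ 8 + (-C) * wN vt c B M α y * mu vt c M)
    (k : Fin K) {s : ℝ} (hs : s ≤ gN y * Real.log Δ) :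
    1 - 12 * K / C ^ 2 ≤ An vt c B M n (ind K (y ^ 8 - y)) k s := by
  have hK0 : (0:ℝ) < K := by exact_mod_cast hI.ann.hK
  have hμ0 := hI.mu_pos
  have hμ2 : 1 / 2 < mu vt c M := half_lt_log2.trans_le hI.mu_lo
  have hw0 := hI.w_pos hR
  have hl0 : 0 < Real.log Δ := hI.ell_pos
  have hy1 := hR.y1
  have hO := hR.hO
  have hel : e * Real.log Δ ≤ 1 / 16 := by
    have : 1 * (e * Real.log Δ) ≤ C * (e * Real.log Δ) :=
      mul_le_mul_of_nonneg_right hC (by positivity)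
    linarith
  set μ := mu vt c M with hμ
  set w := wN vt c B M α y with hw
  have hwμ : 0 < w * μ := by positivity
  have hhN : (0:ℝ) ≤ hN Δ y := by positivity
  have hgN : (0:ℝ) ≤ gN y := by positivity
  have hCw : 0 < C * (w * μ) := by positivity
  have hs2 : s + y ≤ e * w := by nlinarith only [he0, he1, hs, hl0, hO]
  have hb : 0 < C * (w * μ) / 2 := by positivity
  have hb2 : e * w ≤ C * (w * μ) / 2 := by
    have f1 : e ≤ μ / 2 := by linarith
    have f2 : μ / 2 ≤ C * (μ / 2) := by nlinarith only [he0, he1, hC, hμ0]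
    calc e * w ≤ (C * (μ / 2)) * w := mul_le_mul_of_nonneg_right (f1.trans f2) hw0.le
      _ = _ := by ring
  have h1 := hI.ann.cheb_up (vt := vt) n k s (b := C * (w * μ) / 2) (m := y ^ 8 - y) hb
    (by rw [← hμ]; linarith)
  have h2 := hI.VV_le hR he0 hel (n := n) (by linarith)
  rw [← hw, ← hμ] at h2
  have h3 : VV vt c B M α n / (C * (w * μ) / 2) ^ 2 ≤ 12 * K / C ^ 2 := by
    rw [div_le_iff₀ (by positivity)]
    refine h2.trans (le_of_eq ?_)
    field_simp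
    ring
  have hpt : ∀ (k' : Fin K) (s' : ℝ), (1:ℝ) + (-1) * (if y ^ 8 - y < s' then 1 else 0)
      ≤ ind K (y ^ 8 - y) k' s' := by
    intro k' s'
    unfold ind
    by_cases a : s' ≤ y ^ 8 - y
    · rw [if_neg (not_lt.2 a), if_pos a]; norm_num
    · rw [if_pos (not_le.1 a), if_neg a]; norm_num
  refine le_trans ?_ (An_mono hpt n k s)
  rw [An_add (vt := vt) (c := c) (B := B) (M := M) (fun _ _ => (1:ℝ)), An_const hI.ann.hsq,
    An_smul (vt := vt) (c := c) (B := B) (M := M) (-1) (fun _ s' => if y ^ 8 - y < s' then 1 else 0)]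
  linarith

/-- one-sided value (B) -/
lemma Inst.oneB (hI : Inst Δ σ0 vt c B M α y) (hR : Reg Δ vt c B M α y e) (he0 : 0 < e)
    {τ : ℝ} (hτ : τ = th K (Real.log Δ) σ0)
    (he : e * (4000000 * K ^ 2 * Real.log Δ) ≤ τ ^ 2) {n : ℕ}
    (hn : n * mu vt c M ≤ y ^ 8) (hn3 : y ^ 8 / 4 ≤ n * mu vt c M)
    (k : Fin K) {s : ℝ} (hs : s ≤ gN y * Real.log Δ) :
    τ ^ 2 / (32 * K) ≤ An vt c B M n (ind K (y ^ 8 - y)) k s := by
  have hK0 : (0:ℝ) < K := by exact_mod_cast hI.ann.hK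
  have hK1 : (1:ℝ) ≤ K := by exact_mod_cast hI.ann.hK
  have hμ0 := hI.mu_pos
  have hμ1 := hI.mu_hi
  have hμ2 : 1 / 2 < mu vt c M := half_lt_log2.trans_le hI.mu_lo
  have hw0 := hI.w_pos hR
  have hl0 : 0 < Real.log Δ := hI.ell_pos
  have hl1 : 1 / 2 < Real.log Δ := hμ2.trans_le hμ1
  have hy1 := hR.y1
  have hO := hR.hO
  have hα0 := hI.ann.hα0
  have hτ0 : 0 < τ := by rw [hτ]; exact th_pos K hI.ann.hK _ _
  have hτ1 : τ ≤ 1 := by rw [hτ]; exact th_le_one K hI.ann.hK _ _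
  have hK2 : (1:ℝ) ≤ K ^ 2 := one_le_pow₀ hK1
  have hKK : (K:ℝ) ≤ K ^ 2 := by nlinarith only [hK1]
  have hel : e * Real.log Δ ≤ τ ^ 2 / 4000000 := by
    have : e * Real.log Δ ≤ e * Real.log Δ * K ^ 2 := le_mul_of_one_le_right (by positivity) hK2
    linarith
  have hee : e ≤ τ / 2000000 := by nlinarith only [hel, he0, hμ1, hμ2, hτ0, hτ1]
  set μ := mu vt c M with hμ
  set w := wN vt c B M α y with hw
  set ν := nu2 vt c B M α with hνd
  have hwμ : 0 < w * μ := by positivity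
  have hsq : w * μ / 2 ≤ Real.sqrt (n * ν) := by
    have := hI.sqrt_lo (r := 1 / 2) (by norm_num) (n := n) (by rw [← hμ]; linarith)
    rw [← hμ, ← hw, ← hνd] at this
    linarith
  have hmix := hI.mixing hR he0 hn3
  have hc1 : 4096 * K / τ ^ 2 ≤ α * n := by
    refine le_trans ?_ hmix
    rw [div_le_div_iff₀ (by positivity) (by positivity)]
    have : e * Real.log Δ * K ≤ e * Real.log Δ * K ^ 2 :=
      mul_le_mul_of_nonneg_left hKK (by positivity)
    nlinarith only [he, this]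
  have hc2 : 2 ≤ α * n := by
    refine le_trans ?_ hc1
    rw [le_div_iff₀ (by positivity)]
    nlinarith only [hK1, hτ1, hee, he0, hτ0]
  have hhN : (0:ℝ) ≤ hN Δ y := by positivity
  have hgN : (0:ℝ) ≤ gN y := by positivity
  have hs2 : s + y ≤ e * w := by nlinarith only [he0, hs, hl1, hτ1, hee, hO, hl0]
  have hpz := hI.ann.pz_low hI.hσ0 hI.hσ (fun z => log2_pos.le.trans (hI.X_lo z)) hI.X_hi
      (n := n) hc2 (by rw [← hτ]; exact hc1) (m := y ^ 8 - y) k s (by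
        rw [← hμ, ← hτ, ← hνd]
        have e2 : τ / 32 * (w * μ / 2) ≤ τ / 32 * Real.sqrt (n * ν) :=
          mul_le_mul_of_nonneg_left hsq (by positivity)
        have e3 : e * w ≤ τ * (w * μ) / 1000000 := by
          have : e * w ≤ (τ / 2000000) * w := mul_le_mul_of_nonneg_right hee hw0.le
          have h5 : τ * w ≤ τ * w * (2 * μ) := le_mul_of_one_le_right (by positivity) (by linarith)
          nlinarith only [this, h5]
        have e4 : 0 < τ * (w * μ) := by positivity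
        nlinarith only [hn, hs2, e2, e3, e4])
  rw [← hτ] at hpz
  exact hpz

end Pool.Agent.W_MP_17e8f0_pr
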