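import Pool.Agent.W_MP_17e8f0_pr.Phase1

namespace Pool.Agent.W_MP_17e8f0_pr

open Finset

variable {H V : Type*} [Fintype H] [DecidableEq H] [DecidableEq V] {K : ℕ}

/-- transition matrix of the non-backtracking walk -/
noncomputable def PM (vt : H → V) (η : Equiv.Perm H) : Matrix H H ℝ :=
  fun x y => if y ∈ ch vt (η x) then ((ch vt (η x)).card : ℝ)⁻¹ else 0

variable {vt : H → V} {c : H → Fin K} {B : Fin K → Fin K → ℕ} {M : ℕ} {Kc : ℝ}

lemma card_ch_eq {y z : H} (h : vt y = vt z) : (ch vt y).card = (ch vt z).card := by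
  unfold ch
  rw [card_erase_of_mem (by simp), card_erase_of_mem (by simp)]
  rw [h]

lemma PM_nonneg (η : Equiv.Perm H) (x y : H) : 0 ≤ PM vt η x y := by
  unfold PM; split_ifs <;> positivity

lemma PM_pow_nonneg (η : Equiv.Perm H) (n : ℕ) (x y : H) : 0 ≤ (PM vt η ^ n) x y := by
  induction n generalizing x y with
  | zero => rw [pow_zero, Matrix.one_apply]; split_ifs <;> norm_num
  | succ n ih =>
    rw [pow_succ, Matrix.mul_apply]
    exact sum_nonneg fun v _ => mul_nonneg (ih _ _) (PM_nonneg _ _ _)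

lemma PM_rev {η : Equiv.Perm H} (hη : ∀ x, η (η x) = x) (x y : H) :
    PM vt η x y = PM vt η (η y) (η x) := by
  unfold PM
  rw [hη y]
  by_cases h : vt y = vt (η x)
  · rw [card_ch_eq h.symm]
    simp only [mem_ch, h, and_true]
    by_cases hxy : y = η x
    · simp [hxy]
    · rw [if_pos hxy, if_pos (Ne.symm hxy)]
  · rw [if_neg (fun h' => h (mem_ch.1 h').2), if_neg (fun h' => h (mem_ch.1 h').2.symm)]

lemma PM_pow_rev {η : Equiv.Perm H} (hη : ∀ x, η (η x) = x) (n : ℕ) (x y : H) :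
    (PM vt η ^ n) x y = (PM vt η ^ n) (η y) (η x) := by
  induction n generalizing x y with
  | zero =>
    simp only [pow_zero, Matrix.one_apply]
    by_cases h : x = y
    · rw [if_pos h, if_pos (by rw [h])]
    · rw [if_neg h, if_neg (fun h' => h (η.injective h').symm)]
  | succ n ih =>
    rw [pow_succ' (PM vt η), Matrix.mul_apply, ← pow_succ', pow_succ, Matrix.mul_apply]
    rw [← Equiv.sum_comp η]
    refine sum_congr rfl fun v _ => ?_
    rw [PM_rev hη x (η v), hη v, ih (η v) y, hη v, mul_comm]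

lemma PM_pow_succ (η : Equiv.Perm H) (n : ℕ) (x y : H) :
    (PM vt η ^ (n + 1)) x y
      = ∑ v ∈ ch vt (η x), ((ch vt (η x)).card : ℝ)⁻¹ * (PM vt η ^ n) v y := by
  rw [pow_succ', Matrix.mul_apply]
  unfold PM
  simp only [ite_mul, zero_mul]
  rw [← sum_filter]
  congr 1
  ext v; simp

/-- two sided functional -/
noncomputable def J2 (vt : H → V) (A Bf : Finset H) (s : H → ℝ) (d : H → ℕ)
    (η : Equiv.Perm H) : ℝ :=
  ∑ u ∈ A, ∑ z ∈ Bf, Real.exp (-s u) * Real.exp (-s z) * (PM vt η ^ (d u + d z)) u (η z)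

lemma J2_symm {η : Equiv.Perm H} (hη : ∀ x, η (η x) = x) (A Bf : Finset H) (s : H → ℝ)
    (d : H → ℕ) : J2 vt A Bf s d η = J2 vt Bf A s d η := by
  unfold J2
  rw [sum_comm]
  refine sum_congr rfl fun z _ => sum_congr rfl fun u _ => ?_
  rw [PM_pow_rev hη, hη, add_comm (d u), mul_comm (Real.exp (-s u))]

lemma J2_mono {A A' Bf Bf' : Finset H} (hA : A' ⊆ A) (hB : Bf' ⊆ Bf) (s : H → ℝ)
    (d : H → ℕ) (η : Equiv.Perm H) : J2 vt A' Bf' s d η ≤ J2 vt A Bf s d η := by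
  unfold J2
  have h : ∀ u z, 0 ≤ Real.exp (-s u) * Real.exp (-s z) * (PM vt η ^ (d u + d z)) u (η z) :=
    fun u z => mul_nonneg (by positivity) (PM_pow_nonneg _ _ _ _)
  calc _ ≤ ∑ u ∈ A', ∑ z ∈ Bf, Real.exp (-s u) * Real.exp (-s z) *
        (PM vt η ^ (d u + d z)) u (η z) :=
        sum_le_sum fun u _ => sum_le_sum_of_subset_of_nonneg hB fun z _ _ => h u z
    _ ≤ _ := sum_le_sum_of_subset_of_nonneg hA fun u _ _ => sum_nonneg fun z _ => h u z

lemma J2_fresh {S R A Bf : Finset H} {s : H → ℝ} {d : H → ℕ} (hV : Val vt S R A Bf)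
    {η : Equiv.Perm H} {u : H} (hu : u ∈ A) (hd : 1 ≤ d u) (hz : η u ∉ R)
    (hch : (ch vt (η u)).Nonempty) :
    J2 vt (A.erase u ∪ ch vt (η u)) Bf (ns vt s u (η u)) (nd vt d u (η u)) η
      = J2 vt A Bf s d η := by
  unfold J2
  have e1 : ∀ y, ∑ z ∈ Bf, Real.exp (-ns vt s u (η u) y) * Real.exp (-ns vt s u (η u) z) *
      (PM vt η ^ (nd vt d u (η u) y + nd vt d u (η u) z)) y (η z)
      = ∑ z ∈ Bf, Real.exp (-ns vt s u (η u) y) * Real.exp (-s z) *
      (PM vt η ^ (nd vt d u (η u) y + d z)) y (η z) := by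
    intro y
    refine sum_congr rfl fun z hzB => ?_
    obtain ⟨a1, a2⟩ := ns_of_mem (u := u) hV hz (hV.BR hzB) s d
    rw [a1, a2]
  rw [sum_congr rfl fun y _ => e1 y]
  have e2 := sum_fresh hV hu hz s d (s u + Real.log (ch vt (η u)).card) (d u - 1)
    (fun y a b => ∑ z ∈ Bf, Real.exp (-a) * Real.exp (-s z) * (PM vt η ^ (b + d z)) y (η z))
  unfold ns nd
  rw [e2]
  have hc0 : ((ch vt (η u)).card : ℝ) ≠ 0 := by exact_mod_cast hch.card_pos.ne'
  have e3 : ∑ z ∈ Bf, Real.exp (-s u) * Real.exp (-s z) * (PM vt η ^ (d u + d z)) u (η z)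
      = ∑ y ∈ ch vt (η u), ∑ z ∈ Bf, Real.exp (-(s u + Real.log (ch vt (η u)).card)) *
        Real.exp (-s z) * (PM vt η ^ (d u - 1 + d z)) y (η z) := by
    rw [sum_comm]
    refine sum_congr rfl fun z _ => ?_
    have : d u + d z = (d u - 1 + d z) + 1 := by omega
    rw [this, PM_pow_succ, mul_sum]
    refine sum_congr rfl fun y _ => ?_
    rw [neg_add, Real.exp_add, Real.exp_neg (Real.log _), Real.exp_log (by exact_mod_cast hch.card_pos)]
    ring
  rw [e3]; ring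

variable (vt c B M)

/-- annealed operator iterated `n` times -/
noncomputable def An : ℕ → (Fin K → ℝ → ℝ) → Fin K → ℝ → ℝ
  | 0, f => f
  | n + 1, f => fun k s => ∑ z : H, q B M k (c z) * An n f (c z) (s + Real.log (ch vt z).card)

variable {vt c B M}

lemma An_mono {f g : Fin K → ℝ → ℝ} (h : ∀ k s, f k s ≤ g k s) (n : ℕ) (k : Fin K) (s : ℝ) :
    An vt c B M n f k s ≤ An vt c B M n g k s := by
  induction n generalizing k s with
  | zero => exact h k s
  | succ n ih =>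
    exact sum_le_sum fun z _ => mul_le_mul_of_nonneg_left (ih _ _) (q_nonneg _ _ _)

lemma An_const (hsq : ∀ k, ∑ z, q B M k (c z) = 1) (a : ℝ) (n : ℕ) (k : Fin K) (s : ℝ) :
    An vt c B M n (fun _ _ => a) k s = a := by
  induction n generalizing k s with
  | zero => rfl
  | succ n ih =>
    show ∑ z : H, q B M k (c z) * An vt c B M n (fun _ _ => a) (c z) (s + Real.log (ch vt z).card) = a
    simp only [ih]
    rw [← sum_mul, hsq, one_mul]

lemma An_nonneg {f : Fin K → ℝ → ℝ} (h : ∀ k s, 0 ≤ f k s) (n : ℕ) (k : Fin K) (s : ℝ) :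
    0 ≤ An vt c B M n f k s := by
  induction n generalizing k s with
  | zero => exact h k s
  | succ n ih => exact sum_nonneg fun z _ => mul_nonneg (q_nonneg _ _ _) (ih _ _)

lemma An_le (hsq : ∀ k, ∑ z, q B M k (c z) = 1) {f : Fin K → ℝ → ℝ} {a : ℝ}
    (h : ∀ k s, f k s ≤ a) (n : ℕ) (k : Fin K) (s : ℝ) :
    An vt c B M n f k s ≤ a := by
  rw [← An_const (vt := vt) hsq a n k s]
  exact An_mono h n k s

lemma An_sum {ι : Type*} (t : Finset ι) (a : ι → ℝ) (f : ι → Fin K → ℝ → ℝ) (n : ℕ) (k : Fin K)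
    (s : ℝ) :
    An vt c B M n (fun k s => ∑ i ∈ t, a i * f i k s) k s
      = ∑ i ∈ t, a i * An vt c B M n (f i) k s := by
  induction n generalizing k s with
  | zero => rfl
  | succ n ih =>
    show ∑ z : H, q B M k (c z) * An vt c B M n _ (c z) (s + Real.log (ch vt z).card) = _
    simp only [ih, mul_sum]
    rw [sum_comm]
    refine sum_congr rfl fun i _ => ?_
    show _ = a i * ∑ z : H, q B M k (c z) * An vt c B M n (f i) (c z) (s + Real.log (ch vt z).card)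
    rw [mul_sum]
    exact sum_congr rfl fun z _ => by ring

lemma An_add (f g : Fin K → ℝ → ℝ) (n : ℕ) (k : Fin K) (s : ℝ) :
    An vt c B M n (fun k s => f k s + g k s) k s = An vt c B M n f k s + An vt c B M n g k s := by
  induction n generalizing k s with
  | zero => rfl
  | succ n ih =>
    show ∑ z : H, q B M k (c z) * An vt c B M n _ (c z) (s + Real.log (ch vt z).card) = _
    simp only [ih, mul_add, sum_add_distrib]
    rfl

lemma An_smul (a : ℝ) (f : Fin K → ℝ → ℝ) (n : ℕ) (k : Fin K) (s : ℝ) :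
    An vt c B M n (fun k s => a * f k s) k s = a * An vt c B M n f k s := by
  induction n generalizing k s with
  | zero => rfl
  | succ n ih =>
    show ∑ z : H, q B M k (c z) * An vt c B M n _ (c z) (s + Real.log (ch vt z).card)
      = a * ∑ z : H, q B M k (c z) * An vt c B M n f (c z) (s + Real.log (ch vt z).card)
    simp only [ih, mul_sum]
    exact sum_congr rfl fun z _ => by ring

lemma An_comm (F : Fin K → ℝ → Fin K → ℝ → ℝ) (n n' : ℕ) (k k' : Fin K) (s s' : ℝ) :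
    An vt c B M n (fun k₁ s₁ => An vt c B M n' (fun k₂ s₂ => F k₁ s₁ k₂ s₂) k' s') k s
      = An vt c B M n' (fun k₂ s₂ => An vt c B M n (fun k₁ s₁ => F k₁ s₁ k₂ s₂) k s) k' s' := by
  induction n generalizing k s with
  | zero => rfl
  | succ n ih =>
    show ∑ z : H, q B M k (c z) * An vt c B M n _ (c z) (s + Real.log (ch vt z).card) = _
    simp only [ih]
    rw [← An_sum]
    rfl

variable (vt c B M)

/-- two-sided value function -/
noncomputable def v2 (F : Fin K → ℝ → Fin K → ℝ → ℝ) (k : Fin K) (s : ℝ) (n : ℕ) (k' : Fin K)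
    (s' : ℝ) (n' : ℕ) : ℝ :=
  An vt c B M n (fun k₁ s₁ => An vt c B M n' (fun k₂ s₂ => F k₁ s₁ k₂ s₂) k' s') k s

/-- two-sided potential -/
noncomputable def Φ2 (F : Fin K → ℝ → Fin K → ℝ → ℝ) (A Bf : Finset H) (s : H → ℝ)
    (d : H → ℕ) : ℝ :=
  ∑ u ∈ A, ∑ z ∈ Bf, Real.exp (-s u) * Real.exp (-s z) *
    v2 vt c B M F (c u) (s u) (d u) (c z) (s z) (d z)

variable {vt c B M}

lemma v2_symm (F : Fin K → ℝ → Fin K → ℝ → ℝ) (k : Fin K) (s : ℝ) (n : ℕ) (k' : Fin K)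
    (s' : ℝ) (n' : ℕ) :
    v2 vt c B M F k s n k' s' n' = v2 vt c B M (fun a b x y => F x y a b) k' s' n' k s n :=
  An_comm F n n' k k' s s'

lemma Φ2_symm (F : Fin K → ℝ → Fin K → ℝ → ℝ) (A Bf : Finset H) (s : H → ℝ)
    (d : H → ℕ) :
    Φ2 vt c B M F A Bf s d = Φ2 vt c B M (fun a b x y => F x y a b) Bf A s d := by
  unfold Φ2
  rw [sum_comm]
  refine sum_congr rfl fun z _ => sum_congr rfl fun u _ => ?_
  rw [v2_symm, mul_comm (Real.exp (-s u))]

lemma v2_nonneg {F : Fin K → ℝ → Fin K → ℝ → ℝ} (h : ∀ a b x y, 0 ≤ F a b x y) (k : Fin K) (s : ℝ)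
    (n : ℕ) (k' : Fin K) (s' : ℝ) (n' : ℕ) : 0 ≤ v2 vt c B M F k s n k' s' n' :=
  An_nonneg (fun _ _ => An_nonneg (fun _ _ => h _ _ _ _) _ _ _) _ _ _

lemma v2_le (hsq : ∀ k, ∑ z, q B M k (c z) = 1) {F : Fin K → ℝ → Fin K → ℝ → ℝ}
    (h : ∀ a b x y, F a b x y ≤ Kc) (k : Fin K) (s : ℝ)
    (n : ℕ) (k' : Fin K) (s' : ℝ) (n' : ℕ) : v2 vt c B M F k s n k' s' n' ≤ Kc :=
  An_le hsq (fun _ _ => An_le hsq (fun _ _ => h _ _ _ _) _ _ _) _ _ _

lemma v2_succ (F : Fin K → ℝ → Fin K → ℝ → ℝ) (k : Fin K) (s : ℝ) (n : ℕ) (k' : Fin K)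
    (s' : ℝ) (n' : ℕ) :
    v2 vt c B M F k s (n + 1) k' s' n'
      = ∑ z : H, q B M k (c z) * v2 vt c B M F (c z) (s + Real.log (ch vt z).card) n k' s' n' :=
  rfl

lemma wsum_le {A : Finset H} {s : H → ℝ} {t : H → ℝ} (hm : mass A s ≤ 1) (hKc : 0 ≤ Kc)
    (ht : ∀ z, t z ≤ Kc) : ∑ z ∈ A, Real.exp (-s z) * t z ≤ Kc := by
  calc _ ≤ ∑ z ∈ A, Real.exp (-s z) * Kc :=
        sum_le_sum fun z _ => mul_le_mul_of_nonneg_left (ht z) (Real.exp_pos _).le
    _ = mass A s * Kc := by rw [mass, sum_mul]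
    _ ≤ 1 * Kc := mul_le_mul_of_nonneg_right hm hKc
    _ = Kc := one_mul _

lemma Φ2_fresh (hcv : ∀ x y, vt x = vt y → c x = c y) (hsq : ∀ k, ∑ z, q B M k (c z) = 1)
    (h2 : ∀ z : H, 2 ≤ (ch vt z).card) (hKc : 0 ≤ Kc)
    {F : Fin K → ℝ → Fin K → ℝ → ℝ} (hF0 : ∀ a b x y, 0 ≤ F a b x y)
    (hF1 : ∀ a b x y, F a b x y ≤ Kc)
    {S R A Bf : Finset H} {s : H → ℝ} {d : H → ℕ} (hV : Val vt S R A Bf)
    (hmB : mass Bf s ≤ 1) {u : H} (hu : u ∈ A) (hd : 1 ≤ d u) :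
    ∃ ell : H → ℝ, (∀ z, 0 ≤ ell z) ∧ (∀ z, ell z ≤ Kc) ∧
        ∀ z ∉ R, Φ2 vt c B M F (A.erase u ∪ ch vt z) Bf (ns vt s u z) (nd vt d u z)
          = Φ2 vt c B M F A Bf s d
            + Real.exp (-s u) * (ell z - ∑ z', q B M (c u) (c z') * ell z') := by
  refine ⟨fun z => ∑ z' ∈ Bf, Real.exp (-s z') *
    v2 vt c B M F (c z) (s u + Real.log (ch vt z).card) (d u - 1) (c z') (s z') (d z'),
    ?_, ?_, ?_⟩
  · intro z
    exact sum_nonneg fun z' _ => mul_nonneg (Real.exp_pos _).le (v2_nonneg hF0 _ _ _ _ _ _)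
  · intro z
    exact wsum_le hmB hKc fun z' => v2_le hsq hF1 _ _ _ _ _ _
  · intro z hz
    have hch : (ch vt z).Nonempty := card_pos.1 (by have := h2 z; omega)
    unfold Φ2
    have e1 : ∀ y, ∑ z' ∈ Bf, Real.exp (-ns vt s u z y) * Real.exp (-ns vt s u z z') *
        v2 vt c B M F (c y) (ns vt s u z y) (nd vt d u z y) (c z') (ns vt s u z z') (nd vt d u z z')
        = ∑ z' ∈ Bf, Real.exp (-ns vt s u z y) * Real.exp (-s z') *
        v2 vt c B M F (c y) (ns vt s u z y) (nd vt d u z y) (c z') (s z') (d z') := by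
      intro y
      refine sum_congr rfl fun z' hzB => ?_
      obtain ⟨a1, a2⟩ := ns_of_mem (u := u) hV hz (hV.BR hzB) s d
      rw [a1, a2]
    rw [sum_congr rfl fun y _ => e1 y]
    have e2 := sum_fresh hV hu hz s d (s u + Real.log (ch vt z).card) (d u - 1)
      (fun y a b => ∑ z' ∈ Bf, Real.exp (-a) * Real.exp (-s z') *
        v2 vt c B M F (c y) a b (c z') (s z') (d z'))
    unfold ns nd
    rw [e2]
    have hc0 : ((ch vt z).card : ℝ) ≠ 0 := by exact_mod_cast hch.card_pos.ne'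
    have e3 : ∑ y ∈ ch vt z, ∑ z' ∈ Bf, Real.exp (-(s u + Real.log (ch vt z).card)) *
          Real.exp (-s z') * v2 vt c B M F (c y) (s u + Real.log (ch vt z).card) (d u - 1) (c z')
          (s z') (d z')
        = Real.exp (-s u) * ∑ z' ∈ Bf, Real.exp (-s z') *
          v2 vt c B M F (c z) (s u + Real.log (ch vt z).card) (d u - 1) (c z') (s z') (d z') := by
      rw [sum_congr rfl (g := fun _ => ∑ z' ∈ Bf, Real.exp (-(s u + Real.log (ch vt z).card)) *
          Real.exp (-s z') * v2 vt c B M F (c z) (s u + Real.log (ch vt z).card) (d u - 1) (c z')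
          (s z') (d z')), sum_const, nsmul_eq_mul, mul_sum, mul_sum]
      · refine sum_congr rfl fun z' _ => ?_
        rw [neg_add, Real.exp_add, Real.exp_neg (Real.log _),
          Real.exp_log (by exact_mod_cast hch.card_pos)]
        field_simp
      · intro y hy
        rw [hcv y z (mem_ch.1 hy).2]
    have e4 : ∑ z' ∈ Bf, Real.exp (-s u) * Real.exp (-s z') *
          v2 vt c B M F (c u) (s u) (d u) (c z') (s z') (d z')
        = Real.exp (-s u) * ∑ z₁, q B M (c u) (c z₁) * ∑ z' ∈ Bf, Real.exp (-s z') *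
          v2 vt c B M F (c z₁) (s u + Real.log (ch vt z₁).card) (d u - 1) (c z') (s z') (d z') := by
      obtain ⟨n, hn⟩ : ∃ n, d u = n + 1 := ⟨d u - 1, by omega⟩
      rw [hn]
      simp only [Nat.add_sub_cancel, v2_succ, mul_sum]
      rw [sum_comm]
      refine sum_congr rfl fun z₁ _ => sum_congr rfl fun z' _ => by ring
    rw [e3, e4]; ring

lemma Φ2_coll (hsq : ∀ k, ∑ z, q B M k (c z) = 1) (hKc : 0 ≤ Kc)
    {F : Fin K → ℝ → Fin K → ℝ → ℝ} (hF0 : ∀ a b x y, 0 ≤ F a b x y)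
    (hF1 : ∀ a b x y, F a b x y ≤ Kc)
    {S R A Bf : Finset H} {s : H → ℝ} {d : H → ℕ} (hV : Val vt S R A Bf)
    (hmA : mass A s ≤ 1) (hmB : mass Bf s ≤ 1) {u : H} (hu : u ∈ A) (z : H) :
    Φ2 vt c B M F A Bf s d - Kc * (Real.exp (-s u) + if z ∈ A ∪ Bf then Real.exp (-s z) else 0)
        ≤ Φ2 vt c B M F ((A.erase u).erase z) (Bf.erase z) s d := by
  set t : H → H → ℝ := fun a b => Real.exp (-s a) * Real.exp (-s b) *
    v2 vt c B M F (c a) (s a) (d a) (c b) (s b) (d b) with ht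
  have ht0 : ∀ a b, 0 ≤ t a b := fun a b =>
    mul_nonneg (by positivity) (v2_nonneg hF0 _ _ _ _ _ _)
  have hrow : ∀ a, ∑ b ∈ Bf, t a b ≤ Kc * Real.exp (-s a) := by
    intro a
    have h1 : ∑ b ∈ Bf, t a b = Real.exp (-s a) * ∑ b ∈ Bf, Real.exp (-s b) *
        v2 vt c B M F (c a) (s a) (d a) (c b) (s b) (d b) := by
      rw [mul_sum]; exact sum_congr rfl fun b _ => by simp only [ht]; ring
    rw [h1, mul_comm Kc]
    exact mul_le_mul_of_nonneg_left (wsum_le hmB hKc fun b => v2_le hsq hF1 _ _ _ _ _ _)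
      (Real.exp_pos _).le
  have hcol : ∀ b, ∑ a ∈ A, t a b ≤ Kc * Real.exp (-s b) := by
    intro b
    have h1 : ∑ a ∈ A, t a b = Real.exp (-s b) * ∑ a ∈ A, Real.exp (-s a) *
        v2 vt c B M F (c a) (s a) (d a) (c b) (s b) (d b) := by
      rw [mul_sum]; exact sum_congr rfl fun a _ => by simp only [ht]; ring
    rw [h1, mul_comm Kc]
    exact mul_le_mul_of_nonneg_left (wsum_le hmA hKc fun a => v2_le hsq hF1 _ _ _ _ _ _)
      (Real.exp_pos _).le
  have hΦ : ∀ A' B', Φ2 vt c B M F A' B' s d = ∑ a ∈ A', ∑ b ∈ B', t a b := fun _ _ => rfl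
  rw [hΦ, hΦ]
  have hu' : ∑ a ∈ A, ∑ b ∈ Bf, t a b = ∑ a ∈ A.erase u, ∑ b ∈ Bf, t a b + ∑ b ∈ Bf, t u b :=
    (sum_erase_add A _ hu).symm
  by_cases hzA : z ∈ A
  · have hzB : z ∉ Bf := disjoint_left.1 hV.AB hzA
    rw [erase_eq_of_notMem hzB, if_pos (mem_union_left _ hzA)]
    by_cases hzu : z = u
    · subst hzu
      rw [erase_eq_of_notMem (notMem_erase z A)]
      have := hrow z
      have := Real.exp_pos (-s z)
      nlinarith
    · have hz' : ∑ a ∈ A.erase u, ∑ b ∈ Bf, t a b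
          = ∑ a ∈ (A.erase u).erase z, ∑ b ∈ Bf, t a b + ∑ b ∈ Bf, t z b :=
        (sum_erase_add _ _ (mem_erase.2 ⟨hzu, hzA⟩)).symm
      have := hrow u
      have := hrow z
      linarith
  · rw [erase_eq_of_notMem (fun h => hzA (mem_of_mem_erase h))]
    by_cases hzB : z ∈ Bf
    · rw [if_pos (mem_union_right _ hzB)]
      have h3 : ∑ a ∈ A.erase u, ∑ b ∈ Bf, t a b
          = ∑ a ∈ A.erase u, ∑ b ∈ Bf.erase z, t a b + ∑ a ∈ A.erase u, t a z := by
        rw [← sum_add_distrib]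
        exact sum_congr rfl fun a _ => (sum_erase_add Bf _ hzB).symm
      have h4 : ∑ a ∈ A.erase u, t a z ≤ ∑ a ∈ A, t a z :=
        sum_le_sum_of_subset_of_nonneg (erase_subset _ _) fun a _ _ => ht0 a z
      have := hrow u
      have := hcol z
      linarith
    · rw [erase_eq_of_notMem hzB, if_neg (by rw [mem_union]; tauto)]
      have := hrow u
      linarith

/-- the two-sided functional as an instance -/
noncomputable def Func2 (hcv : ∀ x y, vt x = vt y → c x = c y)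
    (hsq : ∀ k, ∑ z, q B M k (c z) = 1)
    (h2 : ∀ z : H, 2 ≤ (ch vt z).card) (hKc : 0 ≤ Kc)
    (F : Fin K → ℝ → Fin K → ℝ → ℝ) (hF0 : ∀ a b x y, 0 ≤ F a b x y)
    (hF1 : ∀ a b x y, F a b x y ≤ Kc) (a0 : ℝ) (ha0 : 0 ≤ a0) : Func vt c B M Kc where
  J := fun A Bf s d η => a0 * J2 vt A Bf s d η
  Φ := Φ2 vt c B M F
  J_fresh := fun _ _ _ _ _ _ hV η _ u hu hd hz => by
    rw [J2_fresh hV hu hd hz (card_pos.1 (by have := h2 (η u); omega))]
  J_coll := fun _ _ _ _ _ _ _ _ _ _ _ _ =>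
    mul_le_mul_of_nonneg_left
      (J2_mono ((erase_subset _ _).trans (erase_subset _ _)) (erase_subset _ _) _ _ _) ha0
  Φ_fresh := fun _ _ _ _ _ _ hV _ hmB _ hu hd =>
    Φ2_fresh hcv hsq h2 hKc hF0 hF1 hV hmB hu hd
  Φ_coll := fun _ _ _ _ _ _ hV hmA hmB _ hu z => Φ2_coll hsq hKc hF0 hF1 hV hmA hmB hu z

end Pool.Agent.W_MP_17e8f0_pr
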